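import Mathlib

section

/-!
The 2-seminorm of a positive functional on a C*-algebra, and tracial algebras with complete balls.
-/

namespace Pool.Agent.Lib.MP_f5929e_an

open scoped ComplexOrder InnerProductSpace
open Filter Topology

variable {𝔸 : Type*} [CStarAlgebra 𝔸] [PartialOrder 𝔸] [StarOrderedRing 𝔸]

/-- the 2-seminorm `x ↦ f (x* x)^(1/2)` -/
noncomputable def n2 (f : 𝔸 →ₚ[ℂ] ℂ) (x : 𝔸) : ℝ := ‖f.toPreGNS x‖

variable {f : 𝔸 →ₚ[ℂ] ℂ}

theorem n2_nonneg (x : 𝔸) : 0 ≤ n2 f x := norm_nonneg _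

theorem n2_sq (x : 𝔸) : ((n2 f x : ℂ)) ^ 2 = f (star x * x) := by
  have := f.preGNS_norm_sq (f.toPreGNS x)
  simpa [n2] using this

theorem n2_sq_re (x : 𝔸) : (n2 f x) ^ 2 = (f (star x * x)).re := by
  rw [← n2_sq x, ← Complex.ofReal_pow, Complex.ofReal_re]

theorem n2_add_le (x y : 𝔸) : n2 f (x + y) ≤ n2 f x + n2 f y := by
  unfold n2; rw [map_add]; exact norm_add_le _ _

theorem n2_sub_le (x y : 𝔸) : n2 f (x - y) ≤ n2 f x + n2 f y := by
  unfold n2; rw [map_sub]; exact norm_sub_le _ _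

@[simp] theorem n2_zero : n2 f 0 = 0 := by
  unfold n2; rw [map_zero, norm_zero]

@[simp] theorem n2_neg (x : 𝔸) : n2 f (-x) = n2 f x := by
  unfold n2; rw [map_neg, norm_neg]

theorem n2_sub_comm (x y : 𝔸) : n2 f (x - y) = n2 f (y - x) := by
  rw [← n2_neg, neg_sub]

theorem n2_smul (c : ℂ) (x : 𝔸) : n2 f (c • x) = ‖c‖ * n2 f x := by
  unfold n2; rw [map_smul, norm_smul]

theorem n2_sub_le_add (x y z : 𝔸) : n2 f (x - z) ≤ n2 f (x - y) + n2 f (y - z) := by
  have : x - z = (x - y) + (y - z) := by abel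
  rw [this]; exact n2_add_le _ _

theorem n2_le_add_sub (x y : 𝔸) : n2 f x ≤ n2 f y + n2 f (x - y) := by
  have : x = y + (x - y) := by abel
  conv_lhs => rw [this]
  exact n2_add_le _ _

theorem n2_sum_le {ι : Type*} (s : Finset ι) (x : ι → 𝔸) :
    n2 f (∑ i ∈ s, x i) ≤ ∑ i ∈ s, n2 f (x i) := by
  unfold n2; rw [map_sum]; exact norm_sum_le _ _

/-- parallelogram law -/
theorem n2_parallelogram (x y : 𝔸) :
    n2 f (x + y) ^ 2 + n2 f (x - y) ^ 2 = 2 * (n2 f x ^ 2 + n2 f y ^ 2) := by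
  unfold n2; rw [map_add, map_sub]
  have := parallelogram_law_with_norm ℂ (f.toPreGNS x) (f.toPreGNS y)
  nlinarith [this]

theorem f_star (x : 𝔸) : f (star x) = star (f x) := map_star f x

theorem norm_f_star_mul_le (x y : 𝔸) : ‖f (star x * y)‖ ≤ n2 f x * n2 f y := by
  have := norm_inner_le_norm (𝕜 := ℂ) (f.toPreGNS x) (f.toPreGNS y)
  simpa [n2, f.preGNS_inner_def] using this

theorem norm_f_mul_le (x y : 𝔸) : ‖f (x * y)‖ ≤ n2 f (star x) * n2 f y := by
  have := norm_f_star_mul_le (f := f) (star x) y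
  simpa using this

theorem n2_one (h1 : f 1 = 1) : n2 f 1 = 1 := by
  have h := n2_sq_re (f := f) 1
  rw [star_one, one_mul, h1, Complex.one_re] at h
  nlinarith [n2_nonneg (f := f) 1]

theorem n2_mul_le (x y : 𝔸) : n2 f (x * y) ≤ ‖x‖ * n2 f y := by
  have h := (f.leftMulMapPreGNS x).le_opNorm (f.toPreGNS y)
  have h2 : ‖f.leftMulMapPreGNS x‖ ≤ ‖x‖ := by
    unfold PositiveLinearMap.leftMulMapPreGNS
    exact LinearMap.mkContinuous_norm_le _ (norm_nonneg _) _
  have h3 : f.leftMulMapPreGNS x (f.toPreGNS y) = f.toPreGNS (x * y) := by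
    simp [PositiveLinearMap.leftMulMapPreGNS]
  rw [h3] at h
  exact h.trans (mul_le_mul_of_nonneg_right h2 (norm_nonneg _))

theorem n2_le_norm (h1 : f 1 = 1) (x : 𝔸) : n2 f x ≤ ‖x‖ := by
  have := n2_mul_le (f := f) x 1
  rwa [mul_one, n2_one h1, mul_one] at this

theorem norm_f_le (h1 : f 1 = 1) (x : 𝔸) : ‖f x‖ ≤ n2 f x := by
  have := norm_f_star_mul_le (f := f) 1 x
  rwa [star_one, one_mul, n2_one h1, one_mul] at this

omit [StarOrderedRing 𝔸] in
theorem f_nonneg {x : 𝔸} (hx : 0 ≤ x) : 0 ≤ f x := f.map_nonneg hx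

/-- convergence in 2-norm -/
def T2 (f : 𝔸 →ₚ[ℂ] ℂ) {ι : Type*} (l : Filter ι) (u : ι → 𝔸) (x : 𝔸) : Prop :=
  Tendsto (fun i => n2 f (u i - x)) l (𝓝 0)

/-- `f` is a faithful trace on the C*-subalgebra `M`, and the balls of `M` are complete in the
2-norm. -/
structure TrAlg (f : 𝔸 →ₚ[ℂ] ℂ) (M : StarSubalgebra ℂ 𝔸) : Prop where
  one : f 1 = 1
  comm : ∀ x ∈ M, ∀ y ∈ M, f (x * y) = f (y * x)
  faithful : ∀ x ∈ M, n2 f x = 0 → x = 0
  closed : IsClosed (M : Set 𝔸)
  complete : ∀ (u : ℕ → 𝔸) (C : ℝ), (∀ n, u n ∈ M) → (∀ n, ‖u n‖ ≤ C) →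
    (∀ ε > 0, ∃ n₀, ∀ m ≥ n₀, ∀ n ≥ n₀, n2 f (u m - u n) ≤ ε) →
    ∃ x ∈ M, ‖x‖ ≤ C ∧ T2 f atTop u x

variable {M : StarSubalgebra ℂ 𝔸}

namespace TrAlg

theorem n2_star (hM : TrAlg f M) {x : 𝔸} (hx : x ∈ M) : n2 f (star x) = n2 f x := by
  have h1 := n2_sq_re (f := f) (star x)
  have h2 := n2_sq_re (f := f) x
  rw [star_star, hM.comm x hx _ (star_mem hx), ← h2] at h1
  exact (pow_left_inj₀ (n2_nonneg _) (n2_nonneg _) two_ne_zero).1 h1

theorem n2_mul_le' (hM : TrAlg f M) {x y : 𝔸} (hx : x ∈ M) (hy : y ∈ M) :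
    n2 f (x * y) ≤ n2 f x * ‖y‖ := by
  rw [← hM.n2_star (mul_mem hx hy), star_mul, mul_comm (n2 f x)]
  refine (n2_mul_le _ _).trans ?_
  rw [norm_star, hM.n2_star hx]

theorem eq_of_n2 (hM : TrAlg f M) {x y : 𝔸} (hx : x ∈ M) (hy : y ∈ M) (h : n2 f (x - y) = 0) :
    x = y := sub_eq_zero.1 (hM.faithful _ (sub_mem hx hy) h)

theorem cfc_mem (hM : TrAlg f M) {x : 𝔸} (hx : x ∈ M) (g : ℝ → ℝ) : cfc g x ∈ M := by
  have := hM.closed
  exact _root_.cfc_mem (𝕜' := ℂ) (s := M) (hs := this) g hx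

theorem mono (hM : TrAlg f M) {M' : StarSubalgebra ℂ 𝔸} (hle : M' ≤ M)
    (hcl : ∀ x ∈ M, ∀ u : ℕ → 𝔸, (∀ n, u n ∈ M') → T2 f atTop u x → x ∈ M') :
    TrAlg f M' where
  one := hM.one
  comm x hx y hy := hM.comm x (hle hx) y (hle hy)
  faithful x hx := hM.faithful x (hle hx)
  closed := by
    apply isClosed_of_closure_subset
    intro x hx
    obtain ⟨u, hu, hux⟩ := mem_closure_iff_seq_limit.1 hx
    have hxM : x ∈ M := hM.closed.mem_of_tendsto hux (Eventually.of_forall fun n => hle (hu n))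
    refine hcl x hxM u hu ?_
    have h1 : Tendsto (fun n => ‖u n - x‖) atTop (𝓝 0) := tendsto_iff_norm_sub_tendsto_zero.1 hux
    exact squeeze_zero (fun n => n2_nonneg _) (fun n => n2_le_norm hM.one _) h1
  complete u C hu hC hcau := by
    obtain ⟨x, hx, hxC, hux⟩ := hM.complete u C (fun n => hle (hu n)) hC hcau
    exact ⟨x, hcl x hx u hu hux, hxC, hux⟩

end TrAlg

section Lim

variable {ι : Type*} {l : Filter ι} {u v : ι → 𝔸} {x y : 𝔸}

theorem T2.add (hu : T2 f l u x) (hv : T2 f l v y) : T2 f l (fun i => u i + v i) (x + y) := by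
  have h : Tendsto (fun i => n2 f (u i - x) + n2 f (v i - y)) l (𝓝 0) := by
    simpa using Tendsto.add hu hv
  refine squeeze_zero (fun i => n2_nonneg _) (fun i => ?_) h
  have : u i + v i - (x + y) = (u i - x) + (v i - y) := by abel
  rw [this]; exact n2_add_le _ _

theorem T2.neg (hu : T2 f l u x) : T2 f l (fun i => -u i) (-x) := by
  have : (fun i => n2 f (-u i - -x)) = fun i => n2 f (u i - x) := by
    funext i
    rw [← n2_neg]; congr 1; abel
  unfold T2; rw [this]; exact hu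

theorem T2.sub (hu : T2 f l u x) (hv : T2 f l v y) : T2 f l (fun i => u i - v i) (x - y) := by
  simpa [sub_eq_add_neg] using hu.add hv.neg

theorem T2.smul (c : ℂ) (hu : T2 f l u x) : T2 f l (fun i => c • u i) (c • x) := by
  have : (fun i => n2 f (c • u i - c • x)) = fun i => ‖c‖ * n2 f (u i - x) := by
    funext i
    rw [← smul_sub, n2_smul]
  unfold T2; rw [this]
  simpa using Tendsto.const_mul ‖c‖ hu

theorem T2.const : T2 f l (fun _ => x) x := by
  unfold T2
  simp only [sub_self, n2_zero]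
  exact tendsto_const_nhds

theorem T2.sum {κ : Type*} (s : Finset κ) {u : κ → ι → 𝔸} {x : κ → 𝔸}
    (h : ∀ k ∈ s, T2 f l (u k) (x k)) :
    T2 f l (fun i => ∑ k ∈ s, u k i) (∑ k ∈ s, x k) := by
  classical
  induction s using Finset.induction_on with
  | empty => simpa using T2.const
  | insert a s ha ih =>
    simp only [Finset.sum_insert ha]
    exact (h a (Finset.mem_insert_self _ _)).add
      (ih fun k hk => h k (Finset.mem_insert_of_mem hk))

/-- left multiplication by a fixed element -/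
theorem T2.const_mul (c : 𝔸) (hu : T2 f l u x) : T2 f l (fun i => c * u i) (c * x) := by
  have h : Tendsto (fun i => ‖c‖ * n2 f (u i - x)) l (𝓝 0) := by
    simpa using Tendsto.const_mul ‖c‖ hu
  refine squeeze_zero (fun i => n2_nonneg _) (fun i => ?_) h
  rw [← mul_sub]; exact n2_mul_le _ _

theorem T2.tendsto_f (hM : f 1 = 1) (hu : T2 f l u x) : Tendsto (fun i => f (u i)) l (𝓝 (f x)) := by
  rw [tendsto_iff_norm_sub_tendsto_zero]
  refine squeeze_zero (fun i => norm_nonneg _) (fun i => ?_) hu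
  rw [← map_sub]; exact norm_f_le hM _

theorem T2.tendsto_n2 (hu : T2 f l u x) : Tendsto (fun i => n2 f (u i)) l (𝓝 (n2 f x)) := by
  rw [tendsto_iff_norm_sub_tendsto_zero]
  refine squeeze_zero (fun i => norm_nonneg _) (fun i => ?_) hu
  rw [Real.norm_eq_abs, abs_le]
  constructor
  · have := n2_le_add_sub (f := f) x (u i)
    rw [n2_sub_comm] at this; linarith
  · have := n2_le_add_sub (f := f) (u i) x
    linarith

theorem T2.congr' (hu : T2 f l u x) (h : ∀ i, u i = v i) : T2 f l v x := by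
  have : u = v := funext h
  rwa [← this]

theorem T2.of_le {b : ι → ℝ} (hb : Tendsto b l (𝓝 0)) (h : ∀ i, n2 f (u i - x) ≤ b i) :
    T2 f l u x := squeeze_zero (fun _ => n2_nonneg _) h hb

theorem T2.comp {κ : Type*} {l' : Filter κ} {φ : κ → ι} (hu : T2 f l u x) (hφ : Tendsto φ l' l) :
    T2 f l' (fun k => u (φ k)) x := by
  unfold T2 at hu ⊢
  exact hu.comp hφ

namespace TrAlg

theorem T2_mul_const (hM : TrAlg f M) (huM : ∀ i, u i ∈ M) (hx : x ∈ M) {c : 𝔸} (hc : c ∈ M)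
    (hu : T2 f l u x) : T2 f l (fun i => u i * c) (x * c) := by
  have h : Tendsto (fun i => n2 f (u i - x) * ‖c‖) l (𝓝 0) := by
    simpa using Tendsto.mul_const ‖c‖ hu
  refine squeeze_zero (fun i => n2_nonneg _) (fun i => ?_) h
  rw [← sub_mul]; exact hM.n2_mul_le' (sub_mem (huM i) hx) hc

theorem T2_mul (hM : TrAlg f M) (huM : ∀ i, u i ∈ M) (hx : x ∈ M)
    (hy : y ∈ M) {C : ℝ} (hC : ∀ i, ‖u i‖ ≤ C) (hu : T2 f l u x) (hv : T2 f l v y) :
    T2 f l (fun i => u i * v i) (x * y) := by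
  have h : Tendsto (fun i => C * n2 f (v i - y) + n2 f (u i - x) * ‖y‖) l (𝓝 0) := by
    simpa using (Tendsto.const_mul C hv).add (Tendsto.mul_const ‖y‖ hu)
  refine squeeze_zero (fun i => n2_nonneg _) (fun i => ?_) h
  have e : u i * v i - x * y = u i * (v i - y) + (u i - x) * y := by noncomm_ring
  rw [e]
  refine (n2_add_le _ _).trans (add_le_add ?_ ?_)
  · exact (n2_mul_le _ _).trans (mul_le_mul_of_nonneg_right (hC i) (n2_nonneg _))
  · exact hM.n2_mul_le' (sub_mem (huM i) hx) hy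

theorem T2_star (hM : TrAlg f M) (huM : ∀ i, u i ∈ M) (hx : x ∈ M) (hu : T2 f l u x) :
    T2 f l (fun i => star (u i)) (star x) := by
  have : (fun i => n2 f (star (u i) - star x)) = fun i => n2 f (u i - x) := by
    funext i
    rw [← star_sub, hM.n2_star (sub_mem (huM i) hx)]
  unfold T2; rw [this]; exact hu

theorem T2_unique [l.NeBot] (hM : TrAlg f M) (hx : x ∈ M) (hy : y ∈ M) (h1 : T2 f l u x)
    (h2 : T2 f l u y) : x = y := by
  apply hM.eq_of_n2 hx hy
  have h : Tendsto (fun i => n2 f (u i - x) + n2 f (u i - y)) l (𝓝 0) := by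
    simpa using Tendsto.add h1 h2
  have h3 : n2 f (x - y) ≤ 0 := by
    refine ge_of_tendsto h (Eventually.of_forall fun i => ?_)
    have : x - y = (u i - y) - (u i - x) := by abel
    rw [this]
    refine (n2_sub_le _ _).trans (le_of_eq (add_comm _ _))
  exact le_antisymm h3 (n2_nonneg _)

end TrAlg

end Lim

end Pool.Agent.Lib.MP_f5929e_an
end

section

/-!
Positive elements, monotone limits, support projections and polar decompositions in tracial
algebras.
-/

namespace Pool.Agent.Lib.MP_f5929e_an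

set_option linter.unusedSectionVars false

open scoped ComplexOrder InnerProductSpace
open Filter Topology

variable {𝔸 : Type*} [CStarAlgebra 𝔸] [PartialOrder 𝔸] [StarOrderedRing 𝔸]
variable {f : 𝔸 →ₚ[ℂ] ℂ} {M : StarSubalgebra ℂ 𝔸}

theorem cfc_of_id {x : 𝔸} (hx : IsSelfAdjoint x) : cfc (fun t : ℝ => t) x = x := cfc_id' ℝ x

theorem nonneg_of_mem_spectrum {x : 𝔸} (hx : 0 ≤ x) {t : ℝ} (ht : t ∈ spectrum ℝ x) : 0 ≤ t :=
  spectrum_nonneg_of_nonneg hx ht

theorem abs_le_of_mem_spectrum {x : 𝔸} {t : ℝ} (ht : t ∈ spectrum ℝ x) : |t| ≤ ‖x‖ := by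
  rcases subsingleton_or_nontrivial 𝔸 with h | h
  · simp [spectrum.of_subsingleton] at ht
  · have := spectrum.norm_le_norm_of_mem ht
    simpa using this

theorem le_one_of_mem_spectrum {x : 𝔸} (hx : 0 ≤ x) (hx1 : x ≤ 1) {t : ℝ}
    (ht : t ∈ spectrum ℝ x) : t ≤ 1 := by
  have h1 : ‖x‖ ≤ 1 := (CStarAlgebra.norm_le_one_iff_of_nonneg x hx).2 hx1
  exact (le_abs_self t).trans ((abs_le_of_mem_spectrum ht).trans h1)

theorem cfc_sa (g : ℝ → ℝ) (x : 𝔸) : IsSelfAdjoint (cfc g x) := cfc_predicate g x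

theorem cfc_mul_self_eq {x : 𝔸} (hx : 0 ≤ x) : cfc Real.sqrt x * cfc Real.sqrt x = x := by
  rw [← cfc_mul Real.sqrt Real.sqrt x]
  have h : Set.EqOn (fun t => Real.sqrt t * Real.sqrt t) (fun t => t) (spectrum ℝ x) := by
    intro t ht
    exact Real.mul_self_sqrt (nonneg_of_mem_spectrum hx ht)
  rw [cfc_congr h]
  exact cfc_of_id (IsSelfAdjoint.of_nonneg hx)

namespace TrAlg

theorem f_mul_nonneg (hM : TrAlg f M) {x y : 𝔸} (hx : x ∈ M) (hy : y ∈ M) (hx0 : 0 ≤ x)
    (hy0 : 0 ≤ y) : 0 ≤ f (x * y) := by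
  have hs : cfc Real.sqrt y ∈ M := hM.cfc_mem hy _
  have h1 : f (x * y) = f (cfc Real.sqrt y * x * cfc Real.sqrt y) := by
    conv_lhs => rw [← cfc_mul_self_eq hy0]
    rw [← mul_assoc, hM.comm _ (mul_mem hx hs) _ hs, mul_assoc]
  rw [h1]
  apply f_nonneg
  exact IsSelfAdjoint.conjugate_nonneg hx0 (cfc_sa _ _)

/-- `x ≤ 0` on the part where it should be: a self-adjoint element with `f (x x₋) ≥ 0` is
positive. -/
theorem nonneg_of_neg_part (hM : TrAlg f M) {x : 𝔸} (hx : x ∈ M) (hsa : IsSelfAdjoint x)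
    (h : 0 ≤ (f (x * cfc (fun t : ℝ => max (-t) 0) x)).re) : 0 ≤ x := by
  set b := cfc (fun t : ℝ => max (-t) 0) x with hb
  have hbM : b ∈ M := hM.cfc_mem hx _
  have hbsa : IsSelfAdjoint b := cfc_sa _ _
  have h1 : x * b = -(star b * b) := by
    rw [hbsa.star_eq, hb]
    conv_lhs => rw [show x * cfc (fun t : ℝ => max (-t) 0) x =
      cfc (fun t : ℝ => t) x * cfc (fun t : ℝ => max (-t) 0) x by rw [cfc_of_id hsa]]
    rw [← cfc_mul (fun t : ℝ => t) (fun t : ℝ => max (-t) 0) x,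
      ← cfc_mul (fun t : ℝ => max (-t) 0) (fun t : ℝ => max (-t) 0) x,
      ← cfc_neg (fun t : ℝ => max (-t) 0 * max (-t) 0) x]
    apply cfc_congr
    intro t _
    show t * max (-t) 0 = -(max (-t) 0 * max (-t) 0)
    rcases le_total 0 t with ht | ht
    · rw [max_eq_right (by linarith)]; ring
    · rw [max_eq_left (by linarith)]; ring
  rw [h1, map_neg, Complex.neg_re, ← n2_sq_re] at h
  have h2 : n2 f b = 0 := by nlinarith [n2_nonneg (f := f) b]
  have h3 : b = 0 := hM.faithful b hbM h2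
  have h4 : x = cfc (fun t : ℝ => max t 0) x - b := by
    rw [hb, ← cfc_sub (fun t : ℝ => max t 0) (fun t : ℝ => max (-t) 0) x]
    conv_lhs => rw [← cfc_of_id hsa]
    apply cfc_congr
    intro t _
    show t = max t 0 - max (-t) 0
    rcases le_total 0 t with ht | ht
    · rw [max_eq_left ht, max_eq_right (by linarith)]; ring
    · rw [max_eq_right ht, max_eq_left (by linarith)]; ring
  rw [h4, h3, sub_zero]
  exact cfc_nonneg fun t _ => le_max_right _ _

variable {ι : Type*} {l : Filter ι} {u : ι → 𝔸} {x : 𝔸}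

theorem sa_of_T2 [l.NeBot] (hM : TrAlg f M) (hu : ∀ i, u i ∈ M) (hx : x ∈ M)
    (hsa : ∀ i, IsSelfAdjoint (u i)) (h : T2 f l u x) : IsSelfAdjoint x := by
  have h1 := hM.T2_star hu hx h
  have h2 : T2 f l u (star x) := h1.congr' fun i => (hsa i).star_eq
  exact hM.T2_unique (star_mem hx) hx h2 h

theorem nonneg_of_T2 [l.NeBot] (hM : TrAlg f M) (hu : ∀ i, u i ∈ M) (hx : x ∈ M)
    (h0 : ∀ i, 0 ≤ u i) (h : T2 f l u x) : 0 ≤ x := by
  have hsa := hM.sa_of_T2 hu hx (fun i => IsSelfAdjoint.of_nonneg (h0 i)) h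
  apply hM.nonneg_of_neg_part hx hsa
  have hbM : cfc (fun t : ℝ => max (-t) 0) x ∈ M := hM.cfc_mem hx _
  have h1 := (hM.T2_mul_const hu hx hbM h).tendsto_f hM.one
  have h2 : 0 ≤ f (x * cfc (fun t : ℝ => max (-t) 0) x) := by
    refine ge_of_tendsto h1 (Eventually.of_forall fun i => ?_)
    exact hM.f_mul_nonneg (hu i) hbM (h0 i) (cfc_nonneg fun t _ => le_max_right _ _)
  exact (Complex.le_def.1 h2).1

theorem le_of_T2 [l.NeBot] (hM : TrAlg f M) (hu : ∀ i, u i ∈ M) (hx : x ∈ M) {y : 𝔸}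
    (hy : y ∈ M) (h0 : ∀ i, u i ≤ y) (h : T2 f l u x) : x ≤ y := by
  rw [← sub_nonneg]
  exact hM.nonneg_of_T2 (fun i => sub_mem hy (hu i)) (sub_mem hy hx)
    (fun i => sub_nonneg.2 (h0 i)) (T2.const.sub h)

theorem f_re_mono {x y : 𝔸} (h : x ≤ y) : (f x).re ≤ (f y).re := by
  have := f_nonneg (f := f) (sub_nonneg.2 h)
  rw [map_sub] at this
  have := (Complex.le_def.1 this).1
  simpa using this

/-- increasing sequences of positive contractions converge in 2-norm -/
theorem exists_lim_of_mono (hM : TrAlg f M) (v : ℕ → 𝔸) (hv : ∀ n, v n ∈ M)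
    (C : ℝ) (hvC : ∀ n, ‖v n‖ ≤ C) (u : ℕ → 𝔸) (hmono : Monotone u)
    (hu0 : ∀ n, 0 ≤ u n) (hu1 : ∀ n, u n ≤ 1)
    (hcau : ∀ m n, m ≤ n → n2 f (v n - v m) ^ 2 ≤ (f (u n - u m)).re) :
    ∃ x ∈ M, ‖x‖ ≤ C ∧ T2 f atTop v x := by
  apply hM.complete v C hv hvC
  have hb : ∀ n, (f (u n)).re ≤ 1 := fun n => by
    have := f_re_mono (f := f) (hu1 n)
    rwa [hM.one, Complex.one_re] at this
  have hmono' : Monotone fun n => (f (u n)).re := fun m n h => f_re_mono (hmono h)
  have hcv : CauchySeq fun n => (f (u n)).re :=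
    (tendsto_atTop_ciSup hmono' ⟨1, by rintro _ ⟨n, rfl⟩; exact hb n⟩).cauchySeq
  intro ε hε
  obtain ⟨n₀, hn₀⟩ := Metric.cauchySeq_iff.1 hcv (ε ^ 2) (by positivity)
  refine ⟨n₀, ?_⟩
  have key : ∀ m ≥ n₀, ∀ n ≥ n₀, m ≤ n → n2 f (v n - v m) ≤ ε := by
    intro m hm n hn hmn
    have h1 := hcau m n hmn
    have h2 := hn₀ n hn m hm
    rw [Real.dist_eq] at h2
    rw [map_sub, Complex.sub_re] at h1
    have h3 := le_abs_self ((f (u n)).re - (f (u m)).re)
    exact (sq_le_sq₀ (n2_nonneg _) hε.le).1 (by linarith)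
  intro m hm n hn
  rcases le_total m n with h | h
  · rw [n2_sub_comm]; exact key m hm n hn h
  · exact key n hn m hm h

end TrAlg

/-- the approximate inverse `1 / max t (1/(n+1))` -/
noncomputable def rr (n : ℕ) (t : ℝ) : ℝ := (max t (1 / ((n : ℝ) + 1)))⁻¹

/-- the approximate support `t / max t (1/(n+1))` -/
noncomputable def hh (n : ℕ) (t : ℝ) : ℝ := t * rr n t

/-- the approximate inverse square root -/
noncomputable def gg (n : ℕ) (t : ℝ) : ℝ := (Real.sqrt (max t (1 / ((n : ℝ) + 1))))⁻¹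

theorem max_pos' (n : ℕ) (t : ℝ) : 0 < max t (1 / ((n : ℝ) + 1)) :=
  lt_of_lt_of_le (by positivity) (le_max_right _ _)

theorem rr_cont (n : ℕ) : Continuous (rr n) := by
  unfold rr
  exact (continuous_id.max continuous_const).inv₀ fun t => (max_pos' n t).ne'

theorem hh_cont (n : ℕ) : Continuous (hh n) := continuous_id.mul (rr_cont n)

theorem gg_cont (n : ℕ) : Continuous (gg n) := by
  unfold gg
  exact (Real.continuous_sqrt.comp (continuous_id.max continuous_const)).inv₀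
    fun t => (Real.sqrt_pos.2 (max_pos' n t)).ne'

theorem hh_nonneg (n : ℕ) {t : ℝ} (ht : 0 ≤ t) : 0 ≤ hh n t :=
  mul_nonneg ht (inv_nonneg.2 (max_pos' n t).le)

theorem hh_le_one (n : ℕ) {t : ℝ} : hh n t ≤ 1 := by
  unfold hh rr
  rw [← div_eq_mul_inv, div_le_one (max_pos' n t)]
  exact le_max_left _ _

theorem hh_mono {m n : ℕ} (h : m ≤ n) {t : ℝ} (ht : 0 ≤ t) : hh m t ≤ hh n t := by
  unfold hh rr
  apply mul_le_mul_of_nonneg_left _ ht
  apply inv_anti₀ (max_pos' n t)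
  apply max_le_max le_rfl
  apply one_div_le_one_div_of_le (by positivity)
  have : (m : ℝ) ≤ n := by exact_mod_cast h
  linarith

theorem sub_hh_le (n : ℕ) {t : ℝ} (ht : 0 ≤ t) : |t * (1 - hh n t)| ≤ 1 / ((n : ℝ) + 1) := by
  have h0 : 0 ≤ 1 - hh n t := sub_nonneg.2 (hh_le_one n)
  rw [abs_of_nonneg (mul_nonneg ht h0)]
  have he : (0 : ℝ) < 1 / ((n : ℝ) + 1) := by positivity
  rcases le_total (1 / ((n : ℝ) + 1)) t with h | h
  · have : hh n t = 1 := by
      unfold hh rr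
      rw [max_eq_left h, mul_inv_cancel₀ (lt_of_lt_of_le he h).ne']
    rw [this]; simp; positivity
  · have h1 : 1 - hh n t ≤ 1 := by linarith [hh_nonneg n ht]
    nlinarith

theorem gg_sq_mul (n : ℕ) (t : ℝ) : gg n t * gg n t * t = hh n t := by
  unfold gg hh rr
  rw [← mul_inv, Real.mul_self_sqrt (max_pos' n t).le]
  ring

theorem gg_diff_le {m n : ℕ} (h : m ≤ n) {t : ℝ} (ht : 0 ≤ t) :
    (gg n t - gg m t) * (gg n t - gg m t) * t ≤ hh n t - hh m t := by
  have h1 := gg_sq_mul n t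
  have h2 := gg_sq_mul m t
  have h3 : gg m t ≤ gg n t := by
    unfold gg
    apply inv_anti₀ (Real.sqrt_pos.2 (max_pos' n t))
    apply Real.sqrt_le_sqrt
    apply max_le_max le_rfl
    apply one_div_le_one_div_of_le (by positivity)
    have : (m : ℝ) ≤ n := by exact_mod_cast h
    linarith
  have h4 : 0 ≤ gg m t := inv_nonneg.2 (Real.sqrt_nonneg _)
  rw [← h1, ← h2]
  have h5 : 0 ≤ gg m t * (gg n t - gg m t) * t := mul_nonneg (mul_nonneg h4 (sub_nonneg.2 h3)) ht
  nlinarith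

theorem gg_sqrt_le (n : ℕ) {t : ℝ} (ht : 0 ≤ t) :
    |(1 - gg n t * Real.sqrt t) * (1 - gg n t * Real.sqrt t) * t| ≤ 1 / ((n : ℝ) + 1) := by
  have he : (0 : ℝ) < 1 / ((n : ℝ) + 1) := by positivity
  have h4 : 0 ≤ gg n t := inv_nonneg.2 (Real.sqrt_nonneg _)
  have h5 : gg n t * Real.sqrt t ≤ 1 := by
    unfold gg
    rw [inv_mul_le_iff₀ (Real.sqrt_pos.2 (max_pos' n t)), mul_one]
    exact Real.sqrt_le_sqrt (le_max_left _ _)
  have h6 : 0 ≤ gg n t * Real.sqrt t := mul_nonneg h4 (Real.sqrt_nonneg _)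
  rw [abs_of_nonneg (mul_nonneg (mul_self_nonneg _) ht)]
  rcases le_total (1 / ((n : ℝ) + 1)) t with h | h
  · have : gg n t * Real.sqrt t = 1 := by
      unfold gg
      rw [max_eq_left h, inv_mul_cancel₀]
      exact (Real.sqrt_pos.2 (lt_of_lt_of_le he h)).ne'
    rw [this]; simp; positivity
  · have h7 : (1 - gg n t * Real.sqrt t) * (1 - gg n t * Real.sqrt t) ≤ 1 := by nlinarith
    nlinarith

end Pool.Agent.Lib.MP_f5929e_an
end

section

/-!
Support projections and polar decompositions in tracial algebras.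
-/

namespace Pool.Agent.Lib.MP_f5929e_an

set_option linter.unusedSectionVars false

open scoped ComplexOrder InnerProductSpace
open Filter Topology

variable {𝔸 : Type*} [CStarAlgebra 𝔸] [PartialOrder 𝔸] [StarOrderedRing 𝔸]
variable {f : 𝔸 →ₚ[ℂ] ℂ} {M : StarSubalgebra ℂ 𝔸}

theorem tendsto_one_div_nat : Tendsto (fun n : ℕ => 1 / ((n : ℝ) + 1)) atTop (𝓝 0) :=
  tendsto_one_div_add_atTop_nhds_zero_nat

/-- a projection -/
def Pj (p : 𝔸) : Prop := star p = p ∧ p * p = p

theorem Pj.nonneg {p : 𝔸} (hp : Pj p) : 0 ≤ p := by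
  have := star_mul_self_nonneg p
  rwa [hp.1, hp.2] at this

theorem Pj.compl {p : 𝔸} (hp : Pj p) : Pj (1 - p) := by
  refine ⟨by rw [star_sub, star_one, hp.1], ?_⟩
  have := hp.2
  noncomm_ring
  rw [this]; abel

theorem Pj.le_one {p : 𝔸} (hp : Pj p) : p ≤ 1 := sub_nonneg.1 hp.compl.nonneg

theorem Pj.norm_le {p : 𝔸} (hp : Pj p) : ‖p‖ ≤ 1 :=
  (CStarAlgebra.norm_le_one_iff_of_nonneg p hp.nonneg).2 hp.le_one

theorem Pj.zero : Pj (0 : 𝔸) := ⟨star_zero _, mul_zero _⟩

theorem Pj.one : Pj (1 : 𝔸) := ⟨star_one _, mul_one _⟩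

/-- `q ≤ p` -/
theorem Pj.comm_of_le {p q : 𝔸} (hp : Pj p) (hq : Pj q) (h : q * p = q) : p * q = q := by
  have := congrArg star h
  rwa [star_mul, hp.1, hq.1] at this

theorem Pj.sub {p q : 𝔸} (hp : Pj p) (hq : Pj q) (h : q * p = q) : Pj (p - q) := by
  have h2 := hp.comm_of_le hq h
  refine ⟨by rw [star_sub, hp.1, hq.1], ?_⟩
  have e : (p - q) * (p - q) = p * p - p * q - q * p + q * q := by noncomm_ring
  rw [e, hp.2, hq.2, h, h2]; abel

theorem Pj.add {p q : 𝔸} (hp : Pj p) (hq : Pj q) (h : p * q = 0) : Pj (p + q) := by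
  have h2 : q * p = 0 := by
    have := congrArg star h
    rwa [star_mul, hp.1, hq.1, star_zero] at this
  refine ⟨by rw [star_add, hp.1, hq.1], ?_⟩
  have e : (p + q) * (p + q) = p * p + p * q + q * p + q * q := by noncomm_ring
  rw [e, hp.2, hq.2, h, h2]; abel

theorem Pj.mul_of_comm {p q : 𝔸} (hp : Pj p) (hq : Pj q) (h : p * q = q * p) : Pj (p * q) := by
  refine ⟨by rw [star_mul, hp.1, hq.1, h], ?_⟩
  have e : (p * q) * (p * q) = p * (q * p) * q := by noncomm_ring
  rw [e, ← h]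
  have e2 : p * (p * q) * q = (p * p) * (q * q) := by noncomm_ring
  rw [e2, hp.2, hq.2]

theorem Pj.n2_sq {p : 𝔸} (hp : Pj p) : n2 f p ^ 2 = (f p).re := by
  rw [n2_sq_re, hp.1, hp.2]

theorem Pj.f_im {p : 𝔸} (hp : Pj p) : (f p).im = 0 := by
  have := f_nonneg (f := f) hp.nonneg
  exact (Complex.le_def.1 this).2.symm

theorem Pj.f_re_nonneg {p : 𝔸} (hp : Pj p) : 0 ≤ (f p).re := by
  have := f_nonneg (f := f) hp.nonneg
  exact (Complex.le_def.1 this).1

theorem Pj.of_eq {p q : 𝔸} (hp : Pj p) (h : p = q) : Pj q := h ▸ hp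

/-- small norm argument in C*-algebras -/
theorem eq_zero_of_star_mul_self {x : 𝔸} (h : star x * x = 0) : x = 0 := by
  have := CStarRing.norm_star_mul_self (x := x)
  rw [h, norm_zero] at this
  exact norm_eq_zero.1 (mul_self_eq_zero.1 this.symm)

namespace TrAlg

theorem f_pos_of_ne (hM : TrAlg f M) {p : 𝔸} (hpM : p ∈ M) (hp : Pj p) (h : p ≠ 0) :
    0 < (f p).re := by
  rcases (hp.f_re_nonneg (f := f)).lt_or_eq with h1 | h1
  · exact h1
  · exfalso
    apply h
    apply hM.faithful p hpM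
    have := hp.n2_sq (f := f)
    rw [← h1] at this
    nlinarith [n2_nonneg (f := f) p]

theorem pj_of_T2 (hM : TrAlg f M) {ι : Type*} {l : Filter ι} [l.NeBot] {u : ι → 𝔸} {x : 𝔸}
    (huM : ∀ i, u i ∈ M) (hx : x ∈ M) (hu : ∀ i, Pj (u i)) (h : T2 f l u x) : Pj x := by
  refine ⟨hM.sa_of_T2 huM hx (fun i => (hu i).1) h, ?_⟩
  have h1 := hM.T2_mul huM hx hx (fun i => (hu i).norm_le) h h
  exact hM.T2_unique (mul_mem hx hx) hx h1 (h.congr' fun i => ((hu i).2).symm)

/-- support projections -/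
theorem exists_support {M' : StarSubalgebra ℂ 𝔸} (hM' : TrAlg f M') (hM : TrAlg f M)
    (hle : M ≤ M') {x : 𝔸} (hx : x ∈ M) (hx0 : 0 ≤ x) :
    ∃ s ∈ M, Pj s ∧ s * x = x ∧ x * s = x ∧ (∀ w ∈ M', w * x = 0 → w * s = 0) ∧
      (∀ w ∈ M', x * w = 0 → s * w = 0) ∧ T2 f atTop (fun n => cfc (hh n) x) s := by
  have hsa : IsSelfAdjoint x := IsSelfAdjoint.of_nonneg hx0
  set u : ℕ → 𝔸 := fun n => cfc (hh n) x with hu
  set r : ℕ → 𝔸 := fun n => cfc (rr n) x with hr
  have hrM : ∀ n, r n ∈ M := fun n => hM.cfc_mem hx _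
  have huM : ∀ n, u n ∈ M := fun n => hM.cfc_mem hx _
  have hrc : ∀ n, ContinuousOn (rr n) (spectrum ℝ x) := fun n => (rr_cont n).continuousOn
  have hhc : ∀ n, ContinuousOn (hh n) (spectrum ℝ x) := fun n => (hh_cont n).continuousOn
  have hxr : ∀ n, u n = x * r n := by
    intro n
    rw [hu, hr]
    show cfc (hh n) x = x * cfc (rr n) x
    conv_rhs => rw [show x * cfc (rr n) x = cfc (fun t : ℝ => t) x * cfc (rr n) x by
      rw [cfc_of_id hsa]]
    rw [← cfc_mul (fun t : ℝ => t) (rr n) x continuousOn_id (hrc n)]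
    rfl
  have hrx : ∀ n, u n = r n * x := by
    intro n
    rw [hu, hr]
    show cfc (hh n) x = cfc (rr n) x * x
    conv_rhs => rw [show cfc (rr n) x * x = cfc (rr n) x * cfc (fun t : ℝ => t) x by
      rw [cfc_of_id hsa]]
    rw [← cfc_mul (rr n) (fun t : ℝ => t) x (hrc n) continuousOn_id]
    apply cfc_congr
    intro t _
    show hh n t = rr n t * t
    unfold hh; ring
  have hmono : Monotone u := by
    intro m n h
    exact cfc_mono (fun t ht => hh_mono h (nonneg_of_mem_spectrum hx0 ht)) (hhc m) (hhc n)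
  have hu0 : ∀ n, 0 ≤ u n := fun n => cfc_nonneg fun t ht =>
    hh_nonneg n (nonneg_of_mem_spectrum hx0 ht)
  have hu1 : ∀ n, u n ≤ 1 := fun n => cfc_le_one _ _ fun t _ => hh_le_one n
  have hun : ∀ n, ‖u n‖ ≤ 1 := fun n =>
    (CStarAlgebra.norm_le_one_iff_of_nonneg _ (hu0 n)).2 (hu1 n)
  obtain ⟨s, hs, hsn, hus⟩ := hM.exists_lim_of_mono u huM 1 hun u hmono hu0 hu1 (by
    intro m n hmn
    rw [n2_sq_re]
    apply f_re_mono
    have h1 : star (u n - u m) * (u n - u m) = cfc (fun t => (hh n t - hh m t) *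
        (hh n t - hh m t)) x := by
      have h2 : u n - u m = cfc (fun t => hh n t - hh m t) x :=
        (cfc_sub (hh n) (hh m) x (hhc n) (hhc m)).symm
      rw [h2, (cfc_sa _ _).star_eq]
      exact (cfc_mul (fun t => hh n t - hh m t) (fun t => hh n t - hh m t) x
        ((hhc n).sub (hhc m)) ((hhc n).sub (hhc m))).symm
    have h3 : u n - u m = cfc (fun t => hh n t - hh m t) x :=
      (cfc_sub (hh n) (hh m) x (hhc n) (hhc m)).symm
    rw [h1, h3]
    apply cfc_mono (f := fun t => (hh n t - hh m t) * (hh n t - hh m t))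
      (g := fun t => hh n t - hh m t) _
      (((hhc n).sub (hhc m)).mul ((hhc n).sub (hhc m))) ((hhc n).sub (hhc m))
    intro t ht
    have ht0 := nonneg_of_mem_spectrum hx0 ht
    have h4 := hh_mono hmn ht0
    have h5 := hh_le_one n (t := t)
    have h6 := hh_nonneg m ht0
    nlinarith)
  have hsM' := hle hs
  have hssa : IsSelfAdjoint s := hM.sa_of_T2 huM hs (fun n => cfc_sa _ _) hus
  -- x s = x
  have hxu : T2 f atTop (fun n => x * u n) x := by
    refine T2.of_le tendsto_one_div_nat fun n => ?_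
    refine (n2_le_norm hM.one _).trans ?_
    have h1 : x * u n - x = cfc (fun t => -(t * (1 - hh n t))) x := by
      rw [hu]
      show x * cfc (hh n) x - x = _
      conv_lhs => rw [show x * cfc (hh n) x - x = cfc (fun t : ℝ => t) x * cfc (hh n) x -
        cfc (fun t : ℝ => t) x by rw [cfc_of_id hsa]]
      rw [← cfc_mul (fun t : ℝ => t) (hh n) x continuousOn_id (hhc n),
        ← cfc_sub (fun t => t * hh n t) (fun t => t) x (continuousOn_id.mul (hhc n))
          continuousOn_id]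
      apply cfc_congr
      intro t _
      show t * hh n t - t = -(t * (1 - hh n t))
      ring
    rw [h1]
    apply norm_cfc_le (by positivity)
    intro t ht
    rw [Real.norm_eq_abs, abs_neg]
    exact sub_hh_le n (nonneg_of_mem_spectrum hx0 ht)
  have hxs : x * s = x := hM.T2_unique (mul_mem hx hs) hx (hus.const_mul x) hxu
  have hsx : s * x = x := by
    have := congrArg star hxs
    rwa [star_mul, hssa.star_eq, hsa.star_eq] at this
  have hss : s * s = s := by
    have h1 := hM.T2_mul_const huM hs hs hus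
    refine hM.T2_unique (mul_mem hs hs) hs h1 (hus.congr' fun n => ?_)
    show u n = u n * s
    rw [hrx n, mul_assoc, hxs]
  refine ⟨s, hs, ⟨hssa.star_eq, hss⟩, hsx, hxs, ?_, ?_, hus⟩
  · intro w hw hwx
    have h1 := hus.const_mul w
    refine hM'.T2_unique (mul_mem hw hsM') (zero_mem _) h1 ((T2.const (x := 0)).congr' fun n => ?_)
    show 0 = w * u n
    rw [hxr n, ← mul_assoc, hwx, zero_mul]
  · intro w hw hwx
    have h1 := hM'.T2_mul_const (fun n => hle (huM n)) hsM' hw hus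
    refine hM'.T2_unique (mul_mem hsM' hw) (zero_mem _) h1 ((T2.const (x := 0)).congr' fun n => ?_)
    show 0 = u n * w
    rw [hrx n, mul_assoc, hwx, mul_zero]

/-- polar decomposition -/
theorem exists_polar {M' : StarSubalgebra ℂ 𝔸} (hM' : TrAlg f M') (hM : TrAlg f M)
    (hle : M ≤ M') {x : 𝔸} (hx : x ∈ M) :
    ∃ v ∈ M, ‖v‖ ≤ 1 ∧ Pj (star v * v) ∧ v * (star v * v) = v ∧
      (star v * v) * (star x * x) = star x * x ∧ v * cfc Real.sqrt (star x * x) = x ∧
      (∀ w ∈ M', w * x = 0 → w * v = 0) ∧ (∀ w ∈ M', x * w = 0 → v * w = 0) := by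
  set b := star x * x with hb
  have hbM : b ∈ M := mul_mem (star_mem hx) hx
  have hb0 : 0 ≤ b := star_mul_self_nonneg x
  have hbsa : IsSelfAdjoint b := IsSelfAdjoint.of_nonneg hb0
  obtain ⟨s, hs, hsP, hsb, hbs, hsl, hsr, hus⟩ := exists_support hM' hM hle hbM hb0
  have hgc : ∀ n, ContinuousOn (gg n) (spectrum ℝ b) := fun n => (gg_cont n).continuousOn
  have hhc : ∀ n, ContinuousOn (hh n) (spectrum ℝ b) := fun n => (hh_cont n).continuousOn
  set g : ℕ → 𝔸 := fun n => cfc (gg n) b with hg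
  have hgM : ∀ n, g n ∈ M := fun n => hM.cfc_mem hbM _
  have hgsa : ∀ n, star (g n) = g n := fun n => (cfc_sa _ _).star_eq
  set u : ℕ → 𝔸 := fun n => cfc (hh n) b with hu
  have huM : ∀ n, u n ∈ M := fun n => hM.cfc_mem hbM _
  set v' : ℕ → 𝔸 := fun n => x * g n with hv'
  have hv'M : ∀ n, v' n ∈ M := fun n => mul_mem hx (hgM n)
  have gen : ∀ k : ℝ → ℝ, ContinuousOn k (spectrum ℝ b) →
      cfc k b * b * cfc k b = cfc (fun t => k t * k t * t) b := by
    intro k hk
    rw [show cfc k b * b * cfc k b = cfc k b * cfc (fun t : ℝ => t) b * cfc k b by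
      rw [cfc_of_id hbsa]]
    rw [← cfc_mul k (fun t : ℝ => t) b hk continuousOn_id,
      ← cfc_mul (fun t => k t * t) k b (hk.mul continuousOn_id) hk]
    apply cfc_congr
    intro t _
    show k t * t * k t = k t * k t * t
    ring
  have hvv : ∀ n, star (v' n) * v' n = u n := by
    intro n
    have e : star (v' n) * v' n = g n * b * g n := by
      rw [hv']
      show star (x * g n) * (x * g n) = _
      rw [star_mul, hgsa n, hb]; noncomm_ring
    rw [e, hg]
    show cfc (gg n) b * b * cfc (gg n) b = _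
    rw [gen (gg n) (hgc n)]
    apply cfc_congr
    intro t _
    exact gg_sq_mul n t
  have hmono : Monotone u := by
    intro m n h
    exact cfc_mono (fun t ht => hh_mono h (nonneg_of_mem_spectrum hb0 ht)) (hhc m) (hhc n)
  have hu0 : ∀ n, 0 ≤ u n := fun n => cfc_nonneg fun t ht =>
    hh_nonneg n (nonneg_of_mem_spectrum hb0 ht)
  have hu1 : ∀ n, u n ≤ 1 := fun n => cfc_le_one _ _ fun t _ => hh_le_one n
  have hun : ∀ n, ‖u n‖ ≤ 1 := fun n =>
    (CStarAlgebra.norm_le_one_iff_of_nonneg _ (hu0 n)).2 (hu1 n)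
  have hvn : ∀ n, ‖v' n‖ ≤ 1 := by
    intro n
    have h1 := CStarRing.norm_star_mul_self (x := v' n)
    rw [hvv n] at h1
    nlinarith [norm_nonneg (v' n), hun n]
  obtain ⟨v, hv, hvn', huv⟩ := hM.exists_lim_of_mono v' hv'M 1 hvn u hmono hu0 hu1 (by
    intro m n hmn
    rw [n2_sq_re]
    apply f_re_mono
    have h1 : v' n - v' m = x * cfc (fun t => gg n t - gg m t) b := by
      rw [cfc_sub (gg n) (gg m) b (hgc n) (hgc m), mul_sub]
    have h3 : u n - u m = cfc (fun t => hh n t - hh m t) b :=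
      (cfc_sub (hh n) (hh m) b (hhc n) (hhc m)).symm
    rw [h1, h3, star_mul, (cfc_sa _ _).star_eq]
    have e : cfc (fun t => gg n t - gg m t) b * star x * (x * cfc (fun t => gg n t - gg m t) b)
        = cfc (fun t => gg n t - gg m t) b * b * cfc (fun t => gg n t - gg m t) b := by
      rw [hb]; noncomm_ring
    rw [e, gen (fun t => gg n t - gg m t) ((hgc n).sub (hgc m))]
    apply cfc_mono (f := fun t => (gg n t - gg m t) * (gg n t - gg m t) * t)
      (g := fun t => hh n t - hh m t) _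
      ((((hgc n).sub (hgc m)).mul ((hgc n).sub (hgc m))).mul continuousOn_id)
      ((hhc n).sub (hhc m))
    intro t ht
    exact gg_diff_le hmn (nonneg_of_mem_spectrum hb0 ht))
  have hvs : star v * v = s := by
    have h1 := hM.T2_mul (u := fun n => star (v' n)) (v := v') (x := star v) (y := v)
      (fun n => star_mem (hv'M n)) (star_mem hv) hv (C := 1)
      (fun n => by rw [norm_star]; exact hvn n) (hM.T2_star hv'M hv huv) huv
    exact hM.T2_unique (mul_mem (star_mem hv) hv) hs (h1.congr' hvv) hus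
  have hvsv : v * s = v := by
    have h1 : v - v * s = 0 := by
      apply eq_zero_of_star_mul_self
      have e : star (v - v * s) * (v - v * s) =
          star v * v - star v * v * s - star s * (star v * v) + star s * (star v * v) * s := by
        rw [star_sub, star_mul]; noncomm_ring
      rw [e, hvs, hsP.1, hsP.2, hsP.2]; abel
    exact (sub_eq_zero.1 h1).symm
  refine ⟨v, hv, hvn', hvs ▸ hsP, by rw [hvs]; exact hvsv, by rw [hvs]; exact hsb, ?_, ?_, ?_⟩
  · have hsqM : cfc Real.sqrt b ∈ M := hM.cfc_mem hbM _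
    have h1 := hM.T2_mul_const hv'M hv hsqM huv
    refine hM.T2_unique (mul_mem hv hsqM) hx h1 ?_
    have h2 : Tendsto (fun n : ℕ => Real.sqrt (1 / ((n : ℝ) + 1))) atTop (𝓝 0) := by
      have := (Real.continuous_sqrt.tendsto 0).comp tendsto_one_div_nat
      rw [Real.sqrt_zero] at this
      exact this
    refine T2.of_le h2 fun n => ?_
    refine (n2_le_norm hM.one _).trans ?_
    have hsc : ContinuousOn Real.sqrt (spectrum ℝ b) := Real.continuous_sqrt.continuousOn
    have e1 : v' n * cfc Real.sqrt b - x = -(x * cfc (fun t => 1 - gg n t * Real.sqrt t) b) := by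
      rw [hv', hg]
      show x * cfc (gg n) b * cfc Real.sqrt b - x = _
      rw [mul_assoc, ← cfc_mul (gg n) Real.sqrt b (hgc n) hsc,
        cfc_sub (fun _ : ℝ => (1 : ℝ)) (fun t => gg n t * Real.sqrt t) b continuousOn_const
          ((hgc n).mul hsc), cfc_const_one ℝ b]
      noncomm_ring
    rw [e1, norm_neg]
    apply Real.le_sqrt_of_sq_le
    have h3 := CStarRing.norm_star_mul_self (x := x * cfc (fun t => 1 - gg n t * Real.sqrt t) b)
    rw [sq, ← h3, star_mul, (cfc_sa _ _).star_eq]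
    have e : cfc (fun t => 1 - gg n t * Real.sqrt t) b * star x *
        (x * cfc (fun t => 1 - gg n t * Real.sqrt t) b)
        = cfc (fun t => 1 - gg n t * Real.sqrt t) b * b *
          cfc (fun t => 1 - gg n t * Real.sqrt t) b := by
      rw [hb]; noncomm_ring
    rw [e, gen (fun t => 1 - gg n t * Real.sqrt t) (continuousOn_const.sub ((hgc n).mul hsc))]
    apply norm_cfc_le (by positivity)
    intro t ht
    rw [Real.norm_eq_abs]
    exact gg_sqrt_le n (nonneg_of_mem_spectrum hb0 ht)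
  · intro w hw hwx
    have h1 := huv.const_mul w
    refine hM'.T2_unique (mul_mem hw (hle hv)) (zero_mem _) h1
      ((T2.const (x := 0)).congr' fun n => ?_)
    show 0 = w * (x * g n)
    rw [← mul_assoc, hwx, zero_mul]
  · intro w hw hwx
    have h1 : s * w = 0 := by
      apply hsr w hw
      rw [hb, mul_assoc, hwx, mul_zero]
    rw [← hvsv, mul_assoc, h1, mul_zero]

end TrAlg

end Pool.Agent.Lib.MP_f5929e_an
end
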