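import Mathlib
import Pool.Agent.Lib.MP_f5929e_an.Polar

section

/-!
Lifting along star homomorphisms of C*-algebras.
-/

namespace Pool.Agent.Lib.MP_f5929e_an

set_option linter.unusedSectionVars false

open scoped ComplexOrder InnerProductSpace
open Filter Topology

variable {B C : Type*} [CStarAlgebra B] [PartialOrder B] [StarOrderedRing B]
variable [CStarAlgebra C] [PartialOrder C] [StarOrderedRing C]

theorem hom_continuous (φ : B →⋆ₐ[ℂ] C) : Continuous φ :=
  AddMonoidHomClass.continuous_of_bound φ 1 fun x => by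
    rw [one_mul]; exact NonUnitalStarAlgHom.norm_apply_le φ x

theorem hom_nonneg (φ : B →⋆ₐ[ℂ] C) {x : B} (hx : 0 ≤ x) : 0 ≤ φ x := by
  obtain ⟨y, rfl⟩ := CStarAlgebra.nonneg_iff_eq_star_mul_self.1 hx
  rw [map_mul, map_star]
  exact star_mul_self_nonneg _

theorem hom_mono (φ : B →⋆ₐ[ℂ] C) {x y : B} (h : x ≤ y) : φ x ≤ φ y := by
  have := hom_nonneg φ (sub_nonneg.2 h)
  rw [map_sub] at this
  exact sub_nonneg.1 this

theorem hom_cfc (φ : B →⋆ₐ[ℂ] C) (g : ℝ → ℝ) (hg : Continuous g) {x : B}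
    (hx : IsSelfAdjoint x) : φ (cfc g x) = cfc g (φ x) :=
  φ.map_cfc g x hg.continuousOn (hom_continuous φ) hx (hx.map φ)

/-- norm preserving lifts -/
theorem exists_lift (φ : B →⋆ₐ[ℂ] C) (x₀ : B) {c : ℝ} (hc : ‖φ x₀‖ ≤ c) :
    ∃ x, φ x = φ x₀ ∧ ‖x‖ ≤ c := by
  have hc0 : 0 ≤ c := (norm_nonneg _).trans hc
  rcases hc0.eq_or_lt with h0 | h0
  · refine ⟨0, ?_, by rw [norm_zero]; exact hc0⟩
    rw [← h0] at hc
    rw [map_zero, norm_le_zero_iff.1 hc]
  set g : ℝ → ℝ := fun t => c / max c (Real.sqrt t) with hg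
  have hmp : ∀ t, 0 < max c (Real.sqrt t) := fun t => lt_of_lt_of_le h0 (le_max_left _ _)
  have hgc : Continuous g := continuous_const.div (continuous_const.max Real.continuous_sqrt)
    fun t => (hmp t).ne'
  set b := star x₀ * x₀ with hb
  have hb0 : 0 ≤ b := star_mul_self_nonneg x₀
  have hbsa : IsSelfAdjoint b := IsSelfAdjoint.of_nonneg hb0
  refine ⟨x₀ * cfc g b, ?_, ?_⟩
  · rw [map_mul, hom_cfc φ g hgc hbsa]
    have h1 : cfc g (φ b) = 1 := by
      rw [← cfc_const_one ℝ (φ b) (hbsa.map φ)]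
      apply cfc_congr
      intro t ht
      have h2 : |t| ≤ ‖φ b‖ := abs_le_of_mem_spectrum ht
      have h3 : ‖φ b‖ = ‖φ x₀‖ * ‖φ x₀‖ := by
        rw [hb, map_mul, map_star, CStarRing.norm_star_mul_self]
      have h4 : Real.sqrt t ≤ c := by
        rw [Real.sqrt_le_left hc0]
        calc t ≤ |t| := le_abs_self t
          _ ≤ ‖φ x₀‖ * ‖φ x₀‖ := by rw [← h3]; exact h2
          _ ≤ c ^ 2 := by nlinarith [norm_nonneg (φ x₀)]
      show c / max c (Real.sqrt t) = 1
      rw [max_eq_left h4, div_self h0.ne']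
    rw [h1, mul_one]
  · have h1 := CStarRing.norm_star_mul_self (x := x₀ * cfc g b)
    have e : star (x₀ * cfc g b) * (x₀ * cfc g b) = cfc g b * b * cfc g b := by
      rw [star_mul, (cfc_sa _ _).star_eq, hb]; noncomm_ring
    rw [e] at h1
    have e2 : cfc g b * b * cfc g b = cfc (fun t => g t * t * g t) b := by
      rw [show cfc g b * b * cfc g b = cfc g b * cfc (fun t : ℝ => t) b * cfc g b by
        rw [cfc_of_id hbsa]]
      rw [← cfc_mul g (fun t : ℝ => t) b hgc.continuousOn continuousOn_id,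
        ← cfc_mul (fun t => g t * t) g b (hgc.continuousOn.mul continuousOn_id) hgc.continuousOn]
    have h2 : ‖cfc (fun t => g t * t * g t) b‖ ≤ c ^ 2 := by
      apply norm_cfc_le (by positivity)
      intro t ht
      have ht0 := nonneg_of_mem_spectrum hb0 ht
      have hg0 : 0 ≤ g t := div_nonneg hc0 (hmp t).le
      rw [Real.norm_eq_abs, abs_of_nonneg (mul_nonneg (mul_nonneg hg0 ht0) hg0)]
      have h3 : g t * Real.sqrt t ≤ c := by
        rw [hg]
        show c / max c (Real.sqrt t) * Real.sqrt t ≤ c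
        rw [div_mul_eq_mul_div, div_le_iff₀ (hmp t)]
        exact mul_le_mul_of_nonneg_left (le_max_right _ _) hc0
      have h4 : g t * t * g t = (g t * Real.sqrt t) ^ 2 := by
        calc g t * t * g t = g t * (Real.sqrt t * Real.sqrt t) * g t := by
              rw [Real.mul_self_sqrt ht0]
          _ = (g t * Real.sqrt t) ^ 2 := by ring
      rw [h4]
      exact pow_le_pow_left₀ (mul_nonneg hg0 (Real.sqrt_nonneg _)) h3 2
    rw [← e2, h1, ← sq] at h2
    exact (sq_le_sq₀ (norm_nonneg _) hc0).1 h2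

/-- lifts of elements between 0 and 1 -/
theorem exists_lift_unit (φ : B →⋆ₐ[ℂ] C) (x₀ : B) (h0 : 0 ≤ φ x₀) (h1 : φ x₀ ≤ 1) :
    ∃ x, φ x = φ x₀ ∧ 0 ≤ x ∧ x ≤ 1 := by
  set y : B := (2 : ℂ)⁻¹ • (x₀ + star x₀) with hy
  have hysa : IsSelfAdjoint y := by
    show star y = y
    rw [hy, star_smul, star_add, star_star, add_comm]
    congr 1
    simp
  have hφy : φ y = φ x₀ := by
    rw [hy, map_smul, map_add, map_star, (IsSelfAdjoint.of_nonneg h0).star_eq, ← two_smul ℂ,
      smul_smul, inv_mul_cancel₀ two_ne_zero, one_smul]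
  have hgc : Continuous fun t : ℝ => min (max t 0) 1 :=
    (continuous_id.max continuous_const).min continuous_const
  refine ⟨cfc (fun t : ℝ => min (max t 0) 1) y, ?_, ?_, ?_⟩
  · rw [hom_cfc φ _ hgc hysa, hφy]
    have hsa := IsSelfAdjoint.of_nonneg h0
    conv_rhs => rw [← cfc_of_id hsa]
    apply cfc_congr
    intro t ht
    show min (max t 0) 1 = t
    rw [max_eq_left (nonneg_of_mem_spectrum h0 ht), min_eq_left (le_one_of_mem_spectrum h0 h1 ht)]
  · exact cfc_nonneg fun t _ => le_min (le_max_right _ _) zero_le_one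
  · exact cfc_le_one _ _ fun t _ => min_le_right _ _

end Pool.Agent.Lib.MP_f5929e_an
end

section

section

/-!
An exhaustion principle.
-/

namespace Pool.Agent.Lib.MP_f5929e_an

theorem exhaust {X : Type*} (r : X → X → Prop) (hrefl : ∀ x, r x x)
    (htrans : ∀ x y z, r x y → r y z → r x z) (φ : X → ℝ)
    (hmono : ∀ x y, r x y → φ x ≤ φ y) (B : ℝ) (hB : ∀ x, φ x ≤ B)
    (hseq : ∀ u : ℕ → X, (∀ n, r (u n) (u (n + 1))) → ∃ y, ∀ n, r (u n) y) (x₀ : X) :
    ∃ x, r x₀ x ∧ ∀ y, r x y → φ y = φ x := by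
  set S : X → ℝ := fun x => sSup (φ '' {y | r x y}) with hS
  have hbdd : ∀ x, BddAbove (φ '' {y | r x y}) := fun x => ⟨B, by rintro _ ⟨y, _, rfl⟩; exact hB y⟩
  have hne : ∀ x, (φ '' {y | r x y}).Nonempty := fun x => ⟨φ x, x, hrefl x, rfl⟩
  have hnext : ∀ (n : ℕ) (x : X), ∃ y, r x y ∧ S x - 1 / ((n : ℝ) + 1) ≤ φ y := by
    intro n x
    have h1 : S x - 1 / ((n : ℝ) + 1) < S x := by
      have : (0 : ℝ) < 1 / ((n : ℝ) + 1) := by positivity
      linarith
    obtain ⟨_, ⟨y, hy, rfl⟩, h2⟩ := exists_lt_of_lt_csSup (hne x) h1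
    exact ⟨y, hy, h2.le⟩
  choose nx hnx1 hnx2 using hnext
  set u : ℕ → X := fun n => Nat.rec x₀ (fun n x => nx n x) n with hu
  have hu1 : ∀ n, r (u n) (u (n + 1)) := fun n => hnx1 n (u n)
  obtain ⟨y, hy⟩ := hseq u hu1
  refine ⟨y, hy 0, fun z hz => le_antisymm ?_ (hmono _ _ hz)⟩
  have key : ∀ n : ℕ, φ z ≤ φ y + 1 / ((n : ℝ) + 1) := by
    intro n
    have h1 : φ z ≤ S (u n) := le_csSup (hbdd _) ⟨z, htrans _ _ _ (hy n) hz, rfl⟩
    have h2 : S (u n) - 1 / ((n : ℝ) + 1) ≤ φ (u (n + 1)) := hnx2 n (u n)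
    have h3 := hmono _ _ (hy (n + 1))
    linarith
  have h4 : Filter.Tendsto (fun n : ℕ => φ y + 1 / ((n : ℝ) + 1)) Filter.atTop (nhds (φ y)) := by
    simpa using (tendsto_const_nhds (x := φ y)).add tendsto_one_div_add_atTop_nhds_zero_nat
  exact ge_of_tendsto h4 (Filter.Eventually.of_forall key)

end Pool.Agent.Lib.MP_f5929e_an
end

section

/-!
Splitting projections.
-/

namespace Pool.Agent.Lib.MP_f5929e_an

set_option linter.unusedSectionVars false

open scoped ComplexOrder InnerProductSpace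
open Filter Topology

variable {𝔸 : Type*} [CStarAlgebra 𝔸] [PartialOrder 𝔸] [StarOrderedRing 𝔸]
variable {f : 𝔸 →ₚ[ℂ] ℂ} {M M' : StarSubalgebra ℂ 𝔸}

/-- every nonzero subprojection of `p` in `M` has a proper nonzero subprojection in `M` -/
def Splits (M : StarSubalgebra ℂ 𝔸) (p : 𝔸) : Prop :=
  ∀ q ∈ M, Pj q → q * p = q → q ≠ 0 → ∃ r ∈ M, Pj r ∧ r * q = r ∧ r ≠ 0 ∧ r ≠ q

theorem Splits.of_le {p q : 𝔸} (h : Splits M p) (hqp : q * p = q) : Splits M q := by
  intro r hr hrP hrq hr0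
  exact h r hr hrP (by rw [← hrq, mul_assoc, hqp]) hr0

theorem pj_le_of_le {p z : 𝔸} (hp : Pj p) (hz : Pj z) (h : p ≤ z) : p * z = p := by
  have h1 : (1 - z) * p * (1 - z) ≤ 0 := by
    have h2 : (1 - z) * (z - p) * (1 - z) = -((1 - z) * p * (1 - z)) := by
      have e : (1 - z) * (z - p) * (1 - z) = (z - z * z) * (1 - z) - (1 - z) * p * (1 - z) := by
        noncomm_ring
      rw [e, hz.2, sub_self, zero_mul, zero_sub]
    have h3 : 0 ≤ (1 - z) * (z - p) * (1 - z) :=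
      IsSelfAdjoint.conjugate_nonneg (sub_nonneg.2 h) hz.compl.1
    rw [h2] at h3
    exact neg_nonneg.1 h3
  have h4 : 0 ≤ (1 - z) * p * (1 - z) := IsSelfAdjoint.conjugate_nonneg hp.nonneg hz.compl.1
  have h5 : (1 - z) * p * (1 - z) = 0 := le_antisymm h1 h4
  have h6 : p * (1 - z) = 0 := by
    apply eq_zero_of_star_mul_self
    rw [star_mul, hz.compl.1, hp.1]
    calc (1 - z) * p * (p * (1 - z)) = (1 - z) * (p * p) * (1 - z) := by noncomm_ring
      _ = 0 := by rw [hp.2, h5]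
  rw [mul_sub, mul_one, sub_eq_zero] at h6
  exact h6.symm

theorem orth_of_sum {ι : Type*} [DecidableEq ι] (s : Finset ι) (p : ι → 𝔸)
    (hp : ∀ i ∈ s, Pj (p i)) {z : 𝔸} (hz : Pj z) (hsum : ∑ i ∈ s, p i = z) :
    ∀ i ∈ s, ∀ j ∈ s, i ≠ j → p i * p j = 0 := by
  intro i hi j hj hij
  have h1 : p j ≤ z := by
    rw [← hsum]
    exact Finset.single_le_sum (fun k hk => (hp k hk).nonneg) hj
  have h2 : p j * z = p j := pj_le_of_le (hp j hj) hz h1
  have h3 : ∑ k ∈ s, p j * p k * p j = p j := by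
    rw [← Finset.sum_mul, ← Finset.mul_sum, hsum, h2, (hp j hj).2]
  rw [← Finset.add_sum_erase s _ hj, (hp j hj).2, (hp j hj).2] at h3
  have h4 : ∑ k ∈ s.erase j, p j * p k * p j = 0 := by
    have := congrArg (fun t => t - p j) h3
    simpa using this
  have h5 : ∀ k ∈ s.erase j, 0 ≤ p j * p k * p j := fun k hk =>
    IsSelfAdjoint.conjugate_nonneg (hp k (Finset.mem_of_mem_erase hk)).nonneg (hp j hj).1
  have h6 := (Finset.sum_eq_zero_iff_of_nonneg h5).1 h4 i (Finset.mem_erase.2 ⟨hij, hi⟩)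
  apply eq_zero_of_star_mul_self
  rw [star_mul, (hp i hi).1, (hp j hj).1]
  calc p j * p i * (p i * p j) = p j * (p i * p i) * p j := by noncomm_ring
    _ = 0 := by rw [(hp i hi).2, h6]

theorem pj_le {p q : 𝔸} (hp : Pj p) (hq : Pj q) (h : q * p = q) : q ≤ p :=
  sub_nonneg.1 (hp.sub hq h).nonneg

namespace TrAlg

theorem f_mul_pj (hM : TrAlg f M) {e r : 𝔸} (he : e ∈ M) (hr : r ∈ M) (heP : Pj e) (hrP : Pj r) :
    (f (e * r)).re = n2 f (e * r) ^ 2 := by
  rw [n2_sq_re, star_mul, heP.1, hrP.1]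
  congr 1
  have e1 : r * e * (e * r) = r * ((e * e) * r) := by noncomm_ring
  rw [e1, heP.2, hM.comm r hr _ (mul_mem he hr), mul_assoc, hrP.2]

theorem f_mul_pj_le (hM : TrAlg f M) {e r : 𝔸} (he : e ∈ M) (hr : r ∈ M) (heP : Pj e)
    (hrP : Pj r) : (f (e * r)).re ≤ (f r).re := by
  rw [hM.f_mul_pj he hr heP hrP, ← hrP.n2_sq]
  apply pow_le_pow_left₀ (n2_nonneg _)
  refine (n2_mul_le _ _).trans ?_
  calc ‖e‖ * n2 f r ≤ 1 * n2 f r := mul_le_mul_of_nonneg_right heP.norm_le (n2_nonneg _)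
    _ = n2 f r := one_mul _

/-- limits of increasing sequences of projections -/
theorem exists_sup_seq (hM : TrAlg f M) (u : ℕ → 𝔸) (hu : ∀ n, u n ∈ M) (huP : ∀ n, Pj (u n))
    (hmono : ∀ n, u n * u (n + 1) = u n) :
    ∃ q ∈ M, Pj q ∧ T2 f atTop u q ∧ ∀ n, u n * q = u n := by
  have hm1 : Monotone u := monotone_nat_of_le_succ fun n => pj_le (huP _) (huP _) (hmono n)
  have hm2 : ∀ m n, m ≤ n → u m * u n = u m := fun m n h =>
    pj_le_of_le (huP m) (huP n) (hm1 h)
  obtain ⟨q, hq, _, huq⟩ := hM.exists_lim_of_mono u hu 1 (fun n => (huP n).norm_le) u hm1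
    (fun n => (huP n).nonneg) (fun n => (huP n).le_one) (by
      intro m n hmn
      have h1 : Pj (u n - u m) := (huP n).sub (huP m) (hm2 m n hmn)
      exact h1.n2_sq.le)
  refine ⟨q, hq, hM.pj_of_T2 hu hq huP huq, huq, fun n => ?_⟩
  refine hM.T2_unique (mul_mem (hu n) hq) (hu n)
    (l := atTop) (u := fun k => u n * u k) (huq.const_mul _) ?_
  have : (fun k => n2 f (u n * u k - u n)) =ᶠ[atTop] fun _ => 0 := by
    filter_upwards [eventually_ge_atTop n] with k hk
    rw [hm2 n k hk, sub_self, n2_zero]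
  unfold T2
  rw [tendsto_congr' this]
  exact tendsto_const_nhds

theorem exists_small (hM : TrAlg f M) {p : 𝔸} (hs : Splits M p) {q : 𝔸} (hq : q ∈ M)
    (hqP : Pj q) (hqp : q * p = q) (hq0 : q ≠ 0) {ε : ℝ} (hε : 0 < ε) :
    ∃ r ∈ M, Pj r ∧ r * q = r ∧ r ≠ 0 ∧ (f r).re ≤ ε := by
  have key : ∀ n : ℕ, ∃ r ∈ M, Pj r ∧ r * q = r ∧ r ≠ 0 ∧ (f r).re ≤ (f q).re / 2 ^ n := by
    intro n
    induction n with
    | zero => exact ⟨q, hq, hqP, hqP.2, hq0, by simp⟩
    | succ n ih =>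
      obtain ⟨r, hr, hrP, hrq, hr0, hrn⟩ := ih
      obtain ⟨s, hsM, hsP, hsr, hs0, hsne⟩ := hs r hr hrP (by rw [← hrq, mul_assoc, hqp]) hr0
      have h1 : Pj (r - s) := hrP.sub hsP hsr
      have h2 : r * s = s := hrP.comm_of_le hsP hsr
      have h3 : (r - s) * r = r - s := by rw [sub_mul, hrP.2, hsr]
      have h4 : (f (r - s)).re = (f r).re - (f s).re := by rw [map_sub, Complex.sub_re]
      rcases le_total (f s).re ((f r).re / 2) with h | h
      · refine ⟨s, hsM, hsP, by rw [← hsr, mul_assoc, hrq], hs0, ?_⟩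
        calc (f s).re ≤ (f r).re / 2 := h
          _ ≤ ((f q).re / 2 ^ n) / 2 := by linarith
          _ = (f q).re / 2 ^ (n + 1) := by rw [pow_succ]; field_simp
      · refine ⟨r - s, sub_mem hr hsM, h1, by rw [← h3, mul_assoc, hrq], ?_, ?_⟩
        · intro h0; exact hsne (sub_eq_zero.1 h0).symm
        · calc (f (r - s)).re ≤ (f r).re / 2 := by linarith
            _ ≤ ((f q).re / 2 ^ n) / 2 := by linarith
            _ = (f q).re / 2 ^ (n + 1) := by rw [pow_succ]; field_simp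
  have hlim : Tendsto (fun n : ℕ => (f q).re / 2 ^ n) atTop (𝓝 0) :=
    tendsto_const_nhds.div_atTop (tendsto_pow_atTop_atTop_of_one_lt (by norm_num))
  obtain ⟨n, hn⟩ := (hlim.eventually (gt_mem_nhds hε)).exists
  obtain ⟨r, h1, h2, h3, h4, h5⟩ := key n
  exact ⟨r, h1, h2, h3, h4, h5.trans hn.le⟩

/-- intermediate values -/
theorem exists_half (hM' : TrAlg f M') (hM : TrAlg f M) (hle : M ≤ M') {p : 𝔸} (hp : p ∈ M)
    (hpP : Pj p) (hs : Splits M p) {e : 𝔸} (he : e ∈ M') (heP : Pj e) (hep : e * p = e) {t : ℝ}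
    (ht0 : 0 ≤ t) (ht : t ≤ (f e).re) :
    ∃ q ∈ M, Pj q ∧ q * p = q ∧ (f (e * q)).re = t := by
  let X := {q : 𝔸 // q ∈ M ∧ Pj q ∧ q * p = q ∧ (f (e * q)).re ≤ t}
  obtain ⟨⟨q, hqM, hqP, hqp, hqt⟩, _, hmax⟩ := exhaust (X := X) (fun x y => x.1 * y.1 = x.1)
    (fun x => x.2.2.1.2) (fun x y z h1 h2 => by
      show x.1 * z.1 = x.1
      rw [← h1, mul_assoc, h2]) (fun x => (f x.1).re)
    (fun x y h => f_re_mono (pj_le y.2.2.1 x.2.2.1 h)) 1
    (fun x => by
      have := f_re_mono (f := f) x.2.2.1.le_one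
      rwa [hM.one, Complex.one_re] at this)
    (fun u hu => by
      obtain ⟨q, hq, hqP, huq, hle'⟩ := hM.exists_sup_seq (fun n => (u n).1) (fun n => (u n).2.1)
        (fun n => (u n).2.2.1) hu
      refine ⟨⟨q, hq, hqP, ?_, ?_⟩, hle'⟩
      · have h1 := hM.T2_mul_const (fun n => (u n).2.1) hq hp huq
        exact hM.T2_unique (mul_mem hq hp) hq h1 (huq.congr' fun n => ((u n).2.2.2.1).symm)
      · have h1 := (huq.const_mul e).tendsto_f hM.one
        have h2 := (Complex.continuous_re.tendsto _).comp h1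
        exact le_of_tendsto h2 (Eventually.of_forall fun n => (u n).2.2.2.2))
    ⟨0, zero_mem _, Pj.zero, zero_mul _, by rw [mul_zero, map_zero]; simpa using ht0⟩
  refine ⟨q, hqM, hqP, hqp, le_antisymm hqt ?_⟩
  by_contra hlt
  push Not at hlt
  have hpq : p - q ≠ 0 := by
    intro h0
    rw [sub_eq_zero] at h0
    rw [← h0, hep] at hlt
    linarith
  have hpqP : Pj (p - q) := hpP.sub hqP hqp
  have hpq2 : p * q = q := hpP.comm_of_le hqP hqp
  obtain ⟨r, hr, hrP, hrq, hr0, hrn⟩ := hM.exists_small hs (sub_mem hp hqM) hpqP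
    (by rw [sub_mul, hpP.2, hqp]) hpq (sub_pos.2 hlt)
  have hrq0 : r * q = 0 := by
    rw [← hrq, mul_assoc, sub_mul, hpq2, hqP.2, sub_self, mul_zero]
  have hqr0 : q * r = 0 := by
    have := congrArg star hrq0
    rwa [star_mul, hrP.1, hqP.1, star_zero] at this
  have hrp : r * p = r := by
    rw [← hrq, mul_assoc, sub_mul, hpP.2, hqp]
  have hfe : (f (e * (q + r))).re ≤ t := by
    rw [mul_add, map_add, Complex.add_re]
    have := hM'.f_mul_pj_le he (hle hr) heP hrP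
    linarith
  have h2 := hmax ⟨q + r, add_mem hqM hr, hqP.add hrP hqr0, by rw [add_mul, hqp, hrp], hfe⟩ (by
    show q * (q + r) = q
    rw [mul_add, hqP.2, hqr0, add_zero])
  have h3 : (f (q + r)).re = (f q).re := h2
  rw [map_add, Complex.add_re] at h3
  have h4 := hM.f_pos_of_ne hr hrP hr0
  linarith

theorem eq_zero_of_f_eq_zero (hM : TrAlg f M) {x : 𝔸} (hx : x ∈ M) (hx0 : 0 ≤ x)
    (h : (f x).re = 0) : x = 0 := by
  have h1 : n2 f (cfc Real.sqrt x) ^ 2 = 0 := by
    rw [n2_sq_re, (cfc_sa _ _).star_eq, cfc_mul_self_eq hx0, h]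
  have h2 : cfc Real.sqrt x = 0 :=
    hM.faithful _ (hM.cfc_mem hx _) (pow_eq_zero_iff two_ne_zero |>.1 h1)
  rw [← cfc_mul_self_eq hx0, h2, mul_zero]

theorem scalar_of_minimal (hM : TrAlg f M) {p : 𝔸} (hp : p ∈ M) (hpP : Pj p) (hp0 : p ≠ 0)
    (hmin : ∀ r ∈ M, Pj r → r * p = r → r = 0 ∨ r = p) {y : 𝔸} (hy : y ∈ M)
    (hysa : star y = y) (hyp : y * p = y) : y = (((f y).re / (f p).re : ℝ) : ℂ) • p := by
  have hfp := hM.f_pos_of_ne hp hpP hp0
  set c : ℝ := (f y).re / (f p).re with hc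
  have hpy : p * y = y := by
    have := congrArg star hyp
    rwa [star_mul, hpP.1, hysa] at this
  set b : 𝔸 := y - (c : ℂ) • p with hb
  have hbM : b ∈ M := sub_mem hy (M.smul_mem hp _)
  have hbsa : IsSelfAdjoint b := by
    show star b = b
    rw [hb, star_sub, star_smul, hysa, hpP.1]
    simp
  have hbw : b * (1 - p) = 0 := by
    rw [hb, mul_sub, mul_one, sub_mul, smul_mul_assoc, hyp, hpP.2, sub_self]
  have hfb : (f b).re = 0 := by
    rw [hb, map_sub, map_smul, Complex.sub_re, smul_eq_mul, Complex.re_ofReal_mul, hc,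
      div_mul_cancel₀ _ hfp.ne', sub_self]
  have gen : ∀ g : ℝ → ℝ, Continuous g →
      (∃ k : ℝ → ℝ, Continuous k ∧ ∀ t, g t * g t = k t * t) → cfc g b * (1 - p) = 0 := by
    rintro g hg ⟨k, hk, hgk⟩
    apply eq_zero_of_star_mul_self
    rw [star_mul, (cfc_sa _ _).star_eq, hpP.compl.1]
    have e : (1 - p) * cfc g b * (cfc g b * (1 - p)) = (1 - p) * (cfc g b * cfc g b) * (1 - p) := by
      noncomm_ring
    have e2 : cfc g b * cfc g b = cfc k b * b := by
      conv_rhs => rw [show cfc k b * b = cfc k b * cfc (fun t : ℝ => t) b by rw [cfc_of_id hbsa]]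
      rw [← cfc_mul g g b hg.continuousOn hg.continuousOn,
        ← cfc_mul k (fun t : ℝ => t) b hk.continuousOn continuousOn_id]
      apply cfc_congr
      intro t _
      exact hgk t
    rw [e, e2, mul_assoc, mul_assoc, hbw, mul_zero, mul_zero]
  set bp := cfc (fun t : ℝ => max t 0) b with hbp
  set bm := cfc (fun t : ℝ => max (-t) 0) b with hbm
  have hcp : Continuous fun t : ℝ => max t 0 := continuous_id.max continuous_const
  have hcm : Continuous fun t : ℝ => max (-t) 0 := continuous_neg.max continuous_const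
  have hbpM : bp ∈ M := hM.cfc_mem hbM _
  have hbmM : bm ∈ M := hM.cfc_mem hbM _
  have hbp0 : 0 ≤ bp := cfc_nonneg fun t _ => le_max_right _ _
  have hbm0 : 0 ≤ bm := cfc_nonneg fun t _ => le_max_right _ _
  have hbpw : bp * (1 - p) = 0 := gen _ hcp ⟨fun t => max t 0, hcp, fun t => by
    show max t 0 * max t 0 = max t 0 * t
    rcases le_total 0 t with h | h
    · rw [max_eq_left h]
    · rw [max_eq_right h]; ring⟩
  have hbmw : bm * (1 - p) = 0 := gen _ hcm
    ⟨fun t => -max (-t) 0, hcm.neg, fun t => by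
      show max (-t) 0 * max (-t) 0 = -max (-t) 0 * t
      rcases le_total 0 t with h | h
      · rw [max_eq_right (show -t ≤ 0 by linarith)]; ring
      · rw [max_eq_left (show 0 ≤ -t by linarith)]; ring⟩
  have hbpm : b = bp - bm := by
    rw [hbp, hbm, ← cfc_sub (fun t : ℝ => max t 0) (fun t : ℝ => max (-t) 0) b
      hcp.continuousOn hcm.continuousOn]
    conv_lhs => rw [← cfc_of_id hbsa]
    apply cfc_congr
    intro t _
    show t = max t 0 - max (-t) 0
    rcases le_total 0 t with ht | ht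
    · rw [max_eq_left ht, max_eq_right (by linarith)]; ring
    · rw [max_eq_right ht, max_eq_left (by linarith)]; ring
  have hpm0 : bp * bm = 0 := by
    rw [hbp, hbm, ← cfc_mul (fun t : ℝ => max t 0) (fun t : ℝ => max (-t) 0) b
      hcp.continuousOn hcm.continuousOn]
    rw [show (0 : 𝔸) = cfc (fun _ : ℝ => (0 : ℝ)) b by rw [cfc_const_zero]]
    apply cfc_congr
    intro t _
    show max t 0 * max (-t) 0 = 0
    rcases le_total 0 t with ht | ht
    · rw [max_eq_right (show -t ≤ 0 by linarith), mul_zero]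
    · rw [max_eq_right ht, zero_mul]
  obtain ⟨s, hsM, hsP, hsb, hbs, _, hsr, _⟩ := hM.exists_support hM le_rfl hbpM hbp0
  have hsw : s * (1 - p) = 0 := hsr _ (sub_mem (one_mem _) hp) hbpw
  have hsp : s * p = s := by
    rw [mul_sub, mul_one, sub_eq_zero] at hsw
    exact hsw.symm
  have hb0 : b = 0 := by
    rcases hmin s hsM hsP hsp with h0 | h0
    · have h1 : bp = 0 := by rw [← hsb, h0, zero_mul]
      have h2 : (f bm).re = 0 := by
        rw [hbpm, h1, zero_sub, map_neg, Complex.neg_re] at hfb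
        linarith
      rw [hbpm, h1, hM.eq_zero_of_f_eq_zero hbmM hbm0 h2, sub_zero]
    · have h1 : p * bm = 0 := by rw [← h0]; exact hsr bm hbmM hpm0
      have h2 : bm = 0 := by
        have h3 : bm = bm * p := by
          rw [mul_sub, mul_one, sub_eq_zero] at hbmw; exact hbmw
        have h4 := congrArg star h1
        rw [star_mul, (cfc_sa _ _).star_eq, hpP.1, star_zero] at h4
        rw [h3, h4]
      have h5 : (f bp).re = 0 := by
        rw [hbpm, h2, sub_zero] at hfb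
        exact hfb
      rw [hbpm, h2, hM.eq_zero_of_f_eq_zero hbpM hbp0 h5, sub_zero]
  exact sub_eq_zero.1 hb0

theorem splits_of_partitions (hM : TrAlg f M) {z : 𝔸}
    (h : ∀ ε > 0, ∃ (n : ℕ) (c : ℕ → 𝔸), (∀ i < n, c i ∈ M ∧ Pj (c i) ∧ (f (c i)).re ≤ ε) ∧
      ∑ i ∈ Finset.range n, c i = z) : Splits M z := by
  intro p hp hpP hpz hp0
  by_contra hcon
  have hmin : ∀ r ∈ M, Pj r → r * p = r → r = 0 ∨ r = p := by
    intro r hr hrP hrp
    by_contra h2
    push Not at h2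
    exact hcon ⟨r, hr, hrP, hrp, h2.1, h2.2⟩
  have hfp := hM.f_pos_of_ne hp hpP hp0
  obtain ⟨n, c, hc, hsum⟩ := h ((f p).re / 2) (by linarith)
  have hsc : ∀ i < n, p * c i * p = (((f (p * c i * p)).re / (f p).re : ℝ) : ℂ) • p := by
    intro i hi
    refine hM.scalar_of_minimal hp hpP hp0 hmin (mul_mem (mul_mem hp (hc i hi).1) hp) ?_ ?_
    · rw [star_mul, star_mul, hpP.1, (hc i hi).2.1.1]; noncomm_ring
    · rw [mul_assoc, hpP.2]
  have h1 : ∑ i ∈ Finset.range n, p * c i * p = p := by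
    rw [← Finset.sum_mul, ← Finset.mul_sum, hsum, hpz, hpP.2]
  obtain ⟨i, hi, hne⟩ : ∃ i < n, (f (p * c i * p)).re ≠ 0 := by
    by_contra hall
    push Not at hall
    apply hp0
    rw [← h1]
    apply Finset.sum_eq_zero
    intro i hi
    rw [hsc i (Finset.mem_range.1 hi), hall i (Finset.mem_range.1 hi)]
    simp
  set lam : ℝ := (f (p * c i * p)).re / (f p).re with hlam
  have hlam0 : lam ≠ 0 := div_ne_zero hne hfp.ne'
  have hlamC : (lam : ℂ) ≠ 0 := by exact_mod_cast hlam0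
  have hci := hc i hi
  set w : 𝔸 := ((lam : ℂ)⁻¹) • (c i * p * c i) with hw
  have hwP : Pj w := by
    constructor
    · rw [hw, star_smul, star_mul, star_mul, hpP.1, hci.2.1.1, ← mul_assoc]
      congr 1
      simp
    · rw [hw, smul_mul_smul_comm]
      have e : c i * p * c i * (c i * p * c i) = c i * (p * c i * p) * c i := by
        calc c i * p * c i * (c i * p * c i) = c i * p * (c i * c i) * p * c i := by noncomm_ring
          _ = c i * p * c i * p * c i := by rw [hci.2.1.2]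
          _ = _ := by noncomm_ring
      rw [e, hsc i hi, mul_smul_comm, smul_mul_assoc, smul_smul]
      congr 1
      rw [← hlam]; field_simp
  have hwc : w * c i = w := by rw [hw, smul_mul_assoc, mul_assoc, hci.2.1.2]
  have hwM : w ∈ M := M.smul_mem (mul_mem (mul_mem hci.1 hp) hci.1) _
  have hfw : (f w).re = (f p).re := by
    have e1 : f (c i * p * c i) = f (p * c i * p) := by
      rw [mul_assoc, hM.comm _ hci.1 _ (mul_mem hp hci.1), mul_assoc p (c i) (c i), hci.2.1.2,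
        mul_assoc p (c i) p, hM.comm p hp _ (mul_mem hci.1 hp), mul_assoc, hpP.2,
        hM.comm _ hp _ hci.1]
    have e2 : f (p * c i * p) = (lam : ℂ) * f p := by
      conv_lhs => rw [hsc i hi]
      rw [map_smul, smul_eq_mul]
    rw [hw, map_smul, e1, e2, smul_eq_mul, ← mul_assoc, inv_mul_cancel₀ hlamC, one_mul]
  have h2 : (f w).re ≤ (f (c i)).re := f_re_mono (pj_le hci.2.1 hwP hwc)
  linarith [hci.2.2]

end TrAlg

theorem sum_range_double {α : Type*} [AddCommMonoid α] (g : ℕ → α) (n : ℕ) :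
    ∑ i ∈ Finset.range (2 * n), g i = ∑ i ∈ Finset.range n, (g (2 * i) + g (2 * i + 1)) := by
  induction n with
  | zero => simp
  | succ n ih =>
    rw [show 2 * (n + 1) = 2 * n + 1 + 1 by ring, Finset.sum_range_succ, Finset.sum_range_succ, ih,
      Finset.sum_range_succ, add_assoc]

/-- binary trees -/
theorem exists_tree {α : Type*} [AddCommGroup α] (S : Set α) (R : ℕ → α → α → Prop) (z : α)
    (hz : z ∈ S) (h0 : (0 : α) ∈ S)
    (hsp : ∀ k, ∀ q ∈ S, ∃ r ∈ S, q - r ∈ S ∧ R k q r) :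
    ∃ e : ℕ → ℕ → α, e 0 0 = z ∧ (∀ k i, e k i ∈ S) ∧
      (∀ k i, e (k + 1) (2 * i) + e (k + 1) (2 * i + 1) = e k i) ∧
      ∀ k i, R k (e k i) (e (k + 1) (2 * i)) := by
  classical
  have hsp' : ∀ k (q : S), ∃ r : S, q.1 - r.1 ∈ S ∧ R k q.1 r.1 := by
    intro k q
    obtain ⟨r, h1, h2, h3⟩ := hsp k q.1 q.2
    exact ⟨⟨r, h1⟩, h2, h3⟩
  choose sp hsp1 hsp2 using hsp'
  set T : ℕ → ℕ → S := fun k => Nat.rec (fun i => if i = 0 then ⟨z, hz⟩ else ⟨0, h0⟩)
    (fun k Tk i => if i % 2 = 0 then sp k (Tk (i / 2)) else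
      ⟨(Tk (i / 2)).1 - (sp k (Tk (i / 2))).1, hsp1 k _⟩) k with hT
  have hT1 : ∀ k i, T (k + 1) (2 * i) = sp k (T k i) := by
    intro k i
    show (if (2 * i) % 2 = 0 then sp k (T k (2 * i / 2)) else _) = _
    rw [if_pos (by omega)]
    congr 2; omega
  have hT2 : ∀ k i, (T (k + 1) (2 * i + 1)).1 = (T k i).1 - (sp k (T k i)).1 := by
    intro k i
    show (if (2 * i + 1) % 2 = 0 then sp k (T k ((2 * i + 1) / 2)) else
      ⟨(T k ((2 * i + 1) / 2)).1 - (sp k (T k ((2 * i + 1) / 2))).1, hsp1 k _⟩ : S).1 = _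
    rw [if_neg (by omega)]
    have : (2 * i + 1) / 2 = i := by omega
    rw [this]
  refine ⟨fun k i => (T k i).1, ?_, fun k i => (T k i).2, ?_, ?_⟩
  · show (if (0 : ℕ) = 0 then (⟨z, hz⟩ : S) else ⟨0, h0⟩).1 = z
    simp
  · intro k i
    show (T (k + 1) (2 * i)).1 + (T (k + 1) (2 * i + 1)).1 = (T k i).1
    rw [hT1, hT2]; abel
  · intro k i
    show R k (T k i).1 (T (k + 1) (2 * i)).1
    rw [hT1]
    exact hsp2 k _

theorem tree_sum {α : Type*} [AddCommGroup α] {e : ℕ → ℕ → α} {z : α} (h0 : e 0 0 = z)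
    (h1 : ∀ k i, e (k + 1) (2 * i) + e (k + 1) (2 * i + 1) = e k i) (k : ℕ) :
    ∑ i ∈ Finset.range (2 ^ k), e k i = z := by
  induction k with
  | zero => simpa using h0
  | succ k ih =>
    rw [pow_succ, mul_comm, sum_range_double, ← ih]
    exact Finset.sum_congr rfl fun i _ => h1 k i

end Pool.Agent.Lib.MP_f5929e_an
end
end
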