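import Mathlib
import Pool.Agent.Lib.MP_f5929e_an.Polar
import Pool.Agent.Lib.MP_f5929e_an.Split

section

/-!
Averaging: elements of minimal 2-norm in convex hulls of conjugates.
-/

namespace Pool.Agent.Lib.MP_f5929e_an

set_option linter.unusedSectionVars false

open scoped ComplexOrder InnerProductSpace
open Filter Topology

variable {𝔸 : Type*} [CStarAlgebra 𝔸] [PartialOrder 𝔸] [StarOrderedRing 𝔸]
variable {f : 𝔸 →ₚ[ℂ] ℂ} {M : StarSubalgebra ℂ 𝔸}

/-- unitary elements -/
def Un (g : 𝔸) : Prop := star g * g = 1 ∧ g * star g = 1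

theorem Un.one : Un (1 : 𝔸) := by simp [Un]

theorem Un.mul {g h : 𝔸} (hg : Un g) (hh : Un h) : Un (g * h) := by
  constructor
  · rw [star_mul, show star h * star g * (g * h) = star h * (star g * g) * h by noncomm_ring,
      hg.1, mul_one, hh.1]
  · rw [star_mul, show g * h * (star h * star g) = g * (h * star h) * star g by noncomm_ring,
      hh.2, mul_one, hg.2]

theorem Un.star {g : 𝔸} (hg : Un g) : Un (star g) := by
  refine ⟨?_, ?_⟩
  · rw [star_star]; exact hg.2
  · rw [star_star]; exact hg.1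

theorem Un.norm_le {g : 𝔸} (hg : Un g) : ‖g‖ ≤ 1 := by
  rcases subsingleton_or_nontrivial 𝔸 with h | h
  · rw [Subsingleton.elim g 0, norm_zero]; exact zero_le_one
  · have := CStarRing.norm_star_mul_self (x := g)
    rw [hg.1, norm_one] at this
    nlinarith [norm_nonneg g]

theorem Un.of_pj {p : 𝔸} (hp : Pj p) : Un (2 * p - 1) := by
  have h1 : Star.star (2 * p - 1) = 2 * p - 1 := by
    rw [star_sub, star_mul, hp.1, star_one]
    have : Star.star (2 : 𝔸) = 2 := star_ofNat 2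
    rw [this]
    noncomm_ring
  have h2 : (2 * p - 1) * (2 * p - 1) = 1 := by
    have e : (2 * p - 1) * (2 * p - 1) = 4 * (p * p) - 4 * p + 1 := by noncomm_ring
    rw [e, hp.2]; abel
  exact ⟨by rw [h1, h2], by rw [h1, h2]⟩

theorem n2_conj_le {g x : 𝔸} (hM : TrAlg f M) (hg : Un g) (hgM : g ∈ M) (hx : x ∈ M) :
    n2 f (g * x * star g) ≤ n2 f x := by
  refine (hM.n2_mul_le' (mul_mem hgM hx) (star_mem hgM)).trans ?_
  rw [norm_star]
  calc n2 f (g * x) * ‖g‖ ≤ (‖g‖ * n2 f x) * ‖g‖ :=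
        mul_le_mul_of_nonneg_right (n2_mul_le _ _) (norm_nonneg _)
    _ ≤ (1 * n2 f x) * 1 := by
        apply mul_le_mul _ hg.norm_le (norm_nonneg _) (by rw [one_mul]; exact n2_nonneg _)
        exact mul_le_mul_of_nonneg_right hg.norm_le (n2_nonneg _)
    _ = n2 f x := by ring

theorem convex_n2_ball (x : 𝔸) (r : ℝ) : Convex ℝ {y : 𝔸 | n2 f (y - x) ≤ r} := by
  intro a ha b hb s t hs ht hst
  simp only [Set.mem_setOf_eq] at ha hb ⊢
  have e : s • a + t • b - x = s • (a - x) + t • (b - x) := by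
    have : x = s • x + t • x := by rw [← add_smul, hst, one_smul]
    conv_lhs => rw [this]
    simp only [smul_sub]; abel
  rw [e]
  refine (n2_add_le _ _).trans ?_
  have h1 : n2 f (s • (a - x)) = s * n2 f (a - x) := by
    rw [← Complex.coe_smul, n2_smul, Complex.norm_real, Real.norm_eq_abs, abs_of_nonneg hs]
  have h2 : n2 f (t • (b - x)) = t * n2 f (b - x) := by
    rw [← Complex.coe_smul, n2_smul, Complex.norm_real, Real.norm_eq_abs, abs_of_nonneg ht]
  rw [h1, h2]
  calc s * n2 f (a - x) + t * n2 f (b - x) ≤ s * r + t * r :=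
        add_le_add (mul_le_mul_of_nonneg_left ha hs) (mul_le_mul_of_nonneg_left hb ht)
    _ = r := by rw [← add_mul, hst, one_mul]

theorem convex_mem (M : StarSubalgebra ℂ 𝔸) : Convex ℝ (M : Set 𝔸) := by
  intro a ha b hb s t _ _ _
  have h1 : s • a ∈ M := by rw [← Complex.coe_smul]; exact M.smul_mem ha _
  have h2 : t • b ∈ M := by rw [← Complex.coe_smul]; exact M.smul_mem hb _
  exact M.add_mem h1 h2

theorem convex_f_eq (c : ℂ) : Convex ℝ {y : 𝔸 | f y = c} := by
  intro a ha b hb s t _ _ hst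
  simp only [Set.mem_setOf_eq] at ha hb ⊢
  rw [map_add, ← Complex.coe_smul, ← Complex.coe_smul, map_smul, map_smul, ha, hb, ← add_smul,
    ← Complex.ofReal_add, hst, Complex.ofReal_one, one_smul]

/-- the conjugates of `x` -/
def conj (x : 𝔸) (G : Set 𝔸) : Set 𝔸 := (fun g => g * x * star g) '' G

theorem TrAlg.exists_avg (hM : TrAlg f M) {x : 𝔸} (hx : x ∈ M) (G : ℝ → Set 𝔸)
    (hG1 : ∀ η > 0, (1 : 𝔸) ∈ G η) (hGmono : ∀ η η', 0 < η → η ≤ η' → G η ⊆ G η')
    (hGmul : ∀ η η', 0 < η → 0 < η' → ∀ g ∈ G η, ∀ h ∈ G η', g * h ∈ G (η + η'))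
    (hGM : ∀ η > 0, ∀ g ∈ G η, g ∈ M ∧ Un g) :
    ∃ c ∈ M, ‖c‖ ≤ ‖x‖ ∧ (∀ ε > 0, ∃ η > 0, ∀ h ∈ G η, n2 f (h * c * star h - c) ≤ ε) ∧
      (∀ η > 0, ∀ r, (∀ g ∈ G η, n2 f (g * x * star g - x) ≤ r) → n2 f (c - x) ≤ r) ∧
      f c = f x ∧ ∃ u : ℕ → 𝔸, (∀ n, u n ∈ convexHull ℝ (conj x (G 1))) ∧ T2 f atTop u c := by
  set C : ℝ → Set 𝔸 := fun η => convexHull ℝ (conj x (G η)) with hC
  set δ : ℕ → ℝ := fun k => 1 / ((k : ℝ) + 1) with hδ
  have hδpos : ∀ k, 0 < δ k := fun k => by rw [hδ]; positivity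
  have hδ0 : Tendsto δ atTop (𝓝 0) := tendsto_one_div_nat
  have hxC : ∀ η > 0, x ∈ C η := fun η hη =>
    subset_convexHull _ _ ⟨1, hG1 η hη, by simp⟩
  have hCmono : ∀ η η', 0 < η → η ≤ η' → C η ⊆ C η' := fun η η' h h' =>
    convexHull_mono (Set.image_mono (hGmono η η' h h'))
  have hCM : ∀ η > 0, C η ⊆ M := by
    intro η hη
    apply convexHull_min _ (convex_mem M)
    rintro _ ⟨g, hg, rfl⟩
    have h1 := hGM η hη g hg
    exact mul_mem (mul_mem h1.1 hx) (star_mem h1.1)
  have hCnorm : ∀ η > 0, ∀ y ∈ C η, ‖y‖ ≤ ‖x‖ := by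
    intro η hη
    have : C η ⊆ Metric.closedBall 0 ‖x‖ := by
      apply convexHull_min _ (convex_closedBall _ _)
      rintro _ ⟨g, hg, rfl⟩
      have h1 := (hGM η hη g hg).2
      rw [mem_closedBall_zero_iff]
      calc ‖g * x * star g‖ ≤ ‖g‖ * ‖x‖ * ‖star g‖ := (norm_mul_le _ _).trans
            (mul_le_mul_of_nonneg_right (norm_mul_le _ _) (norm_nonneg _))
        _ ≤ 1 * ‖x‖ * 1 := by
            rw [norm_star]
            apply mul_le_mul _ h1.norm_le (norm_nonneg _) (by positivity)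
            exact mul_le_mul_of_nonneg_right h1.norm_le (norm_nonneg _)
        _ = ‖x‖ := by ring
    intro y hy
    exact mem_closedBall_zero_iff.1 (this hy)
  have hCf : ∀ η > 0, ∀ y ∈ C η, f y = f x := by
    intro η hη
    have : C η ⊆ {y | f y = f x} := by
      apply convexHull_min _ (convex_f_eq _)
      rintro _ ⟨g, hg, rfl⟩
      have h1 := hGM η hη g hg
      show f (g * x * star g) = f x
      rw [hM.comm _ (mul_mem h1.1 hx) _ (star_mem h1.1), ← mul_assoc, h1.2.1, one_mul]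
    exact this
  have hconjC : ∀ η η', 0 < η → 0 < η' → ∀ h ∈ G η, ∀ y ∈ C η', h * y * star h ∈ C (η + η') := by
    intro η η' hη hη' h hh
    have : C η' ⊆ {y | h * y * star h ∈ C (η + η')} := by
      apply convexHull_min
      · rintro _ ⟨g, hg, rfl⟩
        apply subset_convexHull
        refine ⟨h * g, hGmul η η' hη hη' h hh g hg, ?_⟩
        show h * g * x * star (h * g) = h * (g * x * star g) * star h
        rw [star_mul]; noncomm_ring
      · intro a ha b hb s t hs ht hst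
        have e : h * (s • a + t • b) * star h = s • (h * a * star h) + t • (h * b * star h) := by
          simp only [mul_add, add_mul, mul_smul_comm, smul_mul_assoc]
        show h * (s • a + t • b) * star h ∈ C (η + η')
        rw [e]
        exact convex_convexHull ℝ _ ha hb hs ht hst
    exact fun y hy => this hy
  set m : ℝ → ℝ := fun η => sInf (n2 f '' C η) with hm
  have hbdd : ∀ η, BddBelow (n2 f '' C η) := fun η => ⟨0, by rintro _ ⟨y, _, rfl⟩; exact n2_nonneg _⟩
  have hmle : ∀ η, ∀ y ∈ C η, m η ≤ n2 f y := fun η y hy => csInf_le (hbdd η) ⟨y, hy, rfl⟩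
  have hm0 : ∀ η > 0, 0 ≤ m η := fun η hη =>
    le_csInf ⟨_, x, hxC η hη, rfl⟩ (by rintro _ ⟨y, _, rfl⟩; exact n2_nonneg _)
  have hmanti : ∀ η η', 0 < η → η ≤ η' → m η' ≤ m η := by
    intro η η' h h'
    exact csInf_le_csInf (hbdd η') ⟨_, x, hxC η h, rfl⟩ (Set.image_mono (hCmono η η' h h'))
  set a : ℕ → ℝ := fun k => m (δ k) with ha
  have hamono : Monotone a := by
    intro k l hkl
    apply hmanti _ _ (hδpos l)
    rw [hδ]
    apply one_div_le_one_div_of_le (by positivity)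
    have : (k : ℝ) ≤ l := by exact_mod_cast hkl
    linarith
  have habdd : ∀ k, a k ≤ n2 f x := fun k => hmle _ x (hxC _ (hδpos k))
  set m₀ : ℝ := ⨆ k, a k with hm₀
  have halim : Tendsto a atTop (𝓝 m₀) :=
    tendsto_atTop_ciSup hamono ⟨n2 f x, by rintro _ ⟨n, rfl⟩; exact habdd n⟩
  have ham₀ : ∀ k, a k ≤ m₀ := fun k => hamono.ge_of_tendsto halim k
  have ha0 : ∀ k, 0 ≤ a k := fun k => hm0 _ (hδpos k)
  have hm₀0 : 0 ≤ m₀ := (ha0 0).trans (ham₀ 0)
  have hmm₀ : ∀ η > 0, m η ≤ m₀ := by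
    intro η hη
    obtain ⟨k, hk⟩ := (hδ0.eventually (gt_mem_nhds hη)).exists
    exact (hmanti _ _ (hδpos k) hk.le).trans (ham₀ k)
  -- almost minimal elements
  have hex : ∀ k, ∃ y ∈ C (δ k), n2 f y ≤ a k + δ k := by
    intro k
    obtain ⟨_, ⟨y, hy, rfl⟩, h2⟩ := exists_lt_of_csInf_lt
      (s := n2 f '' C (δ k)) ⟨_, x, hxC _ (hδpos k), rfl⟩
      (show sInf (n2 f '' C (δ k)) < a k + δ k by
        show m (δ k) < m (δ k) + δ k
        linarith [hδpos k])
    exact ⟨y, hy, h2.le⟩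
  choose y hyC hyn using hex
  have hyM : ∀ k, y k ∈ M := fun k => hCM _ (hδpos k) (hyC k)
  have hhalf : ∀ η, ∀ p ∈ C η, ∀ q ∈ C η, 2 * m η ≤ n2 f (p + q) := by
    intro η p hp q hq
    have h1 : (2 : ℝ)⁻¹ • p + (2 : ℝ)⁻¹ • q ∈ C η :=
      convex_convexHull ℝ _ hp hq (by norm_num) (by norm_num) (by norm_num)
    have h2 := hmle η _ h1
    rw [← smul_add, ← Complex.coe_smul, n2_smul, Complex.norm_real] at h2
    norm_num at h2
    linarith
  have hδmono : ∀ k l, k ≤ l → δ l ≤ δ k := by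
    intro k l hkl
    rw [hδ]
    apply one_div_le_one_div_of_le (by positivity)
    have : (k : ℝ) ≤ l := by exact_mod_cast hkl
    linarith
  have hcau1 : ∀ k l, k ≤ l → n2 f (y k - y l) ^ 2 ≤
      2 * (a k + δ k) ^ 2 + 2 * (m₀ + δ k) ^ 2 - 4 * a k ^ 2 := by
    intro k l hkl
    have h1 := n2_parallelogram (f := f) (y k) (y l)
    have h2 := hhalf (δ k) (y k) (hyC k) (y l) (hCmono _ _ (hδpos l) (hδmono k l hkl) (hyC l))
    have h3 : n2 f (y l) ≤ m₀ + δ k := (hyn l).trans (add_le_add (ham₀ l) (hδmono k l hkl))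
    have h4 := hyn k
    have h5 := n2_nonneg (f := f) (y k)
    have h6 := n2_nonneg (f := f) (y l)
    have h7 : n2 f (y k) ^ 2 ≤ (a k + δ k) ^ 2 := pow_le_pow_left₀ h5 h4 2
    have h8 : n2 f (y l) ^ 2 ≤ (m₀ + δ k) ^ 2 := pow_le_pow_left₀ h6 h3 2
    have h9 : (2 * a k) ^ 2 ≤ n2 f (y k + y l) ^ 2 :=
      pow_le_pow_left₀ (by linarith [ha0 k]) h2 2
    nlinarith
  have hlim1 : Tendsto (fun k => 2 * (a k + δ k) ^ 2 + 2 * (m₀ + δ k) ^ 2 - 4 * a k ^ 2) atTop
      (𝓝 0) := by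
    have h1 : Tendsto (fun k => 2 * (a k + δ k) ^ 2 + 2 * (m₀ + δ k) ^ 2 - 4 * a k ^ 2) atTop
        (𝓝 (2 * (m₀ + 0) ^ 2 + 2 * (m₀ + 0) ^ 2 - 4 * m₀ ^ 2)) :=
      ((((halim.add hδ0).pow 2).const_mul 2).add
        (((tendsto_const_nhds.add hδ0).pow 2).const_mul 2)).sub ((halim.pow 2).const_mul 4)
    have h2 : 2 * (m₀ + 0) ^ 2 + 2 * (m₀ + 0) ^ 2 - 4 * m₀ ^ 2 = 0 := by ring
    rwa [h2] at h1
  obtain ⟨c, hcM, hcn, hyc⟩ := hM.complete y ‖x‖ hyM
    (fun k => hCnorm _ (hδpos k) _ (hyC k)) (by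
      intro ε hε
      obtain ⟨k₀, hk₀⟩ := eventually_atTop.1 (hlim1.eventually (gt_mem_nhds (sq_pos_of_pos hε)))
      refine ⟨k₀, ?_⟩
      have key : ∀ k ≥ k₀, ∀ l ≥ k₀, k ≤ l → n2 f (y k - y l) ≤ ε := by
        intro k hk l _ hkl
        exact (sq_le_sq₀ (n2_nonneg _) hε.le).1 ((hcau1 k l hkl).trans (hk₀ k hk).le)
      intro k hk l hl
      rcases le_total k l with h | h
      · exact key k hk l hl h
      · rw [n2_sub_comm]; exact key l hl k hk h)
  refine ⟨c, hcM, hcn, ?_, ?_, ?_, y, fun n => ?_, hyc⟩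
  · -- almost invariance
    intro ε hε
    have hmlim : ∃ η > 0, 4 * (m₀ ^ 2 - m (2 * η) ^ 2) ≤ ε ^ 2 := by
      have h1 : Tendsto (fun k => 4 * (m₀ ^ 2 - a k ^ 2)) atTop (𝓝 (4 * (m₀ ^ 2 - m₀ ^ 2))) :=
        (tendsto_const_nhds.sub (halim.pow 2)).const_mul 4
      rw [sub_self, mul_zero] at h1
      obtain ⟨k, hk⟩ := (h1.eventually (gt_mem_nhds (sq_pos_of_pos hε))).exists
      refine ⟨δ k / 2, by linarith [hδpos k], ?_⟩
      have : 2 * (δ k / 2) = δ k := by ring
      rw [this]; exact hk.le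
    obtain ⟨η, hη, hηε⟩ := hmlim
    refine ⟨η, hη, fun h hh => ?_⟩
    have hhM := hGM η hη h hh
    have h1 : T2 f atTop (fun k => h * y k * star h - y k) (h * c * star h - c) :=
      (hM.T2_mul_const (fun k => mul_mem hhM.1 (hyM k)) (mul_mem hhM.1 hcM) (star_mem hhM.1)
        (hyc.const_mul h)).sub hyc
    have h2 := h1.tendsto_n2
    have h3 : Tendsto (fun k => 4 * (m₀ + δ k) ^ 2 - 4 * m (2 * η) ^ 2) atTop
        (𝓝 (4 * (m₀ + 0) ^ 2 - 4 * m (2 * η) ^ 2)) :=
      (((tendsto_const_nhds.add hδ0).pow 2).const_mul 4).sub tendsto_const_nhds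
    have h4 : n2 f (h * c * star h - c) ^ 2 ≤ 4 * (m₀ + 0) ^ 2 - 4 * m (2 * η) ^ 2 := by
      refine le_of_tendsto_of_tendsto (h2.pow 2) h3 ?_
      filter_upwards [hδ0.eventually (gt_mem_nhds hη)] with k hk
      have e1 : y k ∈ C (2 * η) := hCmono _ _ (hδpos k) (by linarith) (hyC k)
      have e2 : h * y k * star h ∈ C (2 * η) := by
        have := hconjC η (δ k) hη (hδpos k) h hh (y k) (hyC k)
        exact hCmono _ _ (by linarith [hδpos k]) (by linarith) this
      have e3 := hhalf (2 * η) _ e2 _ e1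
      have e4 := n2_parallelogram (f := f) (h * y k * star h) (y k)
      have e5 := n2_conj_le hM hhM.2 hhM.1 (hyM k)
      have e6 : n2 f (y k) ≤ m₀ + δ k := (hyn k).trans (add_le_add (ham₀ k) le_rfl)
      have e7 := n2_nonneg (f := f) (y k)
      have e8 : n2 f (y k) ^ 2 ≤ (m₀ + δ k) ^ 2 := pow_le_pow_left₀ e7 e6 2
      have e9 : n2 f (h * y k * star h) ^ 2 ≤ n2 f (y k) ^ 2 :=
        pow_le_pow_left₀ (n2_nonneg _) e5 2
      have e10 : (2 * m (2 * η)) ^ 2 ≤ n2 f (h * y k * star h + y k) ^ 2 :=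
        pow_le_pow_left₀ (by linarith [hm0 (2 * η) (by linarith)]) e3 2
      nlinarith
    apply (sq_le_sq₀ (n2_nonneg _) hε.le).1
    nlinarith
  · -- distance
    intro η hη r hr
    have h1 : C η ⊆ {y | n2 f (y - x) ≤ r} := by
      apply convexHull_min _ (convex_n2_ball x r)
      rintro _ ⟨g, hg, rfl⟩
      exact hr g hg
    have h2 : T2 f atTop (fun k => y k - x) (c - x) := hyc.sub T2.const
    refine le_of_tendsto h2.tendsto_n2 ?_
    filter_upwards [hδ0.eventually (gt_mem_nhds hη)] with k hk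
    exact h1 (hCmono _ _ (hδpos k) hk.le (hyC k))
  · have h1 := hyc.tendsto_f hM.one
    have h2 : (fun k => f (y k)) = fun _ => f x := by
      funext k
      exact hCf _ (hδpos k) _ (hyC k)
    rw [h2] at h1
    exact (tendsto_nhds_unique tendsto_const_nhds h1).symm
  · refine hCmono _ _ (hδpos n) ?_ (hyC n)
    rw [hδ]
    show 1 / ((n : ℝ) + 1) ≤ 1
    rw [div_le_one (by positivity)]
    have : (0 : ℝ) ≤ n := Nat.cast_nonneg n
    linarith

end Pool.Agent.Lib.MP_f5929e_an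
end

section

section

/-!
The tracial ultrapower as an algebra of operators.
-/

namespace Pool.Agent.Lib.MP_f5929e_an

set_option linter.unusedSectionVars false

open scoped ComplexOrder InnerProductSpace
open Filter Topology

/-- countable saturation of a nonprincipal ultrafilter on `ℕ` -/
theorem sat {U : Ultrafilter ℕ} (hU : (U : Filter ℕ) ≤ atTop) {X : Type*} [Nonempty X]
    (P : ℕ → ℕ → X → Prop) (hanti : ∀ k j x, P (k + 1) j x → P k j x)
    (h : ∀ k, ∀ᶠ j in U, ∃ x, P k j x) : ∃ x : ℕ → X, ∀ k, ∀ᶠ j in U, P k j (x j) := by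
  classical
  have hanti' : ∀ k l j x, k ≤ l → P l j x → P k j x := by
    intro k l j x hkl
    induction l, hkl using Nat.le_induction with
    | base => exact id
    | succ n _ ih => exact fun h => ih (hanti _ _ _ h)
  set m : ℕ → ℕ := fun j => Nat.findGreatest (fun k => ∃ x, P k j x) j with hm
  refine ⟨fun j => if hx : ∃ x, P (m j) j x then hx.choose else Classical.arbitrary X, fun k => ?_⟩
  filter_upwards [h k, hU (eventually_ge_atTop k)] with j hj hkj
  have h1 : ∃ x, P (m j) j x := Nat.findGreatest_spec (P := fun k => ∃ x, P k j x) hkj hj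
  have h2 : k ≤ m j := Nat.le_findGreatest hkj hj
  show P k j (if hx : ∃ x, P (m j) j x then hx.choose else Classical.arbitrary X)
  rw [dif_pos h1]
  exact hanti' k _ j _ h2 h1.choose_spec

/-- the limit of a bounded sequence along an ultrafilter -/
noncomputable def ulim (U : Ultrafilter ℕ) (g : ℕ → ℂ) : ℂ := limUnder (U : Filter ℕ) g

theorem tendsto_ulim (U : Ultrafilter ℕ) {g : ℕ → ℂ} {C : ℝ} (hg : ∀ j, ‖g j‖ ≤ C) :
    Tendsto g U (𝓝 (ulim U g)) := by
  have h1 : (U.map g : Filter ℂ) ≤ 𝓟 (Metric.closedBall 0 C) := by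
    rw [le_principal_iff]
    exact Filter.mem_map.2 (univ_mem' fun j => by simpa using hg j)
  obtain ⟨x, _, hx⟩ := (isCompact_closedBall (0 : ℂ) C).ultrafilter_le_nhds (U.map g) h1
  have h2 : Tendsto g U (𝓝 x) := hx
  rw [ulim, h2.limUnder_eq]
  exact h2

variable {A : Type*} [CStarAlgebra A]

/-- bounded sequences in `A` -/
def Ell (A : Type*) [CStarAlgebra A] : Type _ := BoundedContinuousFunction ℕ A

noncomputable instance : CStarAlgebra (Ell A) :=
  inferInstanceAs (CStarAlgebra (BoundedContinuousFunction ℕ A))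

noncomputable instance : PartialOrder (Ell A) := CStarAlgebra.spectralOrder (Ell A)

instance : StarOrderedRing (Ell A) := CStarAlgebra.spectralOrderedRing (Ell A)

/-- the terms of a bounded sequence -/
noncomputable def ev (j : ℕ) : Ell A →⋆ₐ[ℂ] A where
  toFun x := DFunLike.coe (F := BoundedContinuousFunction ℕ A) x j
  map_one' := rfl
  map_mul' _ _ := rfl
  map_zero' := rfl
  map_add' _ _ := rfl
  commutes' _ := rfl
  map_star' _ := rfl

/-- a bounded sequence -/
noncomputable def mkE (x : ℕ → A) (C : ℝ) (h : ∀ j, ‖x j‖ ≤ C) : Ell A :=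
  BoundedContinuousFunction.ofNormedAddCommGroupDiscrete x C h

theorem ev_mkE (x : ℕ → A) (C : ℝ) (h : ∀ j, ‖x j‖ ≤ C) (j : ℕ) : ev j (mkE x C h) = x j := rfl

theorem norm_mkE (x : ℕ → A) {C : ℝ} (h : ∀ j, ‖x j‖ ≤ C) (hC : 0 ≤ C) : ‖mkE x C h‖ ≤ C :=
  BoundedContinuousFunction.norm_ofNormedAddCommGroup_le _ hC h

theorem norm_ev_le (x : Ell A) (j : ℕ) : ‖ev j x‖ ≤ ‖x‖ :=
  BoundedContinuousFunction.norm_coe_le_norm (x : BoundedContinuousFunction ℕ A) j

theorem ev_ext {x y : Ell A} (h : ∀ j, ev j x = ev j y) : x = y :=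
  BoundedContinuousFunction.ext h

/-- constant sequences -/
noncomputable def cst : A →⋆ₐ[ℂ] Ell A where
  toFun x := mkE (fun _ => x) ‖x‖ fun _ => le_rfl
  map_one' := rfl
  map_mul' _ _ := rfl
  map_zero' := rfl
  map_add' _ _ := rfl
  commutes' _ := rfl
  map_star' _ := rfl

theorem ev_cst (x : A) (j : ℕ) : ev j (cst x) = x := rfl

variable [PartialOrder A] [StarOrderedRing A] (τ : A →ₚ[ℂ] ℂ) (U : Ultrafilter ℕ)

theorem exists_bound : ∃ C : ℝ, 0 ≤ C ∧ ∀ a, ‖τ a‖ ≤ C * ‖a‖ := by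
  obtain ⟨C, hC⟩ := PositiveLinearMap.exists_norm_apply_le τ
  exact ⟨C, C.2, hC⟩

theorem bdd_ev (x : Ell A) : ∃ C : ℝ, ∀ j, ‖τ (ev j x)‖ ≤ C := by
  obtain ⟨C, hC0, hC⟩ := exists_bound τ
  exact ⟨C * ‖x‖, fun j => (hC _).trans (mul_le_mul_of_nonneg_left (norm_ev_le x j) hC0)⟩

theorem tendsto_ev (x : Ell A) :
    Tendsto (fun j => τ (ev j x)) U (𝓝 (ulim U fun j => τ (ev j x))) := by
  obtain ⟨C, hC⟩ := bdd_ev τ x
  exact tendsto_ulim U hC

/-- the limit trace on bounded sequences -/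
noncomputable def uTr : Ell A →ₚ[ℂ] ℂ :=
  PositiveLinearMap.mk₀
    { toFun := fun x => ulim U fun j => τ (ev j x)
      map_add' := fun x y => by
        have h1 := (tendsto_ev τ U x).add (tendsto_ev τ U y)
        have h2 := tendsto_ev τ U (x + y)
        refine tendsto_nhds_unique h2 (h1.congr fun j => ?_)
        rw [map_add, map_add]
      map_smul' := fun c x => by
        have h1 := (tendsto_ev τ U x).const_mul c
        have h2 := tendsto_ev τ U (c • x)
        refine tendsto_nhds_unique h2 (h1.congr fun j => ?_)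
        rw [map_smul, map_smul, smul_eq_mul] }
    (fun x hx => by
      have h1 := tendsto_ev τ U x
      refine ge_of_tendsto h1 (Eventually.of_forall fun j => ?_)
      exact f_nonneg (hom_nonneg (ev j) hx))

theorem tendsto_uTr (x : Ell A) : Tendsto (fun j => τ (ev j x)) U (𝓝 (uTr τ U x)) :=
  tendsto_ev τ U x

theorem tendsto_n2 (x : Ell A) : Tendsto (fun j => n2 τ (ev j x)) U (𝓝 (n2 (uTr τ U) x)) := by
  have h1 := tendsto_uTr τ U (star x * x)
  have h2 := (Complex.continuous_re.tendsto _).comp h1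
  have h3 := (Real.continuous_sqrt.tendsto _).comp h2
  have e1 : Real.sqrt ((uTr τ U) (star x * x)).re = n2 (uTr τ U) x := by
    rw [← n2_sq_re, Real.sqrt_sq (n2_nonneg _)]
  rw [e1] at h3
  refine h3.congr fun j => ?_
  show Real.sqrt (τ (ev j (star x * x))).re = n2 τ (ev j x)
  rw [map_mul, map_star, ← n2_sq_re, Real.sqrt_sq (n2_nonneg _)]

/-- the Hilbert space of the ultrapower -/
abbrev KK := (uTr τ U).GNS

/-- the representation of bounded sequences; its image is the tracial ultrapower -/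
noncomputable def pi' : Ell A →⋆ₐ[ℂ] (KK τ U →L[ℂ] KK τ U) := (uTr τ U).gnsStarAlgHom

/-- the trace vector -/
noncomputable def Om : KK τ U := ((uTr τ U).toPreGNS 1 : (uTr τ U).PreGNS)

theorem pi_apply (x y : Ell A) : pi' τ U x (((uTr τ U).toPreGNS y : (uTr τ U).PreGNS) : KK τ U) =
    (((uTr τ U).toPreGNS (x * y) : (uTr τ U).PreGNS) : KK τ U) := by
  unfold pi'
  show (uTr τ U).gnsNonUnitalStarAlgHom x _ = _
  rw [PositiveLinearMap.gnsNonUnitalStarAlgHom_apply_coe]
  rfl

theorem pi_Om (x : Ell A) : pi' τ U x (Om τ U) =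
    (((uTr τ U).toPreGNS x : (uTr τ U).PreGNS) : KK τ U) := by
  unfold Om; rw [pi_apply, mul_one]

/-- the vector state -/
noncomputable def om : (KK τ U →L[ℂ] KK τ U) →ₚ[ℂ] ℂ :=
  PositiveLinearMap.mk₀
    { toFun := fun T => ⟪Om τ U, T (Om τ U)⟫_ℂ
      map_add' := fun S T => by
        show ⟪Om τ U, (S + T) (Om τ U)⟫_ℂ = _
        rw [_root_.add_apply, inner_add_right]
      map_smul' := fun c T => by
        show ⟪Om τ U, (c • T) (Om τ U)⟫_ℂ = _
        rw [_root_.smul_apply, inner_smul_right]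
        rfl }
    (fun T hT => by
      rw [ContinuousLinearMap.nonneg_iff_isPositive] at hT
      exact hT.inner_nonneg_right _)

theorem om_apply (T : KK τ U →L[ℂ] KK τ U) : om τ U T = ⟪Om τ U, T (Om τ U)⟫_ℂ := rfl

theorem om_pi (x : Ell A) : om τ U (pi' τ U x) = uTr τ U x := by
  rw [om_apply, pi_Om]
  unfold Om
  rw [UniformSpace.Completion.inner_coe, PositiveLinearMap.preGNS_inner_def]
  simp

theorem n2_pi (x : Ell A) : n2 (om τ U) (pi' τ U x) = n2 (uTr τ U) x := by
  apply (pow_left_inj₀ (n2_nonneg _) (n2_nonneg _) two_ne_zero).1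
  rw [n2_sq_re, n2_sq_re, ← map_star, ← map_mul, om_pi]

end Pool.Agent.Lib.MP_f5929e_an
end

section

/-!
The tracial ultrapower is a tracial algebra with complete balls.
-/

namespace Pool.Agent.Lib.MP_f5929e_an

set_option linter.unusedSectionVars false

open scoped ComplexOrder InnerProductSpace
open Filter Topology

variable {A : Type*} [CStarAlgebra A] [PartialOrder A] [StarOrderedRing A] {τ : A →ₚ[ℂ] ℂ}
  {U : Ultrafilter ℕ}

theorem uTr_one (hτ : τ 1 = 1) : uTr τ U 1 = 1 := by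
  refine tendsto_nhds_unique (tendsto_uTr τ U 1) ?_
  simp only [map_one, hτ]
  exact tendsto_const_nhds

theorem uTr_comm (hτ : TrAlg τ ⊤) (x y : Ell A) : uTr τ U (x * y) = uTr τ U (y * x) := by
  refine tendsto_nhds_unique (tendsto_uTr τ U (x * y)) ((tendsto_uTr τ U (y * x)).congr fun j => ?_)
  have e1 : ev j (y * x) = ev j y * ev j x := map_mul _ _ _
  have e2 : ev j (x * y) = ev j x * ev j y := map_mul _ _ _
  rw [e1, e2]
  exact hτ.comm _ trivial _ trivial

theorem uTr_n2_star (hτ : TrAlg τ ⊤) (x : Ell A) : n2 (uTr τ U) (star x) = n2 (uTr τ U) x := by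
  apply (pow_left_inj₀ (n2_nonneg _) (n2_nonneg _) two_ne_zero).1
  rw [n2_sq_re, n2_sq_re, star_star, uTr_comm hτ]

theorem uTr_n2_mul_le (hτ : TrAlg τ ⊤) (x y : Ell A) :
    n2 (uTr τ U) (x * y) ≤ n2 (uTr τ U) x * ‖y‖ := by
  rw [← uTr_n2_star hτ (x * y), star_mul, mul_comm (n2 (uTr τ U) x)]
  refine (n2_mul_le _ _).trans ?_
  rw [norm_star, uTr_n2_star hτ]

theorem om_one (hτ : τ 1 = 1) : om τ U 1 = 1 := by
  have := om_pi τ U (1 : Ell A)
  rwa [map_one, uTr_one hτ] at this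

theorem n2_om (T : KK τ U →L[ℂ] KK τ U) : n2 (om τ U) T = ‖T (Om τ U)‖ := by
  apply (pow_left_inj₀ (n2_nonneg _) (norm_nonneg _) two_ne_zero).1
  rw [n2_sq_re, om_apply]
  have h1 : (star T * T) (Om τ U) = (ContinuousLinearMap.adjoint T) (T (Om τ U)) := rfl
  rw [h1, ContinuousLinearMap.adjoint_inner_right, inner_self_eq_norm_sq_to_K]
  norm_cast

theorem ext_of_pi {S T : KK τ U →L[ℂ] KK τ U}
    (h : ∀ y : Ell A, S (pi' τ U y (Om τ U)) = T (pi' τ U y (Om τ U))) : S = T := by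
  ext v
  induction v using UniformSpace.Completion.induction_on with
  | hp => exact isClosed_eq S.continuous T.continuous
  | ih v =>
    have := h ((uTr τ U).ofPreGNS v)
    rw [pi_Om] at this
    exact this

theorem n2_om_mul_le (hτ : TrAlg τ ⊤) (x y : Ell A) :
    n2 (om τ U) (pi' τ U x * pi' τ U y) ≤ n2 (om τ U) (pi' τ U x) * ‖y‖ := by
  rw [← map_mul, n2_pi, n2_pi]
  exact uTr_n2_mul_le hτ x y

/-- completeness of balls for bounded sequences -/
theorem ell_complete (hU : (U : Filter ℕ) ≤ atTop) (u : ℕ → Ell A) (C : ℝ)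
    (hC : ∀ n, ‖u n‖ ≤ C)
    (hcau : ∀ ε > 0, ∃ n₀, ∀ m ≥ n₀, ∀ n ≥ n₀, n2 (uTr τ U) (u m - u n) ≤ ε) :
    ∃ x : Ell A, ‖x‖ ≤ C ∧ T2 (uTr τ U) atTop u x := by
  have hC0 : 0 ≤ C := (norm_nonneg _).trans (hC 0)
  -- a fast subsequence
  have hsub : ∀ i : ℕ, ∃ n₀, ∀ m ≥ n₀, ∀ n ≥ n₀,
      n2 (uTr τ U) (u m - u n) ≤ 1 / ((i : ℝ) + 1) := fun i => hcau _ (by positivity)
  choose N hN using hsub
  set M : ℕ → ℕ := fun i => ∑ k ∈ Finset.range (i + 1), N k with hM
  have hMN : ∀ i k, i ≤ k → N i ≤ M k := by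
    intro i k hik
    exact Finset.single_le_sum (f := N) (fun _ _ => Nat.zero_le _)
      (Finset.mem_range.2 (Nat.lt_succ_of_le hik))
  have hne : Nonempty {a : A // ‖a‖ ≤ C} := ⟨⟨0, by rw [norm_zero]; exact hC0⟩⟩
  obtain ⟨a, ha⟩ := sat hU (X := {a : A // ‖a‖ ≤ C})
    (fun k j a => ∀ i ≤ k, n2 τ (a.1 - ev j (u (M i))) ≤ 2 / ((i : ℝ) + 1))
    (fun k j a h i hi => h i (hi.trans (Nat.le_succ k))) (by
      intro k
      have h1 : ∀ i ≤ k, ∀ᶠ j in (U : Filter ℕ),
          n2 τ (ev j (u (M k)) - ev j (u (M i))) ≤ 2 / ((i : ℝ) + 1) := by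
        intro i hi
        have h2 := tendsto_n2 τ U (u (M k) - u (M i))
        have h3 : n2 (uTr τ U) (u (M k) - u (M i)) < 2 / ((i : ℝ) + 1) := by
          refine (hN i _ (hMN i k hi) _ (hMN i i le_rfl)).trans_lt ?_
          apply div_lt_div_of_pos_right (by norm_num) (by positivity)
        filter_upwards [h2.eventually (gt_mem_nhds h3)] with j hj
        rw [map_sub] at hj
        exact hj.le
      have h2 : ∀ᶠ j in (U : Filter ℕ), ∀ i ∈ Finset.range (k + 1),
          n2 τ (ev j (u (M k)) - ev j (u (M i))) ≤ 2 / ((i : ℝ) + 1) :=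
        (Finset.eventually_all _).2 fun i hi => h1 i (Nat.lt_succ_iff.1 (Finset.mem_range.1 hi))
      filter_upwards [h2] with j hj
      exact ⟨⟨ev j (u (M k)), (norm_ev_le _ _).trans (hC _)⟩,
        fun i hi => hj i (Finset.mem_range.2 (Nat.lt_succ_of_le hi))⟩)
  refine ⟨mkE (fun j => (a j).1) C fun j => (a j).2, norm_mkE _ _ hC0, ?_⟩
  set x : Ell A := mkE (fun j => (a j).1) C fun j => (a j).2 with hx
  have hxi : ∀ i : ℕ, n2 (uTr τ U) (u (M i) - x) ≤ 2 / ((i : ℝ) + 1) := by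
    intro i
    rw [n2_sub_comm]
    refine le_of_tendsto (tendsto_n2 τ U (x - u (M i))) ?_
    filter_upwards [ha i] with j hj
    rw [map_sub]
    exact hj i le_rfl
  have h3 : ∀ i : ℕ, ∀ n ≥ N i, n2 (uTr τ U) (u n - x) ≤ 3 / ((i : ℝ) + 1) := by
    intro i n hn
    refine (n2_sub_le_add (u n) (u (M i)) x).trans ?_
    have h4 := hN i n hn _ (hMN i i le_rfl)
    have h5 := hxi i
    calc _ ≤ 1 / ((i : ℝ) + 1) + 2 / ((i : ℝ) + 1) := add_le_add h4 h5
      _ = 3 / ((i : ℝ) + 1) := by ring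
  unfold T2
  rw [Metric.tendsto_atTop]
  intro ε hε
  have h6 : Tendsto (fun i : ℕ => 3 * (1 / ((i : ℝ) + 1))) atTop (𝓝 (3 * 0)) :=
    tendsto_one_div_nat.const_mul 3
  rw [mul_zero] at h6
  obtain ⟨i, hi⟩ := (h6.eventually (gt_mem_nhds hε)).exists
  refine ⟨N i, fun n hn => ?_⟩
  rw [Real.dist_0_eq_abs, abs_of_nonneg (n2_nonneg _)]
  refine (h3 i n hn).trans_lt ?_
  rw [mul_one_div] at hi
  exact hi

/-- The tracial ultrapower. -/
noncomputable def UP (τ : A →ₚ[ℂ] ℂ) (U : Ultrafilter ℕ) :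
    StarSubalgebra ℂ (KK τ U →L[ℂ] KK τ U) := (pi' τ U).range

theorem mem_UP {x : KK τ U →L[ℂ] KK τ U} : x ∈ UP τ U ↔ ∃ y, pi' τ U y = x := Iff.rfl

theorem pi_mem (x : Ell A) : pi' τ U x ∈ UP τ U := mem_UP.2 ⟨x, rfl⟩

theorem UP_complete (hU : (U : Filter ℕ) ≤ atTop)
    (u : ℕ → (KK τ U →L[ℂ] KK τ U)) (C : ℝ) (hu : ∀ n, u n ∈ UP τ U) (hC : ∀ n, ‖u n‖ ≤ C)
    (hcau : ∀ ε > 0, ∃ n₀, ∀ m ≥ n₀, ∀ n ≥ n₀, n2 (om τ U) (u m - u n) ≤ ε) :
    ∃ x ∈ UP τ U, ‖x‖ ≤ C ∧ T2 (om τ U) atTop u x := by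
  have hex : ∀ n, ∃ X : Ell A, pi' τ U X = u n ∧ ‖X‖ ≤ C := by
    intro n
    obtain ⟨X₀, hX₀⟩ := mem_UP.1 (hu n)
    obtain ⟨X, h1, h2⟩ := exists_lift (pi' τ U) X₀ (c := C) (by rw [hX₀]; exact hC n)
    exact ⟨X, h1.trans hX₀, h2⟩
  choose X hX1 hX2 using hex
  obtain ⟨x, hx1, hx2⟩ := ell_complete hU X C hX2 (by
    intro ε hε
    obtain ⟨n₀, h⟩ := hcau ε hε
    refine ⟨n₀, fun m hm n hn => ?_⟩
    have := h m hm n hn
    rwa [← hX1 m, ← hX1 n, ← map_sub, n2_pi] at this)
  refine ⟨pi' τ U x, pi_mem x, (NonUnitalStarAlgHom.norm_apply_le (pi' τ U) x).trans hx1, ?_⟩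
  refine hx2.congr fun n => ?_
  rw [← hX1 n, ← map_sub, n2_pi]

theorem trAlg_UP (hτ : TrAlg τ ⊤) (hU : (U : Filter ℕ) ≤ atTop) : TrAlg (om τ U) (UP τ U) where
  one := om_one hτ.one
  comm := by
    intro x hx y hy
    obtain ⟨X, rfl⟩ := mem_UP.1 hx
    obtain ⟨Y, rfl⟩ := mem_UP.1 hy
    rw [← map_mul, ← map_mul, om_pi, om_pi, uTr_comm hτ]
  faithful := by
    intro x hx h0
    obtain ⟨X, rfl⟩ := mem_UP.1 hx
    apply ext_of_pi
    intro y
    have h1 := n2_om_mul_le hτ X y (U := U)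
    rw [h0, zero_mul, n2_om] at h1
    have h2 := norm_le_zero_iff.1 h1
    rw [_root_.zero_apply]
    exact h2
  closed := by
    apply isClosed_of_closure_subset
    intro y hy
    obtain ⟨u, hu, huy⟩ := mem_closure_iff_seq_limit.1 hy
    have hcau := huy.cauchySeq
    obtain ⟨C, hC⟩ : ∃ C, ∀ n, ‖u n‖ ≤ C := by
      obtain ⟨C, hC⟩ := (Metric.isBounded_range_of_tendsto u huy).exists_norm_le
      exact ⟨C, fun n => hC _ ⟨n, rfl⟩⟩
    obtain ⟨z, hz, _, huz⟩ := UP_complete hU u C hu hC (by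
      intro ε hε
      obtain ⟨n₀, h⟩ := Metric.cauchySeq_iff.1 hcau ε hε
      refine ⟨n₀, fun m hm n hn => ?_⟩
      refine (n2_le_norm (om_one hτ.one) _).trans ?_
      rw [← dist_eq_norm]
      exact (h m hm n hn).le)
    have hyz : y = z := by
      obtain ⟨Z, rfl⟩ := mem_UP.1 hz
      apply ext_of_pi
      intro w
      have h1 : Tendsto (fun n => u n (pi' τ U w (Om τ U))) atTop (𝓝 (y (pi' τ U w (Om τ U)))) :=
        ((ContinuousLinearMap.apply ℂ _ (pi' τ U w (Om τ U))).continuous.tendsto y).comp huy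
      refine tendsto_nhds_unique h1 ?_
      rw [tendsto_iff_norm_sub_tendsto_zero]
      have h2 : Tendsto (fun n => n2 (om τ U) (u n - pi' τ U Z) * ‖w‖) atTop (𝓝 (0 * ‖w‖)) :=
        Tendsto.mul_const _ huz
      rw [zero_mul] at h2
      refine squeeze_zero (fun n => norm_nonneg _) (fun n => ?_) h2
      obtain ⟨X, hX⟩ := mem_UP.1 (hu n)
      have h3 := n2_om_mul_le hτ (X - Z) w (U := U)
      rw [map_sub, hX] at h3
      rw [n2_om] at h3
      exact h3
    rw [hyz]; exact hz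
  complete := fun u C hu hC hcau => UP_complete hU u C hu hC hcau

/-- the constants -/
noncomputable def io (τ : A →ₚ[ℂ] ℂ) (U : Ultrafilter ℕ) : A →⋆ₐ[ℂ] (KK τ U →L[ℂ] KK τ U) :=
  (pi' τ U).comp cst

theorem io_mem (a : A) : io τ U a ∈ UP τ U := pi_mem _

theorem n2_io (a : A) : n2 (om τ U) (io τ U a) = n2 τ a := by
  show n2 (om τ U) (pi' τ U (cst a)) = _
  rw [n2_pi]
  exact tendsto_nhds_unique (tendsto_n2 τ U (cst a)) tendsto_const_nhds

theorem om_io (a : A) : om τ U (io τ U a) = τ a := by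
  show om τ U (pi' τ U (cst a)) = _
  rw [om_pi]
  exact tendsto_nhds_unique (tendsto_uTr τ U (cst a)) tendsto_const_nhds

/-- equality in the ultrapower -/
theorem pi_eq_iff (hτ : TrAlg τ ⊤) (hU : (U : Filter ℕ) ≤ atTop) {x y : Ell A} :
    pi' τ U x = pi' τ U y ↔ Tendsto (fun j => n2 τ (ev j x - ev j y)) U (𝓝 0) := by
  have h1 := tendsto_n2 τ U (x - y)
  have e : (fun j => n2 τ (ev j (x - y))) = fun j => n2 τ (ev j x - ev j y) := by
    funext j; rw [map_sub]
  rw [e] at h1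
  constructor
  · intro h
    have h2 : n2 (uTr τ U) (x - y) = 0 := by
      rw [← n2_pi, map_sub, h, sub_self, n2_zero]
    rwa [h2] at h1
  · intro h
    have h2 : n2 (uTr τ U) (x - y) = 0 := tendsto_nhds_unique h1 h
    apply (trAlg_UP hτ hU).eq_of_n2 (pi_mem x) (pi_mem y)
    rw [← map_sub, n2_pi, h2]

theorem pi_eq_of (hτ : TrAlg τ ⊤) (hU : (U : Filter ℕ) ≤ atTop) {x y : Ell A}
    (h : Tendsto (fun j => n2 τ (ev j x - ev j y)) U (𝓝 0)) : pi' τ U x = pi' τ U y :=
  (pi_eq_iff hτ hU).2 h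

end Pool.Agent.Lib.MP_f5929e_an
end

section

/-!
Comparison of projections below a minimal central projection.
-/

namespace Pool.Agent.Lib.MP_f5929e_an

set_option linter.unusedSectionVars false

open scoped ComplexOrder InnerProductSpace
open Filter Topology

variable {𝔸 : Type*} [CStarAlgebra 𝔸] [PartialOrder 𝔸] [StarOrderedRing 𝔸]
variable {f : 𝔸 →ₚ[ℂ] ℂ} {M M' : StarSubalgebra ℂ 𝔸}

/-- the relative commutant of `S ⊆ M` in `M` -/
def rc (M : StarSubalgebra ℂ 𝔸) (S : Set 𝔸) : StarSubalgebra ℂ 𝔸 :=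
  M ⊓ StarSubalgebra.centralizer ℂ S

theorem mem_rc {S : Set 𝔸} {x : 𝔸} :
    x ∈ rc M S ↔ x ∈ M ∧ ∀ s ∈ S, s * x = x * s ∧ star s * x = x * star s := by
  unfold rc
  rw [StarSubalgebra.mem_inf, StarSubalgebra.mem_centralizer_iff]

theorem rc_le (S : Set 𝔸) : rc M S ≤ M := inf_le_left

theorem mem_rc_of_comm {x : 𝔸} (hx : x ∈ M) (h : ∀ y ∈ M', y * x = x * y) :
    x ∈ rc M (M' : Set 𝔸) :=
  mem_rc.2 ⟨hx, fun s hs => ⟨h s hs, h _ (star_mem hs)⟩⟩

namespace TrAlg

theorem rc (hM : TrAlg f M) {S : Set 𝔸} (hS : S ⊆ M) : TrAlg f (rc M S) := by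
  refine hM.mono (rc_le S) ?_
  intro x hx u hu hux
  refine mem_rc.2 ⟨hx, ?_⟩
  have key : ∀ s ∈ M, (∀ n, s * u n = u n * s) → s * x = x * s := by
    intro s hs hc
    have h1 := hux.const_mul s
    have h2 := hM.T2_mul_const (fun n => rc_le S (hu n)) hx hs hux
    exact hM.T2_unique (mul_mem hs hx) (mul_mem hx hs) h1 (h2.congr' fun n => (hc n).symm)
  intro s hs
  exact ⟨key s (hS hs) fun n => ((mem_rc.1 (hu n)).2 s hs).1,
    key _ (star_mem (hS hs)) fun n => ((mem_rc.1 (hu n)).2 s hs).2⟩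

/-- elements commuting with the unitaries of `M` commute with `M` -/
theorem comm_of_unitary (hM : TrAlg f M) {c : 𝔸}
    (h : ∀ u ∈ M, Un u → u * c = c * u) : ∀ y ∈ M, y * c = c * y := by
  intro y hy
  have := hM.closed
  let _ : CStarAlgebra M := StarSubalgebra.cstarAlgebra M
  obtain ⟨u, a, hsum, _⟩ := CStarAlgebra.exists_sum_four_unitary (⟨y, hy⟩ : M)
  have h1 : y = ∑ i, a i • ((u i : M) : 𝔸) := by
    have := congrArg (Subtype.val : M → 𝔸) hsum
    simpa using this
  have h2 : ∀ i, ((u i : M) : 𝔸) * c = c * ((u i : M) : 𝔸) := by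
    intro i
    apply h _ (u i : M).2
    have h3 := (u i).2
    rw [Unitary.mem_iff] at h3
    exact ⟨congrArg (Subtype.val : M → 𝔸) h3.1, congrArg (Subtype.val : M → 𝔸) h3.2⟩
  rw [h1, Finset.sum_mul, Finset.mul_sum]
  apply Finset.sum_congr rfl
  intro i _
  rw [smul_mul_assoc, mul_smul_comm, h2 i]

/-- `z` is a minimal projection of the center of `M` -/
structure MinC (M : StarSubalgebra ℂ 𝔸) (z : 𝔸) : Prop where
  mem : z ∈ M
  pj : Pj z
  comm : ∀ y ∈ M, y * z = z * y
  ne : z ≠ 0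
  min : ∀ w ∈ M, Pj w → (∀ y ∈ M, y * w = w * y) → w * z = w → w = 0 ∨ w = z

theorem link (hM : TrAlg f M) {z : 𝔸} (hz : MinC M z) {p q : 𝔸} (hp : p ∈ M) (hpP : Pj p)
    (hpz : p * z = p) (hp0 : p ≠ 0) (hq : q ∈ M) (hqP : Pj q) (hqz : q * z = q) (hq0 : q ≠ 0) :
    ∃ x ∈ M, q * x * p ≠ 0 := by
  by_contra hcon
  push Not at hcon
  have hzp : z * p = p := by rw [← hz.comm p hp]; exact hpz
  obtain ⟨c, hcM, _, hc1, _, hfc, u, huc, huT⟩ := hM.exists_avg hp (fun _ => {u | u ∈ M ∧ Un u})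
    (fun _ _ => ⟨one_mem _, Un.one⟩) (fun _ _ _ _ => le_rfl)
    (fun _ _ _ _ g hg h hh => ⟨mul_mem hg.1 hh.1, hg.2.mul hh.2⟩) (fun _ _ g hg => hg)
  have huM : ∀ n, u n ∈ M := by
    intro n
    have : convexHull ℝ (conj p {u | u ∈ M ∧ Un u}) ⊆ M := by
      apply convexHull_min _ (convex_mem M)
      rintro _ ⟨g, hg, rfl⟩
      exact mul_mem (mul_mem hg.1 hp) (star_mem hg.1)
    exact this (huc n)
  have hu0 : ∀ n, 0 ≤ u n := by
    intro n
    have : convexHull ℝ (conj p {u | u ∈ M ∧ Un u}) ⊆ {y | 0 ≤ y} := by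
      apply convexHull_min _ (convex_Ici (𝕜 := ℝ) (0 : 𝔸))
      rintro _ ⟨g, hg, rfl⟩
      exact star_right_conjugate_nonneg hpP.nonneg g
    exact this (huc n)
  have huq : ∀ n, q * u n = 0 := by
    intro n
    have : convexHull ℝ (conj p {u | u ∈ M ∧ Un u}) ⊆ {y | q * y = 0} := by
      apply convexHull_min
      · rintro _ ⟨g, hg, rfl⟩
        show q * (g * p * star g) = 0
        rw [← mul_assoc, ← mul_assoc, hcon g hg.1, zero_mul]
      · intro a ha b hb s t _ _ _
        have ha' : q * a = 0 := ha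
        have hb' : q * b = 0 := hb
        show q * (s • a + t • b) = 0
        rw [mul_add, mul_smul_comm, mul_smul_comm, ha', hb', smul_zero, smul_zero, add_zero]
    exact this (huc n)
  have huz : ∀ n, u n * z = u n := by
    intro n
    have : convexHull ℝ (conj p {u | u ∈ M ∧ Un u}) ⊆ {y | y * z = y} := by
      apply convexHull_min
      · rintro _ ⟨g, hg, rfl⟩
        show g * p * star g * z = g * p * star g
        rw [mul_assoc, hz.comm _ (star_mem hg.1), ← mul_assoc, mul_assoc g p z, hpz]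
      · intro a ha b hb s t _ _ _
        have ha' : a * z = a := ha
        have hb' : b * z = b := hb
        show (s • a + t • b) * z = s • a + t • b
        rw [add_mul, smul_mul_assoc, smul_mul_assoc, ha', hb']
    exact this (huc n)
  have hc0 : 0 ≤ c := hM.nonneg_of_T2 huM hcM hu0 huT
  have hcz : c * z = c := by
    have h1 := hM.T2_mul_const huM hcM hz.mem huT
    exact hM.T2_unique (mul_mem hcM hz.mem) hcM h1 (huT.congr' fun n => (huz n).symm)
  have hqc : q * c = 0 := by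
    have h1 := huT.const_mul q
    exact hM.T2_unique (mul_mem hq hcM) (zero_mem _) h1
      ((T2.const (x := 0)).congr' fun n => (huq n).symm)
  have hcc : ∀ y ∈ M, y * c = c * y := by
    apply hM.comm_of_unitary
    intro g hg hgU
    have h1 : n2 f (g * c * star g - c) = 0 := by
      apply le_antisymm _ (n2_nonneg _)
      apply le_of_forall_pos_le_add
      intro ε hε
      obtain ⟨η, _, h2⟩ := hc1 ε hε
      rw [zero_add]
      exact h2 g ⟨hg, hgU⟩
    have h2 := hM.eq_of_n2 (mul_mem (mul_mem hg hcM) (star_mem hg)) hcM h1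
    calc g * c = g * c * (star g * g) := by rw [hgU.1, mul_one]
      _ = (g * c * star g) * g := by noncomm_ring
      _ = c * g := by rw [h2]
  have hcrc : c ∈ MP_f5929e_an.rc M (M : Set 𝔸) := mem_rc_of_comm hcM hcc
  obtain ⟨s, hs, hsP, hsc, _, hsl, hsr, _⟩ :=
    hM.exists_support (hM.rc (le_refl (M : Set 𝔸))) (rc_le _) hcrc hc0
  have hsM := (mem_rc.1 hs).1
  have hsz : s * z = s := by
    have h1 : s * (1 - z) = 0 := hsr _ (sub_mem (one_mem _) hz.mem) (by
      rw [mul_sub, mul_one, hcz, sub_self])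
    rw [mul_sub, mul_one, sub_eq_zero] at h1
    exact h1.symm
  rcases hz.min s hsM hsP (fun y hy => ((mem_rc.1 hs).2 y hy).1) hsz with h | h
  · have h1 : c = 0 := by rw [← hsc, h, zero_mul]
    rw [h1, map_zero] at hfc
    have := hM.f_pos_of_ne hp hpP hp0
    rw [← hfc] at this
    simp at this
  · have h1 : q * s = 0 := hsl q hq hqc
    rw [h, hqz] at h1
    exact hq0 h1

theorem mul_self_of_pj {v : 𝔸} (h : Pj (star v * v)) : v * (star v * v) = v := by
  have h1 : v - v * (star v * v) = 0 := by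
    apply eq_zero_of_star_mul_self
    have e : star (v - v * (star v * v)) * (v - v * (star v * v)) =
        star v * v - (star v * v) * (star v * v) - star (star v * v) * (star v * v) +
          star (star v * v) * ((star v * v) * (star v * v)) := by
      rw [star_sub, star_mul v (star v * v)]; noncomm_ring
    rw [e, h.1, h.2, h.2]; abel
  exact (sub_eq_zero.1 h1).symm

theorem pj_mul_star {v : 𝔸} (h : Pj (star v * v)) : Pj (v * star v) := by
  refine ⟨by rw [star_mul, star_star], ?_⟩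
  have e : v * star v * (v * star v) = v * (star v * v) * star v := by noncomm_ring
  rw [e, mul_self_of_pj h]

theorem compare (hM : TrAlg f M) {z : 𝔸} (hz : MinC M z) {p q : 𝔸} (hp : p ∈ M) (hpP : Pj p)
    (hpz : p * z = p) (hq : q ∈ M) (hqP : Pj q) (hqz : q * z = q) (hf : (f p).re = (f q).re) :
    ∃ v ∈ M, star v * v = p ∧ v * star v = q := by
  let X := {v : 𝔸 // v ∈ M ∧ Pj (star v * v) ∧ star v * v * p = star v * v ∧ q * v = v}
  have hinit : ∀ v w : X, w.1 * (star v.1 * v.1) = v.1 →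
      (star w.1 * w.1) * (star v.1 * v.1) = star v.1 * v.1 := by
    intro v w h
    set e := star v.1 * v.1 with he
    set k := star w.1 * w.1 with hk
    have heP : Pj e := v.2.2.1
    have hkP : Pj k := w.2.2.1
    have h1 : e * k * e = e := by
      have : e * k * e = star (w.1 * e) * (w.1 * e) := by
        rw [star_mul, heP.1, hk]; noncomm_ring
      rw [this, h]
    have h2 : (1 - k) * e = 0 := by
      apply eq_zero_of_star_mul_self
      rw [star_mul, heP.1, hkP.compl.1]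
      calc e * (1 - k) * ((1 - k) * e) = e * ((1 - k) * (1 - k)) * e := by noncomm_ring
        _ = e * (1 - k) * e := by rw [hkP.compl.2]
        _ = e * e - e * k * e := by noncomm_ring
        _ = 0 := by rw [heP.2, h1, sub_self]
    rw [sub_mul, one_mul, sub_eq_zero] at h2
    exact h2.symm
  obtain ⟨⟨v, hvM, hvP, hvp, hqv⟩, _, hmax⟩ := exhaust (X := X)
    (fun v w => w.1 * (star v.1 * v.1) = v.1)
    (fun v => mul_self_of_pj v.2.2.1)
    (fun v w x h1 h2 => by
      have h3 := hinit v w h1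
      show x.1 * (star v.1 * v.1) = v.1
      rw [← h3, ← mul_assoc, h2, h1])
    (fun v => (f (star v.1 * v.1)).re)
    (fun v w h => f_re_mono (pj_le w.2.2.1 v.2.2.1
      (by
        have h3 := congrArg star (hinit v w h)
        rwa [star_mul, w.2.2.1.1, v.2.2.1.1] at h3))) 1
    (fun v => by
      have := f_re_mono (f := f) v.2.2.1.le_one
      rwa [hM.one, Complex.one_re] at this)
    (fun u hu => by
      set e : ℕ → 𝔸 := fun n => star (u n).1 * (u n).1 with he
      have heP : ∀ n, Pj (e n) := fun n => (u n).2.2.1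
      have heM : ∀ n, e n ∈ M := fun n => mul_mem (star_mem (u n).2.1) (u n).2.1
      have hrel : ∀ m n, m ≤ n → (u n).1 * e m = (u m).1 := by
        intro m n hmn
        induction n, hmn using Nat.le_induction with
        | base => exact mul_self_of_pj (heP m)
        | succ n hmn ih =>
          have h3 := hinit (u m) (u n) ih
          show (u (n + 1)).1 * e m = _
          rw [show e m = e n * e m from h3.symm, ← mul_assoc]
          rw [show (u (n + 1)).1 * e n = (u n).1 from hu n]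
          exact ih
      have hee : ∀ m n, m ≤ n → e n * e m = e m := fun m n h => hinit (u m) (u n) (hrel m n h)
      have hee' : ∀ m n, m ≤ n → e m * e n = e m := fun m n h => by
        have := congrArg star (hee m n h)
        rwa [star_mul, (heP m).1, (heP n).1] at this
      have hvn : ∀ n, ‖(u n).1‖ ≤ 1 := by
        intro n
        have h1 := CStarRing.norm_star_mul_self (x := (u n).1)
        have h2 := (heP n).norm_le
        rw [show star (u n).1 * (u n).1 = e n from rfl] at h1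
        nlinarith [norm_nonneg (u n).1]
      obtain ⟨v, hv, _, huv⟩ := hM.exists_lim_of_mono (fun n => (u n).1) (fun n => (u n).2.1) 1
        hvn e (fun m n h => pj_le (heP n) (heP m) (hee' m n h)) (fun n => (heP n).nonneg)
        (fun n => (heP n).le_one) (by
          intro m n hmn
          rw [n2_sq_re]
          apply le_of_eq
          congr 2
          show star ((u n).1 - (u m).1) * ((u n).1 - (u m).1) = e n - e m
          have h1 : star (u n).1 * (u m).1 = e m := by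
            rw [← hrel m n hmn, ← mul_assoc]
            exact hee m n hmn
          have h2 : star (u m).1 * (u n).1 = e m := by
            have := congrArg star h1
            rwa [star_mul, star_star, (heP m).1] at this
          rw [star_sub, sub_mul, mul_sub, mul_sub, h1, h2]
          show e n - e m - (e m - e m) = e n - e m
          rw [sub_self, sub_zero])
      have hlim : T2 f atTop e (star v * v) :=
        hM.T2_mul (u := fun n => star (u n).1) (v := fun n => (u n).1) (x := star v) (y := v)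
          (fun n => star_mem (u n).2.1) (star_mem hv) hv (C := 1)
          (fun n => by rw [norm_star]; exact hvn n) (hM.T2_star (fun n => (u n).2.1) hv huv) huv
      have hvvM : star v * v ∈ M := mul_mem (star_mem hv) hv
      refine ⟨⟨v, hv, hM.pj_of_T2 heM hvvM heP hlim, ?_, ?_⟩, ?_⟩
      · have h1 := hM.T2_mul_const heM hvvM hp hlim
        exact hM.T2_unique (mul_mem hvvM hp) hvvM h1 (hlim.congr' fun n => ((u n).2.2.2.1).symm)
      · have h1 := huv.const_mul q
        exact hM.T2_unique (mul_mem hq hv) hv h1 (huv.congr' fun n => ((u n).2.2.2.2).symm)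
      · intro n
        show v * e n = (u n).1
        have h1 := hM.T2_mul_const (fun k => (u k).2.1) hv (heM n) huv
        refine hM.T2_unique (mul_mem hv (heM n)) (u n).2.1 h1 ?_
        have : (fun k => n2 f ((u k).1 * e n - (u n).1)) =ᶠ[atTop] fun _ => 0 := by
          filter_upwards [eventually_ge_atTop n] with k hk
          rw [hrel n k hk, sub_self, n2_zero]
        unfold T2
        rw [tendsto_congr' this]
        exact tendsto_const_nhds)
    ⟨0, zero_mem _, by rw [mul_zero]; exact Pj.zero, by rw [mul_zero, zero_mul], mul_zero _⟩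
  -- maximality
  set e := star v * v with he
  set k := v * star v with hk
  have heM : e ∈ M := mul_mem (star_mem hvM) hvM
  have hkM : k ∈ M := mul_mem hvM (star_mem hvM)
  have hkP : Pj k := pj_mul_star hvP
  have hve : v * e = v := mul_self_of_pj hvP
  have hfk : f k = f e := hM.comm _ hvM _ (star_mem hvM)
  have hqk : q * k = k := by rw [hk, ← mul_assoc, hqv]
  have hkq : k * q = k := by
    have := congrArg star hqk
    rwa [star_mul, hkP.1, hqP.1] at this
  have hpe : p * e = e := hpP.comm_of_le hvP hvp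
  have hp'P : Pj (p - e) := hpP.sub hvP hvp
  have hq'P : Pj (q - k) := hqP.sub hkP hkq
  have hfpq : (f (p - e)).re = (f (q - k)).re := by
    rw [map_sub, map_sub, Complex.sub_re, Complex.sub_re, hf, hfk]
  by_cases hpe0 : p - e = 0
  · refine ⟨v, hvM, (sub_eq_zero.1 hpe0).symm, ?_⟩
    have h1 : q - k = 0 := by
      by_contra hne
      have h2 := hM.f_pos_of_ne (sub_mem hq hkM) hq'P hne
      rw [← hfpq, hpe0, map_zero] at h2
      simp at h2
    exact (sub_eq_zero.1 h1).symm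
  exfalso
  have hq'0 : q - k ≠ 0 := by
    intro h0
    have h2 := hM.f_pos_of_ne (sub_mem hp heM) hp'P hpe0
    rw [hfpq, h0, map_zero] at h2
    simp at h2
  have hez : e * z = e := by rw [← hvp, mul_assoc, hpz]
  have hkz : k * z = k := by rw [← hkq, mul_assoc, hqz]
  obtain ⟨x, hx, hxne⟩ := hM.link hz (sub_mem hp heM) hp'P (by rw [sub_mul, hpz, hez]) hpe0
    (sub_mem hq hkM) hq'P (by rw [sub_mul, hqz, hkz]) hq'0
  set y := (q - k) * x * (p - e) with hy
  have hyM : y ∈ M := mul_mem (mul_mem (sub_mem hq hkM) hx) (sub_mem hp heM)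
  obtain ⟨w, hwM, hwn, hwP, _, hwy, _, hwl, hwr⟩ := hM.exists_polar hM le_rfl hyM
  have hq'w : (q - k) * w = w := by
    have h1 := hwl (1 - (q - k)) (sub_mem (one_mem _) (sub_mem hq hkM)) (by
      rw [hy, sub_mul, one_mul, ← mul_assoc, ← mul_assoc, hq'P.2, sub_self])
    rw [sub_mul, one_mul, sub_eq_zero] at h1
    exact h1.symm
  have hwp' : w * (p - e) = w := by
    have h1 := hwr (1 - (p - e)) (sub_mem (one_mem _) (sub_mem hp heM)) (by
      rw [hy, mul_assoc, mul_sub, mul_one, hp'P.2, sub_self, mul_zero])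
    rw [mul_sub, mul_one, sub_eq_zero] at h1
    exact h1.symm
  have hw0 : star w * w ≠ 0 := by
    intro h0
    rw [h0, zero_mul] at hwy
    exact hxne (eq_zero_of_star_mul_self hwy.symm)
  have hvw : star v * w = 0 := by
    have h1 : star v * (q - k) = 0 := by
      have h2 : star v * q = star v := by
        have := congrArg star hqv
        rwa [star_mul, hqP.1] at this
      have h3 : star v * k = star v := by
        have := congrArg star hve
        rw [star_mul, hvP.1] at this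
        rw [hk, ← mul_assoc]; exact this
      rw [mul_sub, h2, h3, sub_self]
    rw [← hq'w, ← mul_assoc, h1, zero_mul]
  have hwv : star w * v = 0 := by
    have := congrArg star hvw
    rwa [star_mul, star_star, star_zero] at this
  have hp'e : (p - e) * e = 0 := by rw [sub_mul, hpe, hvP.2, sub_self]
  have hwe : w * e = 0 := by rw [← hwp', mul_assoc, hp'e, mul_zero]
  have hwwe : (star w * w) * e = 0 := by rw [mul_assoc, hwe, mul_zero]
  have heww : e * (star w * w) = 0 := by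
    have := congrArg star hwwe
    rwa [star_mul, hwP.1, hvP.1, star_zero] at this
  have hsum : star (v + w) * (v + w) = e + star w * w := by
    rw [star_add, add_mul, mul_add, mul_add, hvw, hwv, add_zero, zero_add]
  have hwwp : star w * w * p = star w * w := by
    have h1 : w * p = w := by
      rw [← hwp', mul_assoc, sub_mul, hpP.2, hvp]
    rw [mul_assoc, h1]
  have hqw : q * w = w := by
    rw [← hq'w, ← mul_assoc, mul_sub, hqP.2, hqk]
  have h2 := hmax ⟨v + w, add_mem hvM hwM, by rw [hsum]; exact hvP.add hwP heww,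
    by rw [hsum, add_mul, hvp, hwwp], by rw [mul_add, hqv, hqw]⟩ (by
      show (v + w) * e = v
      rw [add_mul, hve, hwe, add_zero])
  have h3 : (f (star (v + w) * (v + w))).re = (f e).re := h2
  rw [hsum, map_add, Complex.add_re] at h3
  have h4 := hM.f_pos_of_ne (mul_mem (star_mem hwM) hwM) hwP hw0
  linarith

theorem conj_partition (hM : TrAlg f M) {z : 𝔸} (hz : MinC M z) (n : ℕ) (p q : ℕ → 𝔸)
    (hp : ∀ i < n, p i ∈ M ∧ Pj (p i)) (hq : ∀ i < n, q i ∈ M ∧ Pj (q i))
    (hpz : ∑ i ∈ Finset.range n, p i = z) (hqz : ∑ i ∈ Finset.range n, q i = z)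
    (hf : ∀ i < n, (f (p i)).re = (f (q i)).re) :
    ∃ u ∈ M, Un u ∧ ∀ i < n, u * p i * star u = q i := by
  classical
  have hpo := orth_of_sum (Finset.range n) p (fun i hi => (hp i (Finset.mem_range.1 hi)).2)
    hz.pj hpz
  have hqo := orth_of_sum (Finset.range n) q (fun i hi => (hq i (Finset.mem_range.1 hi)).2)
    hz.pj hqz
  have hpzi : ∀ i < n, p i * z = p i := fun i hi => by
    apply pj_le_of_le (hp i hi).2 hz.pj
    rw [← hpz]
    exact Finset.single_le_sum (fun k hk => (hp k (Finset.mem_range.1 hk)).2.nonneg)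
      (Finset.mem_range.2 hi)
  have hqzi : ∀ i < n, q i * z = q i := fun i hi => by
    apply pj_le_of_le (hq i hi).2 hz.pj
    rw [← hqz]
    exact Finset.single_le_sum (fun k hk => (hq k (Finset.mem_range.1 hk)).2.nonneg)
      (Finset.mem_range.2 hi)
  have hex : ∀ i, ∃ v, i < n → v ∈ M ∧ star v * v = p i ∧ v * star v = q i := by
    intro i
    by_cases hi : i < n
    · obtain ⟨v, h1, h2, h3⟩ := hM.compare hz (hp i hi).1 (hp i hi).2 (hpzi i hi)
        (hq i hi).1 (hq i hi).2 (hqzi i hi) (hf i hi)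
      exact ⟨v, fun _ => ⟨h1, h2, h3⟩⟩
    · exact ⟨0, fun h => absurd h hi⟩
  choose v hv using hex
  have hvp : ∀ i < n, v i * p i = v i := fun i hi => by
    rw [← (hv i hi).2.1]
    exact mul_self_of_pj (by rw [(hv i hi).2.1]; exact (hp i hi).2)
  have hqv : ∀ i < n, q i * v i = v i := fun i hi => by
    rw [← (hv i hi).2.2, mul_assoc]
    exact mul_self_of_pj (by rw [(hv i hi).2.1]; exact (hp i hi).2)
  have hpv' : ∀ i < n, p i * star (v i) = star (v i) := fun i hi => by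
    have := congrArg star (hvp i hi)
    rwa [star_mul, (hp i hi).2.1] at this
  have hvq' : ∀ i < n, star (v i) * q i = star (v i) := fun i hi => by
    have := congrArg star (hqv i hi)
    rwa [star_mul, (hq i hi).2.1] at this
  set u := ∑ i ∈ Finset.range n, v i + (1 - z) with hu
  have huM : u ∈ M := add_mem (sum_mem fun i hi => (hv i (Finset.mem_range.1 hi)).1)
    (sub_mem (one_mem _) hz.mem)
  have hup : ∀ i < n, u * p i = v i := by
    intro i hi
    rw [hu, add_mul, Finset.sum_mul]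
    have h1 : (1 - z) * p i = 0 := by
      rw [sub_mul, one_mul, ← hz.comm _ (hp i hi).1, hpzi i hi, sub_self]
    rw [h1, add_zero, Finset.sum_eq_single i]
    · exact hvp i hi
    · intro j hj hji
      rw [← hvp j (Finset.mem_range.1 hj), mul_assoc,
        hpo j hj i (Finset.mem_range.2 hi) hji, mul_zero]
    · intro h; exact absurd (Finset.mem_range.2 hi) h
  have huz : u * (1 - z) = 1 - z := by
    rw [hu, add_mul, Finset.sum_mul, hz.pj.compl.2, Finset.sum_eq_zero, zero_add]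
    intro j hj
    have hj' := Finset.mem_range.1 hj
    rw [← hvp j hj', mul_assoc, mul_sub, mul_one, hpzi j hj', sub_self, mul_zero]
  have hsu : star u = ∑ i ∈ Finset.range n, star (v i) + (1 - z) := by
    rw [hu, star_add, star_sum, hz.pj.compl.1]
  have hsq : ∀ i < n, star u * q i = star (v i) := by
    intro i hi
    rw [hsu, add_mul, Finset.sum_mul]
    have h1 : (1 - z) * q i = 0 := by
      rw [sub_mul, one_mul, ← hz.comm _ (hq i hi).1, hqzi i hi, sub_self]
    rw [h1, add_zero, Finset.sum_eq_single i]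
    · exact hvq' i hi
    · intro j hj hji
      rw [← hvq' j (Finset.mem_range.1 hj), mul_assoc,
        hqo j hj i (Finset.mem_range.2 hi) hji, mul_zero]
    · intro h; exact absurd (Finset.mem_range.2 hi) h
  have hsz : star u * (1 - z) = 1 - z := by
    rw [hsu, add_mul, Finset.sum_mul, hz.pj.compl.2, Finset.sum_eq_zero, zero_add]
    intro j hj
    have hj' := Finset.mem_range.1 hj
    rw [← hvq' j hj', mul_assoc, mul_sub, mul_one, hqzi j hj', sub_self, mul_zero]
  have h1 : star u * u = 1 := by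
    have e1 : star u * u = ∑ i ∈ Finset.range n, star u * v i + star u * (1 - z) := by
      conv_lhs => rw [hu]
      rw [mul_add, Finset.mul_sum]
    have e2 : ∀ i ∈ Finset.range n, star u * v i = p i := by
      intro i hi
      have hi' := Finset.mem_range.1 hi
      rw [← hqv i hi', ← mul_assoc, hsq i hi', (hv i hi').2.1]
    rw [e1, Finset.sum_congr rfl e2, hpz, hsz]; abel
  have h2 : u * star u = 1 := by
    have e1 : u * star u = ∑ i ∈ Finset.range n, u * star (v i) + u * (1 - z) := by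
      conv_lhs => rw [hsu]
      rw [mul_add, Finset.mul_sum]
    have e2 : ∀ i ∈ Finset.range n, u * star (v i) = q i := by
      intro i hi
      have hi' := Finset.mem_range.1 hi
      rw [← hpv' i hi', ← mul_assoc, hup i hi', (hv i hi').2.2]
    rw [e1, Finset.sum_congr rfl e2, hqz, huz]; abel
  refine ⟨u, huM, ⟨h1, h2⟩, fun i hi => ?_⟩
  have e : u * p i * star u = (u * p i) * star (u * p i) := by
    rw [star_mul, (hp i hi).2.1, ← mul_assoc, mul_assoc u (p i) (p i), (hp i hi).2.2]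
  rw [e, hup i hi, (hv i hi).2.2]

/-- unitary approximation in a factor -/
theorem exists_unitary_near (hM : TrAlg f M) (hz : MinC M 1) {x : 𝔸} (hx : x ∈ M) :
    ∃ u ∈ M, Un u ∧ n2 f (x - u) ≤ 2 * n2 f (star x * x - 1) := by
  obtain ⟨v, hv, hvn, hvP, hvs, hsb, hvb, _, _⟩ := hM.exists_polar hM le_rfl hx
  set b := star x * x with hb
  have hb0 : 0 ≤ b := star_mul_self_nonneg x
  have hbsa : IsSelfAdjoint b := IsSelfAdjoint.of_nonneg hb0
  have hbM : b ∈ M := mul_mem (star_mem hx) hx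
  set s := star v * v with hs
  set k := v * star v with hk
  have hsM : s ∈ M := mul_mem (star_mem hv) hv
  have hkM : k ∈ M := mul_mem hv (star_mem hv)
  have hkP : Pj k := pj_mul_star hvP
  have hkv : k * v = v := by rw [hk, mul_assoc]; exact hvs
  obtain ⟨w, hw, hw1, hw2⟩ := hM.compare hz (sub_mem (one_mem _) hsM) hvP.compl (mul_one _)
    (sub_mem (one_mem _) hkM) hkP.compl (mul_one _) (by
      rw [map_sub, map_sub, Complex.sub_re, Complex.sub_re, hk, hM.comm v hv _ (star_mem hv)])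
  have hwP : Pj (star w * w) := by rw [hw1]; exact hvP.compl
  have hws : w * s = 0 := by
    have h1 := mul_self_of_pj hwP
    rw [hw1] at h1
    rw [← h1, mul_assoc, sub_mul, one_mul, hvP.2, sub_self, mul_zero]
  have hkw : k * w = 0 := by
    have h1 := mul_self_of_pj hwP
    rw [← mul_assoc, hw2] at h1
    rw [← h1, ← mul_assoc, mul_sub, mul_one, hkP.2, sub_self, zero_mul]
  have hvw : star v * w = 0 := by
    have h1 : star v = star v * k := by
      have := congrArg star hkv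
      rw [star_mul, hkP.1] at this
      exact this.symm
    rw [h1, mul_assoc, hkw, mul_zero]
  have hwv : star w * v = 0 := by
    have := congrArg star hvw
    rwa [star_mul, star_star, star_zero] at this
  have hsw : s * star w = 0 := by
    have := congrArg star hws
    rwa [star_mul, hvP.1, star_zero] at this
  have hvw' : v * star w = 0 := by rw [← hvs, mul_assoc, hsw, mul_zero]
  have hwv' : w * star v = 0 := by
    have := congrArg star hvw'
    rwa [star_mul, star_star, star_zero] at this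
  refine ⟨v + w, add_mem hv hw, ⟨?_, ?_⟩, ?_⟩
  · rw [star_add, add_mul, mul_add, mul_add, hvw, hwv, hw1]
    show s + 0 + (0 + (1 - s)) = 1
    abel
  · rw [star_add, add_mul, mul_add, mul_add, hvw', hwv', hw2]
    show k + 0 + (0 + (1 - k)) = 1
    abel
  · have h1 : n2 f (x - v) ≤ n2 f (b - 1) := by
      have e1 : x - v = v * (cfc Real.sqrt b - 1) := by rw [mul_sub, hvb, mul_one]
      rw [e1]
      have h2 : n2 f (v * (cfc Real.sqrt b - 1)) ≤ 1 * n2 f (cfc Real.sqrt b - 1) :=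
        (n2_mul_le _ _).trans (mul_le_mul_of_nonneg_right hvn (n2_nonneg _))
      rw [one_mul] at h2
      refine h2.trans ?_
      apply (sq_le_sq₀ (n2_nonneg _) (n2_nonneg _)).1
      rw [n2_sq_re, n2_sq_re]
      apply f_re_mono
      have hsc : ContinuousOn Real.sqrt (spectrum ℝ b) := Real.continuous_sqrt.continuousOn
      have e2 : cfc Real.sqrt b - 1 = cfc (fun t => Real.sqrt t - 1) b := by
        rw [cfc_sub Real.sqrt (fun _ => (1 : ℝ)) b hsc continuousOn_const, cfc_const_one ℝ b]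
      have e3 : b - 1 = cfc (fun t : ℝ => t - 1) b := by
        rw [cfc_sub (fun t : ℝ => t) (fun _ => (1 : ℝ)) b continuousOn_id continuousOn_const,
          cfc_const_one ℝ b, cfc_of_id hbsa]
      rw [e2, e3, (cfc_sa _ _).star_eq, (cfc_sa _ _).star_eq,
        ← cfc_mul (fun t => Real.sqrt t - 1) (fun t => Real.sqrt t - 1) b
          (hsc.sub continuousOn_const) (hsc.sub continuousOn_const),
        ← cfc_mul (fun t : ℝ => t - 1) (fun t : ℝ => t - 1) b
          (continuousOn_id.sub continuousOn_const) (continuousOn_id.sub continuousOn_const)]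
      apply cfc_mono (f := fun t => (Real.sqrt t - 1) * (Real.sqrt t - 1))
        (g := fun t : ℝ => (t - 1) * (t - 1)) _
        ((hsc.sub continuousOn_const).mul (hsc.sub continuousOn_const))
        ((continuousOn_id.sub continuousOn_const).mul (continuousOn_id.sub continuousOn_const))
      intro t ht
      have ht0 := nonneg_of_mem_spectrum hb0 ht
      have h3 := Real.mul_self_sqrt ht0
      have h4 := Real.sqrt_nonneg t
      set r := Real.sqrt t
      rw [← h3]
      have h5 : (r * r - 1) * (r * r - 1) = (r - 1) * (r - 1) * ((r + 1) * (r + 1)) := by ring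
      rw [h5]
      have h6 : 1 ≤ (r + 1) * (r + 1) := by nlinarith
      nlinarith [mul_self_nonneg (r - 1)]
    have h2 : n2 f w ≤ n2 f (b - 1) := by
      have e1 : n2 f w = n2 f (1 - s) := by
        apply (pow_left_inj₀ (n2_nonneg _) (n2_nonneg _) two_ne_zero).1
        rw [n2_sq_re, hw1, hvP.compl.n2_sq]
      have e2 : 1 - s = -((1 - s) * (b - 1)) := by
        rw [mul_sub, mul_one, sub_mul, one_mul, hsb]; abel
      rw [e1, e2, n2_neg]
      calc n2 f ((1 - s) * (b - 1)) ≤ ‖1 - s‖ * n2 f (b - 1) := n2_mul_le _ _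
        _ ≤ 1 * n2 f (b - 1) := mul_le_mul_of_nonneg_right hvP.compl.norm_le (n2_nonneg _)
        _ = _ := one_mul _
    have e3 : x - (v + w) = (x - v) - w := by abel
    rw [e3]
    refine (n2_sub_le _ _).trans ?_
    linarith

end TrAlg

end Pool.Agent.Lib.MP_f5929e_an
end

section

/-!
The relative commutant `Q = F' ∩ N^U`, its commutant `P = Q' ∩ N` and the center of `Q`.
-/

namespace Pool.Agent.Lib.MP_f5929e_an

set_option linter.unusedSectionVars false

open scoped ComplexOrder InnerProductSpace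
open Filter Topology

variable {A : Type*} [CStarAlgebra A] [PartialOrder A] [StarOrderedRing A] {τ : A →ₚ[ℂ] ℂ}
  {U : Ultrafilter ℕ} {F : Finset A}

/-- the sum of the 2-norms of the commutators with the elements of `F` -/
noncomputable def dF (τ : A →ₚ[ℂ] ℂ) (F : Finset A) (x : A) : ℝ := ∑ a ∈ F, n2 τ (x * a - a * x)

theorem dF_nonneg (x : A) : 0 ≤ dF τ F x := Finset.sum_nonneg fun _ _ => n2_nonneg _

theorem dF_one : dF τ F 1 = 0 := by
  unfold dF
  exact Finset.sum_eq_zero fun a _ => by rw [one_mul, mul_one, sub_self, n2_zero]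

theorem le_dF {a : A} (ha : a ∈ F) (x : A) : n2 τ (x * a - a * x) ≤ dF τ F x :=
  Finset.single_le_sum (f := fun a => n2 τ (x * a - a * x)) (fun _ _ => n2_nonneg _) ha

theorem dF_mul_le (hτ : TrAlg τ ⊤) (x y : A) :
    dF τ F (x * y) ≤ ‖x‖ * dF τ F y + dF τ F x * ‖y‖ := by
  unfold dF
  rw [Finset.mul_sum, Finset.sum_mul, ← Finset.sum_add_distrib]
  apply Finset.sum_le_sum
  intro a _
  have e : x * y * a - a * (x * y) = x * (y * a - a * y) + (x * a - a * x) * y := by noncomm_ring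
  rw [e]
  exact (n2_add_le _ _).trans (add_le_add (n2_mul_le _ _) (hτ.n2_mul_le' trivial trivial))

theorem dF_star (hτ : TrAlg τ ⊤) (hF : ∀ a ∈ F, star a ∈ F) (x : A) :
    dF τ F (star x) = dF τ F x := by
  unfold dF
  refine Finset.sum_nbij' (fun a => star a) (fun a => star a) hF hF
    (fun a _ => star_star a) (fun a _ => star_star a) (fun a _ => ?_)
  rw [← hτ.n2_star (x := star x * a - a * star x) trivial, ← n2_neg]
  congr 1
  rw [star_sub, star_mul, star_mul, star_star]; abel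

theorem dF_sub_le (hτ : TrAlg τ ⊤) (x y : A) :
    dF τ F x ≤ dF τ F y + (∑ a ∈ F, 2 * ‖a‖) * n2 τ (x - y) := by
  unfold dF
  rw [Finset.sum_mul, ← Finset.sum_add_distrib]
  apply Finset.sum_le_sum
  intro a _
  have e : x * a - a * x = (y * a - a * y) + ((x - y) * a - a * (x - y)) := by noncomm_ring
  rw [e]
  refine (n2_add_le _ _).trans (add_le_add le_rfl ?_)
  refine (n2_sub_le _ _).trans ?_
  have h1 : n2 τ ((x - y) * a) ≤ n2 τ (x - y) * ‖a‖ := hτ.n2_mul_le' trivial trivial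
  have h2 : n2 τ (a * (x - y)) ≤ ‖a‖ * n2 τ (x - y) := n2_mul_le _ _
  linarith

theorem dF_add_le (x y : A) : dF τ F (x + y) ≤ dF τ F x + dF τ F y := by
  unfold dF
  rw [← Finset.sum_add_distrib]
  apply Finset.sum_le_sum
  intro a _
  have e : (x + y) * a - a * (x + y) = (x * a - a * x) + (y * a - a * y) := by noncomm_ring
  rw [e]
  exact n2_add_le _ _

/-- `F' ∩ N^U` -/
noncomputable def QQ (τ : A →ₚ[ℂ] ℂ) (U : Ultrafilter ℕ) (F : Finset A) :
    StarSubalgebra ℂ (KK τ U →L[ℂ] KK τ U) := rc (UP τ U) (io τ U '' F)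

theorem io_subset : io τ U '' (F : Set A) ⊆ UP τ U := by
  rintro _ ⟨a, _, rfl⟩; exact io_mem a

theorem QQ_le : QQ τ U F ≤ UP τ U := rc_le _

theorem trAlg_QQ (hτ : TrAlg τ ⊤) (hU : (U : Filter ℕ) ≤ atTop) :
    TrAlg (om τ U) (QQ τ U F) := (trAlg_UP hτ hU).rc io_subset

theorem QQ_comm {x : KK τ U →L[ℂ] KK τ U} (hx : x ∈ QQ τ U F) {a : A} (ha : a ∈ F) :
    io τ U a * x = x * io τ U a :=
  ((mem_rc.1 hx).2 (io τ U a) (Set.mem_image_of_mem _ ha)).1

theorem pi_comm_iff (hτ : TrAlg τ ⊤) (hU : (U : Filter ℕ) ≤ atTop) (X : Ell A) (a : A) :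
    pi' τ U X * io τ U a = io τ U a * pi' τ U X ↔
      Tendsto (fun j => n2 τ (ev j X * a - a * ev j X)) U (𝓝 0) := by
  have h0 : io τ U a = pi' τ U (cst a) := rfl
  rw [h0, ← map_mul (pi' τ U) X (cst a), ← map_mul (pi' τ U) (cst a) X, pi_eq_iff hτ hU]
  have e : (fun j => n2 τ (ev j (X * cst a) - ev j (cst a * X))) =
      fun j => n2 τ (ev j X * a - a * ev j X) := by
    funext j; rw [map_mul, map_mul, ev_cst]
  rw [e]

theorem pi_mem_QQ (hτ : TrAlg τ ⊤) (hU : (U : Filter ℕ) ≤ atTop) (hF : ∀ a ∈ F, star a ∈ F)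
    {X : Ell A} : pi' τ U X ∈ QQ τ U F ↔ Tendsto (fun j => dF τ F (ev j X)) U (𝓝 0) := by
  constructor
  · intro h
    have h1 : Tendsto (fun j => ∑ a ∈ F, n2 τ (ev j X * a - a * ev j X)) U
        (𝓝 (∑ a ∈ F, (0 : ℝ))) := tendsto_finsetSum _ fun a ha =>
      (pi_comm_iff hτ hU X a).1 (QQ_comm h ha).symm
    rwa [Finset.sum_const_zero] at h1
  · intro h
    have key : ∀ a ∈ F, pi' τ U X * io τ U a = io τ U a * pi' τ U X := by
      intro a ha
      apply (pi_comm_iff hτ hU X a).2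
      exact squeeze_zero (fun j => n2_nonneg _) (fun j => le_dF ha _) h
    refine mem_rc.2 ⟨pi_mem X, ?_⟩
    rintro _ ⟨a, ha, rfl⟩
    refine ⟨(key a ha).symm, ?_⟩
    rw [← map_star]
    exact (key _ (hF a ha)).symm

/-- `P = Q' ∩ N` -/
noncomputable def PP (hτ : TrAlg τ ⊤) (hF : ∀ a ∈ F, star a ∈ F) : StarSubalgebra ℂ A where
  carrier := {x | ∀ ε > 0, ∃ η > 0, ∀ g, Un g → dF τ F g ≤ η → n2 τ (g * x - x * g) ≤ ε}
  mul_mem' := by
    intro x y hx hy ε hε
    obtain ⟨η₁, h1, h1'⟩ := hx (ε / (2 * (‖y‖ + 1))) (by positivity)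
    obtain ⟨η₂, h2, h2'⟩ := hy (ε / (2 * (‖x‖ + 1))) (by positivity)
    refine ⟨min η₁ η₂, lt_min h1 h2, fun g hg hd => ?_⟩
    have e : g * (x * y) - x * y * g = (g * x - x * g) * y + x * (g * y - y * g) := by
      noncomm_ring
    rw [e]
    have h3 := h1' g hg (hd.trans (min_le_left _ _))
    have h4 := h2' g hg (hd.trans (min_le_right _ _))
    have h5 : n2 τ ((g * x - x * g) * y) ≤ n2 τ (g * x - x * g) * ‖y‖ :=
      hτ.n2_mul_le' trivial trivial
    have h6 : n2 τ (x * (g * y - y * g)) ≤ ‖x‖ * n2 τ (g * y - y * g) := n2_mul_le _ _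
    have h7 : n2 τ (g * x - x * g) * ‖y‖ ≤ ε / 2 := by
      calc _ ≤ ε / (2 * (‖y‖ + 1)) * (‖y‖ + 1) :=
            mul_le_mul h3 (by linarith) (norm_nonneg _) (by positivity)
        _ = ε / 2 := by field_simp
    have h8 : ‖x‖ * n2 τ (g * y - y * g) ≤ ε / 2 := by
      calc _ ≤ (‖x‖ + 1) * (ε / (2 * (‖x‖ + 1))) :=
            mul_le_mul (by linarith) h4 (n2_nonneg _) (by positivity)
        _ = ε / 2 := by field_simp
    refine (n2_add_le _ _).trans ?_
    linarith
  add_mem' := by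
    intro x y hx hy ε hε
    obtain ⟨η₁, h1, h1'⟩ := hx (ε / 2) (by positivity)
    obtain ⟨η₂, h2, h2'⟩ := hy (ε / 2) (by positivity)
    refine ⟨min η₁ η₂, lt_min h1 h2, fun g hg hd => ?_⟩
    have e : g * (x + y) - (x + y) * g = (g * x - x * g) + (g * y - y * g) := by
      noncomm_ring
    rw [e]
    have h3 := h1' g hg (hd.trans (min_le_left _ _))
    have h4 := h2' g hg (hd.trans (min_le_right _ _))
    refine (n2_add_le _ _).trans ?_
    linarith
  algebraMap_mem' := by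
    intro c ε hε
    refine ⟨1, one_pos, fun g _ _ => ?_⟩
    rw [Algebra.commutes c g, sub_self, n2_zero]
    exact hε.le
  star_mem' := by
    intro x hx ε hε
    obtain ⟨η, h1, h1'⟩ := hx ε hε
    refine ⟨η, h1, fun g hg hd => ?_⟩
    have h2 := h1' (star g) hg.star (by rwa [dF_star hτ hF])
    rw [← hτ.n2_star (x := star g * x - x * star g) trivial, ← n2_neg] at h2
    have e : -star (star g * x - x * star g) = g * star x - star x * g := by
      rw [star_sub, star_mul, star_mul, star_star]; abel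
    rwa [e] at h2

theorem mem_PP {hτ : TrAlg τ ⊤} {hF : ∀ a ∈ F, star a ∈ F} {x : A} :
    x ∈ PP hτ hF ↔ ∀ ε > 0, ∃ η > 0, ∀ g, Un g → dF τ F g ≤ η → n2 τ (g * x - x * g) ≤ ε :=
  Iff.rfl

theorem trAlg_PP (hτ : TrAlg τ ⊤) (hF : ∀ a ∈ F, star a ∈ F) : TrAlg τ (PP hτ hF) := by
  refine hτ.mono le_top ?_
  intro x _ u hu hux
  rw [mem_PP]
  intro ε hε
  obtain ⟨n, hn⟩ := (hux.eventually (gt_mem_nhds (show (0 : ℝ) < ε / 4 by positivity))).exists
  obtain ⟨η, hη, h⟩ := mem_PP.1 (hu n) (ε / 2) (by positivity)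
  refine ⟨η, hη, fun g hg hd => ?_⟩
  have e : g * x - x * g = (g * u n - u n * g) - (g * (u n - x) - (u n - x) * g) := by
    noncomm_ring
  rw [e]
  have h1 := h g hg hd
  have h2 : n2 τ (g * (u n - x)) ≤ n2 τ (u n - x) := by
    calc _ ≤ ‖g‖ * n2 τ (u n - x) := n2_mul_le _ _
      _ ≤ 1 * n2 τ (u n - x) := mul_le_mul_of_nonneg_right hg.norm_le (n2_nonneg _)
      _ = _ := one_mul _
  have h3 : n2 τ ((u n - x) * g) ≤ n2 τ (u n - x) := by
    calc _ ≤ n2 τ (u n - x) * ‖g‖ := hτ.n2_mul_le' trivial trivial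
      _ ≤ n2 τ (u n - x) * 1 := mul_le_mul_of_nonneg_left hg.norm_le (n2_nonneg _)
      _ = _ := mul_one _
  refine (n2_sub_le _ _).trans ?_
  have h4 := n2_sub_le (f := τ) (g * (u n - x)) ((u n - x) * g)
  linarith

theorem F_sub_PP (hτ : TrAlg τ ⊤) (hF : ∀ a ∈ F, star a ∈ F) {a : A} (ha : a ∈ F) :
    a ∈ PP hτ hF := by
  rw [mem_PP]
  intro ε hε
  exact ⟨ε, hε, fun g _ hd => (le_dF ha g).trans hd⟩

/-- the conditional expectation onto `P`, quantitatively -/
theorem exists_near_PP (hτ : TrAlg τ ⊤) (hF : ∀ a ∈ F, star a ∈ F) (x : A) (hx0 : 0 ≤ x)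
    (hx1 : x ≤ 1) :
    ∃ c ∈ PP hτ hF, 0 ≤ c ∧ c ≤ 1 ∧
      ∀ η > 0, ∀ r, (∀ g, Un g → dF τ F g ≤ η → n2 τ (g * x - x * g) ≤ r) → n2 τ (c - x) ≤ r := by
  obtain ⟨c, _, _, hc1, hc2, _, u, hu, huc⟩ := hτ.exists_avg (x := x) trivial
    (fun η => {g | Un g ∧ dF τ F g ≤ η})
    (fun η hη => ⟨Un.one, by rw [dF_one]; exact hη.le⟩)
    (fun η η' _ h g hg => ⟨hg.1, hg.2.trans h⟩)
    (fun η η' _ _ g hg h hh => ⟨hg.1.mul hh.1, by
      refine (dF_mul_le hτ g h).trans ?_
      have h1 : ‖g‖ * dF τ F h ≤ 1 * η' :=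
        mul_le_mul hg.1.norm_le hh.2 (dF_nonneg _) zero_le_one
      have h2 : dF τ F g * ‖h‖ ≤ η * 1 :=
        mul_le_mul hg.2 hh.1.norm_le (norm_nonneg _) ((dF_nonneg _).trans hg.2)
      linarith⟩)
    (fun η _ g hg => ⟨trivial, hg.1⟩)
  have hu01 : ∀ n, 0 ≤ u n ∧ u n ≤ 1 := by
    intro n
    have : convexHull ℝ (conj x {g | Un g ∧ dF τ F g ≤ 1}) ⊆ {y | 0 ≤ y ∧ y ≤ 1} := by
      apply convexHull_min _ ((convex_Ici (𝕜 := ℝ) (0 : A)).inter (convex_Iic (𝕜 := ℝ) (1 : A)))
      rintro _ ⟨g, hg, rfl⟩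
      refine ⟨star_right_conjugate_nonneg hx0 g, ?_⟩
      show g * x * star g ≤ 1
      have h1 := star_right_conjugate_le_conjugate hx1 g
      rwa [mul_one, hg.1.2] at h1
    exact this (hu n)
  refine ⟨c, ?_, ?_, ?_, ?_⟩
  · rw [mem_PP]
    intro ε hε
    obtain ⟨η, hη, h⟩ := hc1 ε hε
    refine ⟨η, hη, fun g hg hd => ?_⟩
    have h1 := h g ⟨hg, hd⟩
    have e : g * c - c * g = (g * c * star g - c) * g := by
      rw [sub_mul, mul_assoc (g * c), hg.1, mul_one]
    rw [e]
    calc _ ≤ n2 τ (g * c * star g - c) * ‖g‖ := hτ.n2_mul_le' trivial trivial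
      _ ≤ ε * 1 := mul_le_mul h1 hg.norm_le (norm_nonneg _) hε.le
      _ = ε := mul_one _
  · exact hτ.nonneg_of_T2 (fun _ => trivial) trivial (fun n => (hu01 n).1) huc
  · exact hτ.le_of_T2 (fun _ => trivial) trivial trivial (fun n => (hu01 n).2) huc
  · intro η hη r hr
    apply hc2 η hη
    intro g hg
    have h1 := hr g hg.1 hg.2
    have e : g * x * star g - x = (g * x - x * g) * star g := by
      rw [sub_mul, mul_assoc x, hg.1.2, mul_one]
    rw [e]
    calc _ ≤ n2 τ (g * x - x * g) * ‖star g‖ := hτ.n2_mul_le' trivial trivial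
      _ ≤ n2 τ (g * x - x * g) * 1 := by
        rw [norm_star]
        exact mul_le_mul_of_nonneg_left hg.1.norm_le (n2_nonneg _)
      _ ≤ r := by rw [mul_one]; exact h1

/-- uniform commutation with almost central unitaries -/
def Unif (τ : A →ₚ[ℂ] ℂ) (U : Ultrafilter ℕ) (F : Finset A) (Z : Ell A) : Prop :=
  ∀ ε > 0, ∃ η > 0, ∀ᶠ j in (U : Filter ℕ), ∀ g, Un g → dF τ F g ≤ η →
    n2 τ (g * ev j Z - ev j Z * g) ≤ ε

theorem unif_of_central (hτ : TrAlg τ ⊤) (hU : (U : Filter ℕ) ≤ atTop)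
    (hF : ∀ a ∈ F, star a ∈ F) {Z : Ell A}
    (hc : ∀ y ∈ QQ τ U F, y * pi' τ U Z = pi' τ U Z * y) : Unif τ U F Z := by
  classical
  by_contra hcon
  unfold Unif at hcon
  push Not at hcon
  obtain ⟨ε, hε, hcon⟩ := hcon
  obtain ⟨g, hg⟩ := sat hU (X := A)
    (fun k j g => Un g ∧ dF τ F g ≤ 1 / ((k : ℝ) + 1) ∧ ε < n2 τ (g * ev j Z - ev j Z * g))
    (fun k j g h => ⟨h.1, h.2.1.trans (by
      apply one_div_le_one_div_of_le (by positivity)
      push_cast; linarith), h.2.2⟩) (by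
      intro k
      exact hcon (1 / ((k : ℝ) + 1)) (by positivity))
  set G : Ell A := mkE (fun j => if Un (g j) then g j else 1) 1 (by
    intro j
    show ‖(if Un (g j) then g j else 1)‖ ≤ 1
    split_ifs with h
    · exact h.norm_le
    · exact Un.one.norm_le) with hG
  have hGj : ∀ k : ℕ, ∀ᶠ j in (U : Filter ℕ), ev j G = g j ∧ dF τ F (g j) ≤ 1 / ((k : ℝ) + 1) ∧
      ε < n2 τ (g j * ev j Z - ev j Z * g j) := by
    intro k
    filter_upwards [hg k] with j hj
    refine ⟨?_, hj.2.1, hj.2.2⟩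
    rw [hG, ev_mkE]
    exact if_pos hj.1
  have hGQ : pi' τ U G ∈ QQ τ U F := by
    rw [pi_mem_QQ hτ hU hF, Metric.tendsto_nhds]
    intro δ hδ
    obtain ⟨k, hk⟩ := (tendsto_one_div_nat.eventually (gt_mem_nhds hδ)).exists
    filter_upwards [hGj k] with j hj
    rw [Real.dist_0_eq_abs, abs_of_nonneg (dF_nonneg _), hj.1]
    exact hj.2.1.trans_lt hk
  have h1 := hc _ hGQ
  rw [← map_mul, ← map_mul, pi_eq_iff hτ hU] at h1
  obtain ⟨j, hj1, hj2⟩ := ((h1.eventually (gt_mem_nhds hε)).and (hGj 0)).exists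
  rw [map_mul, map_mul, hj2.1] at hj1
  linarith [hj2.2.2]

/-- unitaries of the ultrapower lift to sequences of unitaries -/
theorem exists_unitary_lift (hτ : TrAlg τ ⊤) (hU : (U : Filter ℕ) ≤ atTop)
    (hfac : TrAlg.MinC (⊤ : StarSubalgebra ℂ A) 1) {y : KK τ U →L[ℂ] KK τ U} (hy : y ∈ UP τ U)
    (hyU : Un y) : ∃ G : Ell A, (∀ j, Un (ev j G)) ∧ pi' τ U G = y := by
  obtain ⟨Y, rfl⟩ := mem_UP.1 hy
  have hex : ∀ j, ∃ u : A, Un u ∧ n2 τ (ev j Y - u) ≤ 2 * n2 τ (star (ev j Y) * ev j Y - 1) := by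
    intro j
    obtain ⟨u, _, h1, h2⟩ := hτ.exists_unitary_near hfac (x := ev j Y) trivial
    exact ⟨u, h1, h2⟩
  choose u hu1 hu2 using hex
  refine ⟨mkE u 1 fun j => (hu1 j).norm_le, hu1, ?_⟩
  have h1 : pi' τ U (star Y * Y) = pi' τ U 1 := by
    rw [map_mul, map_star, hyU.1, map_one]
  rw [pi_eq_iff hτ hU] at h1
  symm
  apply pi_eq_of hτ hU
  have h2 := h1.const_mul 2
  rw [mul_zero] at h2
  refine squeeze_zero (fun j => n2_nonneg _) (fun j => ?_) h2
  rw [ev_mkE, map_mul, map_star, map_one]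
  exact hu2 j

theorem central_of_unif (hτ : TrAlg τ ⊤) (hU : (U : Filter ℕ) ≤ atTop)
    (hfac : TrAlg.MinC (⊤ : StarSubalgebra ℂ A) 1)
    (hF : ∀ a ∈ F, star a ∈ F) {Z : Ell A} (hZ : Unif τ U F Z) :
    ∀ y ∈ QQ τ U F, y * pi' τ U Z = pi' τ U Z * y := by
  apply (trAlg_QQ hτ hU).comm_of_unitary
  intro y hy hyU
  obtain ⟨G, hG, rfl⟩ := exists_unitary_lift hτ hU hfac (QQ_le hy) hyU
  rw [pi_mem_QQ hτ hU hF] at hy
  rw [← map_mul, ← map_mul]
  apply pi_eq_of hτ hU
  rw [Metric.tendsto_nhds]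
  intro ε hε
  obtain ⟨η, hη, h⟩ := hZ (ε / 2) (by positivity)
  filter_upwards [h, hy.eventually (gt_mem_nhds hη)] with j h1 h2
  rw [Real.dist_0_eq_abs, abs_of_nonneg (n2_nonneg _), map_mul, map_mul]
  exact (h1 _ (hG j) h2.le).trans_lt (by linarith)

/-- elements of `P` commute with `Q` -/
theorem PP_comm_QQ (hτ : TrAlg τ ⊤) (hU : (U : Filter ℕ) ≤ atTop)
    (hfac : TrAlg.MinC (⊤ : StarSubalgebra ℂ A) 1)
    (hF : ∀ a ∈ F, star a ∈ F) {x : A} (hx : x ∈ PP hτ hF) :
    ∀ y ∈ QQ τ U F, y * io τ U x = io τ U x * y := by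
  apply central_of_unif hτ hU hfac hF (Z := cst x)
  intro ε hε
  obtain ⟨η, hη, h⟩ := mem_PP.1 hx ε hε
  exact ⟨η, hη, Eventually.of_forall fun j => h⟩

end Pool.Agent.Lib.MP_f5929e_an
end
end
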