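import Mathlib
import Pool.Agent.Lib.MP_f5929e_an.Split

/-!
Dyadic trees of projections, pinchings, spectral projections.
-/

namespace Pool.Agent.Lib.MP_f5929e_an

set_option linter.unusedSectionVars false

open scoped ComplexOrder InnerProductSpace
open Filter Topology

variable {𝔸 : Type*} [CStarAlgebra 𝔸] [PartialOrder 𝔸] [StarOrderedRing 𝔸] {f : 𝔸 →ₚ[ℂ] ℂ}
  {M : StarSubalgebra ℂ 𝔸}

/-- dyadic trees of projections with small pieces -/
structure Tree (f : 𝔸 →ₚ[ℂ] ℂ) (z : 𝔸) (g : ℕ → ℕ → 𝔸) : Prop where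
  pjz : Pj z
  pj : ∀ k i, i < 2 ^ k → Pj (g k i)
  root : g 0 0 = z
  sum : ∀ k i, i < 2 ^ k → g (k + 1) (2 * i) + g (k + 1) (2 * i + 1) = g k i
  mesh : ∀ ε > 0, ∃ k, ∀ i < 2 ^ k, (f (g k i)).re ≤ ε

/-- pinching -/
def pinch (g : ℕ → ℕ → 𝔸) (k : ℕ) (a : 𝔸) : 𝔸 := ∑ i ∈ Finset.range (2 ^ k), g k i * a * g k i

theorem sum_two_pow {α : Type*} [AddCommMonoid α] (k : ℕ) (h : ℕ → α) :
    ∑ i ∈ Finset.range (2 ^ (k + 1)), h i =
      ∑ i ∈ Finset.range (2 ^ k), (h (2 * i) + h (2 * i + 1)) := by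
  rw [pow_succ, mul_comm, sum_range_double]

namespace Tree

variable {z : 𝔸} {g : ℕ → ℕ → 𝔸}

theorem total (hg : Tree f z g) (k : ℕ) : ∑ i ∈ Finset.range (2 ^ k), g k i = z := by
  induction k with
  | zero => simpa using hg.root
  | succ k ih =>
    rw [sum_two_pow, ← ih]
    exact Finset.sum_congr rfl fun i hi => hg.sum k i (Finset.mem_range.1 hi)

theorem orth (hg : Tree f z g) (k : ℕ) {i j : ℕ} (hi : i < 2 ^ k) (hj : j < 2 ^ k) (hij : i ≠ j) :
    g k i * g k j = 0 :=
  orth_of_sum (Finset.range (2 ^ k)) (g k) (fun i hi => hg.pj k i (Finset.mem_range.1 hi))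
    hg.pjz (hg.total k) i (Finset.mem_range.2 hi) j (Finset.mem_range.2 hj) hij

theorem mul_sum_self (hg : Tree f z g) (k : ℕ) {i : ℕ} (hi : i < 2 ^ k) :
    g k i * z = g k i ∧ z * g k i = g k i := by
  have h1 : g k i * z = g k i := by
    rw [← hg.total k, Finset.mul_sum, Finset.sum_eq_single i]
    · exact (hg.pj k i hi).2
    · intro j hj hji
      exact hg.orth k hi (Finset.mem_range.1 hj) hji.symm
    · intro h; exact absurd (Finset.mem_range.2 hi) h
  exact ⟨h1, hg.pjz.comm_of_le (hg.pj k i hi) h1⟩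

theorem lt_left {k i : ℕ} (hi : i < 2 ^ k) : 2 * i < 2 ^ (k + 1) := by rw [pow_succ]; omega

theorem lt_right {k i : ℕ} (hi : i < 2 ^ k) : 2 * i + 1 < 2 ^ (k + 1) := by rw [pow_succ]; omega

theorem child (hg : Tree f z g) (k : ℕ) {i : ℕ} (hi : i < 2 ^ (k + 1)) :
    g (k + 1) i * g k (i / 2) = g (k + 1) i := by
  have hi2 : i / 2 < 2 ^ k := by rw [pow_succ] at hi; omega
  rw [← hg.sum k (i / 2) hi2, mul_add]
  rcases Nat.even_or_odd' i with ⟨m, rfl | rfl⟩
  · have e : 2 * m / 2 = m := by omega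
    rw [e, (hg.pj _ _ hi).2, hg.orth (k + 1) hi (by rw [e] at hi2; exact lt_right hi2) (by omega),
      add_zero]
  · have e : (2 * m + 1) / 2 = m := by omega
    rw [e, (hg.pj _ _ hi).2, hg.orth (k + 1) hi (by rw [e] at hi2; exact lt_left hi2) (by omega),
      zero_add]

theorem desc (hg : Tree f z g) (l d : ℕ) {i : ℕ} (hi : i < 2 ^ (l + d)) :
    g (l + d) i * g l (i / 2 ^ d) = g (l + d) i := by
  induction d generalizing i with
  | zero => simpa using (hg.pj _ _ hi).2
  | succ d ih =>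
    have hi2 : i / 2 < 2 ^ (l + d) := by
      have : 2 ^ (l + (d + 1)) = 2 ^ (l + d) * 2 := by rw [← add_assoc, pow_succ]
      omega
    have h1 := hg.child (l + d) (i := i) hi
    have h2 := ih hi2
    have e : i / 2 / 2 ^ d = i / 2 ^ (d + 1) := by
      rw [Nat.div_div_eq_div_mul, pow_succ, mul_comm]
    rw [e] at h2
    show g (l + d + 1) i * _ = g (l + d + 1) i
    rw [← h1, mul_assoc, h2]

theorem dich (hg : Tree f z g) {l k : ℕ} (hlk : l ≤ k) {i m : ℕ} (hi : i < 2 ^ l) (hm : m < 2 ^ k) :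
    (g k m * g l i = g k m ∧ g l i * g k m = g k m) ∨
      (g k m * g l i = 0 ∧ g l i * g k m = 0) := by
  obtain ⟨d, rfl⟩ := Nat.exists_eq_add_of_le hlk
  have h1 := hg.desc l d hm
  have hm' : m / 2 ^ d < 2 ^ l := by
    rw [Nat.div_lt_iff_lt_mul (by positivity), ← pow_add]
    exact hm
  by_cases h : m / 2 ^ d = i
  · left
    rw [h] at h1
    exact ⟨h1, (hg.pj _ _ hi).comm_of_le (hg.pj _ _ hm) h1⟩
  · right
    have h2 : g (l + d) m * g l i = 0 := by
      rw [← h1, mul_assoc, hg.orth l hm' hi h, mul_zero]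
    refine ⟨h2, ?_⟩
    have := congrArg Star.star h2
    rwa [star_mul, (hg.pj _ _ hm).1, (hg.pj _ _ hi).1, star_zero] at this

theorem pinch_comm (hg : Tree f z g) {l k : ℕ} (hlk : l ≤ k) {i : ℕ} (hi : i < 2 ^ l) (a : 𝔸) :
    pinch g k a * g l i = g l i * pinch g k a := by
  unfold pinch
  rw [Finset.sum_mul, Finset.mul_sum]
  apply Finset.sum_congr rfl
  intro m hm
  rcases hg.dich hlk hi (Finset.mem_range.1 hm) with ⟨h1, h2⟩ | ⟨h1, h2⟩
  · rw [mul_assoc (g k m * a), h1, ← mul_assoc (g l i), ← mul_assoc (g l i), h2]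
  · rw [mul_assoc (g k m * a), h1, ← mul_assoc (g l i), ← mul_assoc (g l i), h2, mul_zero,
      zero_mul, zero_mul]

theorem norm_pinch_le (hg : Tree f z g) (k : ℕ) (a : 𝔸) : ‖pinch g k a‖ ≤ ‖a‖ := by
  have h1 : star (pinch g k a) * pinch g k a =
      ∑ i ∈ Finset.range (2 ^ k), g k i * (star a * g k i * a) * g k i := by
    unfold pinch
    rw [star_sum, Finset.sum_mul]
    apply Finset.sum_congr rfl
    intro i hi
    have hi' := Finset.mem_range.1 hi
    rw [Finset.mul_sum, Finset.sum_eq_single i]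
    · rw [star_mul, star_mul, (hg.pj k i hi').1]
      calc g k i * (star a * g k i) * (g k i * a * g k i)
          = g k i * (star a * (g k i * g k i) * a) * g k i := by noncomm_ring
        _ = _ := by rw [(hg.pj k i hi').2]
    · intro j hj hji
      rw [star_mul, star_mul, (hg.pj k i hi').1]
      calc g k i * (star a * g k i) * (g k j * a * g k j)
          = g k i * (star a * (g k i * g k j) * a) * g k j := by noncomm_ring
        _ = 0 := by
          rw [hg.orth k hi' (Finset.mem_range.1 hj) hji.symm]; noncomm_ring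
    · intro h; exact absurd hi h
  have h2 : star (pinch g k a) * pinch g k a ≤ algebraMap ℝ 𝔸 (‖a‖ ^ 2) := by
    rw [h1]
    calc ∑ i ∈ Finset.range (2 ^ k), g k i * (star a * g k i * a) * g k i
        ≤ ∑ i ∈ Finset.range (2 ^ k), (‖a‖ ^ 2) • g k i := by
          apply Finset.sum_le_sum
          intro i hi
          have hp := hg.pj k i (Finset.mem_range.1 hi)
          have h3 : star a * g k i * a ≤ algebraMap ℝ 𝔸 (‖a‖ ^ 2) := by
            calc star a * g k i * a ≤ star a * 1 * a := star_left_conjugate_le_conjugate hp.le_one a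
              _ = star a * a := by rw [mul_one]
              _ ≤ algebraMap ℝ 𝔸 ‖star a * a‖ := IsSelfAdjoint.le_algebraMap_norm_self
              _ = algebraMap ℝ 𝔸 (‖a‖ ^ 2) := by rw [CStarRing.norm_star_mul_self, sq]
          have h4 : g k i * (star a * g k i * a) * g k i ≤
              g k i * algebraMap ℝ 𝔸 (‖a‖ ^ 2) * g k i := by
            have := star_left_conjugate_le_conjugate h3 (g k i)
            rwa [hp.1] at this
          refine h4.trans_eq ?_
          rw [Algebra.algebraMap_eq_smul_one, mul_smul_comm, smul_mul_assoc, mul_one, hp.2]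
      _ = (‖a‖ ^ 2) • z := by rw [← Finset.smul_sum, hg.total]
      _ ≤ (‖a‖ ^ 2) • (1 : 𝔸) := smul_le_smul_of_nonneg_left hg.pjz.le_one (by positivity)
      _ = algebraMap ℝ 𝔸 (‖a‖ ^ 2) := by rw [Algebra.algebraMap_eq_smul_one]
  have h3 : ‖star (pinch g k a) * pinch g k a‖ ≤ ‖a‖ ^ 2 :=
    (CStarAlgebra.norm_le_iff_le_algebraMap _ (by positivity) (star_mul_self_nonneg _)).2 h2
  rw [CStarRing.norm_star_mul_self, ← sq] at h3
  exact (sq_le_sq₀ (norm_nonneg _) (norm_nonneg _)).1 h3

theorem z_pinch (hg : Tree f z g) (k : ℕ) (a : 𝔸) :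
    z * pinch g k a = pinch g k a ∧ pinch g k a * z = pinch g k a := by
  unfold pinch
  constructor
  · rw [Finset.mul_sum]
    apply Finset.sum_congr rfl
    intro i hi
    rw [← mul_assoc, ← mul_assoc, (hg.mul_sum_self k (Finset.mem_range.1 hi)).2]
  · rw [Finset.sum_mul]
    apply Finset.sum_congr rfl
    intro i hi
    rw [mul_assoc, (hg.mul_sum_self k (Finset.mem_range.1 hi)).1]

theorem pinch_zero (hg : Tree f z g) (a : 𝔸) : pinch g 0 a = z * a * z := by
  unfold pinch
  simp [hg.root]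

/-- successive pinchings -/
theorem pinch_succ_sub (hg : Tree f z g) (k : ℕ) (a : 𝔸) {δ : ℝ}
    (h : ∀ i < 2 ^ k, n2 f (g (k + 1) (2 * i) * a * (g k i - g (k + 1) (2 * i))) ≤ δ ∧
      n2 f ((g k i - g (k + 1) (2 * i)) * a * g (k + 1) (2 * i)) ≤ δ) :
    n2 f (pinch g (k + 1) a - pinch g k a) ≤ 2 ^ k * (2 * δ) := by
  unfold pinch
  rw [sum_two_pow, ← Finset.sum_sub_distrib]
  refine (n2_sum_le _ _).trans ?_
  calc _ ≤ ∑ i ∈ Finset.range (2 ^ k), 2 * δ := by
        apply Finset.sum_le_sum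
        intro i hi
        have hi' := Finset.mem_range.1 hi
        obtain ⟨h1, h2⟩ := h i hi'
        set e := g k i
        set r := g (k + 1) (2 * i)
        have e1 : g (k + 1) (2 * i + 1) = e - r := by
          rw [eq_sub_iff_add_eq, add_comm]
          exact hg.sum k i hi'
        rw [e1]
        have e2 : r * a * r + (e - r) * a * (e - r) - e * a * e =
            -(r * a * (e - r) + (e - r) * a * r) := by noncomm_ring
        rw [e2, n2_neg]
        refine (n2_add_le _ _).trans ?_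
        linarith
    _ = 2 ^ k * (2 * δ) := by
      rw [Finset.sum_const, Finset.card_range, nsmul_eq_mul]
      push_cast; ring

end Tree

/-! ### comparison of `2`-norms and spectral projections -/

theorem n2_cfc_le {y : 𝔸} (a b : ℝ → ℝ) (ha : ContinuousOn a (spectrum ℝ y))
    (hb : ContinuousOn b (spectrum ℝ y)) (h : ∀ t ∈ spectrum ℝ y, |a t| ≤ |b t|) :
    n2 f (cfc a y) ≤ n2 f (cfc b y) := by
  have h1 : n2 f (cfc a y) ^ 2 ≤ n2 f (cfc b y) ^ 2 := by
    rw [n2_sq_re, n2_sq_re, (cfc_sa _ _).star_eq, (cfc_sa _ _).star_eq]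
    apply TrAlg.f_re_mono
    rw [← cfc_mul a a y ha ha, ← cfc_mul b b y hb hb]
    apply cfc_mono (f := fun t => a t * a t) (g := fun t => b t * b t) _ (ha.mul ha) (hb.mul hb)
    intro t ht
    have := h t ht
    rw [← abs_mul_abs_self (a t), ← abs_mul_abs_self (b t)]
    exact mul_self_le_mul_self (abs_nonneg _) this
  exact (sq_le_sq₀ (n2_nonneg _) (n2_nonneg _)).1 h1

/-- a projection near an almost projection -/
theorem TrAlg.exists_spec (hM : TrAlg f M) {y : 𝔸} (hy : y ∈ M) (hy0 : 0 ≤ y) (hy1 : y ≤ 1) :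
    ∃ s ∈ M, Pj s ∧ n2 f (y - s) ≤ 4 * n2 f (y * y - y) ∧ ∀ c ∈ M, y * c = 0 → s * c = 0 := by
  have hsa : IsSelfAdjoint y := IsSelfAdjoint.of_nonneg hy0
  set g : ℝ → ℝ := fun t => max (t - 1 / 2) 0 with hgdef
  set κ : ℝ → ℝ := fun t => max (t - 1 / 2) 0 / max t (1 / 2) with hκ
  have hg : Continuous g := by fun_prop
  have hκc : Continuous κ := by
    apply Continuous.div (by fun_prop) (by fun_prop)
    intro t
    have : (0 : ℝ) < max t (1 / 2) := lt_of_lt_of_le (by norm_num) (le_max_right _ _)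
    exact this.ne'
  set x := cfc g y with hx
  have hxM : x ∈ M := hM.cfc_mem hy _
  have hx0 : 0 ≤ x := cfc_nonneg fun t _ => le_max_right _ _
  obtain ⟨s, hs, hsP, hsx, hxs, hl, hr, hlim⟩ := hM.exists_support hM le_rfl hxM hx0
  refine ⟨s, hs, hsP, ?_, ?_⟩
  · have h1 : Tendsto (fun n => n2 f (y - cfc (hh n) x)) atTop (𝓝 (n2 f (y - s))) :=
      ((T2.const (x := y)).sub hlim).tendsto_n2
    apply le_of_tendsto h1
    filter_upwards [eventually_ge_atTop 3] with n hn
    have e1 : cfc (hh n) x = cfc (fun t => hh n (g t)) y := by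
      rw [hx]
      exact (cfc_comp (hh n) g y hsa (hh_cont n).continuousOn hg.continuousOn).symm
    have e2 : y - cfc (hh n) x = cfc (fun t => t - hh n (g t)) y := by
      rw [e1, cfc_sub (fun t : ℝ => t) (fun t => hh n (g t)) y continuousOn_id
        ((hh_cont n).comp hg).continuousOn, cfc_of_id hsa]
    have e3 : y * y - y = cfc (fun t : ℝ => t * t - t) y := by
      rw [cfc_sub (fun t : ℝ => t * t) (fun t : ℝ => t) y (by fun_prop) (by fun_prop),
        cfc_mul (fun t : ℝ => t) (fun t : ℝ => t) y (by fun_prop) (by fun_prop), cfc_of_id hsa]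
    have e4 : 4 * n2 f (y * y - y) = n2 f (cfc (fun t : ℝ => 4 * (t * t - t)) y) := by
      rw [e3, cfc_const_mul 4 (fun t : ℝ => t * t - t) y (by fun_prop)]
      have : (4 : ℝ) • cfc (fun t : ℝ => t * t - t) y = (4 : ℂ) • cfc (fun t : ℝ => t * t - t) y := by
        rw [← Complex.coe_smul]
        norm_num
      rw [this, n2_smul]
      norm_num
    rw [e2, e4]
    apply n2_cfc_le (fun t => t - hh n (g t)) (fun t => 4 * (t * t - t))
      (by
        have := (hh_cont n).comp hg
        exact (continuous_id.sub this).continuousOn) (by fun_prop)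
    intro t ht
    have ht0 : 0 ≤ t := nonneg_of_mem_spectrum hy0 ht
    have ht1 : t ≤ 1 := le_one_of_mem_spectrum hy0 hy1 ht
    have hR : |4 * (t * t - t)| = 4 * (t * (1 - t)) := by
      rw [show 4 * (t * t - t) = -(4 * (t * (1 - t))) by ring, abs_neg, abs_of_nonneg]
      have : 0 ≤ t * (1 - t) := mul_nonneg ht0 (by linarith)
      linarith
    rw [hR]
    rcases le_total t (1 / 2) with h | h
    · have h2 : g t = 0 := max_eq_right (by linarith)
      have h3 : hh n (g t) = 0 := by rw [h2]; unfold hh; ring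
      rw [h3, sub_zero, abs_of_nonneg ht0]
      nlinarith
    · have h2 : g t = t - 1 / 2 := max_eq_left (by linarith)
      have h4 : 0 ≤ hh n (g t) := hh_nonneg n (le_max_right _ _)
      have h5 : hh n (g t) ≤ 1 := hh_le_one n
      rcases le_total t (3 / 4) with h6 | h6
      · rw [abs_le]
        constructor <;> nlinarith
      · have h7 : hh n (g t) = 1 := by
          unfold hh rr
          rw [h2, max_eq_left]
          · rw [mul_inv_cancel₀]
            linarith
          · have : 1 / ((n : ℝ) + 1) ≤ 1 / 4 := by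
              apply one_div_le_one_div_of_le (by norm_num)
              have : (3 : ℝ) ≤ n := by exact_mod_cast hn
              linarith
            linarith
        rw [h7, abs_le]
        constructor <;> nlinarith
  · intro c hc hyc
    apply hr c hc
    have e1 : x = cfc κ y * y := by
      conv_rhs => rw [show cfc κ y * y = cfc κ y * cfc (fun t : ℝ => t) y by rw [cfc_of_id hsa]]
      rw [← cfc_mul κ (fun t : ℝ => t) y hκc.continuousOn continuousOn_id, hx]
      apply cfc_congr
      intro t _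
      show max (t - 1 / 2) 0 = max (t - 1 / 2) 0 / max t (1 / 2) * t
      rcases le_total t (1 / 2) with h | h
      · rw [max_eq_right (by linarith : t - 1 / 2 ≤ 0)]; simp
      · rw [max_eq_left h, div_mul_cancel₀]
        linarith
    rw [e1, mul_assoc, hyc, mul_zero]

end Pool.Agent.Lib.MP_f5929e_an
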