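import Mathlib
import Pool.Agent.Lib.MP_f5929e_an.PQ
import Pool.Agent.Lib.MP_f5929e_an.Tree

section

/-!
Minimal central projections of `F' ∩ N^U` belong to `N`.
-/

namespace Pool.Agent.Lib.MP_f5929e_an

set_option linter.unusedSectionVars false

open scoped ComplexOrder InnerProductSpace
open Filter Topology

/-- weak limits in Hilbert spaces along ultrafilters -/
theorem exists_weak_lim {H : Type*} [NormedAddCommGroup H] [InnerProductSpace ℂ H]
    [CompleteSpace H] (U : Ultrafilter ℕ) (ζ : ℕ → H) (C : ℝ) (hζ : ∀ i, ‖ζ i‖ ≤ C) :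
    ∃ w : H, ∀ v : H, Tendsto (fun i => ⟪ζ i, v⟫_ℂ) U (𝓝 ⟪w, v⟫_ℂ) := by
  have hb : ∀ v i, ‖⟪ζ i, v⟫_ℂ‖ ≤ C * ‖v‖ := fun v i =>
    (norm_inner_le_norm _ _).trans (mul_le_mul_of_nonneg_right (hζ i) (norm_nonneg _))
  have ht : ∀ v, Tendsto (fun i => ⟪ζ i, v⟫_ℂ) U (𝓝 (ulim U fun i => ⟪ζ i, v⟫_ℂ)) := fun v =>
    tendsto_ulim U (hb v)
  let L₀ : H →ₗ[ℂ] ℂ :=
    { toFun := fun v => ulim U fun i => ⟪ζ i, v⟫_ℂ
      map_add' := fun v w => by
        refine tendsto_nhds_unique (ht (v + w)) (((ht v).add (ht w)).congr fun i => ?_)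
        rw [inner_add_right]
      map_smul' := fun c v => by
        refine tendsto_nhds_unique (ht (c • v)) (((ht v).const_mul c).congr fun i => ?_)
        rw [inner_smul_right] }
  let L : H →L[ℂ] ℂ := L₀.mkContinuous C fun v =>
    le_of_tendsto (ht v).norm (Eventually.of_forall fun i => hb v i)
  refine ⟨(InnerProductSpace.toDual ℂ H).symm L, fun v => ?_⟩
  rw [InnerProductSpace.toDual_symm_apply]
  exact ht v

variable {A : Type*} [CStarAlgebra A] [PartialOrder A] [StarOrderedRing A] {τ : A →ₚ[ℂ] ℂ}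
  {U : Ultrafilter ℕ} {F : Finset A}

theorem norm_le_one_of_unit {x : A} (h0 : 0 ≤ x) (h1 : x ≤ 1) : ‖x‖ ≤ 1 :=
  (CStarAlgebra.norm_le_one_iff_of_nonneg x h0).2 h1

theorem atom_mem (hτ : TrAlg τ ⊤) (hU : (U : Filter ℕ) ≤ atTop)
    (hfac : TrAlg.MinC (⊤ : StarSubalgebra ℂ A) 1) (hF : ∀ a ∈ F, star a ∈ F)
    {z : KK τ U →L[ℂ] KK τ U} (hz : TrAlg.MinC (QQ τ U F) z) :
    ∃ a : A, Pj a ∧ io τ U a = z := by
  have hTU := trAlg_UP hτ hU
  have hTQ : TrAlg (om τ U) (QQ τ U F) := trAlg_QQ hτ hU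
  obtain ⟨Z₀, hZ₀⟩ := mem_UP.1 (QQ_le hz.mem)
  obtain ⟨Z, hZ, hZ0, hZ1⟩ := exists_lift_unit (pi' τ U) Z₀ (by rw [hZ₀]; exact hz.pj.nonneg)
    (by rw [hZ₀]; exact hz.pj.le_one)
  rw [hZ₀] at hZ
  set c : ℝ := (om τ U z).re with hc
  have hcpos : 0 < c := hTQ.f_pos_of_ne hz.mem hz.pj hz.ne
  set V : ℕ → A := fun j => ev j Z with hV
  have hV0 : ∀ j, 0 ≤ V j := fun j => hom_nonneg (ev j) hZ0
  have hV1 : ∀ j, V j ≤ 1 := fun j => by
    have := hom_mono (ev j) hZ1
    rwa [map_one] at this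
  have hVn : ∀ j, ‖V j‖ ≤ 1 := fun j => norm_le_one_of_unit (hV0 j) (hV1 j)
  have hVsa : ∀ j, star (V j) = V j := fun j => (IsSelfAdjoint.of_nonneg (hV0 j)).star_eq
  have hVd : Tendsto (fun j => dF τ F (V j)) U (𝓝 0) :=
    (pi_mem_QQ hτ hU hF).1 (by rw [hZ]; exact hz.mem)
  have hVu : Unif τ U F Z := unif_of_central hτ hU hF (by rw [hZ]; exact hz.comm)
  have hVp : Tendsto (fun j => n2 τ (V j * V j - V j)) U (𝓝 0) := by
    have h1 : pi' τ U (Z * Z) = pi' τ U Z := by rw [map_mul, hZ, hz.pj.2]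
    rw [pi_eq_iff hτ hU] at h1
    refine h1.congr fun j => ?_
    rw [map_mul]
  have hVt : Tendsto (fun j => (τ (V j)).re) U (𝓝 c) := by
    have h1 := tendsto_uTr τ U Z
    rw [← om_pi, hZ] at h1
    exact (Complex.continuous_re.tendsto _).comp h1
  set t : ℕ → ℕ → ℝ := fun j i => (τ (V j * V i)).re with ht
  -- the dichotomy
  have claim : ∀ δ > 0, ∀ᶠ j in (U : Filter ℕ), ∀ᶠ i in (U : Filter ℕ),
      |t j i| ≤ δ ∨ |t j i - c| ≤ δ := by
    by_contra hcon
    push Not at hcon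
    obtain ⟨δ, hδ, hcon⟩ := hcon
    have hη : ∀ k : ℕ, ∃ η > 0, ∀ᶠ j in (U : Filter ℕ), ∀ g, Un g → dF τ F g ≤ η →
        n2 τ (g * V j - V j * g) ≤ 1 / ((k : ℝ) + 1) := fun k => hVu _ (by positivity)
    choose η hηpos hη using hη
    obtain ⟨i, hi⟩ := sat hU (X := ℕ)
      (fun k j i => (∀ l ≤ k, ∀ g, Un g → dF τ F g ≤ η l →
          n2 τ (g * V i - V i * g) ≤ 1 / ((l : ℝ) + 1)) ∧ dF τ F (V i) ≤ 1 / ((k : ℝ) + 1) ∧
        n2 τ (V i * V i - V i) ≤ 1 / ((k : ℝ) + 1) ∧ δ < |t j i| ∧ δ < |t j i - c|)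
      (fun k j i h => by
        have hk : 1 / (((k + 1 : ℕ) : ℝ) + 1) ≤ 1 / ((k : ℝ) + 1) := by
          apply one_div_le_one_div_of_le (by positivity)
          push_cast; linarith
        exact ⟨fun l hl => h.1 l (hl.trans (Nat.le_succ k)), h.2.1.trans hk, h.2.2.1.trans hk,
          h.2.2.2⟩)
      (by
        intro k
        have hpos : (0 : ℝ) < 1 / ((k : ℝ) + 1) := by positivity
        have h1 : ∀ᶠ i in (U : Filter ℕ), ∀ l ∈ Finset.range (k + 1), ∀ g, Un g →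
            dF τ F g ≤ η l → n2 τ (g * V i - V i * g) ≤ 1 / ((l : ℝ) + 1) :=
          (Finset.eventually_all _).2 fun l _ => hη l
        filter_upwards [hcon] with j hj
        obtain ⟨i, hi1, hi2, hi3, hi4, hi5⟩ :=
          (h1.and ((hVd.eventually (gt_mem_nhds hpos)).and
            ((hVp.eventually (gt_mem_nhds hpos)).and hj))).exists
        exact ⟨i, fun l hl => hi1 l (Finset.mem_range.2 (Nat.lt_succ_of_le hl)), hi2.le, hi3.le,
          hi4, hi5⟩)
    set Z' : Ell A := mkE (fun j => V (i j)) 1 (fun j => hVn _) with hZ'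
    have hlim : ∀ s : ℕ → ℝ, (∀ j, 0 ≤ s j) → (∀ k : ℕ, ∀ᶠ j in (U : Filter ℕ),
        s j ≤ 1 / ((k : ℝ) + 1)) → Tendsto s U (𝓝 0) := by
      intro s hs h
      rw [Metric.tendsto_nhds]
      intro ε hε
      obtain ⟨k, hk⟩ := (tendsto_one_div_nat.eventually (gt_mem_nhds hε)).exists
      filter_upwards [h k] with j hj
      rw [Real.dist_0_eq_abs, abs_of_nonneg (hs j)]
      exact hj.trans_lt hk
    have hz'Q : pi' τ U Z' ∈ QQ τ U F := (pi_mem_QQ hτ hU hF).2
      (hlim _ (fun j => dF_nonneg _) fun k => by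
        filter_upwards [hi k] with j hj
        exact hj.2.1)
    have hz'c : ∀ y ∈ QQ τ U F, y * pi' τ U Z' = pi' τ U Z' * y := by
      apply central_of_unif hτ hU hfac hF
      intro ε hε
      obtain ⟨k, hk⟩ := (tendsto_one_div_nat.eventually (gt_mem_nhds hε)).exists
      refine ⟨η k, hηpos k, ?_⟩
      filter_upwards [hi k] with j hj
      intro g hg hd
      exact (hj.1 k le_rfl g hg hd).trans hk.le
    have hz'P : Pj (pi' τ U Z') := by
      constructor
      · rw [← map_star]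
        congr 1
        apply ev_ext
        intro j
        rw [map_star, hZ', ev_mkE, hVsa]
      · rw [← map_mul]
        apply pi_eq_of hτ hU
        refine hlim _ (fun j => n2_nonneg _) fun k => ?_
        filter_upwards [hi k] with j hj
        rw [map_mul, hZ', ev_mkE]
        exact hj.2.2.1
    set z' := pi' τ U Z' with hz'
    have hzz'P : Pj (z * z') := hz.pj.mul_of_comm hz'P (hz'c z hz.mem)
    have hprod : Tendsto (fun j => t j (i j)) U (𝓝 (om τ U (z * z')).re) := by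
      have h1 := tendsto_uTr τ U (Z * Z')
      rw [← om_pi, map_mul, hZ] at h1
      refine ((Complex.continuous_re.tendsto _).comp h1).congr fun j => ?_
      have e : ev j (Z * Z') = V j * V (i j) := by rw [map_mul, hZ', ev_mkE]
      show (τ (ev j (Z * Z'))).re = t j (i j)
      rw [e]
    rcases hz.min (z * z') (mul_mem hz.mem hz'Q) hzz'P (fun y hy => by
        rw [← mul_assoc, hz.comm y hy, mul_assoc, hz'c y hy, ← mul_assoc]) (by
        rw [mul_assoc, ← hz'c z hz.mem, ← mul_assoc, hz.pj.2]) with h | h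
    · rw [h, map_zero, Complex.zero_re] at hprod
      obtain ⟨j, hj1, hj2⟩ := ((hprod.abs.eventually (gt_mem_nhds (show |(0 : ℝ)| < δ by
        rwa [abs_zero]))).and (hi 0)).exists
      linarith [hj2.2.2.2.1]
    · rw [h] at hprod
      have h2 : Tendsto (fun j => |t j (i j) - c|) U (𝓝 |c - c|) :=
        (hprod.sub tendsto_const_nhds).abs
      rw [sub_self, abs_zero] at h2
      obtain ⟨j, hj1, hj2⟩ := ((h2.eventually (gt_mem_nhds hδ)).and (hi 0)).exists
      linarith [hj2.2.2.2.2]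
  -- the weak limit
  set ζ : ℕ → τ.GNS := fun j => ((τ.toPreGNS (V j) : τ.PreGNS) : τ.GNS) with hζ
  have hζinner : ∀ i j, ⟪ζ i, ζ j⟫_ℂ = τ (V i * V j) := by
    intro i j
    rw [hζ]
    show ⟪((τ.toPreGNS (V i) : τ.PreGNS) : τ.GNS), ((τ.toPreGNS (V j) : τ.PreGNS) : τ.GNS)⟫_ℂ = _
    rw [UniformSpace.Completion.inner_coe, PositiveLinearMap.preGNS_inner_def]
    simp only [PositiveLinearMap.ofPreGNS_toPreGNS]
    rw [hVsa]
  have hnorm : ∀ x : A, ‖((τ.toPreGNS x : τ.PreGNS) : τ.GNS)‖ = n2 τ x := fun x =>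
    UniformSpace.Completion.norm_coe _
  have hζn : ∀ i, ‖ζ i‖ ≤ 1 := fun i => by
    rw [hζ]
    show ‖((τ.toPreGNS (V i) : τ.PreGNS) : τ.GNS)‖ ≤ 1
    rw [hnorm]
    exact (n2_le_norm hτ.one _).trans (hVn i)
  obtain ⟨w, hw⟩ := exists_weak_lim U ζ 1 hζn
  set Ω : τ.GNS := ((τ.toPreGNS 1 : τ.PreGNS) : τ.GNS) with hΩ
  have hΩn : ‖Ω‖ = 1 := by rw [hΩ, hnorm, n2_one hτ.one]
  have hwΩ : (⟪w, Ω⟫_ℂ).re = c := by
    have h1 := (Complex.continuous_re.tendsto _).comp (hw Ω)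
    refine tendsto_nhds_unique h1 (hVt.congr fun j => ?_)
    show (τ (V j)).re = (⟪ζ j, Ω⟫_ℂ).re
    rw [hζ, hΩ]
    show _ = (⟪((τ.toPreGNS (V j) : τ.PreGNS) : τ.GNS), ((τ.toPreGNS 1 : τ.PreGNS) : τ.GNS)⟫_ℂ).re
    rw [UniformSpace.Completion.inner_coe, PositiveLinearMap.preGNS_inner_def]
    simp only [PositiveLinearMap.ofPreGNS_toPreGNS]
    rw [hVsa, mul_one]
  have hwc : c ≤ ‖w‖ := by
    have h1 := norm_inner_le_norm (𝕜 := ℂ) w Ω
    rw [hΩn, mul_one] at h1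
    calc c = (⟪w, Ω⟫_ℂ).re := hwΩ.symm
      _ ≤ ‖⟪w, Ω⟫_ℂ‖ := Complex.re_le_norm _
      _ ≤ ‖w‖ := h1
  have hT : ∀ j, Tendsto (fun i => t j i) U (𝓝 (⟪w, ζ j⟫_ℂ).re) := by
    intro j
    refine ((Complex.continuous_re.tendsto _).comp (hw (ζ j))).congr fun i => ?_
    show (⟪ζ i, ζ j⟫_ℂ).re = t j i
    rw [hζinner]
    show (τ (V i * V j)).re = (τ (V j * V i)).re
    rw [hτ.comm _ trivial _ trivial]
  have hT2 : Tendsto (fun j => (⟪w, ζ j⟫_ℂ).re) U (𝓝 (‖w‖ ^ 2)) := by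
    have h1 := (Complex.continuous_re.tendsto _).comp (hw w)
    have e : (⟪w, w⟫_ℂ).re = ‖w‖ ^ 2 := inner_self_eq_norm_sq (𝕜 := ℂ) w
    rw [e] at h1
    refine h1.congr fun j => ?_
    show (⟪ζ j, w⟫_ℂ).re = (⟪w, ζ j⟫_ℂ).re
    rw [← inner_conj_symm, Complex.conj_re]
  have hdich : ∀ δ > 0, |‖w‖ ^ 2| ≤ δ ∨ |‖w‖ ^ 2 - c| ≤ δ := by
    intro δ hδ
    by_contra hcon
    push Not at hcon
    have h1 := claim δ hδ
    have h2 : ∀ᶠ j in (U : Filter ℕ), δ < |(⟪w, ζ j⟫_ℂ).re| ∧ δ < |(⟪w, ζ j⟫_ℂ).re - c| :=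
      (hT2.abs.eventually (lt_mem_nhds hcon.1)).and
        ((hT2.sub (tendsto_const_nhds (x := c))).abs.eventually (lt_mem_nhds hcon.2))
    obtain ⟨j, hj1, hj2, hj3⟩ := (h1.and h2).exists
    have h3 : ∀ᶠ i in (U : Filter ℕ), δ < |t j i| ∧ δ < |t j i - c| :=
      ((hT j).abs.eventually (lt_mem_nhds hj2)).and
        (((hT j).sub (tendsto_const_nhds (x := c))).abs.eventually (lt_mem_nhds hj3))
    obtain ⟨i, hi1, hi2, hi3⟩ := (hj1.and h3).exists
    rcases hi1 with h | h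
    · linarith
    · linarith
  have hwc2 : ‖w‖ ^ 2 = c := by
    have h1 : ∀ δ > 0, |‖w‖ ^ 2 - c| ≤ δ := by
      intro δ hδ
      rcases hdich (min δ (c ^ 2 / 2)) (lt_min hδ (by positivity)) with h | h
      · exfalso
        have h2 : c ^ 2 ≤ ‖w‖ ^ 2 := pow_le_pow_left₀ hcpos.le hwc 2
        have h3 := (le_abs_self (‖w‖ ^ 2)).trans (h.trans (min_le_right _ _))
        nlinarith [sq_nonneg c, pow_pos hcpos 2]
      · exact h.trans (min_le_left _ _)
    have h2 : |‖w‖ ^ 2 - c| ≤ 0 := le_of_forall_pos_le_add fun ε hε => by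
      rw [zero_add]; exact h1 ε hε
    have h3 := abs_nonpos_iff.1 h2
    linarith
  have hstrong : Tendsto (fun j => ‖ζ j - w‖) U (𝓝 0) := by
    have h1 : Tendsto (fun j => ‖ζ j‖ ^ 2) U (𝓝 c) := by
      have h2 : Tendsto (fun j => (τ (V j * V j)).re) U (𝓝 c) := by
        have h3 : Tendsto (fun j => (τ (V j * V j - V j)).re) U (𝓝 0) := by
          refine squeeze_zero_norm (fun j => ?_) hVp
          exact (Complex.abs_re_le_norm _).trans (norm_f_le hτ.one _)
        have h4 := h3.add hVt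
        rw [zero_add] at h4
        refine h4.congr fun j => ?_
        rw [map_sub, Complex.sub_re]; ring
      refine h2.congr fun j => ?_
      rw [← hζinner]
      exact (inner_self_eq_norm_sq (𝕜 := ℂ) (ζ j))
    have h5 : Tendsto (fun j => ‖ζ j - w‖ ^ 2) U (𝓝 (c - 2 * ‖w‖ ^ 2 + ‖w‖ ^ 2)) := by
      refine ((h1.sub (hT2.const_mul 2)).add tendsto_const_nhds).congr fun j => ?_
      rw [@norm_sub_sq ℂ]
      have : RCLike.re ⟪ζ j, w⟫_ℂ = (⟪w, ζ j⟫_ℂ).re := by
        rw [← inner_conj_symm]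
        exact Complex.conj_re _
      rw [this]
    have e : c - 2 * ‖w‖ ^ 2 + ‖w‖ ^ 2 = 0 := by rw [hwc2]; ring
    rw [e] at h5
    have h6 := (Real.continuous_sqrt.tendsto 0).comp h5
    rw [Real.sqrt_zero] at h6
    refine h6.congr fun j => ?_
    show Real.sqrt (‖ζ j - w‖ ^ 2) = _
    rw [Real.sqrt_sq (norm_nonneg _)]
  -- the limit in `A`
  have hchoice : ∀ k : ℕ, ∃ j, ‖ζ j - w‖ ≤ 1 / ((k : ℝ) + 1) := fun k => by
    obtain ⟨j, hj⟩ := (hstrong.eventually (gt_mem_nhds (show (0 : ℝ) < 1 / ((k : ℝ) + 1) by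
      positivity))).exists
    exact ⟨j, hj.le⟩
  choose jj hjj using hchoice
  have hVζ : ∀ i j, n2 τ (V i - V j) = ‖ζ i - ζ j‖ := by
    intro i j
    rw [← hnorm, map_sub, UniformSpace.Completion.coe_sub]
  obtain ⟨a, _, _, ha⟩ := hτ.complete (fun k => V (jj k)) 1 (fun _ => trivial)
    (fun k => hVn _) (by
      intro ε hε
      obtain ⟨k₀, hk₀⟩ := eventually_atTop.1
        (tendsto_one_div_nat.eventually (gt_mem_nhds (show (0 : ℝ) < ε / 2 by positivity)))
      refine ⟨k₀, fun m hm n hn => ?_⟩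
      rw [hVζ]
      have e : ζ (jj m) - ζ (jj n) = (ζ (jj m) - w) - (ζ (jj n) - w) := by abel
      rw [e]
      refine (norm_sub_le _ _).trans ?_
      linarith [hjj m, hjj n, hk₀ m hm, hk₀ n hn])
  have haw : ((τ.toPreGNS a : τ.PreGNS) : τ.GNS) = w := by
    have h1 : Tendsto (fun k => ζ (jj k)) atTop (𝓝 w) := by
      rw [tendsto_iff_norm_sub_tendsto_zero]
      exact squeeze_zero (fun k => norm_nonneg _) hjj tendsto_one_div_nat
    refine tendsto_nhds_unique ?_ h1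
    rw [tendsto_iff_norm_sub_tendsto_zero]
    refine ha.congr fun k => ?_
    rw [← hnorm, map_sub, UniformSpace.Completion.coe_sub]
  have hza : io τ U a = z := by
    rw [← hZ]
    show pi' τ U (cst a) = pi' τ U Z
    apply pi_eq_of hτ hU
    refine hstrong.congr fun j => ?_
    rw [ev_cst, n2_sub_comm, ← hnorm, map_sub, UniformSpace.Completion.coe_sub, haw]
  have hinj : ∀ x y : A, io τ U x = io τ U y → x = y := by
    intro x y h
    apply hτ.eq_of_n2 trivial trivial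
    rw [← n2_io (U := U), map_sub, h, sub_self, n2_zero]
  refine ⟨a, ⟨?_, ?_⟩, hza⟩
  · apply hinj
    rw [map_star, hza, hz.pj.1]
  · apply hinj
    rw [map_mul, hza, hz.pj.2]

end Pool.Agent.Lib.MP_f5929e_an
end

section

/-!
Good projections.
-/

namespace Pool.Agent.Lib.MP_f5929e_an

set_option linter.unusedSectionVars false

open scoped ComplexOrder InnerProductSpace
open Filter Topology

variable {A : Type*} [CStarAlgebra A] [PartialOrder A] [StarOrderedRing A]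
  {B : Type*} [CStarAlgebra B] [PartialOrder B] [StarOrderedRing B]
  {τ : A →ₚ[ℂ] ℂ} {j : A →⋆ₐ[ℂ] B} {F : Finset A}

/-- what solidity gives for dyadic trees -/
def OracleH (j : A →⋆ₐ[ℂ] B) (τ : A →ₚ[ℂ] ℂ) : Prop :=
  ∀ (z : A) (g : ℕ → ℕ → A), Tree τ z g →
    ∃ φ : B →ₚ[ℂ] ℂ, (∀ x, φ (j x) = τ (z * x)) ∧
      ∀ x, z * x = x → x * z = x → (∀ k i, i < 2 ^ k → x * g k i = g k i * x) →
        ∀ T, φ (j x * T) = φ (T * j x)

/-- good elements -/
def Gd (j : A →⋆ₐ[ℂ] B) (τ : A →ₚ[ℂ] ℂ) (F : Finset A) (z : A) : Prop :=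
  ∀ ε > 0, ∃ φ : B →ₚ[ℂ] ℂ, (∀ x, ‖φ (j x) - τ (z * x)‖ ≤ ε * ‖x‖) ∧
    ∀ a ∈ F, ∀ T, ‖φ (j a * T) - φ (T * j a)‖ ≤ ε * ‖T‖

theorem fun_norm_le {φ : B →ₚ[ℂ] ℂ} {z : A} (hτ : TrAlg τ ⊤) (hz : Pj z)
    (hφ : ∀ x, φ (j x) = τ (z * x)) (T : B) : n2 φ T ≤ ‖T‖ := by
  have h1 : n2 φ (T * 1) ≤ ‖T‖ * n2 φ 1 := n2_mul_le T 1
  rw [mul_one] at h1
  have h2 : n2 φ (1 : B) ≤ 1 := by
    have h3 : n2 φ (1 : B) ^ 2 ≤ 1 ^ 2 := by
      rw [n2_sq_re, star_one, one_mul]
      have h4 : φ (1 : B) = τ z := by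
        have := hφ 1
        rwa [map_one, mul_one] at this
      rw [h4]
      have := TrAlg.f_re_mono (f := τ) hz.le_one
      rw [hτ.one, Complex.one_re] at this
      linarith
    exact (sq_le_sq₀ (n2_nonneg _) (by norm_num)).1 h3
  calc n2 φ T ≤ ‖T‖ * n2 φ 1 := h1
    _ ≤ ‖T‖ * 1 := mul_le_mul_of_nonneg_left h2 (norm_nonneg _)
    _ = ‖T‖ := mul_one _

theorem norm_fun_left {φ : B →ₚ[ℂ] ℂ} {z : A} (hτ : TrAlg τ ⊤) (hz : Pj z)
    (hφ : ∀ x, φ (j x) = τ (z * x)) (x : A) (T : B) :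
    ‖φ (j x * T)‖ ≤ n2 τ (z * x) * ‖T‖ := by
  have h1 := norm_f_mul_le (f := φ) (j x) T
  have h2 : n2 φ (star (j x)) = n2 τ (z * x) := by
    have h3 : n2 φ (star (j x)) ^ 2 = n2 τ (z * x) ^ 2 := by
      rw [n2_sq_re, star_star, ← map_star, ← map_mul, hφ, n2_sq_re, star_mul, hz.1]
      congr 1
      have e : star x * z * (z * x) = star x * (z * z * x) := by noncomm_ring
      rw [e, hz.2, ← mul_assoc, hτ.comm (z * x) trivial (star x) trivial]
    exact (sq_eq_sq₀ (n2_nonneg _) (n2_nonneg _)).1 h3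
  rw [h2] at h1
  exact h1.trans (mul_le_mul_of_nonneg_left (fun_norm_le hτ hz hφ T) (n2_nonneg _))

theorem norm_fun_right {φ : B →ₚ[ℂ] ℂ} {z : A} (hτ : TrAlg τ ⊤) (hz : Pj z)
    (hφ : ∀ x, φ (j x) = τ (z * x)) (x : A) (T : B) :
    ‖φ (T * j x)‖ ≤ n2 τ (x * z) * ‖T‖ := by
  have h1 := norm_f_mul_le (f := φ) T (j x)
  have h2 : n2 φ (j x) = n2 τ (x * z) := by
    have h3 : n2 φ (j x) ^ 2 = n2 τ (x * z) ^ 2 := by
      rw [n2_sq_re, ← map_star, ← map_mul, hφ, n2_sq_re, star_mul, hz.1]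
      congr 1
      have e : z * star x * (x * z) = (z * (star x * x)) * z := by noncomm_ring
      rw [e, hτ.comm _ trivial z trivial, ← mul_assoc z z, hz.2]
    exact (sq_eq_sq₀ (n2_nonneg _) (n2_nonneg _)).1 h3
  rw [h2] at h1
  have h3 := fun_norm_le hτ hz hφ (star T)
  rw [norm_star] at h3
  rw [mul_comm (n2 τ (x * z))]
  exact h1.trans (mul_le_mul_of_nonneg_right h3 (n2_nonneg _))

theorem approx_comm {φ : B →ₚ[ℂ] ℂ} {z : A} (hτ : TrAlg τ ⊤) (hz : Pj z)
    (hφ : ∀ x, φ (j x) = τ (z * x)) (x y : A) (hy : ∀ T, φ (j y * T) = φ (T * j y)) (T : B) :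
    ‖φ (j x * T) - φ (T * j x)‖ ≤ (n2 τ (z * (x - y)) + n2 τ ((x - y) * z)) * ‖T‖ := by
  have e : φ (j x * T) - φ (T * j x) = φ (j (x - y) * T) - φ (T * j (x - y)) := by
    rw [map_sub, sub_mul, mul_sub, map_sub, map_sub, hy T]
    ring
  rw [e]
  refine (norm_sub_le _ _).trans ?_
  rw [add_mul]
  exact add_le_add (norm_fun_left hτ hz hφ _ _) (norm_fun_right hτ hz hφ _ _)

theorem Gd.zero : Gd j τ F 0 := by
  intro ε hε
  refine ⟨0, fun x => ?_, fun a _ T => ?_⟩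
  · rw [zero_mul, map_zero]
    simp only [sub_zero]
    have : ‖(0 : B →ₚ[ℂ] ℂ) (j x)‖ = 0 := by
      rw [show (0 : B →ₚ[ℂ] ℂ) (j x) = 0 from rfl, norm_zero]
    rw [this]; positivity
  · have : (0 : B →ₚ[ℂ] ℂ) (j a * T) - (0 : B →ₚ[ℂ] ℂ) (T * j a) = 0 := by
      show (0 : ℂ) - 0 = 0
      ring
    rw [this, norm_zero]; positivity

theorem Gd.add {z w : A} (hz : Gd j τ F z) (hw : Gd j τ F w) : Gd j τ F (z + w) := by
  intro ε hε
  obtain ⟨φ, h1, h2⟩ := hz (ε / 2) (by positivity)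
  obtain ⟨ψ, h3, h4⟩ := hw (ε / 2) (by positivity)
  refine ⟨φ + ψ, fun x => ?_, fun a ha T => ?_⟩
  · have e : (φ + ψ) (j x) - τ ((z + w) * x) = (φ (j x) - τ (z * x)) + (ψ (j x) - τ (w * x)) := by
      rw [add_mul, map_add]
      show φ (j x) + ψ (j x) - (τ (z * x) + τ (w * x)) = _
      ring
    rw [e]
    refine (norm_add_le _ _).trans ?_
    linarith [h1 x, h3 x]
  · have e : (φ + ψ) (j a * T) - (φ + ψ) (T * j a) =
        (φ (j a * T) - φ (T * j a)) + (ψ (j a * T) - ψ (T * j a)) := by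
      show φ (j a * T) + ψ (j a * T) - (φ (T * j a) + ψ (T * j a)) = _
      ring
    rw [e]
    refine (norm_add_le _ _).trans ?_
    linarith [h2 a ha T, h4 a ha T]

theorem Gd.of_T2 (hτ : TrAlg τ ⊤) {u : ℕ → A} {z : A} (hu : ∀ n, Gd j τ F (u n))
    (h : T2 τ atTop u z) : Gd j τ F z := by
  intro ε hε
  obtain ⟨n, hn⟩ := (h.eventually (gt_mem_nhds (show (0 : ℝ) < ε / 2 by positivity))).exists
  obtain ⟨φ, h1, h2⟩ := hu n (ε / 2) (by positivity)
  refine ⟨φ, fun x => ?_, fun a ha T => (h2 a ha T).trans ?_⟩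
  · have e : φ (j x) - τ (z * x) = (φ (j x) - τ (u n * x)) + τ ((u n - z) * x) := by
      rw [sub_mul, map_sub]; ring
    rw [e]
    refine (norm_add_le _ _).trans ?_
    have h3 : ‖τ ((u n - z) * x)‖ ≤ ε / 2 * ‖x‖ := by
      refine (norm_f_mul_le _ _).trans ?_
      rw [hτ.n2_star trivial]
      exact mul_le_mul hn.le (n2_le_norm hτ.one x) (n2_nonneg _) (by positivity)
    linarith [h1 x]
  · have := norm_nonneg T
    nlinarith

/-- goodness from trees whose commutant almost contains `F` -/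
theorem Gd.of_trees (hτ : TrAlg τ ⊤) (hO : OracleH j τ) {z : A} (hz : Pj z)
    (h : ∀ ε > 0, ∃ g : ℕ → ℕ → A, Tree τ z g ∧ ∀ a ∈ F, ∃ y : A, z * y = y ∧ y * z = y ∧
      (∀ k i, i < 2 ^ k → y * g k i = g k i * y) ∧ n2 τ (z * (a - y)) ≤ ε ∧
        n2 τ ((a - y) * z) ≤ ε) : Gd j τ F z := by
  intro ε hε
  obtain ⟨g, hg, hy⟩ := h (ε / 2) (by positivity)
  obtain ⟨φ, h1, h2⟩ := hO z g hg
  refine ⟨φ, fun x => ?_, fun a ha T => ?_⟩
  · rw [h1, sub_self, norm_zero]; positivity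
  · obtain ⟨y, hy1, hy2, hy3, hy4, hy5⟩ := hy a ha
    refine (approx_comm hτ hz h1 a y (h2 y hy1 hy2 hy3) T).trans ?_
    have := norm_nonneg T
    nlinarith

end Pool.Agent.Lib.MP_f5929e_an
end

section

/-!
Projections below which the center of `F' ∩ N^U` is diffuse are good.
-/

namespace Pool.Agent.Lib.MP_f5929e_an

set_option linter.unusedSectionVars false

open scoped ComplexOrder InnerProductSpace
open Filter Topology

variable {A : Type*} [CStarAlgebra A] [PartialOrder A] [StarOrderedRing A]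
  {B : Type*} [CStarAlgebra B] [PartialOrder B] [StarOrderedRing B]
  {τ : A →ₚ[ℂ] ℂ} {U : Ultrafilter ℕ} {j : A →⋆ₐ[ℂ] B} {F : Finset A}

/-- the center of `F' ∩ N^U` -/
noncomputable def ZQ (τ : A →ₚ[ℂ] ℂ) (U : Ultrafilter ℕ) (F : Finset A) :
    StarSubalgebra ℂ (KK τ U →L[ℂ] KK τ U) := rc (QQ τ U F) (QQ τ U F : Set _)

theorem ZQ_le : ZQ τ U F ≤ QQ τ U F := rc_le _

theorem trAlg_ZQ (hτ : TrAlg τ ⊤) (hU : (U : Filter ℕ) ≤ atTop) :
    TrAlg (om τ U) (ZQ τ U F) := (trAlg_QQ hτ hU).rc (fun _ h => h)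

theorem ZQ_comm {x : KK τ U →L[ℂ] KK τ U} (hx : x ∈ ZQ τ U F) :
    ∀ y ∈ QQ τ U F, y * x = x * y := fun y hy => ((mem_rc.1 hx).2 y hy).1

theorem mem_ZQ {x : KK τ U →L[ℂ] KK τ U} :
    x ∈ ZQ τ U F ↔ x ∈ QQ τ U F ∧ ∀ y ∈ QQ τ U F, y * x = x * y :=
  ⟨fun h => ⟨ZQ_le h, ZQ_comm h⟩, fun h => mem_rc_of_comm h.1 h.2⟩

theorem Pj.map {C D : Type*} [CStarAlgebra C] [PartialOrder C] [StarOrderedRing C]
    [CStarAlgebra D] [PartialOrder D] [StarOrderedRing D] {x : C} (hx : Pj x)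
    (φ : C →⋆ₐ[ℂ] D) : Pj (φ x) := ⟨by rw [← map_star, hx.1], by rw [← map_mul, hx.2]⟩

theorem split_step (hτ : TrAlg τ ⊤) (hU : (U : Filter ℕ) ≤ atTop)
    (hfac : TrAlg.MinC (⊤ : StarSubalgebra ℂ A) 1) (hF : ∀ a ∈ F, star a ∈ F)
    {z₀ : A} (hz₀ : Pj z₀) (hzZ : io τ U z₀ ∈ ZQ τ U F)
    (hs : Splits (ZQ τ U F) (io τ U z₀)) {e : A} (he : e ∈ PP hτ hF) (heP : Pj e)
    (hez : e * z₀ = e) {δ : ℝ} (hδ : 0 < δ) :
    ∃ r ∈ PP hτ hF, Pj r ∧ r * e = r ∧ |(τ r).re - (τ e).re / 2| ≤ δ ∧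
      ∀ a ∈ F, n2 τ (r * a * (e - r)) ≤ δ ∧ n2 τ ((e - r) * a * r) ≤ δ := by
  have hTU := trAlg_UP hτ hU
  have hTZ : TrAlg (om τ U) (ZQ τ U F) := trAlg_ZQ hτ hU
  set E := io τ U e with hE
  have hEP : Pj E := heP.map _
  have hτe : 0 ≤ (τ e).re := heP.f_re_nonneg
  obtain ⟨q, hq, hqP, hqz, hqt⟩ := hTU.exists_half hTZ (ZQ_le.trans QQ_le) hzZ (hz₀.map _) hs
    (e := E) (io_mem e) hEP (by rw [hE, ← map_mul, hez]) (t := (τ e).re / 2) (by linarith)
    (by rw [hE, om_io]; linarith)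
  have hqQ : q ∈ QQ τ U F := ZQ_le hq
  have hEq : q * E = E * q := PP_comm_QQ hτ hU hfac hF he q hqQ
  have hWP : Pj (E * q) := hEP.mul_of_comm hqP hEq.symm
  obtain ⟨Z₀, hZ₀⟩ := mem_UP.1 (QQ_le hqQ)
  obtain ⟨Z, hZ, hZ0, hZ1⟩ := exists_lift_unit (pi' τ U) Z₀ (by rw [hZ₀]; exact hqP.nonneg)
    (by rw [hZ₀]; exact hqP.le_one)
  rw [hZ₀] at hZ
  have hZu : Unif τ U F Z := unif_of_central hτ hU hF (by rw [hZ]; exact ZQ_comm hq)
  have hV0 : ∀ i, 0 ≤ ev i Z := fun i => hom_nonneg (ev i) hZ0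
  have hV1 : ∀ i, ev i Z ≤ 1 := fun i => by
    have := hom_mono (ev i) hZ1
    rwa [map_one] at this
  choose c hc hc0 hc1 hc2 using fun i => exists_near_PP hτ hF (ev i Z) (hV0 i) (hV1 i)
  have hcV : Tendsto (fun i => n2 τ (c i - ev i Z)) U (𝓝 0) := by
    rw [Metric.tendsto_nhds]
    intro ε hε
    obtain ⟨η, hη, h⟩ := hZu (ε / 2) (by positivity)
    filter_upwards [h] with i hi
    rw [Real.dist_0_eq_abs, abs_of_nonneg (n2_nonneg _)]
    exact (hc2 i η hη _ hi).trans_lt (by linarith)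
  set y : ℕ → A := fun i => e * c i * e with hy
  have hyM : ∀ i, y i ∈ PP hτ hF := fun i => mul_mem (mul_mem he (hc i)) he
  have hy0 : ∀ i, 0 ≤ y i := fun i => by
    have := star_left_conjugate_nonneg (hc0 i) e
    rwa [heP.1] at this
  have hy1 : ∀ i, y i ≤ 1 := fun i => by
    have := star_left_conjugate_le_conjugate (hc1 i) e
    rw [heP.1, mul_one, heP.2] at this
    exact this.trans heP.le_one
  have hPPt : TrAlg τ (PP hτ hF) := trAlg_PP hτ hF
  choose s hs hsP hs2 hs3 using fun i => hPPt.exists_spec (hyM i) (hy0 i) (hy1 i)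
  have hse : ∀ i, s i * e = s i := by
    intro i
    have h1 := hs3 i (1 - e) (sub_mem (one_mem _) he) (by
      show e * c i * e * (1 - e) = 0
      rw [mul_sub, mul_one, mul_assoc (e * c i), heP.2, sub_self])
    rw [mul_sub, mul_one, sub_eq_zero] at h1
    exact h1.symm
  have hyn : ∀ i, ‖y i‖ ≤ 1 := fun i => norm_le_one_of_unit (hy0 i) (hy1 i)
  set Y : Ell A := mkE y 1 hyn with hY
  set S : Ell A := mkE s 1 (fun i => (hsP i).norm_le) with hS
  have hpiY : pi' τ U Y = E * q := by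
    have e1 : pi' τ U Y = pi' τ U (cst e * Z * cst e) := by
      apply pi_eq_of hτ hU
      refine squeeze_zero (fun i => n2_nonneg _) (fun i => ?_) hcV
      rw [map_mul, map_mul, ev_cst, hY, ev_mkE]
      have e2 : y i - e * ev i Z * e = e * ((c i - ev i Z) * e) := by
        rw [hy]; noncomm_ring
      rw [e2]
      calc _ ≤ ‖e‖ * n2 τ ((c i - ev i Z) * e) := n2_mul_le _ _
        _ ≤ 1 * n2 τ ((c i - ev i Z) * e) := mul_le_mul_of_nonneg_right heP.norm_le (n2_nonneg _)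
        _ ≤ 1 * (n2 τ (c i - ev i Z) * ‖e‖) := by
          gcongr
          exact hτ.n2_mul_le' trivial trivial
        _ ≤ 1 * (n2 τ (c i - ev i Z) * 1) := by
          gcongr
          · exact n2_nonneg _
          · exact heP.norm_le
        _ = _ := by ring
    rw [e1, map_mul, map_mul, hZ]
    show E * q * E = E * q
    rw [mul_assoc, hEq, ← mul_assoc, hEP.2]
  have hpiS : pi' τ U S = E * q := by
    rw [← hpiY]
    symm
    apply pi_eq_of hτ hU
    have h1 : pi' τ U (Y * Y) = pi' τ U Y := by rw [map_mul, hpiY, hWP.2]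
    rw [pi_eq_iff hτ hU] at h1
    have h2 := h1.const_mul 4
    rw [mul_zero] at h2
    refine squeeze_zero (fun i => n2_nonneg _) (fun i => ?_) h2
    rw [map_mul, hY, hS, ev_mkE, ev_mkE]
    exact hs2 i
  have htr : Tendsto (fun i => (τ (s i)).re) U (𝓝 ((τ e).re / 2)) := by
    have h1 := tendsto_uTr τ U S
    rw [← om_pi, hpiS] at h1
    have h2 := (Complex.continuous_re.tendsto _).comp h1
    rw [hqt] at h2
    exact h2
  have hcomm : ∀ a ∈ F, Tendsto (fun i => n2 τ (s i * a * (e - s i))) U (𝓝 0) := by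
    intro a ha
    have ha' : io τ U a * q = q * io τ U a := QQ_comm hqQ ha
    have h1 : pi' τ U (S * cst a * (cst e - S)) = pi' τ U 0 := by
      rw [map_mul, map_mul, map_sub, hpiS, map_zero]
      show E * q * io τ U a * (E - E * q) = 0
      calc E * q * io τ U a * (E - E * q) = E * (q * io τ U a) * (E - E * q) := by noncomm_ring
        _ = E * (io τ U a * q) * (E - E * q) := by rw [ha']
        _ = E * io τ U a * (q * E - (q * E) * q) := by noncomm_ring
        _ = E * io τ U a * (E * q - (E * q) * q) := by rw [hEq]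
        _ = 0 := by rw [mul_assoc E q q, hqP.2, sub_self, mul_zero]
    rw [pi_eq_iff hτ hU] at h1
    refine h1.congr fun i => ?_
    rw [map_mul, map_mul, map_sub, ev_cst, ev_cst, hS, ev_mkE, map_zero, sub_zero]
  have hcomm' : ∀ a ∈ F, Tendsto (fun i => n2 τ ((e - s i) * a * s i)) U (𝓝 0) := by
    intro a ha
    refine (hcomm (star a) (hF a ha)).congr fun i => ?_
    rw [← hτ.n2_star trivial]
    congr 1
    rw [star_mul, star_mul, star_star, star_sub, heP.1, (hsP i).1, ← mul_assoc]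
  have hev : ∀ᶠ i in (U : Filter ℕ), ∀ a ∈ F, n2 τ (s i * a * (e - s i)) ≤ δ ∧
      n2 τ ((e - s i) * a * s i) ≤ δ := by
    apply (Finset.eventually_all F).2
    intro a ha
    filter_upwards [(hcomm a ha).eventually (gt_mem_nhds hδ),
      (hcomm' a ha).eventually (gt_mem_nhds hδ)] with i h1 h2
    exact ⟨h1.le, h2.le⟩
  have hev2 : ∀ᶠ i in (U : Filter ℕ), |(τ (s i)).re - (τ e).re / 2| ≤ δ := by
    filter_upwards [Metric.tendsto_nhds.1 htr δ hδ] with i hi
    exact (le_of_lt hi)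
  obtain ⟨i, hi1, hi2⟩ := (hev2.and hev).exists
  exact ⟨s i, hs i, hsP i, hse i, hi1, hi2⟩

theorem good_of_splits (hτ : TrAlg τ ⊤) (hU : (U : Filter ℕ) ≤ atTop)
    (hfac : TrAlg.MinC (⊤ : StarSubalgebra ℂ A) 1) (hF : ∀ a ∈ F, star a ∈ F)
    (hO : OracleH j τ) {z₀ : A} (hz₀ : Pj z₀) (hzZ : io τ U z₀ ∈ ZQ τ U F)
    (hs : Splits (ZQ τ U F) (io τ U z₀)) : Gd j τ F z₀ := by
  have hinj : ∀ x y : A, io τ U x = io τ U y → x = y := by
    intro x y h
    apply hτ.eq_of_n2 trivial trivial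
    rw [← n2_io (U := U), map_sub, h, sub_self, n2_zero]
  have hzPP : z₀ ∈ PP hτ hF := by
    rw [mem_PP]
    intro ε hε
    obtain ⟨η, hη, h⟩ := unif_of_central hτ hU hF (Z := cst z₀) (ZQ_comm hzZ) ε hε
    obtain ⟨i, hi⟩ := h.exists
    exact ⟨η, hη, hi⟩
  have hzF : ∀ a ∈ F, a * z₀ = z₀ * a := by
    intro a ha
    apply hinj
    rw [map_mul, map_mul]
    exact QQ_comm (ZQ_le hzZ) ha
  apply Gd.of_trees hτ hO hz₀
  intro ε hε
  obtain ⟨g, hg0, hgS, hgsum, hgR⟩ := exists_tree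
    {e : A | e ∈ PP hτ hF ∧ Pj e ∧ e * z₀ = e}
    (fun k e r => |(τ r).re - (τ e).re / 2| ≤ min 1 ε / 4 ^ (k + 1) ∧ r * e = r ∧
      ∀ a ∈ F, n2 τ (r * a * (e - r)) ≤ min 1 ε / 4 ^ (k + 1) ∧
        n2 τ ((e - r) * a * r) ≤ min 1 ε / 4 ^ (k + 1)) z₀
    ⟨hzPP, hz₀, hz₀.2⟩ ⟨zero_mem _, Pj.zero, zero_mul _⟩ (by
      rintro k e ⟨he, heP, hez⟩
      have hδ : 0 < min 1 ε / 4 ^ (k + 1) := by
        have := lt_min zero_lt_one hε
        positivity
      obtain ⟨r, hr, hrP, hre, h1, h2⟩ := split_step hτ hU hfac hF hz₀ hzZ hs he heP hez hδ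
      refine ⟨r, ⟨hr, hrP, by rw [← hre, mul_assoc, hez]⟩, ⟨sub_mem he hr, heP.sub hrP hre, ?_⟩,
        h1, hre, h2⟩
      rw [sub_mul, hez, ← hre, mul_assoc, hez])
  have hmesh : ∀ k i, i < 2 ^ k → (τ (g k i)).re ≤ ((k : ℝ) + 1) / 2 ^ k := by
    intro k
    induction k with
    | zero =>
      intro i hi
      have hi0 : i = 0 := by simpa using hi
      rw [hi0, hg0]
      have := TrAlg.f_re_mono (f := τ) hz₀.le_one
      rw [hτ.one, Complex.one_re] at this
      simpa using this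
    | succ k ih =>
      intro i hi
      have hi2 : i / 2 < 2 ^ k := by rw [pow_succ] at hi; omega
      have h1 := ih (i / 2) hi2
      have h2 := (hgR k (i / 2)).1
      rw [abs_le] at h2
      have h3 : min 1 ε / 4 ^ (k + 1) ≤ 1 / 2 ^ (k + 1) := by
        apply div_le_div₀ zero_le_one (min_le_left _ _) (by positivity)
        exact pow_le_pow_left₀ (by norm_num) (by norm_num) _
      have h4 : (τ (g (k + 1) (2 * (i / 2)))).re + (τ (g (k + 1) (2 * (i / 2) + 1))).re =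
          (τ (g k (i / 2))).re := by
        rw [← Complex.add_re, ← map_add, hgsum]
      have h5 : ((k : ℝ) + 1) / 2 ^ k / 2 + 1 / 2 ^ (k + 1) = (((k + 1 : ℕ) : ℝ) + 1) / 2 ^ (k + 1) := by
        push_cast
        rw [pow_succ]
        field_simp
      rw [← h5]
      rcases Nat.even_or_odd' i with ⟨m, rfl | rfl⟩
      · have e : 2 * m / 2 = m := by omega
        rw [e] at h1 h2 h4
        linarith
      · have e : (2 * m + 1) / 2 = m := by omega
        rw [e] at h1 h2 h4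
        linarith
  have hT : Tree τ z₀ g :=
    { pjz := hz₀
      pj := fun k i _ => (hgS k i).2.1
      root := hg0
      sum := fun k i _ => hgsum k i
      mesh := by
        intro ε hε
        have h1 : Tendsto (fun k : ℕ => ((k : ℝ) + 1) / 2 ^ k) atTop (𝓝 0) := by
          have h2 := tendsto_pow_const_div_const_pow_of_one_lt 1 (show (1 : ℝ) < 2 by norm_num)
          have h3 : Tendsto (fun k : ℕ => 1 / (2 : ℝ) ^ k) atTop (𝓝 0) :=
            tendsto_const_nhds.div_atTop (tendsto_pow_atTop_atTop_of_one_lt (by norm_num))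
          have h4 := h2.add h3
          rw [add_zero] at h4
          refine h4.congr fun k => ?_
          rw [pow_one, ← add_div]
        obtain ⟨k, hk⟩ := (h1.eventually (gt_mem_nhds hε)).exists
        exact ⟨k, fun i hi => (hmesh k i hi).trans hk.le⟩ }
  refine ⟨g, hT, fun a ha => ?_⟩
  -- the limit of the pinchings
  have hstep : ∀ k, n2 τ (pinch g (k + 1) a - pinch g k a) ≤ ε / 2 ^ (k + 1) := by
    intro k
    refine (hT.pinch_succ_sub k a (δ := min 1 ε / 4 ^ (k + 1)) ?_).trans ?_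
    · intro i _
      exact (hgR k i).2.2 a ha
    · have h1 : min 1 ε / 4 ^ (k + 1) ≤ ε / 4 ^ (k + 1) := by
        gcongr
        exact min_le_right _ _
      calc (2 : ℝ) ^ k * (2 * (min 1 ε / 4 ^ (k + 1))) ≤ 2 ^ k * (2 * (ε / 4 ^ (k + 1))) := by
            gcongr
        _ = ε / 2 ^ (k + 1) := by
          have : (4 : ℝ) ^ (k + 1) = 2 ^ (k + 1) * 2 ^ (k + 1) := by
            rw [← mul_pow]; norm_num
          rw [this, pow_succ]
          field_simp
  have htail : ∀ k m, k ≤ m → n2 τ (pinch g m a - pinch g k a) ≤ ε / 2 ^ k - ε / 2 ^ m := by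
    intro k m hkm
    induction m, hkm using Nat.le_induction with
    | base => simp
    | succ m hkm ih =>
      refine (n2_sub_le_add _ (pinch g m a) _).trans ?_
      have h1 := hstep m
      have h2 : ε / 2 ^ m = 2 * (ε / 2 ^ (m + 1)) := by
        rw [pow_succ]; field_simp
      linarith
  obtain ⟨y, _, _, hy⟩ := hτ.complete (fun k => pinch g k a) ‖a‖ (fun _ => trivial)
    (fun k => hT.norm_pinch_le k a) (by
      intro δ hδ
      have h1 : Tendsto (fun k : ℕ => ε / (2 : ℝ) ^ k) atTop (𝓝 0) :=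
        tendsto_const_nhds.div_atTop (tendsto_pow_atTop_atTop_of_one_lt (by norm_num))
      obtain ⟨k₀, hk₀⟩ := (h1.eventually (gt_mem_nhds (show (0 : ℝ) < δ / 2 by
        positivity))).exists
      have hmain : ∀ m, k₀ ≤ m → n2 τ (pinch g m a - pinch g k₀ a) ≤ δ / 2 := by
        intro m hm
        have h2 := htail k₀ m hm
        have h3 : 0 ≤ ε / 2 ^ m := by positivity
        linarith
      refine ⟨k₀, fun m hm n hn => ?_⟩
      refine (n2_sub_le_add _ (pinch g k₀ a) _).trans ?_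
      have h2 := hmain m hm
      have h3 := hmain n hn
      rw [n2_sub_comm] at h3
      linarith)
  have hyT : T2 τ atTop (fun k => pinch g k a) y := hy
  refine ⟨y, ?_, ?_, ?_, ?_⟩
  · refine hτ.T2_unique (M := ⊤) trivial trivial (hyT.const_mul z₀) (hyT.congr' fun k => ?_)
    exact (hT.z_pinch k a).1.symm
  · refine hτ.T2_unique (M := ⊤) trivial trivial
      (hτ.T2_mul_const (fun _ => trivial) trivial trivial hyT) (hyT.congr' fun k => ?_)
    exact (hT.z_pinch k a).2.symm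
  · intro l i hi
    have h1 := hτ.T2_mul_const (fun _ => trivial) trivial (c := g l i) trivial hyT
    have h2 := hyT.const_mul (g l i)
    have h3 : (fun k => pinch g k a * g l i) =ᶠ[atTop] fun k => g l i * pinch g k a := by
      filter_upwards [eventually_ge_atTop l] with k hk
      exact hT.pinch_comm hk hi a
    have h4 : T2 τ atTop (fun k => g l i * pinch g k a) (y * g l i) := by
      unfold T2 at h1 ⊢
      refine h1.congr' ?_
      filter_upwards [h3] with k hk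
      rw [hk]
    exact hτ.T2_unique trivial trivial h4 h2
  · have h1 : T2 τ atTop (fun k => z₀ * (pinch g 0 a - pinch g k a)) (z₀ * (pinch g 0 a - y)) :=
      (T2.const.sub hyT).const_mul z₀
    have e : z₀ * (a - y) = z₀ * (pinch g 0 a - y) := by
      rw [hT.pinch_zero, mul_sub, mul_sub, ← mul_assoc, ← mul_assoc, hz₀.2, mul_assoc z₀ a z₀,
        hzF a ha, ← mul_assoc, hz₀.2]
    have h2 : n2 τ (z₀ * (pinch g 0 a - y)) ≤ ε := by
      apply le_of_tendsto h1.tendsto_n2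
      apply Eventually.of_forall
      intro k
      calc n2 τ (z₀ * (pinch g 0 a - pinch g k a)) ≤ ‖z₀‖ * n2 τ (pinch g 0 a - pinch g k a) :=
            n2_mul_le _ _
        _ ≤ 1 * ε := by
          have h3 := htail 0 k (Nat.zero_le k)
          rw [n2_sub_comm] at h3
          have h4 : 0 ≤ ε / 2 ^ k := by positivity
          apply mul_le_mul hz₀.norm_le _ (n2_nonneg _) zero_le_one
          simp only [pow_zero, div_one] at h3
          linarith
        _ = ε := one_mul _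
    have h5 : z₀ * y = y := by
      refine hτ.T2_unique (M := ⊤) trivial trivial (hyT.const_mul z₀) (hyT.congr' fun k => ?_)
      exact (hT.z_pinch k a).1.symm
    have h6 : y * z₀ = y := by
      refine hτ.T2_unique (M := ⊤) trivial trivial
        (hτ.T2_mul_const (fun _ => trivial) trivial trivial hyT) (hyT.congr' fun k => ?_)
      exact (hT.z_pinch k a).2.symm
    rw [← e] at h2
    refine ⟨h2, ?_⟩
    rw [sub_mul, h6, hzF a ha]
    rw [mul_sub, h5] at h2
    exact h2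

end Pool.Agent.Lib.MP_f5929e_an
end

section

/-!
Minimal central projections of `F' ∩ N^U` are good.
-/

namespace Pool.Agent.Lib.MP_f5929e_an

set_option linter.unusedSectionVars false

open scoped ComplexOrder InnerProductSpace
open Filter Topology

section Dyadic

variable {𝔸 : Type*} [CStarAlgebra 𝔸] [PartialOrder 𝔸] [StarOrderedRing 𝔸] {f : 𝔸 →ₚ[ℂ] ℂ}
  {M : StarSubalgebra ℂ 𝔸}

/-- exact dyadic trees -/
theorem TrAlg.exists_dyadic (hM : TrAlg f M) {w : 𝔸} (hw : w ∈ M) (hwP : Pj w)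
    (hs : Splits M w) : ∃ e : ℕ → ℕ → 𝔸, e 0 0 = w ∧ (∀ k i, e k i ∈ M ∧ Pj (e k i)) ∧
      (∀ k i, e (k + 1) (2 * i) + e (k + 1) (2 * i + 1) = e k i) ∧
      ∀ k i, i < 2 ^ k → (f (e k i)).re = (f w).re / 2 ^ k := by
  obtain ⟨e, h0, hS, hsum, hR⟩ := exists_tree {e : 𝔸 | e ∈ M ∧ Pj e ∧ e * w = e}
    (fun _ q r => (f r).re = (f q).re / 2) w ⟨hw, hwP, hwP.2⟩ ⟨zero_mem _, Pj.zero, zero_mul _⟩ (by
      rintro k q ⟨hq, hqP, hqw⟩
      have hq0 : 0 ≤ (f q).re := hqP.f_re_nonneg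
      obtain ⟨r, hr, hrP, hrq, hrt⟩ := hM.exists_half hM le_rfl hq hqP (hs.of_le hqw) hq hqP hqP.2
        (t := (f q).re / 2) (by linarith) (by linarith)
      rw [hqP.comm_of_le hrP hrq] at hrt
      refine ⟨r, ⟨hr, hrP, by rw [← hrq, mul_assoc, hqw]⟩, ⟨sub_mem hq hr, hqP.sub hrP hrq, ?_⟩, hrt⟩
      rw [sub_mul, hqw, ← hrq, mul_assoc, hqw])
  refine ⟨e, h0, fun k i => ⟨(hS k i).1, (hS k i).2.1⟩, hsum, ?_⟩
  intro k
  induction k with
  | zero =>
    intro i hi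
    have hi0 : i = 0 := by simpa using hi
    rw [hi0, h0]; simp
  | succ k ih =>
    intro i hi
    have hi2 : i / 2 < 2 ^ k := by rw [pow_succ] at hi; omega
    have h1 := ih (i / 2) hi2
    have h2 := hR k (i / 2)
    have h4 : (f (e (k + 1) (2 * (i / 2)))).re + (f (e (k + 1) (2 * (i / 2) + 1))).re =
        (f (e k (i / 2))).re := by
      rw [← Complex.add_re, ← map_add, hsum]
    have h5 : (f w).re / 2 ^ (k + 1) = (f w).re / 2 ^ k / 2 := by
      rw [pow_succ]; field_simp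
    rw [h5, ← h1]
    rcases Nat.even_or_odd' i with ⟨m, rfl | rfl⟩
    · have e : 2 * m / 2 = m := by omega
      rw [e] at h1 h2 h4 ⊢
      linarith
    · have e : (2 * m + 1) / 2 = m := by omega
      rw [e] at h1 h2 h4 ⊢
      linarith

end Dyadic

variable {A : Type*} [CStarAlgebra A] [PartialOrder A] [StarOrderedRing A]
  {B : Type*} [CStarAlgebra B] [PartialOrder B] [StarOrderedRing B]
  {τ : A →ₚ[ℂ] ℂ} {U : Ultrafilter ℕ} {j : A →⋆ₐ[ℂ] B} {F : Finset A}

/-- approximate conjugacy of stages of a lifted tree -/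
def Conj (τ : A →ₚ[ℂ] ℂ) (F : Finset A) (E : ℕ → ℕ → Ell A) (k i i' : ℕ) : Prop :=
  ∃ u : A, Un u ∧ dF τ F u ≤ (1 / 2) ^ k ∧ ∀ l ≤ k, ∀ m < 2 ^ l,
    n2 τ (u * ev i' (E l m) * star u - ev i (E l m)) ≤ (1 / 2) ^ k

/-- approximate tree relations at a stage -/
def GoodI (τ : A →ₚ[ℂ] ℂ) (F : Finset A) (E : ℕ → ℕ → Ell A) (z : A) (k i : ℕ) : Prop :=
  (∀ l ≤ k, ∀ m < 2 ^ l, dF τ F (ev i (E l m)) ≤ (1 / 2) ^ k ∧
    n2 τ (ev i (E l m) * ev i (E l m) - ev i (E l m)) ≤ (1 / 2) ^ k ∧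
    |(τ (ev i (E l m))).re - (τ z).re / 2 ^ l| ≤ (1 / 2) ^ k ∧
    n2 τ (ev i (E (l + 1) (2 * m)) + ev i (E (l + 1) (2 * m + 1)) - ev i (E l m)) ≤
      (1 / 2) ^ k) ∧
  n2 τ (ev i (E 0 0) - z) ≤ (1 / 2) ^ k

theorem half_pow_succ_le (k : ℕ) : (1 / 2 : ℝ) ^ (k + 1) ≤ (1 / 2) ^ k := by
  rw [pow_succ]
  have : (0 : ℝ) < (1 / 2) ^ k := by positivity
  linarith

theorem GoodI.anti {E : ℕ → ℕ → Ell A} {z : A} {k i : ℕ} (h : GoodI τ F E z (k + 1) i) :
    GoodI τ F E z k i := by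
  have hk := half_pow_succ_le k
  refine ⟨fun l hl m hm => ?_, h.2.trans hk⟩
  obtain ⟨h1, h2, h3, h4⟩ := h.1 l (hl.trans (Nat.le_succ k)) m hm
  exact ⟨h1.trans hk, h2.trans hk, h3.trans hk, h4.trans hk⟩

theorem GoodI.anti' {E : ℕ → ℕ → Ell A} {z : A} {k k' i : ℕ} (hk : k ≤ k')
    (h : GoodI τ F E z k' i) : GoodI τ F E z k i := by
  induction k', hk using Nat.le_induction with
  | base => exact h
  | succ n _ ih => exact ih h.anti

theorem tendsto_half_pow : Tendsto (fun k : ℕ => (1 / 2 : ℝ) ^ k) atTop (𝓝 0) :=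
  tendsto_pow_atTop_nhds_zero_of_lt_one (by norm_num) (by norm_num)

theorem tendsto_zero_of_half {U : Ultrafilter ℕ} {s : ℕ → ℝ} (hs : ∀ i, 0 ≤ s i)
    (h : ∀ k : ℕ, ∀ᶠ i in (U : Filter ℕ), s i ≤ (1 / 2) ^ k) : Tendsto s U (𝓝 0) := by
  rw [Metric.tendsto_nhds]
  intro ε hε
  obtain ⟨k, hk⟩ := (tendsto_half_pow.eventually (gt_mem_nhds hε)).exists
  filter_upwards [h k] with i hi
  rw [Real.dist_0_eq_abs, abs_of_nonneg (hs i)]
  exact hi.trans_lt hk

/-- eventually good -/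
theorem eventually_goodI (hτ : TrAlg τ ⊤) (hU : (U : Filter ℕ) ≤ atTop)
    (hF : ∀ a ∈ F, star a ∈ F) {E : ℕ → ℕ → Ell A} {z : A}
    (h1 : ∀ l m, pi' τ U (E l m) ∈ QQ τ U F ∧ Pj (pi' τ U (E l m)))
    (h2 : ∀ l m, pi' τ U (E (l + 1) (2 * m)) + pi' τ U (E (l + 1) (2 * m + 1)) =
      pi' τ U (E l m))
    (h3 : ∀ l m, m < 2 ^ l → (om τ U (pi' τ U (E l m))).re = (τ z).re / 2 ^ l)
    (h4 : pi' τ U (E 0 0) = io τ U z) (k : ℕ) : ∀ᶠ i in (U : Filter ℕ), GoodI τ F E z k i := by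
  have hk : (0 : ℝ) < (1 / 2) ^ k := by positivity
  have hmain : ∀ᶠ i in (U : Filter ℕ), ∀ l ∈ Finset.range (k + 1), ∀ m ∈ Finset.range (2 ^ l),
      dF τ F (ev i (E l m)) ≤ (1 / 2) ^ k ∧
      n2 τ (ev i (E l m) * ev i (E l m) - ev i (E l m)) ≤ (1 / 2) ^ k ∧
      |(τ (ev i (E l m))).re - (τ z).re / 2 ^ l| ≤ (1 / 2) ^ k ∧
      n2 τ (ev i (E (l + 1) (2 * m)) + ev i (E (l + 1) (2 * m + 1)) - ev i (E l m)) ≤
        (1 / 2) ^ k := by
    apply (Finset.eventually_all _).2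
    intro l _
    apply (Finset.eventually_all _).2
    intro m hm
    have a1 : Tendsto (fun i => dF τ F (ev i (E l m))) U (𝓝 0) := (pi_mem_QQ hτ hU hF).1 (h1 l m).1
    have a2 : Tendsto (fun i => n2 τ (ev i (E l m) * ev i (E l m) - ev i (E l m))) U (𝓝 0) := by
      have b : pi' τ U (E l m * E l m) = pi' τ U (E l m) := by rw [map_mul, (h1 l m).2.2]
      rw [pi_eq_iff hτ hU] at b
      refine b.congr fun i => ?_
      rw [map_mul]
    have a3 : Tendsto (fun i => (τ (ev i (E l m))).re) U (𝓝 ((τ z).re / 2 ^ l)) := by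
      have b := tendsto_uTr τ U (E l m)
      rw [← om_pi] at b
      have b2 := (Complex.continuous_re.tendsto _).comp b
      rw [h3 l m (Finset.mem_range.1 hm)] at b2
      exact b2
    have a4 : Tendsto (fun i => n2 τ (ev i (E (l + 1) (2 * m)) + ev i (E (l + 1) (2 * m + 1)) -
        ev i (E l m))) U (𝓝 0) := by
      have b : pi' τ U (E (l + 1) (2 * m) + E (l + 1) (2 * m + 1)) = pi' τ U (E l m) := by
        rw [map_add, h2]
      rw [pi_eq_iff hτ hU] at b
      refine b.congr fun i => ?_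
      rw [map_add]
    filter_upwards [a1.eventually (gt_mem_nhds hk), a2.eventually (gt_mem_nhds hk),
      Metric.tendsto_nhds.1 a3 _ hk, a4.eventually (gt_mem_nhds hk)] with i c1 c2 c3 c4
    exact ⟨c1.le, c2.le, le_of_lt c3, c4.le⟩
  have h5 : Tendsto (fun i => n2 τ (ev i (E 0 0) - z)) U (𝓝 0) := by
    have b : pi' τ U (E 0 0) = pi' τ U (cst z) := h4
    rw [pi_eq_iff hτ hU] at b
    exact b
  filter_upwards [hmain, h5.eventually (gt_mem_nhds hk)] with i c1 c2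
  exact ⟨fun l hl m hm => c1 l (Finset.mem_range.2 (Nat.lt_succ_of_le hl)) m
    (Finset.mem_range.2 hm), c2.le⟩

/-- different stages of a lifted tree are approximately conjugate -/
theorem eventually_conj (hτ : TrAlg τ ⊤) (hU : (U : Filter ℕ) ≤ atTop)
    (hfac : TrAlg.MinC (⊤ : StarSubalgebra ℂ A) 1) (hF : ∀ a ∈ F, star a ∈ F)
    {E : ℕ → ℕ → Ell A} {z : A} (hz : TrAlg.MinC (QQ τ U F) (io τ U z))
    (hEn : ∀ l m i, ‖ev i (E l m)‖ ≤ 1) (hEsa : ∀ l m, star (E l m) = E l m)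
    (h1 : ∀ l m, pi' τ U (E l m) ∈ QQ τ U F ∧ Pj (pi' τ U (E l m)))
    (h2 : ∀ l m, pi' τ U (E (l + 1) (2 * m)) + pi' τ U (E (l + 1) (2 * m + 1)) =
      pi' τ U (E l m))
    (h3 : ∀ l m, m < 2 ^ l → (om τ U (pi' τ U (E l m))).re = (τ z).re / 2 ^ l)
    (h4 : pi' τ U (E 0 0) = io τ U z) (k : ℕ) :
    ∀ᶠ i in (U : Filter ℕ), ∀ᶠ i' in (U : Filter ℕ), Conj τ F E k i i' := by
  by_contra hcon
  rw [← Ultrafilter.eventually_not] at hcon
  have hcon' : ∀ᶠ i in (U : Filter ℕ), ∀ᶠ i' in (U : Filter ℕ), ¬ Conj τ F E k i i' := by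
    filter_upwards [hcon] with i hi
    rwa [Ultrafilter.eventually_not]
  obtain ⟨s, hs⟩ := sat hU (X := ℕ) (fun n i i' => GoodI τ F E z n i' ∧ ¬ Conj τ F E k i i')
    (fun n i i' h => ⟨h.1.anti, h.2⟩) (by
      intro n
      filter_upwards [hcon'] with i hi
      exact ((eventually_goodI hτ hU hF h1 h2 h3 h4 n).and hi).exists)
  set E' : ℕ → ℕ → Ell A := fun l m => mkE (fun i => ev (s i) (E l m)) 1 (fun i => hEn l m _)
    with hE'
  have hev : ∀ l m i, ev i (E' l m) = ev (s i) (E l m) := fun l m i => rfl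
  have hEsa' : ∀ l m i, star (ev i (E l m)) = ev i (E l m) := fun l m i => by
    rw [← map_star, hEsa]
  have hsmall : ∀ n l m, m < 2 ^ l → ∀ᶠ i in (U : Filter ℕ),
      dF τ F (ev i (E' l m)) ≤ (1 / 2) ^ n ∧
      n2 τ (ev i (E' l m) * ev i (E' l m) - ev i (E' l m)) ≤ (1 / 2) ^ n ∧
      |(τ (ev i (E' l m))).re - (τ z).re / 2 ^ l| ≤ (1 / 2) ^ n ∧
      n2 τ (ev i (E' (l + 1) (2 * m)) + ev i (E' (l + 1) (2 * m + 1)) - ev i (E' l m)) ≤
        (1 / 2) ^ n := by
    intro n l m hm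
    filter_upwards [hs (max n l)] with i hi
    obtain ⟨c1, c2, c3, c4⟩ := hi.1.1 l (le_max_right _ _) m hm
    have hn : (1 / 2 : ℝ) ^ (max n l) ≤ (1 / 2) ^ n :=
      pow_le_pow_of_le_one (by norm_num) (by norm_num) (le_max_left _ _)
    exact ⟨c1.trans hn, c2.trans hn, c3.trans hn, c4.trans hn⟩
  have p1 : ∀ l m, m < 2 ^ l → pi' τ U (E' l m) ∈ QQ τ U F := by
    intro l m hm
    rw [pi_mem_QQ hτ hU hF]
    exact tendsto_zero_of_half (fun _ => dF_nonneg _) fun n => by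
      filter_upwards [hsmall n l m hm] with i hi
      exact hi.1
  have p2 : ∀ l m, m < 2 ^ l → Pj (pi' τ U (E' l m)) := by
    intro l m hm
    constructor
    · rw [← map_star]
      congr 1
      apply ev_ext
      intro i
      rw [map_star, hev, hEsa']
    · rw [← map_mul]
      apply pi_eq_of hτ hU
      exact tendsto_zero_of_half (fun _ => n2_nonneg _) fun n => by
        filter_upwards [hsmall n l m hm] with i hi
        rw [map_mul]
        exact hi.2.1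
  have p3 : ∀ l m, m < 2 ^ l → (om τ U (pi' τ U (E' l m))).re = (τ z).re / 2 ^ l := by
    intro l m hm
    have b := tendsto_uTr τ U (E' l m)
    rw [← om_pi] at b
    have b2 := (Complex.continuous_re.tendsto _).comp b
    have b3 : Tendsto (fun i => |(τ (ev i (E' l m))).re - (τ z).re / 2 ^ l|) U (𝓝 0) :=
      tendsto_zero_of_half (fun _ => abs_nonneg _) fun n => by
        filter_upwards [hsmall n l m hm] with i hi
        exact hi.2.2.1
    have b4 := (b2.sub (tendsto_const_nhds (x := (τ z).re / 2 ^ l))).abs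
    have b5 := tendsto_nhds_unique b4 b3
    have := abs_eq_zero.1 b5
    linarith
  have p4 : ∀ l m, m < 2 ^ l → pi' τ U (E' (l + 1) (2 * m)) + pi' τ U (E' (l + 1) (2 * m + 1)) =
      pi' τ U (E' l m) := by
    intro l m hm
    rw [← map_add]
    apply pi_eq_of hτ hU
    exact tendsto_zero_of_half (fun _ => n2_nonneg _) fun n => by
      filter_upwards [hsmall n l m hm] with i hi
      rw [map_add]
      exact hi.2.2.2
  have p5 : pi' τ U (E' 0 0) = io τ U z := by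
    show _ = pi' τ U (cst z)
    apply pi_eq_of hτ hU
    exact tendsto_zero_of_half (fun _ => n2_nonneg _) fun n => by
      filter_upwards [hs n] with i hi
      rw [ev_cst]
      exact hi.1.2
  have tot : ∀ l, ∑ m ∈ Finset.range (2 ^ l), pi' τ U (E l m) = io τ U z := by
    intro l
    induction l with
    | zero => simpa using h4
    | succ l ih =>
      rw [sum_two_pow, ← ih]
      exact Finset.sum_congr rfl fun m _ => h2 l m
  have tot' : ∀ l, ∑ m ∈ Finset.range (2 ^ l), pi' τ U (E' l m) = io τ U z := by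
    intro l
    induction l with
    | zero => simpa using p5
    | succ l ih =>
      rw [sum_two_pow, ← ih]
      exact Finset.sum_congr rfl fun m hm => p4 l m (Finset.mem_range.1 hm)
  obtain ⟨u, hu, huU, huc⟩ := (trAlg_QQ hτ hU).conj_partition hz (2 ^ k)
    (fun m => pi' τ U (E' k m)) (fun m => pi' τ U (E k m)) (fun m hm => ⟨p1 k m hm, p2 k m hm⟩)
    (fun m _ => h1 k m) (tot' k) (tot k) (fun m hm => by
      show (om τ U (pi' τ U (E' k m))).re = (om τ U (pi' τ U (E k m))).re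
      rw [p3 k m hm, h3 k m hm])
  have hconj : ∀ d l, l + d = k → ∀ m < 2 ^ l,
      u * pi' τ U (E' l m) * star u = pi' τ U (E l m) := by
    intro d
    induction d with
    | zero =>
      intro l hl m hm
      rw [add_zero] at hl
      subst hl
      exact huc m hm
    | succ d ih =>
      intro l hl m hm
      rw [← p4 l m hm, ← h2 l m, mul_add, add_mul, ih (l + 1) (by omega) _ (Tree.lt_left hm),
        ih (l + 1) (by omega) _ (Tree.lt_right hm)]
  obtain ⟨G, hG, hGu⟩ := exists_unitary_lift hτ hU hfac (QQ_le hu) huU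
  have hk : (0 : ℝ) < (1 / 2) ^ k := by positivity
  have hGd : Tendsto (fun i => dF τ F (ev i G)) U (𝓝 0) :=
    (pi_mem_QQ hτ hU hF).1 (by rw [hGu]; exact hu)
  have hfin : ∀ᶠ i in (U : Filter ℕ), ∀ l ∈ Finset.range (k + 1), ∀ m ∈ Finset.range (2 ^ l),
      n2 τ (ev i G * ev (s i) (E l m) * star (ev i G) - ev i (E l m)) ≤ (1 / 2) ^ k := by
    apply (Finset.eventually_all _).2
    intro l hl
    apply (Finset.eventually_all _).2
    intro m hm
    have hl' : l ≤ k := Nat.lt_succ_iff.1 (Finset.mem_range.1 hl)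
    have b : pi' τ U (G * E' l m * star G) = pi' τ U (E l m) := by
      rw [map_mul, map_mul, map_star, hGu]
      exact hconj (k - l) l (by omega) m (Finset.mem_range.1 hm)
    rw [pi_eq_iff hτ hU] at b
    filter_upwards [b.eventually (gt_mem_nhds hk)] with i hi
    rw [map_mul, map_mul, map_star, hev] at hi
    exact hi.le
  obtain ⟨i, hi1, hi2, hi3⟩ := (hfin.and ((hGd.eventually (gt_mem_nhds hk)).and (hs 0))).exists
  exact hi3.2 ⟨ev i G, hG i, hi2.le, fun l hl m hm => hi1 l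
    (Finset.mem_range.2 (Nat.lt_succ_of_le hl)) m (Finset.mem_range.2 hm)⟩

/-- bounded sequences with geometrically small steps converge -/
theorem exists_lim_of_geom (hτ : TrAlg τ ⊤) (w : ℕ → A) (C : ℝ) (hC : ∀ k, ‖w k‖ ≤ C) (K : ℕ)
    (h : ∀ k, K ≤ k → n2 τ (w (k + 1) - w k) ≤ (1 / 2) ^ k) : ∃ y, T2 τ atTop w y := by
  have htail : ∀ k, K ≤ k → ∀ m, k ≤ m → n2 τ (w m - w k) ≤ 2 * (1 / 2) ^ k - 2 * (1 / 2) ^ m := by
    intro k hk m hkm
    induction m, hkm using Nat.le_induction with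
    | base => simp
    | succ m hkm ih =>
      refine (n2_sub_le_add _ (w m) _).trans ?_
      have h1 := h m (hk.trans hkm)
      have h2 : (2 : ℝ) * (1 / 2) ^ (m + 1) = (1 / 2) ^ m := by rw [pow_succ]; ring
      linarith
  obtain ⟨y, _, _, hy⟩ := hτ.complete w C (fun _ => trivial) hC (by
    intro δ hδ
    obtain ⟨k₀, hk₀, hk₁⟩ := ((tendsto_half_pow.eventually (gt_mem_nhds
      (show (0 : ℝ) < δ / 4 by positivity))).and (eventually_ge_atTop K)).exists
    have hmain : ∀ m, k₀ ≤ m → n2 τ (w m - w k₀) ≤ δ / 2 := by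
      intro m hm
      have h2 := htail k₀ hk₁ m hm
      have h3 : (0 : ℝ) ≤ (1 / 2) ^ m := by positivity
      linarith
    refine ⟨k₀, fun m hm n hn => ?_⟩
    refine (n2_sub_le_add _ (w k₀) _).trans ?_
    have h2 := hmain m hm
    have h3 := hmain n hn
    rw [n2_sub_comm] at h3
    linarith)
  exact ⟨y, hy⟩

theorem T2.of_half {w : ℕ → A} {y : A} (K : ℕ) (h : ∀ k, K ≤ k → n2 τ (w k - y) ≤ (1 / 2) ^ k) :
    T2 τ atTop w y := by
  unfold T2
  refine squeeze_zero' (Eventually.of_forall fun _ => n2_nonneg _) ?_ tendsto_half_pow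
  filter_upwards [eventually_ge_atTop K] with k hk
  exact h k hk

/-- conjugation by a unitary does not change the `2`-norm -/
theorem n2_conj (hτ : TrAlg τ ⊤) {v : A} (hv : Un v) (x : A) : n2 τ (v * x * star v) = n2 τ x := by
  have h1 : n2 τ (v * x * star v) ^ 2 = n2 τ x ^ 2 := by
    rw [n2_sq_re, n2_sq_re]
    congr 1
    rw [star_mul, star_mul, star_star]
    calc τ (v * (star x * star v) * (v * x * star v))
        = τ (v * (star x * (star v * v) * x * star v)) := by congr 1; noncomm_ring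
      _ = τ (star x * (star v * v) * x * star v * v) := hτ.comm _ trivial _ trivial
      _ = τ (star x * (star v * v) * x * (star v * v)) := by congr 1; noncomm_ring
      _ = τ (star x * x) := by rw [hv.1, mul_one, mul_one]
  exact (sq_eq_sq₀ (n2_nonneg _) (n2_nonneg _)).1 h1

/-- functionals composed with conjugations -/
noncomputable def cj (φ : B →ₚ[ℂ] ℂ) (w : B) : B →ₚ[ℂ] ℂ :=
  PositiveLinearMap.mk₀
    { toFun := fun T => φ (w * T * star w)
      map_add' := fun S T => by rw [mul_add, add_mul, map_add]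
      map_smul' := fun c T => by
        rw [mul_smul_comm, smul_mul_assoc, map_smul]
        rfl }
    (fun T hT => f_nonneg (star_right_conjugate_nonneg hT w))

theorem cj_apply (φ : B →ₚ[ℂ] ℂ) (w T : B) : cj φ w T = φ (w * T * star w) := rfl

end Pool.Agent.Lib.MP_f5929e_an
end
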