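import Mathlib
import Pool.Agent.Lib.MP_f5929e_an.Tree
import Pool.Agent.Lib.MP_f5929e_an.Split

section

/-!
Hilbert space lemmas.
-/

namespace Pool.Agent.Lib.MP_f5929e_an

set_option linter.unusedSectionVars false

open scoped ComplexOrder InnerProductSpace
open Filter Topology

variable {H : Type*} [NormedAddCommGroup H] [InnerProductSpace ℂ H] [CompleteSpace H]
  {K : Type*} [NormedAddCommGroup K] [InnerProductSpace ℂ K] [CompleteSpace K]

/-- decomposition with respect to the closure of a range -/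
theorem exists_decomp {E : Type*} [AddCommGroup E] [Module ℂ E] (α : E →ₗ[ℂ] H) (v : H) :
    ∃ p q : H, v = p + q ∧ p ∈ closure (Set.range α) ∧ (∀ x, ⟪α x, q⟫_ℂ = 0) ∧
      ‖p‖ ^ 2 + ‖q‖ ^ 2 = ‖v‖ ^ 2 := by
  set R : Submodule ℂ H := (LinearMap.range α).topologicalClosure with hR
  have hRc : IsClosed (R : Set H) := Submodule.isClosed_topologicalClosure _
  have : CompleteSpace R := hRc.completeSpace_coe
  refine ⟨R.starProjection v, v - R.starProjection v, by abel, ?_, ?_, ?_⟩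
  · have h1 : R.starProjection v ∈ R := R.starProjection_apply_mem v
    have h2 : (R : Set H) = closure (Set.range α) := by
      rw [hR, Submodule.topologicalClosure_coe, LinearMap.coe_range]
    rw [← h2]; exact h1
  · intro x
    have h1 : α x ∈ R := (LinearMap.range α).le_topologicalClosure (LinearMap.mem_range_self α x)
    have h2 : v - R.starProjection v ∈ Rᗮ := R.sub_starProjection_mem_orthogonal v
    exact (Submodule.mem_orthogonal _ _).1 h2 _ h1
  · have h2 : v - R.starProjection v ∈ Rᗮ := R.sub_starProjection_mem_orthogonal v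
    have h3 : ⟪R.starProjection v, v - R.starProjection v⟫_ℂ = 0 :=
      (Submodule.mem_orthogonal _ _).1 h2 _ (R.starProjection_apply_mem v)
    have h4 := norm_add_sq_eq_norm_sq_add_norm_sq_of_inner_eq_zero _ _ h3
    rw [add_sub_cancel] at h4
    rw [sq, sq, sq, ← h4]

/-- vectors are determined by inner products with a range and its orthogonal complement -/
theorem eq_of_inner {E : Type*} [AddCommGroup E] [Module ℂ E] (α : E →ₗ[ℂ] H) {u v : H}
    (h1 : ∀ x, ⟪α x, u⟫_ℂ = ⟪α x, v⟫_ℂ)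
    (h2 : ∀ q, (∀ x, ⟪α x, q⟫_ℂ = 0) → ⟪q, u⟫_ℂ = ⟪q, v⟫_ℂ) : u = v := by
  have h3 := h2 (u - v) (fun x => by rw [inner_sub_right, h1, sub_self])
  rw [← sub_eq_zero, ← inner_sub_right] at h3
  exact sub_eq_zero.1 (inner_self_eq_zero.1 h3)

/-- partial isometries from isometric correspondences of dense subspaces -/
theorem exists_partial {E : Type*} [AddCommGroup E] [Module ℂ E] (α : E →ₗ[ℂ] H)
    (β : E →ₗ[ℂ] K) (hn : ∀ x, ‖β x‖ = ‖α x‖) :
    ∃ w : H →L[ℂ] K, (∀ x, w (α x) = β x) ∧ (∀ q, (∀ x, ⟪α x, q⟫_ℂ = 0) → w q = 0) ∧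
      ∀ v, ‖w v‖ ≤ ‖v‖ := by
  set R : Submodule ℂ H := (LinearMap.range α).topologicalClosure with hR
  have hRc : IsClosed (R : Set H) := Submodule.isClosed_topologicalClosure _
  have : CompleteSpace R := hRc.completeSpace_coe
  have hmem : ∀ x, α x ∈ R := fun x =>
    (LinearMap.range α).le_topologicalClosure (LinearMap.mem_range_self α x)
  set α' : E →ₗ[ℂ] R := α.codRestrict R hmem with hα'
  have hdense : DenseRange α' := by
    intro y
    rw [mem_closure_iff_seq_limit]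
    have hy : (y : H) ∈ closure (Set.range α) := by
      have h2 : (R : Set H) = closure (Set.range α) := by
        rw [hR, Submodule.topologicalClosure_coe, LinearMap.coe_range]
      rw [← h2]; exact y.2
    obtain ⟨u, hu, hlim⟩ := mem_closure_iff_seq_limit.1 hy
    choose x hx using hu
    refine ⟨fun n => α' (x n), fun n => ⟨x n, rfl⟩, ?_⟩
    rw [tendsto_subtype_rng]
    refine hlim.congr fun n => ?_
    show u n = α (x n)
    rw [hx]
  have hbd : ∀ x, ‖β x‖ ≤ 1 * ‖α' x‖ := fun x => by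
    rw [one_mul, hn x]; rfl
  refine ⟨(β.extendOfNorm α').comp R.orthogonalProjectionOnto, ?_, ?_, ?_⟩
  · intro x
    have h1 : R.orthogonalProjectionOnto (α x) = α' x := by
      exact R.orthogonalProjectionOnto_mem_subspace_eq_self (α' x)
    show β.extendOfNorm α' (R.orthogonalProjectionOnto (α x)) = β x
    rw [h1]
    exact LinearMap.extendOfNorm_eq hdense ⟨1, hbd⟩ x
  · intro q hq
    have h1 : R.orthogonalProjectionOnto q = 0 := by
      apply Submodule.orthogonalProjectionOnto_apply_of_mem_orthogonal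
      rw [Submodule.mem_orthogonal]
      intro u hu
      have h2 : (R : Set H) = closure (Set.range α) := by
        rw [hR, Submodule.topologicalClosure_coe, LinearMap.coe_range]
      have h3 : u ∈ closure (Set.range α) := by rw [← h2]; exact hu
      have h4 : closure (Set.range α) ⊆ {u | ⟪u, q⟫_ℂ = 0} := by
        apply closure_minimal
        · rintro _ ⟨x, rfl⟩; exact hq x
        · exact isClosed_eq (by fun_prop) continuous_const
      exact h4 h3
    show β.extendOfNorm α' (R.orthogonalProjectionOnto q) = 0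
    rw [h1, map_zero]
  · intro v
    show ‖β.extendOfNorm α' (R.orthogonalProjectionOnto v)‖ ≤ ‖v‖
    refine (LinearMap.norm_extendOfNorm_apply_le hdense 1 hbd _).trans ?_
    rw [one_mul]
    exact R.norm_orthogonalProjectionOnto_apply_le v

/-- bounded nets of operators have weak operator limits -/
theorem exists_wot {I : Type*} (W : Ultrafilter I) (X : I → H →L[ℂ] H) (C : ℝ)
    (hX : ∀ i, ‖X i‖ ≤ C) :
    ∃ Y : H →L[ℂ] H, ‖Y‖ ≤ C ∧
      ∀ η η', Tendsto (fun i => ⟪η, X i η'⟫_ℂ) W (𝓝 ⟪η, Y η'⟫_ℂ) := by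
  have hbd : ∀ i η', ‖X i η'‖ ≤ C * ‖η'‖ := fun i η' =>
    ((X i).le_opNorm η').trans (mul_le_mul_of_nonneg_right (hX i) (norm_nonneg _))
  -- weak limits
  have hweak : ∀ η', ∃ y : H, ∀ v, Tendsto (fun i => ⟪X i η', v⟫_ℂ) W (𝓝 ⟪y, v⟫_ℂ) := by
    intro η'
    have hb : ∀ v i, ‖⟪X i η', v⟫_ℂ‖ ≤ C * ‖η'‖ * ‖v‖ := fun v i =>
      (norm_inner_le_norm _ _).trans (mul_le_mul_of_nonneg_right (hbd i η') (norm_nonneg _))
    have hlim : ∀ v, ∃ x, Tendsto (fun i => ⟪X i η', v⟫_ℂ) W (𝓝 x) := by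
      intro v
      have h1 : (W.map (fun i => ⟪X i η', v⟫_ℂ) : Filter ℂ) ≤
          𝓟 (Metric.closedBall 0 (C * ‖η'‖ * ‖v‖)) := by
        rw [le_principal_iff]
        exact Filter.mem_map.2 (univ_mem' fun i => by simpa using hb v i)
      obtain ⟨x, _, hx⟩ := (isCompact_closedBall (0 : ℂ) (C * ‖η'‖ * ‖v‖)).ultrafilter_le_nhds
        (W.map (fun i => ⟪X i η', v⟫_ℂ)) h1
      exact ⟨x, hx⟩
    choose L hL using hlim
    let L₀ : H →ₗ[ℂ] ℂ :=
      { toFun := L
        map_add' := fun v w => by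
          refine tendsto_nhds_unique (hL (v + w)) (((hL v).add (hL w)).congr fun i => ?_)
          rw [inner_add_right]
        map_smul' := fun c v => by
          refine tendsto_nhds_unique (hL (c • v)) (((hL v).const_mul c).congr fun i => ?_)
          rw [inner_smul_right] }
    let L₁ : H →L[ℂ] ℂ := L₀.mkContinuous (C * ‖η'‖) fun v =>
      le_of_tendsto (hL v).norm (Eventually.of_forall fun i => hb v i)
    refine ⟨(InnerProductSpace.toDual ℂ H).symm L₁, fun v => ?_⟩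
    rw [InnerProductSpace.toDual_symm_apply]
    exact hL v
  choose y hy using hweak
  have hext : ∀ u v : H, (∀ w, ⟪u, w⟫_ℂ = ⟪v, w⟫_ℂ) → u = v := fun u v h =>
    ext_inner_right ℂ h
  let Y₀ : H →ₗ[ℂ] H :=
    { toFun := y
      map_add' := fun a b => by
        apply hext
        intro w
        rw [inner_add_left]
        refine tendsto_nhds_unique (hy (a + b) w) (((hy a w).add (hy b w)).congr fun i => ?_)
        rw [map_add, inner_add_left]
      map_smul' := fun c a => by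
        apply hext
        intro w
        rw [inner_smul_left]
        refine tendsto_nhds_unique (hy (c • a) w) (((hy a w).const_mul _).congr fun i => ?_)
        rw [map_smul, inner_smul_left]
        rfl }
  have hC0 : 0 ≤ C := by
    obtain ⟨i⟩ : Nonempty I := Filter.nonempty_of_neBot (W : Filter I)
    exact (norm_nonneg _).trans (hX i)
  let Y : H →L[ℂ] H := Y₀.mkContinuous C fun a => by
    show ‖y a‖ ≤ C * ‖a‖
    by_cases h0 : y a = 0
    · rw [h0, norm_zero]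
      obtain ⟨i⟩ : Nonempty I := Filter.nonempty_of_neBot (W : Filter I)
      exact (norm_nonneg _).trans (hbd i a)
    · have h1 : ‖⟪y a, y a⟫_ℂ‖ ≤ C * ‖a‖ * ‖y a‖ := by
        refine le_of_tendsto (hy a (y a)).norm (Eventually.of_forall fun i => ?_)
        exact (norm_inner_le_norm _ _).trans (mul_le_mul_of_nonneg_right (hbd i a) (norm_nonneg _))
      rw [inner_self_eq_norm_sq_to_K] at h1
      have h2 : ‖y a‖ * ‖y a‖ ≤ C * ‖a‖ * ‖y a‖ := by
        have h3 : ‖(((‖y a‖ : ℝ) : ℂ)) ^ 2‖ = ‖y a‖ * ‖y a‖ := by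
          rw [norm_pow, Complex.norm_real, norm_norm, sq]
        rw [← h3]; exact h1
      exact le_of_mul_le_mul_right h2 (norm_pos_iff.2 h0)
  refine ⟨Y, Y₀.mkContinuous_norm_le hC0 _, fun η η' => ?_⟩
  have h1 : Tendsto (fun i => (starRingEnd ℂ) ⟪X i η', η⟫_ℂ) W
      (𝓝 ((starRingEnd ℂ) ⟪y η', η⟫_ℂ)) := (Complex.continuous_conj.tendsto _).comp (hy η' η)
  have e2 : (starRingEnd ℂ) ⟪y η', η⟫_ℂ = ⟪η, Y η'⟫_ℂ := inner_conj_symm _ _
  rw [← e2]
  refine h1.congr fun i => ?_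
  exact inner_conj_symm _ _

end Pool.Agent.Lib.MP_f5929e_an
end

section

/-!
A bounded Radon–Nikodym theorem for tracial algebras.
-/

namespace Pool.Agent.Lib.MP_f5929e_an

set_option linter.unusedSectionVars false

open scoped ComplexOrder InnerProductSpace
open Filter Topology

variable {𝔸 : Type*} [CStarAlgebra 𝔸] [PartialOrder 𝔸] [StarOrderedRing 𝔸] {f : 𝔸 →ₚ[ℂ] ℂ}
  {M : StarSubalgebra ℂ 𝔸}

theorem n2_add_sq (x y : 𝔸) : n2 f (x + y) ^ 2 = n2 f x ^ 2 + n2 f y ^ 2 +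
    2 * (f (star x * y)).re := by
  rw [n2_sq_re, n2_sq_re, n2_sq_re]
  have e : star (x + y) * (x + y) = star x * x + star y * y + (star x * y + star (star x * y)) := by
    rw [star_add, star_mul, star_star]; noncomm_ring
  rw [e, map_add, map_add, map_add, f_star]
  simp only [Complex.add_re, RCLike.star_def, Complex.conj_re]
  ring

/-- the parts of a self-adjoint element -/
theorem abs_parts {x : 𝔸} (hx : IsSelfAdjoint x) :
    0 ≤ cfc (fun t : ℝ => max t 0) x ∧ 0 ≤ cfc (fun t : ℝ => max (-t) 0) x ∧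
      x = cfc (fun t : ℝ => max t 0) x - cfc (fun t : ℝ => max (-t) 0) x := by
  refine ⟨cfc_nonneg fun t _ => le_max_right _ _, cfc_nonneg fun t _ => le_max_right _ _, ?_⟩
  rw [← cfc_sub (fun t : ℝ => max t 0) (fun t : ℝ => max (-t) 0) x (by fun_prop) (by fun_prop)]
  conv_lhs => rw [← cfc_of_id hx]
  apply cfc_congr
  intro t _
  show t = max t 0 - max (-t) 0
  rcases le_total t 0 with h | h
  · rw [max_eq_right h, max_eq_left (by linarith)]; ring
  · rw [max_eq_left h, max_eq_right (by linarith)]; ring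

namespace TrAlg

/-- functionals dominated by the trace are continuous -/
theorem dom_bound (hM : TrAlg f M) (ψ : 𝔸 →ₗ[ℂ] ℂ) (C : ℝ)
    (hψ : ∀ b ∈ M, 0 ≤ b → 0 ≤ (ψ b).re ∧ (ψ b).re ≤ C * (f b).re ∧ (ψ b).im = 0)
    {x : 𝔸} (hx : x ∈ M) (hxs : IsSelfAdjoint x) :
    |(ψ x).re| ≤ C * n2 f x ∧ (ψ x).im = 0 := by
  obtain ⟨h1, h2, h3⟩ := abs_parts hxs
  set p := cfc (fun t : ℝ => max t 0) x with hp
  set q := cfc (fun t : ℝ => max (-t) 0) x with hq
  have hpM : p ∈ M := hM.cfc_mem hx _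
  have hqM : q ∈ M := hM.cfc_mem hx _
  obtain ⟨p1, p2, p3⟩ := hψ p hpM h1
  obtain ⟨q1, q2, q3⟩ := hψ q hqM h2
  have e1 : ψ x = ψ p - ψ q := by
    conv_lhs => rw [h3]
    rw [map_sub]
  have hfp : ‖f (p + q)‖ ≤ n2 f x := by
    refine (norm_f_le hM.one _).trans ?_
    have e2 : p + q = cfc (fun t : ℝ => |t|) x := by
      rw [hp, hq, ← cfc_add (a := x) (fun t : ℝ => max t 0) (fun t : ℝ => max (-t) 0) (by fun_prop)
        (by fun_prop)]
      apply cfc_congr
      intro t _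
      show max t 0 + max (-t) 0 = |t|
      rcases le_total t 0 with h | h
      · rw [max_eq_right h, max_eq_left (by linarith), abs_of_nonpos h]; ring
      · rw [max_eq_left h, max_eq_right (by linarith), abs_of_nonneg h]; ring
    rw [e2]
    calc n2 f (cfc (fun t : ℝ => |t|) x) ≤ n2 f (cfc (fun t : ℝ => t) x) :=
          n2_cfc_le (fun t : ℝ => |t|) (fun t : ℝ => t) (by fun_prop) (by fun_prop)
            (fun t _ => by rw [abs_abs])
      _ = n2 f x := by rw [cfc_of_id hxs]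
  have hfre : (f p).re + (f q).re ≤ n2 f x := by
    have := (Complex.re_le_norm (f (p + q))).trans hfp
    rwa [map_add, Complex.add_re] at this
  have hfp0 : 0 ≤ (f p).re := by
    have := f_re_mono (f := f) h1
    rwa [map_zero, Complex.zero_re] at this
  have hfq0 : 0 ≤ (f q).re := by
    have := f_re_mono (f := f) h2
    rwa [map_zero, Complex.zero_re] at this
  have hC : C * ((f p).re + (f q).re) ≤ C * n2 f x := by
    rcases le_or_gt 0 C with hC | hC
    · exact mul_le_mul_of_nonneg_left hfre hC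
    · -- then everything vanishes
      have a1 : ∀ b ∈ M, 0 ≤ b → (f b).re = 0 := by
        intro b hb hb0
        obtain ⟨c1, c2, _⟩ := hψ b hb hb0
        have c3 := f_re_mono (f := f) hb0
        rw [map_zero, Complex.zero_re] at c3
        nlinarith
      have := a1 1 (one_mem _) zero_le_one
      rw [hM.one, Complex.one_re] at this
      norm_num at this
  constructor
  · rw [e1, Complex.sub_re, abs_le]
    constructor <;> nlinarith
  · rw [e1, Complex.sub_im, p3, q3, sub_zero]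

theorem radon (hM : TrAlg f M) (ψ : 𝔸 →ₗ[ℂ] ℂ) (C : ℝ) (hC : 0 ≤ C)
    (hψ : ∀ b ∈ M, 0 ≤ b → 0 ≤ (ψ b).re ∧ (ψ b).re ≤ C * (f b).re ∧ (ψ b).im = 0) :
    ∃ h ∈ M, 0 ≤ h ∧ ∀ x ∈ M, ψ x = f (x * h) := by
  set J : 𝔸 → ℝ := fun b => n2 f b ^ 2 - 2 * (ψ b).re with hJ
  let K : Set 𝔸 := {b | b ∈ M ∧ IsSelfAdjoint b ∧ ‖b‖ ≤ C + 1}
  have hJlow : ∀ b ∈ K, -(C ^ 2) ≤ J b := by
    rintro b ⟨hb, hbs, _⟩
    have h1 := (hM.dom_bound ψ C hψ hb hbs).1
    rw [abs_le] at h1
    have h2 := n2_nonneg (f := f) b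
    show -(C ^ 2) ≤ n2 f b ^ 2 - 2 * (ψ b).re
    nlinarith [sq_nonneg (n2 f b - C)]
  have h0K : (0 : 𝔸) ∈ K := ⟨zero_mem _, IsSelfAdjoint.zero _, by rw [norm_zero]; linarith⟩
  set I : ℝ := sInf (J '' K) with hI
  have hbdd : BddBelow (J '' K) := ⟨-(C ^ 2), by rintro _ ⟨b, hb, rfl⟩; exact hJlow b hb⟩
  have hIle : ∀ b ∈ K, I ≤ J b := fun b hb => csInf_le hbdd ⟨b, hb, rfl⟩
  have hseq : ∀ n : ℕ, ∃ b ∈ K, J b < I + 1 / ((n : ℝ) + 1) := by
    intro n
    have : sInf (J '' K) < I + 1 / ((n : ℝ) + 1) := by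
      have : (0 : ℝ) < 1 / ((n : ℝ) + 1) := by positivity
      linarith
    have hne : (J '' K).Nonempty := ⟨J 0, 0, h0K, rfl⟩
    obtain ⟨_, ⟨b, hb, rfl⟩, h⟩ := exists_lt_of_csInf_lt hne this
    exact ⟨b, hb, h⟩
  choose b hbK hbJ using hseq
  have hcau : ∀ m n, n2 f (b m - b n) ^ 2 ≤ 2 * (1 / ((m : ℝ) + 1) + 1 / ((n : ℝ) + 1)) := by
    intro m n
    obtain ⟨m1, m2, m3⟩ := hbK m
    obtain ⟨n1, n2', n3⟩ := hbK n
    set c : 𝔸 := (2 : ℝ)⁻¹ • (b m + b n) with hc
    have hcC : c = (((2 : ℝ)⁻¹ : ℝ) : ℂ) • (b m + b n) := by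
      rw [hc, ← Complex.coe_smul]
    have hcK : c ∈ K := by
      refine ⟨?_, ?_, ?_⟩
      · rw [hcC]; exact M.smul_mem (add_mem m1 n1) _
      · exact (IsSelfAdjoint.all (2 : ℝ)⁻¹).smul (m2.add n2')
      · rw [hc, norm_smul]
        have := norm_add_le (b m) (b n)
        rw [Real.norm_of_nonneg (by norm_num : (0 : ℝ) ≤ 2⁻¹)]
        linarith
    have h1 := hIle c hcK
    have h2 := hbJ m
    have h3 := hbJ n
    have h4 := n2_parallelogram (f := f) (b m) (b n)
    have h5 : n2 f c = 2⁻¹ * n2 f (b m + b n) := by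
      rw [hcC, n2_smul, Complex.norm_real]; norm_num
    have h6 : (ψ c).re = 2⁻¹ * ((ψ (b m)).re + (ψ (b n)).re) := by
      rw [hcC, map_smul, map_add, smul_eq_mul, Complex.re_ofReal_mul, Complex.add_re]
    have h7 : J c = (2⁻¹ * n2 f (b m + b n)) ^ 2 - 2 * (2⁻¹ * ((ψ (b m)).re + (ψ (b n)).re)) := by
      show n2 f c ^ 2 - 2 * (ψ c).re = _
      rw [h5, h6]
    have h8 : J (b m) = n2 f (b m) ^ 2 - 2 * (ψ (b m)).re := rfl
    have h9 : J (b n) = n2 f (b n) ^ 2 - 2 * (ψ (b n)).re := rfl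
    rw [h7] at h1
    rw [h8] at h2
    rw [h9] at h3
    nlinarith
  obtain ⟨h, hhM, hhn, hhT⟩ := hM.complete b (C + 1) (fun n => (hbK n).1) (fun n => (hbK n).2.2) (by
    intro ε hε
    obtain ⟨n₀, hn₀⟩ := eventually_atTop.1
      (tendsto_one_div_nat.eventually (gt_mem_nhds (show (0 : ℝ) < ε ^ 2 / 4 by positivity)))
    refine ⟨n₀, fun m hm n hn => ?_⟩
    have h1 := hcau m n
    have h2 := hn₀ m hm
    have h3 := hn₀ n hn
    have h4 : n2 f (b m - b n) ^ 2 ≤ ε ^ 2 := by linarith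
    exact (sq_le_sq₀ (n2_nonneg _) hε.le).1 h4)
  have hhT2 : T2 f atTop b h := hhT
  have hhs : IsSelfAdjoint h := hM.sa_of_T2 (fun n => (hbK n).1) hhM (fun n => (hbK n).2.1) hhT2
  have hhK : h ∈ K := ⟨hhM, hhs, hhn⟩
  have hJh : J h ≤ I := by
    have h1 : Tendsto (fun n => n2 f (b n) ^ 2 - 2 * (ψ (b n)).re) atTop
        (𝓝 (n2 f h ^ 2 - 2 * (ψ h).re)) := by
      apply Tendsto.sub
      · exact hhT2.tendsto_n2.pow 2
      · apply Tendsto.const_mul
        rw [tendsto_iff_dist_tendsto_zero]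
        have h2 : Tendsto (fun n => C * n2 f (b n - h)) atTop (𝓝 (C * 0)) :=
          Tendsto.const_mul C hhT
        rw [mul_zero] at h2
        refine squeeze_zero (fun n => dist_nonneg) (fun n => ?_) h2
        rw [Real.dist_eq, ← Complex.sub_re, ← map_sub]
        exact (hM.dom_bound ψ C hψ (sub_mem (hbK n).1 hhM) ((hbK n).2.1.sub hhs)).1
    have h2 : Tendsto (fun n : ℕ => I + 1 / ((n : ℝ) + 1)) atTop (𝓝 I) := by
      simpa using (tendsto_const_nhds (x := I)).add tendsto_one_div_nat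
    exact le_of_tendsto_of_tendsto' h1 h2 fun n => (hbJ n).le
  -- the clamp
  set cl : ℝ → ℝ := fun t => max 0 (min t C) with hcl
  have hclc : Continuous cl := by fun_prop
  set h' := cfc cl h with hh'
  have hh'M : h' ∈ M := hM.cfc_mem hhM _
  have hh'0 : 0 ≤ h' := cfc_nonneg fun t _ => le_max_left _ _
  have hh's : IsSelfAdjoint h' := IsSelfAdjoint.of_nonneg hh'0
  have hh'n : ‖h'‖ ≤ C := by
    apply norm_cfc_le hC
    intro t _
    rw [Real.norm_eq_abs, abs_of_nonneg (le_max_left _ _)]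
    exact max_le hC (min_le_right _ _)
  have hh'K : h' ∈ K := ⟨hh'M, hh's, by linarith⟩
  have hdiff : h = h' := by
    set P := cfc (fun t : ℝ => max (t - C) 0) h with hP
    set Q := cfc (fun t : ℝ => max (-t) 0) h with hQ
    have hPM : P ∈ M := hM.cfc_mem hhM _
    have hQM : Q ∈ M := hM.cfc_mem hhM _
    have hP0 : 0 ≤ P := cfc_nonneg fun t _ => le_max_right _ _
    have hQ0 : 0 ≤ Q := cfc_nonneg fun t _ => le_max_right _ _
    have e1 : h - h' = P - Q := by
      rw [hP, hQ, hh', ← cfc_sub (fun t : ℝ => max (t - C) 0) (fun t : ℝ => max (-t) 0) h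
        (by fun_prop) (by fun_prop)]
      conv_lhs => rw [show h - cfc cl h = cfc (fun t : ℝ => t) h - cfc cl h by rw [cfc_of_id hhs]]
      rw [← cfc_sub (fun t : ℝ => t) cl h (by fun_prop) (by fun_prop)]
      apply cfc_congr
      intro t _
      show t - max 0 (min t C) = max (t - C) 0 - max (-t) 0
      rcases le_total t 0 with h1 | h1
      · rw [min_eq_left (by linarith), max_eq_left h1, max_eq_right (by linarith),
          max_eq_left (by linarith)]; ring
      · rcases le_total t C with h2 | h2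
        · rw [min_eq_left h2, max_eq_right h1, max_eq_right (by linarith),
            max_eq_right (by linarith)]; ring
        · rw [min_eq_right h2, max_eq_right hC, max_eq_left (by linarith),
            max_eq_right (by linarith)]; ring
    have e2 : h' * (h - h') = (C : ℂ) • P := by
      have : (C : ℂ) • P = C • P := by rw [← Complex.coe_smul]
      rw [this, hP, hh']
      conv_lhs => rw [show h - cfc cl h = cfc (fun t : ℝ => t) h - cfc cl h by rw [cfc_of_id hhs]]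
      rw [← cfc_sub (fun t : ℝ => t) cl h (by fun_prop) (by fun_prop),
        ← cfc_mul cl (fun t => t - cl t) h (by fun_prop) (by fun_prop),
        ← cfc_const_mul C (fun t : ℝ => max (t - C) 0) h (by fun_prop)]
      apply cfc_congr
      intro t _
      show max 0 (min t C) * (t - max 0 (min t C)) = C * max (t - C) 0
      rcases le_total t 0 with h1 | h1
      · rw [min_eq_left (by linarith), max_eq_left h1, max_eq_right (by linarith)]; ring
      · rcases le_total t C with h2 | h2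
        · rw [min_eq_left h2, max_eq_right h1, max_eq_right (by linarith)]; ring
        · rw [min_eq_right h2, max_eq_right hC, max_eq_left (by linarith)]
    have e3 : n2 f h ^ 2 = n2 f h' ^ 2 + n2 f (h - h') ^ 2 + 2 * (C * (f P).re) := by
      have h1 := n2_add_sq (f := f) h' (h - h')
      rw [add_sub_cancel, hh's.star_eq, e2, map_smul, smul_eq_mul, Complex.re_ofReal_mul] at h1
      exact h1
    have e4 : (ψ h).re - (ψ h').re = (ψ P).re - (ψ Q).re := by
      rw [← Complex.sub_re, ← map_sub, e1, map_sub, Complex.sub_re]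
    have h1 : J h ≤ J h' := hJh.trans (hIle h' hh'K)
    have h2 : J h = n2 f h ^ 2 - 2 * (ψ h).re := rfl
    have h3 : J h' = n2 f h' ^ 2 - 2 * (ψ h').re := rfl
    obtain ⟨p1, p2, _⟩ := hψ P hPM hP0
    obtain ⟨q1, q2, _⟩ := hψ Q hQM hQ0
    have h4 : n2 f (h - h') ^ 2 ≤ 0 := by
      rw [h2, h3] at h1
      nlinarith
    have h5 : n2 f (h - h') = 0 := by
      have := sq_nonneg (n2 f (h - h'))
      exact pow_eq_zero_iff (two_ne_zero) |>.1 (le_antisymm h4 this)
    exact hM.eq_of_n2 hhM hh'M h5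
  have hhC : ‖h‖ ≤ C := by rw [hdiff]; exact hh'n
  have hh0 : 0 ≤ h := by rw [hdiff]; exact hh'0
  -- first order condition
  have hsa : ∀ x ∈ M, IsSelfAdjoint x → ψ x = f (x * h) := by
    intro x hx hxs
    have him := (hM.dom_bound ψ C hψ hx hxs).2
    have hfr : (f (x * h)).im = 0 := by
      have h1 : star (f (x * h)) = f (x * h) := by
        rw [← f_star, star_mul, hhs.star_eq, hxs.star_eq]
        exact hM.comm _ hhM _ hx
      have h2 := congrArg Complex.im h1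
      rw [RCLike.star_def, Complex.conj_im] at h2
      linarith
    set D : ℝ := (f (x * h)).re - (ψ x).re with hD
    have hquad : ∀ t : ℝ, |t| * ‖x‖ ≤ 1 → 0 ≤ t ^ 2 * n2 f x ^ 2 + 2 * t * D := by
      intro t ht
      have hK : h + (t : ℂ) • x ∈ K := by
        refine ⟨add_mem hhM (M.smul_mem hx _), ?_, ?_⟩
        · have : (t : ℂ) • x = t • x := by rw [← Complex.coe_smul]
          rw [this]
          exact hhs.add ((IsSelfAdjoint.all t).smul hxs)
        · refine (norm_add_le _ _).trans ?_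
          rw [norm_smul, Complex.norm_real, Real.norm_eq_abs]
          linarith
      have h1 : J h ≤ J (h + (t : ℂ) • x) := hJh.trans (hIle _ hK)
      have h2 : J (h + (t : ℂ) • x) = n2 f h ^ 2 + t ^ 2 * n2 f x ^ 2 +
          2 * (t * (f (x * h)).re) - 2 * ((ψ h).re + t * (ψ x).re) := by
        show n2 f (h + (t : ℂ) • x) ^ 2 - 2 * (ψ (h + (t : ℂ) • x)).re = _
        rw [n2_add_sq, n2_smul, Complex.norm_real, Real.norm_eq_abs, mul_pow, sq_abs, hhs.star_eq,
          mul_smul_comm, map_smul, smul_eq_mul, Complex.re_ofReal_mul, hM.comm _ hhM _ hx,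
          map_add, map_smul, smul_eq_mul, Complex.add_re, Complex.re_ofReal_mul]
      have h3 : J h = n2 f h ^ 2 - 2 * (ψ h).re := rfl
      rw [h2, h3] at h1
      rw [hD]
      linarith
    have hD0 : D = 0 := by
      by_contra hne
      set s : ℝ := n2 f x ^ 2 with hs
      have hs0 : 0 ≤ s := sq_nonneg _
      set N : ℝ := s + ‖x‖ * |D| + 1 with hN
      have hNpos : 0 < N := by
        have := norm_nonneg x
        have := abs_nonneg D
        positivity
      have h1 := hquad (-(D / N)) (by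
        rw [abs_neg, abs_div, abs_of_pos hNpos, div_mul_eq_mul_div, div_le_one hNpos]
        have := norm_nonneg x
        have := abs_nonneg D
        rw [hN]; nlinarith)
      have h2 : (-(D / N)) ^ 2 * s + 2 * (-(D / N)) * D = (D ^ 2 / N) * (s / N - 2) := by
        field_simp
        ring
      rw [h2] at h1
      have h3 : 0 < D ^ 2 / N := by positivity
      have h4 : s / N < 1 := by
        rw [div_lt_one hNpos]
        have := norm_nonneg x
        have := abs_nonneg D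
        rw [hN]; nlinarith [mul_nonneg (norm_nonneg x) (abs_nonneg D)]
      nlinarith
    apply Complex.ext
    · rw [hD] at hD0; linarith
    · rw [him, hfr]
  refine ⟨h, hhM, hh0, fun x hx => ?_⟩
  have e1 : x = (realPart x : 𝔸) + Complex.I • (imaginaryPart x : 𝔸) :=
    (realPart_add_I_smul_imaginaryPart x).symm
  have hre : (realPart x : 𝔸) ∈ M := by
    rw [realPart_apply_coe]
    have : ((2 : ℝ)⁻¹ • (x + star x) : 𝔸) = (((2 : ℝ)⁻¹ : ℝ) : ℂ) • (x + star x) := by
      rw [← Complex.coe_smul]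
    rw [this]
    exact M.smul_mem (add_mem hx (star_mem hx)) _
  have him : (imaginaryPart x : 𝔸) ∈ M := by
    rw [imaginaryPart_apply_coe]
    have : ((2 : ℝ)⁻¹ • (x - star x) : 𝔸) = (((2 : ℝ)⁻¹ : ℝ) : ℂ) • (x - star x) := by
      rw [← Complex.coe_smul]
    rw [this]
    exact M.smul_mem (M.smul_mem (sub_mem hx (star_mem hx)) _) _
  conv_lhs => rw [e1, map_add, map_smul]
  conv_rhs => rw [e1, add_mul, map_add, smul_mul_assoc, map_smul]
  rw [hsa _ hre (realPart x).2, hsa _ him (imaginaryPart x).2]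

end TrAlg

end Pool.Agent.Lib.MP_f5929e_an
end

section

/-!
Conditional expectations from central functionals.
-/

namespace Pool.Agent.Lib.MP_f5929e_an

set_option linter.unusedSectionVars false

open scoped ComplexOrder InnerProductSpace
open Filter Topology

variable {𝔸 : Type*} [CStarAlgebra 𝔸] [PartialOrder 𝔸] [StarOrderedRing 𝔸] {f : 𝔸 →ₚ[ℂ] ℂ}
  {M : StarSubalgebra ℂ 𝔸}

/-- conditional expectations -/
structure IsExp (M : StarSubalgebra ℂ 𝔸) (E : 𝔸 →ₗ[ℂ] 𝔸) : Prop where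
  mem : ∀ T, E T ∈ M
  id : ∀ a ∈ M, E a = a
  pos : ∀ T, 0 ≤ T → 0 ≤ E T
  left : ∀ a ∈ M, ∀ T, E (a * T) = a * E T
  right : ∀ a ∈ M, ∀ T, E (T * a) = E T * a

namespace TrAlg

theorem exists_density (hM : TrAlg f M) (φ : 𝔸 →ₚ[ℂ] ℂ) (h1 : ∀ x ∈ M, φ x = f x)
    {T : 𝔸} (h2 : ∀ a ∈ M, φ (a * (a * T)) = φ (a * T * a)) (hT : 0 ≤ T) :
    ∃ h ∈ M, 0 ≤ h ∧ ∀ x ∈ M, φ (x * T) = f (x * h) := by
  refine hM.radon (φ.toLinearMap.comp (LinearMap.mulRight ℂ T)) ‖T‖ (norm_nonneg _) ?_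
  intro b hb hb0
  set r := cfc Real.sqrt b with hr
  have hrM : r ∈ M := hM.cfc_mem hb _
  have hrs : star r = r := (cfc_sa _ _).star_eq
  have hrr : r * r = b := cfc_mul_self_eq hb0
  have e1 : φ (b * T) = φ (r * T * r) := by
    rw [← hrr, mul_assoc r r T, h2 r hrM]
  have hle0 : 0 ≤ r * T * r := by
    have := star_right_conjugate_nonneg hT r
    rwa [hrs] at this
  have hle1 : r * T * r ≤ ‖T‖ • b := by
    have h3 : T ≤ algebraMap ℝ 𝔸 ‖T‖ := IsSelfAdjoint.le_algebraMap_norm_self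
      (IsSelfAdjoint.of_nonneg hT)
    have := star_right_conjugate_le_conjugate h3 r
    rw [hrs] at this
    refine this.trans_eq ?_
    rw [Algebra.algebraMap_eq_smul_one, mul_smul_comm, smul_mul_assoc, mul_one, hrr]
  have h4 : 0 ≤ φ (b * T) := by rw [e1]; exact f_nonneg hle0
  have h5 : (φ (b * T)).re ≤ ‖T‖ * (f b).re := by
    rw [e1]
    refine (f_re_mono hle1).trans_eq ?_
    rw [← Complex.coe_smul, map_smul, smul_eq_mul, Complex.re_ofReal_mul, h1 b hb]
  show 0 ≤ (φ (b * T)).re ∧ (φ (b * T)).re ≤ ‖T‖ * (f b).re ∧ (φ (b * T)).im = 0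
  rw [Complex.le_def] at h4
  exact ⟨h4.1, h5, h4.2.symm⟩

theorem eq_of_f_mul (hM : TrAlg f M) {h h' : 𝔸} (hh : h ∈ M) (hh' : h' ∈ M)
    (h1 : ∀ x ∈ M, f (x * h) = f (x * h')) : h = h' := by
  apply hM.eq_of_n2 hh hh'
  have h2 : n2 f (h - h') ^ 2 = 0 := by
    rw [n2_sq_re, mul_sub, map_sub, h1 _ (star_mem (sub_mem hh hh')), sub_self, Complex.zero_re]
  exact pow_eq_zero_iff (two_ne_zero) |>.1 h2

theorem exists_exp (hM : TrAlg f M) (φ : 𝔸 →ₚ[ℂ] ℂ) (h1 : ∀ x ∈ M, φ x = f x)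
    (h2 : ∀ a ∈ M, ∀ T, φ (a * T) = φ (T * a)) : ∃ E : 𝔸 →ₗ[ℂ] 𝔸, IsExp M E := by
  have hex : ∀ T : 𝔸, ∃ h ∈ M, ∀ x ∈ M, φ (x * T) = f (x * h) := by
    intro T
    have hT : T ∈ Submodule.span ℂ {a : 𝔸 | 0 ≤ a} := by
      rw [CStarAlgebra.span_nonneg]; trivial
    induction hT using Submodule.span_induction with
    | mem T hT =>
      obtain ⟨h, hh, _, hx⟩ := hM.exists_density φ h1 (fun a ha => h2 a ha _) hT
      exact ⟨h, hh, hx⟩
    | zero => exact ⟨0, zero_mem _, fun x _ => by rw [mul_zero, map_zero, map_zero]⟩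
    | add S T _ _ hS hT =>
      obtain ⟨h, hh, hx⟩ := hS
      obtain ⟨k, hk, hy⟩ := hT
      exact ⟨h + k, add_mem hh hk, fun x hxM => by
        rw [mul_add, mul_add, map_add, map_add, hx x hxM, hy x hxM]⟩
    | smul c T _ hT =>
      obtain ⟨h, hh, hx⟩ := hT
      exact ⟨c • h, M.smul_mem hh c, fun x hxM => by
        rw [mul_smul_comm, mul_smul_comm, map_smul, map_smul, hx x hxM]⟩
  choose E hEM hE using hex
  have huniq : ∀ T, ∀ h ∈ M, (∀ x ∈ M, φ (x * T) = f (x * h)) → E T = h := by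
    intro T h hh hx
    apply hM.eq_of_f_mul (hEM T) hh
    intro x hxM
    rw [← hE T x hxM, hx x hxM]
  refine ⟨{ toFun := E, map_add' := ?_, map_smul' := ?_ }, ?_, ?_, ?_, ?_, ?_⟩
  · intro S T
    apply huniq _ _ (add_mem (hEM S) (hEM T))
    intro x hx
    rw [mul_add, mul_add, map_add, map_add, hE S x hx, hE T x hx]
  · intro c T
    apply huniq _ _ (M.smul_mem (hEM T) c)
    intro x hx
    show φ (x * c • T) = f (x * c • E T)
    rw [mul_smul_comm, mul_smul_comm, map_smul, map_smul, hE T x hx]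
  · intro T; exact hEM T
  · intro a ha
    apply huniq a a ha
    intro x hx
    exact h1 _ (mul_mem hx ha)
  · intro T hT
    obtain ⟨h, hh, hh0, hx⟩ := hM.exists_density φ h1 (fun a ha => h2 a ha _) hT
    show 0 ≤ E T
    rw [huniq T h hh hx]
    exact hh0
  · intro a ha T
    apply huniq _ _ (mul_mem ha (hEM T))
    intro x hx
    rw [← mul_assoc, ← mul_assoc]
    exact hE T _ (mul_mem hx ha)
  · intro a ha T
    apply huniq _ _ (mul_mem (hEM T) ha)
    intro x hx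
    rw [← mul_assoc, ← h2 a ha (x * T), ← mul_assoc, hE T _ (mul_mem ha hx), mul_assoc a x,
      hM.comm a ha _ (mul_mem hx (hEM T)), mul_assoc]

end TrAlg

end Pool.Agent.Lib.MP_f5929e_an
end

section

/-!
Orthogonal families of bounded vectors.
-/

namespace Pool.Agent.Lib.MP_f5929e_an

set_option linter.unusedSectionVars false

open scoped ComplexOrder InnerProductSpace
open Filter Topology

variable {H : Type*} [NormedAddCommGroup H] [InnerProductSpace ℂ H] [CompleteSpace H]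

theorem inner_star (d : H →L[ℂ] H) (x y : H) : ⟪star d x, y⟫_ℂ = ⟪x, d y⟫_ℂ := by
  rw [ContinuousLinearMap.star_eq_adjoint, ContinuousLinearMap.adjoint_inner_left]

theorem inner_star' (d : H →L[ℂ] H) (x y : H) : ⟪x, star d y⟫_ℂ = ⟪d x, y⟫_ℂ := by
  rw [ContinuousLinearMap.star_eq_adjoint, ContinuousLinearMap.adjoint_inner_right]

theorem starProj_comm (K : Submodule ℂ H) [K.HasOrthogonalProjection] (d : H →L[ℂ] H)
    (h1 : ∀ k ∈ K, d k ∈ K) (h2 : ∀ k ∈ K, star d k ∈ K) (v : H) :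
    K.starProjection (d v) = d (K.starProjection v) := by
  apply Submodule.eq_starProjection_of_mem_orthogonal (h1 _ (K.starProjection_apply_mem v))
  rw [← map_sub, Submodule.mem_orthogonal]
  intro k hk
  rw [← inner_star]
  exact (Submodule.mem_orthogonal _ _).1 (K.sub_starProjection_mem_orthogonal v) _ (h2 k hk)

/-- vectors whose vector functionals are dominated by the trace -/
def Bd (θ : (H →L[ℂ] H) →ₚ[ℂ] ℂ) (D : StarSubalgebra ℂ (H →L[ℂ] H)) (ζ : H) : Prop :=
  ∃ C : ℝ, ∀ d ∈ D, ‖d ζ‖ ^ 2 ≤ C * (θ (star d * d)).re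

/-- orthogonal families of bounded vectors -/
structure Fam (θ : (H →L[ℂ] H) →ₚ[ℂ] ℂ) (D : StarSubalgebra ℂ (H →L[ℂ] H)) (S : Set H) :
    Prop where
  bd : ∀ ζ ∈ S, Bd θ D ζ
  orth : ∀ ζ ∈ S, ∀ ζ' ∈ S, ζ ≠ ζ' → ∀ d ∈ D, ⟪ζ, d ζ'⟫_ℂ = 0
  ne : (0 : H) ∉ S

theorem exists_fam (θ : (H →L[ℂ] H) →ₚ[ℂ] ℂ) (D : StarSubalgebra ℂ (H →L[ℂ] H))
    (hdens : ∀ η : H, (∀ b, Bd θ D b → ⟪b, η⟫_ℂ = 0) → η = 0) :
    ∃ S, Fam θ D S ∧ ∀ η, (∀ ζ ∈ S, ∀ d ∈ D, ⟪d ζ, η⟫_ℂ = 0) → η = 0 := by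
  obtain ⟨S, hS⟩ := zorn_subset {S : Set H | Fam θ D S} (by
    intro c hc hchain
    refine ⟨⋃₀ c, ⟨?_, ?_, ?_⟩, fun s hs => Set.subset_sUnion_of_mem hs⟩
    · rintro ζ ⟨s, hs, hζ⟩
      exact (hc hs).bd ζ hζ
    · rintro ζ ⟨s, hs, hζ⟩ ζ' ⟨s', hs', hζ'⟩ hne d hd
      rcases hchain.total hs hs' with h | h
      · exact (hc hs').orth ζ (h hζ) ζ' hζ' hne d hd
      · exact (hc hs).orth ζ hζ ζ' (h hζ') hne d hd
    · rintro ⟨s, hs, h0⟩
      exact (hc hs).ne h0)
  have hF : Fam θ D S := hS.prop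
  refine ⟨S, hF, fun η hη => ?_⟩
  by_contra hη0
  set L : Submodule ℂ H := Submodule.span ℂ {v | ∃ ζ ∈ S, ∃ d ∈ D, d ζ = v} with hL
  have hηK : η ∈ Lᗮ := by
    rw [Submodule.mem_orthogonal]
    intro u hu
    rw [hL] at hu
    induction hu using Submodule.span_induction with
    | mem x hx => obtain ⟨ζ, hζ, d, hd, rfl⟩ := hx; exact hη ζ hζ d hd
    | zero => exact inner_zero_left _
    | add x y _ _ hx hy => rw [inner_add_left, hx, hy, add_zero]
    | smul c x _ hx => rw [inner_smul_left, hx, mul_zero]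
  have hinv : ∀ d ∈ D, ∀ k ∈ Lᗮ, d k ∈ Lᗮ := by
    intro d hd k hk
    rw [Submodule.mem_orthogonal] at hk ⊢
    intro u hu
    rw [hL] at hu
    induction hu using Submodule.span_induction with
    | mem x hx =>
      obtain ⟨ζ, hζ, e, he, rfl⟩ := hx
      rw [← inner_star]
      apply hk
      rw [hL]
      exact Submodule.subset_span ⟨ζ, hζ, star d * e, mul_mem (star_mem hd) he, rfl⟩
    | zero => exact inner_zero_left _
    | add x y _ _ hx hy => rw [inner_add_left, hx, hy, add_zero]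
    | smul c x _ hx => rw [inner_smul_left, hx, mul_zero]
  have hcomm : ∀ d ∈ D, ∀ v, Lᗮ.starProjection (d v) = d (Lᗮ.starProjection v) :=
    fun d hd v => starProj_comm _ d (hinv d hd) (hinv _ (star_mem hd)) v
  obtain ⟨b, hb, hbη⟩ : ∃ b, Bd θ D b ∧ ⟪b, η⟫_ℂ ≠ 0 := by
    by_contra hcon
    push Not at hcon
    exact hη0 (hdens η hcon)
  set p := Lᗮ.starProjection b with hp
  have hpK : p ∈ Lᗮ := Submodule.starProjection_apply_mem _ _
  have hpη : ⟪p, η⟫_ℂ ≠ 0 := by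
    rw [hp, Submodule.inner_starProjection_left_eq_right,
      Submodule.starProjection_eq_self_iff.2 hηK]
    exact hbη
  have hp0 : p ≠ 0 := by
    intro h0
    rw [h0, inner_zero_left] at hpη
    exact hpη rfl
  have hpS : p ∉ S := by
    intro h
    have h1 : p ∈ L := by
      rw [hL]
      exact Submodule.subset_span ⟨p, h, 1, one_mem _, rfl⟩
    have h2 := (Submodule.mem_orthogonal _ _).1 hpK p h1
    exact hp0 (inner_self_eq_zero.1 h2)
  have hpo : ∀ ζ ∈ S, ∀ d ∈ D, ⟪ζ, d p⟫_ℂ = 0 := by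
    intro ζ hζ d hd
    have h1 : ζ ∈ L := by
      rw [hL]
      exact Submodule.subset_span ⟨ζ, hζ, 1, one_mem _, rfl⟩
    exact (Submodule.mem_orthogonal _ _).1 (hinv d hd p hpK) ζ h1
  have hins : Fam θ D (insert p S) := by
    refine ⟨?_, ?_, ?_⟩
    · intro ζ hζ
      rcases hζ with rfl | hζ
      · obtain ⟨C, hC⟩ := hb
        refine ⟨C, fun d hd => ?_⟩
        refine le_trans ?_ (hC d hd)
        rw [hp, ← hcomm d hd]
        exact pow_le_pow_left₀ (norm_nonneg _) (Submodule.norm_starProjection_apply_le _ _) 2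
      · exact hF.bd ζ hζ
    · intro ζ hζ ζ' hζ' hne d hd
      rcases hζ with rfl | hζ
      · rcases hζ' with rfl | hζ'
        · exact absurd rfl hne
        · rw [← inner_star, ← inner_conj_symm, hpo ζ' hζ' _ (star_mem hd), map_zero]
      · rcases hζ' with rfl | hζ'
        · exact hpo ζ hζ d hd
        · exact hF.orth ζ hζ ζ' hζ' hne d hd
    · rintro (h0 | h0)
      · exact hp0 h0.symm
      · exact hF.ne h0
  have h1 := hS.eq_of_subset hins (Set.subset_insert p S)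
  exact hpS (h1 ▸ Set.mem_insert p S)

end Pool.Agent.Lib.MP_f5929e_an
end

section

/-!
Central functionals from conditional expectations.
-/

namespace Pool.Agent.Lib.MP_f5929e_an

set_option linter.unusedSectionVars false

open scoped ComplexOrder InnerProductSpace
open Filter Topology

section Gns

variable {𝔸 : Type*} [CStarAlgebra 𝔸] [PartialOrder 𝔸] [StarOrderedRing 𝔸] (θ : 𝔸 →ₚ[ℂ] ℂ)

/-- the canonical map to the GNS space -/
noncomputable def emb : 𝔸 →ₗ[ℂ] θ.GNS where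
  toFun x := ((θ.toPreGNS x : θ.PreGNS) : θ.GNS)
  map_add' x y := by rw [map_add, UniformSpace.Completion.coe_add]
  map_smul' c x := by
    rw [map_smul, UniformSpace.Completion.coe_smul]; rfl

theorem norm_emb (x : 𝔸) : ‖emb θ x‖ = n2 θ x := UniformSpace.Completion.norm_coe _

theorem inner_emb (x y : 𝔸) : ⟪emb θ x, emb θ y⟫_ℂ = θ (star x * y) := by
  show ⟪((θ.toPreGNS x : θ.PreGNS) : θ.GNS), ((θ.toPreGNS y : θ.PreGNS) : θ.GNS)⟫_ℂ = _
  rw [UniformSpace.Completion.inner_coe, PositiveLinearMap.preGNS_inner_def]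
  simp only [PositiveLinearMap.ofPreGNS_toPreGNS]

theorem gns_emb (T x : 𝔸) : θ.gnsStarAlgHom T (emb θ x) = emb θ (T * x) := by
  show θ.gnsNonUnitalStarAlgHom T ((θ.toPreGNS x : θ.PreGNS) : θ.GNS) =
    ((θ.toPreGNS (T * x) : θ.PreGNS) : θ.GNS)
  rw [PositiveLinearMap.gnsNonUnitalStarAlgHom_apply_coe]
  rfl

theorem norm_gns_le (T : 𝔸) : ‖θ.gnsStarAlgHom T‖ ≤ ‖T‖ :=
  NonUnitalStarAlgHom.norm_apply_le (θ.gnsStarAlgHom : 𝔸 →⋆ₐ[ℂ] (θ.GNS →L[ℂ] θ.GNS)) T

end Gns

variable {H : Type*} [NormedAddCommGroup H] [InnerProductSpace ℂ H] [CompleteSpace H]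

theorem bessel {ι : Type*} (F : Finset ι) (p : ι → H) (η : H)
    (horth : ∀ i ∈ F, ∀ j ∈ F, i ≠ j → ⟪p i, p j⟫_ℂ = 0)
    (h : ∀ i ∈ F, (⟪p i, η⟫_ℂ).re = ‖p i‖ ^ 2) : ∑ i ∈ F, ‖p i‖ ^ 2 ≤ ‖η‖ ^ 2 := by
  classical
  set s : ℝ := ∑ i ∈ F, ‖p i‖ ^ 2 with hs
  have hs0 : 0 ≤ s := Finset.sum_nonneg fun i _ => sq_nonneg _
  have h1 : ‖∑ i ∈ F, p i‖ ^ 2 = s := by
    have h2 : (⟪∑ i ∈ F, p i, ∑ i ∈ F, p i⟫_ℂ).re = s := by
      rw [sum_inner, Complex.re_sum, hs]
      apply Finset.sum_congr rfl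
      intro i hi
      rw [inner_sum, Finset.sum_eq_single i]
      · exact inner_self_eq_norm_sq (𝕜 := ℂ) (p i)
      · intro j hj hji
        exact horth i hi j hj hji.symm
      · intro h; exact absurd hi h
    rw [← h2]
    exact (inner_self_eq_norm_sq (𝕜 := ℂ) (∑ i ∈ F, p i)).symm
  have h3 : s ≤ ‖∑ i ∈ F, p i‖ * ‖η‖ := by
    have h4 : (⟪∑ i ∈ F, p i, η⟫_ℂ).re = s := by
      rw [sum_inner, Complex.re_sum, hs]
      exact Finset.sum_congr rfl h
    rw [← h4]
    exact (Complex.re_le_norm _).trans (norm_inner_le_norm _ _)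
  have h5 := norm_nonneg (∑ i ∈ F, p i)
  have h6 := norm_nonneg η
  nlinarith [sq_nonneg (‖∑ i ∈ F, p i‖ - ‖η‖)]

theorem op_ext {A B : H →L[ℂ] H} (h : ∀ η η', ⟪η, A η'⟫_ℂ = ⟪η, B η'⟫_ℂ) : A = B := by
  ext η'
  exact ext_inner_left ℂ fun η => h η η'

/-- the maps `w` -/
theorem exists_w {θ : (H →L[ℂ] H) →ₚ[ℂ] ℂ} {D : StarSubalgebra ℂ (H →L[ℂ] H)}
    (hD : TrAlg θ D) {ζ : H} (hζ : Bd θ D ζ) :
    ∃ (s : H →L[ℂ] H) (w : H →L[ℂ] θ.GNS), s ∈ D ∧ star s = s ∧
      (∀ d ∈ D, ⟪ζ, d ζ⟫_ℂ = θ (s * d * s)) ∧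
      (∀ d ∈ D, w (d ζ) = emb θ (d * s)) ∧
      (∀ q, (∀ d ∈ D, ⟪d ζ, q⟫_ℂ = 0) → w q = 0) ∧ (∀ v, ‖w v‖ ≤ ‖v‖) ∧
      ∀ d ∈ D, ∀ v, w (d v) = θ.gnsStarAlgHom d (w v) := by
  obtain ⟨C, hC⟩ := hζ
  have hC' : ∀ d ∈ D, ‖d ζ‖ ^ 2 ≤ max C 0 * (θ (star d * d)).re := by
    intro d hd
    refine (hC d hd).trans (mul_le_mul_of_nonneg_right (le_max_left _ _) ?_)
    rw [← n2_sq_re]; exact sq_nonneg _
  obtain ⟨h, hh, hh0, hψ⟩ := hD.radon
    { toFun := fun d => ⟪ζ, d ζ⟫_ℂ
      map_add' := fun a b => by rw [_root_.add_apply, inner_add_right]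
      map_smul' := fun c a => by
        rw [_root_.smul_apply, inner_smul_right]; rfl } (max C 0) (le_max_right _ _) (by
      intro b hb hb0
      set r := cfc Real.sqrt b with hr
      have hrM : r ∈ D := hD.cfc_mem hb _
      have hrs : star r = r := (cfc_sa _ _).star_eq
      have hrr : r * r = b := cfc_mul_self_eq hb0
      have e1 : ⟪ζ, b ζ⟫_ℂ = ((‖r ζ‖ ^ 2 : ℝ) : ℂ) := by
        rw [← hrr]
        show ⟪ζ, r (r ζ)⟫_ℂ = _
        rw [← inner_star, hrs, inner_self_eq_norm_sq_to_K]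
        push_cast; rfl
      have e2 := hC' r hrM
      rw [hrs, hrr] at e2
      show 0 ≤ (⟪ζ, b ζ⟫_ℂ).re ∧ (⟪ζ, b ζ⟫_ℂ).re ≤ max C 0 * (θ b).re ∧ (⟪ζ, b ζ⟫_ℂ).im = 0
      rw [e1, Complex.ofReal_re, Complex.ofReal_im]
      exact ⟨sq_nonneg _, e2, rfl⟩)
  set s := cfc Real.sqrt h with hs
  have hsM : s ∈ D := hD.cfc_mem hh _
  have hss : star s = s := (cfc_sa _ _).star_eq
  have hsq : s * s = h := cfc_mul_self_eq hh0
  have hζs : ∀ d ∈ D, ⟪ζ, d ζ⟫_ℂ = θ (s * d * s) := by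
    intro d hd
    have h1 : ⟪ζ, d ζ⟫_ℂ = θ (d * h) := hψ d hd
    rw [h1, ← hsq, ← mul_assoc, hD.comm _ (mul_mem hd hsM) _ hsM, mul_assoc]
  let α : D →ₗ[ℂ] H :=
    { toFun := fun d => (d : H →L[ℂ] H) ζ
      map_add' := fun a b => by
        show ((a : H →L[ℂ] H) + (b : H →L[ℂ] H)) ζ = _
        rw [_root_.add_apply]
      map_smul' := fun c a => by
        show (c • (a : H →L[ℂ] H)) ζ = _
        rw [_root_.smul_apply]; rfl }
  let β : D →ₗ[ℂ] θ.GNS :=
    { toFun := fun d => emb θ ((d : H →L[ℂ] H) * s)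
      map_add' := fun a b => by
        show emb θ (((a : H →L[ℂ] H) + (b : H →L[ℂ] H)) * s) = _
        rw [add_mul, map_add]
      map_smul' := fun c a => by
        show emb θ ((c • (a : H →L[ℂ] H)) * s) = _
        rw [smul_mul_assoc, map_smul]; rfl }
  have hnorm : ∀ d : D, ‖β d‖ = ‖α d‖ := by
    intro d
    have h1 : ‖β d‖ ^ 2 = ‖α d‖ ^ 2 := by
      show ‖emb θ ((d : H →L[ℂ] H) * s)‖ ^ 2 = ‖(d : H →L[ℂ] H) ζ‖ ^ 2
      rw [norm_emb, n2_sq_re, star_mul, hss]
      have e1 : s * star (d : H →L[ℂ] H) * ((d : H →L[ℂ] H) * s) =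
          s * (star (d : H →L[ℂ] H) * (d : H →L[ℂ] H)) * s := by noncomm_ring
      rw [e1, ← hζs _ (mul_mem (star_mem d.2) d.2)]
      show (⟪ζ, star (d : H →L[ℂ] H) ((d : H →L[ℂ] H) ζ)⟫_ℂ).re = _
      rw [inner_star']
      exact inner_self_eq_norm_sq (𝕜 := ℂ) _
    exact (sq_eq_sq₀ (norm_nonneg _) (norm_nonneg _)).1 h1
  obtain ⟨w, hw1, hw2, hw3⟩ := exists_partial α β hnorm
  refine ⟨s, w, hsM, hss, hζs, fun d hd => hw1 ⟨d, hd⟩, fun q hq => hw2 q fun x => hq x x.2, hw3,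
    ?_⟩
  intro d hd v
  obtain ⟨p, q, rfl, hp, hq, _⟩ := exists_decomp α v
  have h1 : w (d q) = 0 := by
    apply hw2
    intro x
    show ⟪(x : H →L[ℂ] H) ζ, d q⟫_ℂ = 0
    rw [← inner_star]
    exact hq ⟨star d * x, mul_mem (star_mem hd) x.2⟩
  have h2 : closure (Set.range α) ⊆ {v | w (d v) = θ.gnsStarAlgHom d (w v)} := by
    apply closure_minimal
    · rintro _ ⟨x, rfl⟩
      show w (d (α x)) = θ.gnsStarAlgHom d (w (α x))
      have e1 : d (α x) = α ⟨d * x, mul_mem hd x.2⟩ := rfl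
      rw [e1, hw1, hw1]
      show emb θ (d * (x : H →L[ℂ] H) * s) = θ.gnsStarAlgHom d (emb θ ((x : H →L[ℂ] H) * s))
      rw [gns_emb, mul_assoc]
    · exact isClosed_eq (by fun_prop) (by fun_prop)
  have h3 : w (d p) = θ.gnsStarAlgHom d (w p) := h2 hp
  rw [map_add, map_add, map_add, map_add, h1, h3, hw2 q hq, map_zero]

/-- trace preserving conditional expectations, elementwise -/
theorem exists_ED {θ : (H →L[ℂ] H) →ₚ[ℂ] ℂ} {N D : StarSubalgebra ℂ (H →L[ℂ] H)}
    (hN : TrAlg θ N) (hD : TrAlg θ D) (hle : D ≤ N) {x : H →L[ℂ] H} (hx : x ∈ N) :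
    ∃ e ∈ D, ∀ d ∈ D, θ (d * x) = θ (d * e) := by
  have hpos : ∀ x ∈ N, 0 ≤ x → ∃ e ∈ D, ∀ d ∈ D, θ (d * x) = θ (d * e) := by
    intro x hx hx0
    obtain ⟨e, he, _, h⟩ := hD.exists_density θ (fun _ _ => rfl) (T := x) (fun a ha =>
      hN.comm a (hle ha) _ (mul_mem (hle ha) hx)) hx0
    exact ⟨e, he, h⟩
  have hsa : ∀ x ∈ N, IsSelfAdjoint x → ∃ e ∈ D, ∀ d ∈ D, θ (d * x) = θ (d * e) := by
    intro x hx hxs
    obtain ⟨h1, h2, h3⟩ := abs_parts hxs
    obtain ⟨e1, he1, g1⟩ := hpos _ (hN.cfc_mem hx _) h1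
    obtain ⟨e2, he2, g2⟩ := hpos _ (hN.cfc_mem hx _) h2
    refine ⟨e1 - e2, sub_mem he1 he2, fun d hd => ?_⟩
    conv_lhs => rw [h3]
    rw [mul_sub, mul_sub, map_sub, map_sub, g1 d hd, g2 d hd]
  have e1 : x = (realPart x : H →L[ℂ] H) + Complex.I • (imaginaryPart x : H →L[ℂ] H) :=
    (realPart_add_I_smul_imaginaryPart x).symm
  have hre : (realPart x : H →L[ℂ] H) ∈ N := by
    rw [realPart_apply_coe]
    have : ((2 : ℝ)⁻¹ • (x + star x) : H →L[ℂ] H) = (((2 : ℝ)⁻¹ : ℝ) : ℂ) • (x + star x) := by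
      rw [← Complex.coe_smul]
    rw [this]
    exact N.smul_mem (add_mem hx (star_mem hx)) _
  have him : (imaginaryPart x : H →L[ℂ] H) ∈ N := by
    rw [imaginaryPart_apply_coe]
    have : ((2 : ℝ)⁻¹ • (x - star x) : H →L[ℂ] H) = (((2 : ℝ)⁻¹ : ℝ) : ℂ) • (x - star x) := by
      rw [← Complex.coe_smul]
    rw [this]
    exact N.smul_mem (N.smul_mem (sub_mem hx (star_mem hx)) _) _
  obtain ⟨a, ha, ga⟩ := hsa _ hre (realPart x).2
  obtain ⟨b, hb, gb⟩ := hsa _ him (imaginaryPart x).2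
  refine ⟨a + Complex.I • b, add_mem ha (D.smul_mem hb _), fun d hd => ?_⟩
  conv_lhs => rw [e1, mul_add, map_add, mul_smul_comm, map_smul]
  rw [mul_add, map_add, mul_smul_comm, map_smul, ga d hd, gb d hd]

end Pool.Agent.Lib.MP_f5929e_an
end

section

/-!
Central functionals from conditional expectations (continued).
-/

namespace Pool.Agent.Lib.MP_f5929e_an

set_option linter.unusedSectionVars false

open scoped ComplexOrder InnerProductSpace
open Filter Topology

variable {H : Type*} [NormedAddCommGroup H] [InnerProductSpace ℂ H] [CompleteSpace H]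

theorem exists_central_of_exp {θ : (H →L[ℂ] H) →ₚ[ℂ] ℂ} {N D : StarSubalgebra ℂ (H →L[ℂ] H)}
    (hN : TrAlg θ N) (hD : TrAlg θ D) (hle : D ≤ N)
    (hdens : ∀ η : H, (∀ b, Bd θ D b → ⟪b, η⟫_ℂ = 0) → η = 0)
    {E : (H →L[ℂ] H) →ₗ[ℂ] (H →L[ℂ] H)} (hE : IsExp D E) :
    ∃ φ : (H →L[ℂ] H) →ₚ[ℂ] ℂ, (∀ x ∈ N, φ x = θ x) ∧
      ∀ d ∈ D, ∀ T, φ (d * T) = φ (T * d) := by
  classical
  obtain ⟨S, hS, htot⟩ := exists_fam θ D hdens
  choose s w hsD hss hζs hw1 hw2 hw3 hw4 using fun ζ : S => exists_w hD (hS.bd ζ.1 ζ.2)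
  set π := θ.gnsStarAlgHom with hπ
  -- Bessel
  have hbes : ∀ (F : Finset S) (η : H), ∑ ζ ∈ F, ‖w ζ η‖ ^ 2 ≤ ‖η‖ ^ 2 := by
    intro F η
    let α : ∀ ζ : S, D →ₗ[ℂ] H := fun ζ =>
      { toFun := fun d => (d : H →L[ℂ] H) ζ
        map_add' := fun a b => by
          show ((a : H →L[ℂ] H) + (b : H →L[ℂ] H)) (ζ : H) = _
          rw [_root_.add_apply]
        map_smul' := fun c a => by
          show (c • (a : H →L[ℂ] H)) (ζ : H) = _
          rw [_root_.smul_apply]; rfl }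
    choose p q hpq hp hq _ using fun ζ : S => exists_decomp (α ζ) η
    have hpq0 : ∀ ζ : S, ∀ u ∈ closure (Set.range (α ζ)), ⟪u, q ζ⟫_ℂ = 0 := by
      intro ζ u hu
      have h4 : closure (Set.range (α ζ)) ⊆ {u | ⟪u, q ζ⟫_ℂ = 0} := by
        apply closure_minimal
        · rintro _ ⟨x, rfl⟩; exact hq ζ x
        · exact isClosed_eq (by fun_prop) continuous_const
      exact h4 hu
    have horth : ∀ ζ ζ' : S, ζ ≠ ζ' → ⟪p ζ, p ζ'⟫_ℂ = 0 := by
      intro ζ ζ' hne
      have h1 : ∀ a b : D, ⟪α ζ a, α ζ' b⟫_ℂ = 0 := by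
        intro a b
        show ⟪(a : H →L[ℂ] H) (ζ : H), (b : H →L[ℂ] H) (ζ' : H)⟫_ℂ = 0
        rw [← inner_star']
        exact hS.orth ζ.1 ζ.2 ζ'.1 ζ'.2 (fun h => hne (Subtype.ext h)) (star (a : H →L[ℂ] H) * b)
          (mul_mem (star_mem a.2) b.2)
      have h2 : closure (Set.range (α ζ')) ⊆ {v | ∀ a : D, ⟪α ζ a, v⟫_ℂ = 0} := by
        apply closure_minimal
        · rintro _ ⟨b, rfl⟩ a; exact h1 a b
        · have : {v | ∀ a : D, ⟪α ζ a, v⟫_ℂ = 0} = ⋂ a : D, {v | ⟪α ζ a, v⟫_ℂ = 0} := by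
            ext v; simp
          rw [this]
          exact isClosed_iInter fun a => isClosed_eq (by fun_prop) continuous_const
      have h3 : closure (Set.range (α ζ)) ⊆ {u | ⟪u, p ζ'⟫_ℂ = 0} := by
        apply closure_minimal
        · rintro _ ⟨a, rfl⟩; exact h2 (hp ζ') a
        · exact isClosed_eq (by fun_prop) continuous_const
      exact h3 (hp ζ)
    have h5 : ∀ ζ : S, ‖w ζ η‖ ≤ ‖p ζ‖ := by
      intro ζ
      have h6 : w ζ η = w ζ (p ζ) := by
        conv_lhs => rw [hpq ζ, map_add, hw2 ζ (q ζ) (fun d hd => hq ζ ⟨d, hd⟩), add_zero]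
      rw [h6]
      exact hw3 ζ _
    calc ∑ ζ ∈ F, ‖w ζ η‖ ^ 2 ≤ ∑ ζ ∈ F, ‖p ζ‖ ^ 2 :=
          Finset.sum_le_sum fun ζ _ => pow_le_pow_left₀ (norm_nonneg _) (h5 ζ) 2
      _ ≤ ‖η‖ ^ 2 := bessel F p η (fun i _ j _ hij => horth i j hij) (fun i _ => by
          have : ⟪p i, η⟫_ℂ = ⟪p i, p i⟫_ℂ := by
            conv_lhs => rw [hpq i, inner_add_right, hpq0 i _ (hp i), add_zero]
          rw [this]
          exact inner_self_eq_norm_sq (𝕜 := ℂ) _)
  -- finite approximations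
  set X : (H →L[ℂ] H) → Finset S → (H →L[ℂ] H) := fun T F =>
    ∑ ζ ∈ F, (ContinuousLinearMap.adjoint (w ζ)).comp ((π T).comp (w ζ)) with hX
  have hXi : ∀ T F η η', ⟪η, X T F η'⟫_ℂ = ∑ ζ ∈ F, ⟪w ζ η, π T (w ζ η')⟫_ℂ := by
    intro T F η η'
    show ⟪η, (∑ ζ ∈ F, (ContinuousLinearMap.adjoint (w ζ)).comp ((π T).comp (w ζ))) η'⟫_ℂ = _
    rw [_root_.sum_apply, inner_sum]
    apply Finset.sum_congr rfl
    intro ζ _
    show ⟪η, ContinuousLinearMap.adjoint (w ζ) (π T (w ζ η'))⟫_ℂ = _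
    rw [ContinuousLinearMap.adjoint_inner_right]
  have hXn : ∀ T F, ‖X T F‖ ≤ ‖T‖ := by
    intro T F
    have hb : ∀ η η', ‖⟪η, X T F η'⟫_ℂ‖ ≤ ‖T‖ * ‖η‖ * ‖η'‖ := by
      intro η η'
      rw [hXi]
      refine (norm_sum_le _ _).trans ?_
      calc ∑ ζ ∈ F, ‖⟪w ζ η, π T (w ζ η')⟫_ℂ‖ ≤ ∑ ζ ∈ F, ‖T‖ * (‖w ζ η‖ * ‖w ζ η'‖) := by
            apply Finset.sum_le_sum
            intro ζ _
            have h1 := norm_inner_le_norm (𝕜 := ℂ) (w ζ η) (π T (w ζ η'))
            have h2 : ‖π T (w ζ η')‖ ≤ ‖T‖ * ‖w ζ η'‖ :=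
              ((π T).le_opNorm _).trans (mul_le_mul_of_nonneg_right (norm_gns_le θ T)
                (norm_nonneg _))
            calc _ ≤ ‖w ζ η‖ * ‖π T (w ζ η')‖ := h1
              _ ≤ ‖w ζ η‖ * (‖T‖ * ‖w ζ η'‖) := mul_le_mul_of_nonneg_left h2 (norm_nonneg _)
              _ = _ := by ring
        _ = ‖T‖ * ∑ ζ ∈ F, ‖w ζ η‖ * ‖w ζ η'‖ := by rw [Finset.mul_sum]
        _ ≤ ‖T‖ * (‖η‖ * ‖η'‖) := by
            apply mul_le_mul_of_nonneg_left _ (norm_nonneg _)
            have h1 := Finset.sum_mul_sq_le_sq_mul_sq F (fun ζ => ‖w ζ η‖) (fun ζ => ‖w ζ η'‖)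
            have h2 : (∑ ζ ∈ F, ‖w ζ η‖ * ‖w ζ η'‖) ^ 2 ≤ (‖η‖ * ‖η'‖) ^ 2 := by
              refine h1.trans ?_
              rw [mul_pow]
              exact mul_le_mul (hbes F η) (hbes F η') (Finset.sum_nonneg fun _ _ => sq_nonneg _)
                (sq_nonneg _)
            exact (sq_le_sq₀ (Finset.sum_nonneg fun _ _ => by positivity) (by positivity)).1 h2
        _ = _ := by ring
    apply ContinuousLinearMap.opNorm_le_bound _ (norm_nonneg _)
    intro η'
    by_cases h0 : X T F η' = 0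
    · rw [h0, norm_zero]; positivity
    · have h1 := hb (X T F η') η'
      rw [inner_self_eq_norm_sq_to_K] at h1
      have h3 : ‖((‖X T F η'‖ : ℝ) : ℂ) ^ 2‖ = ‖X T F η'‖ * ‖X T F η'‖ := by
        rw [norm_pow, Complex.norm_real, norm_norm, sq]
      have h4 : ‖X T F η'‖ * ‖X T F η'‖ ≤ (‖T‖ * ‖η'‖) * ‖X T F η'‖ := by
        rw [← h3]
        calc _ ≤ ‖T‖ * ‖X T F η'‖ * ‖η'‖ := h1
          _ = _ := by ring
      exact le_of_mul_le_mul_right h4 (norm_pos_iff.2 h0)
  set W : Ultrafilter (Finset S) := Ultrafilter.of atTop with hW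
  have hWle : (W : Filter (Finset S)) ≤ atTop := Ultrafilter.of_le _
  choose Y _ hY using fun T => exists_wot W (X T) ‖T‖ (hXn T)
  have hYadd : ∀ S' T, Y (S' + T) = Y S' + Y T := by
    intro S' T
    apply op_ext
    intro η η'
    rw [_root_.add_apply, inner_add_right]
    refine tendsto_nhds_unique (hY (S' + T) η η')
      (((hY S' η η').add (hY T η η')).congr fun F => ?_)
    rw [hXi, hXi, hXi, ← Finset.sum_add_distrib]
    apply Finset.sum_congr rfl
    intro ζ _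
    rw [map_add, _root_.add_apply, inner_add_right]
  have hYsmul : ∀ (c : ℂ) T, Y (c • T) = c • Y T := by
    intro c T
    apply op_ext
    intro η η'
    rw [_root_.smul_apply, inner_smul_right]
    refine tendsto_nhds_unique (hY (c • T) η η') (((hY T η η').const_mul c).congr fun F => ?_)
    rw [hXi, hXi, Finset.mul_sum]
    apply Finset.sum_congr rfl
    intro ζ _
    rw [map_smul, _root_.smul_apply, inner_smul_right]
  have hYpos : ∀ T, 0 ≤ T → 0 ≤ Y T := by
    intro T hT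
    rw [ContinuousLinearMap.nonneg_iff_isPositive, ContinuousLinearMap.isPositive_iff_complex]
    intro η
    have h0 : ∀ F, 0 ≤ ⟪η, X T F η⟫_ℂ := by
      intro F
      rw [hXi]
      apply Finset.sum_nonneg
      intro ζ _
      have h1 : 0 ≤ π T := hom_nonneg π hT
      rw [ContinuousLinearMap.nonneg_iff_isPositive] at h1
      exact h1.inner_nonneg_right _
    have h1 : 0 ≤ ⟪η, Y T η⟫_ℂ := ge_of_tendsto (hY T η η) (Eventually.of_forall h0)
    have h2 : ⟪Y T η, η⟫_ℂ = ⟪η, Y T η⟫_ℂ := by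
      rw [← inner_conj_symm, Complex.conj_eq_iff_im]
      exact (Complex.le_def.1 h1).2.symm
    rw [h2]
    obtain ⟨h3, h4⟩ := Complex.le_def.1 h1
    exact ⟨Complex.ext rfl h4, h3⟩
  have hYleft : ∀ d ∈ D, ∀ T, Y (d * T) = d * Y T := by
    intro d hd T
    apply op_ext
    intro η η'
    have h1 : ⟪η, (d * Y T) η'⟫_ℂ = ⟪star d η, Y T η'⟫_ℂ := by
      rw [inner_star]; rfl
    rw [h1]
    refine tendsto_nhds_unique (hY (d * T) η η') ((hY T (star d η) η').congr fun F => ?_)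
    rw [hXi, hXi]
    apply Finset.sum_congr rfl
    intro ζ _
    rw [hw4 ζ (star d) (star_mem hd), map_star, inner_star, map_mul]
    rfl
  have hYright : ∀ d ∈ D, ∀ T, Y (T * d) = Y T * d := by
    intro d hd T
    apply op_ext
    intro η η'
    have h1 : ⟪η, (Y T * d) η'⟫_ℂ = ⟪η, Y T (d η')⟫_ℂ := rfl
    rw [h1]
    refine tendsto_nhds_unique (hY (T * d) η η') ((hY T η (d η')).congr fun F => ?_)
    rw [hXi, hXi]
    apply Finset.sum_congr rfl
    intro ζ _
    rw [hw4 ζ d hd, map_mul]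
    rfl
  have hYN : ∀ x ∈ N, Y x ∈ D ∧ θ (Y x) = θ x := by
    intro x hx
    obtain ⟨e, he, hde⟩ := exists_ED hN hD hle hx
    have hYe : Y x = e := by
      -- on the vectors `d ζ`
      have hkey : ∀ (ζ : S), ∀ d' ∈ D, Y x (d' ζ) = e (d' ζ) := by
        intro ζ₀ d' hd'
        have hloc : ∀ η, ⟪w ζ₀ η, π x (w ζ₀ (d' ζ₀))⟫_ℂ = ⟪η, e (d' ζ₀)⟫_ℂ := by
          intro η
          let α : D →ₗ[ℂ] H :=
            { toFun := fun d => (d : H →L[ℂ] H) ζ₀
              map_add' := fun a b => by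
                show ((a : H →L[ℂ] H) + (b : H →L[ℂ] H)) (ζ₀ : H) = _
                rw [_root_.add_apply]
              map_smul' := fun c a => by
                show (c • (a : H →L[ℂ] H)) (ζ₀ : H) = _
                rw [_root_.smul_apply]; rfl }
          have h1 : (ContinuousLinearMap.adjoint (w ζ₀)) (π x (w ζ₀ (d' ζ₀))) = e (d' ζ₀) := by
            apply eq_of_inner α
            · intro d
              show ⟪(d : H →L[ℂ] H) (ζ₀ : H), _⟫_ℂ = ⟪(d : H →L[ℂ] H) (ζ₀ : H), _⟫_ℂ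
              rw [ContinuousLinearMap.adjoint_inner_right, hw1 ζ₀ d d.2, hw1 ζ₀ d' hd', gns_emb,
                inner_emb, ← inner_star']
              have e1 : ⟪(ζ₀ : H), star (d : H →L[ℂ] H) (e (d' ζ₀))⟫_ℂ =
                  ⟪(ζ₀ : H), (star (d : H →L[ℂ] H) * e * d') ζ₀⟫_ℂ := rfl
              rw [e1, hζs ζ₀ _ (mul_mem (mul_mem (star_mem d.2) he) hd'), star_mul, hss]
              have hdD := d.2
              have e2 : s ζ₀ * star (d : H →L[ℂ] H) * (x * (d' * s ζ₀)) =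
                  (s ζ₀ * star (d : H →L[ℂ] H)) * (x * (d' * s ζ₀)) := rfl
              have m1 : s ζ₀ * star (d : H →L[ℂ] H) ∈ D := mul_mem (hsD ζ₀) (star_mem d.2)
              have m2 : d' * s ζ₀ ∈ D := mul_mem hd' (hsD ζ₀)
              calc θ (s ζ₀ * star (d : H →L[ℂ] H) * (x * (d' * s ζ₀)))
                  = θ (((s ζ₀ * star (d : H →L[ℂ] H)) * x) * (d' * s ζ₀)) := by
                    simp only [mul_assoc]
                _ = θ ((d' * s ζ₀) * ((s ζ₀ * star (d : H →L[ℂ] H)) * x)) :=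
                    hN.comm _ (mul_mem (hle m1) hx) _ (hle m2)
                _ = θ (((d' * s ζ₀) * (s ζ₀ * star (d : H →L[ℂ] H))) * x) := by
                    simp only [mul_assoc]
                _ = θ (((d' * s ζ₀) * (s ζ₀ * star (d : H →L[ℂ] H))) * e) :=
                    hde _ (mul_mem m2 m1)
                _ = θ ((d' * s ζ₀) * ((s ζ₀ * star (d : H →L[ℂ] H)) * e)) := by
                    simp only [mul_assoc]
                _ = θ (((s ζ₀ * star (d : H →L[ℂ] H)) * e) * (d' * s ζ₀)) :=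
                    hD.comm _ m2 _ (mul_mem m1 he)
                _ = _ := by simp only [mul_assoc]
            · intro q hq
              rw [ContinuousLinearMap.adjoint_inner_right,
                hw2 ζ₀ q (fun d hd => hq ⟨d, hd⟩), inner_zero_left]
              have h3 := hq ⟨e * d', mul_mem he hd'⟩
              rw [← inner_conj_symm]
              have h4 : ⟪e (d' ζ₀), q⟫_ℂ = 0 := h3
              rw [h4, map_zero]
          rw [← h1, ContinuousLinearMap.adjoint_inner_right]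
        have hzero : ∀ ζ : S, ζ ≠ ζ₀ → w ζ (d' ζ₀) = 0 := by
          intro ζ hne
          apply hw2
          intro d hd
          rw [← inner_star']
          exact hS.orth ζ.1 ζ.2 ζ₀.1 ζ₀.2 (fun h => hne (Subtype.ext h)) (star d * d')
            (mul_mem (star_mem hd) hd')
        apply ext_inner_left ℂ
        intro η
        have h1 := hY x η (d' ζ₀)
        have h2 : Tendsto (fun F => ⟪η, X x F (d' ζ₀)⟫_ℂ) W (𝓝 ⟪η, e (d' ζ₀)⟫_ℂ) := by
          refine tendsto_const_nhds.congr' ?_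
          filter_upwards [hWle (eventually_ge_atTop {ζ₀})] with F hF
          rw [hXi, Finset.sum_eq_single ζ₀]
          · exact (hloc η).symm
          · intro ζ _ hne
            rw [hzero ζ hne, map_zero, inner_zero_right]
          · intro h
            exact absurd (Finset.singleton_subset_iff.1 hF) h
        exact tendsto_nhds_unique h1 h2
      apply op_ext
      intro η η'
      have h5 : star (Y x - e) η = 0 := by
        apply htot
        intro ζ hζ d hd
        rw [inner_star', _root_.sub_apply, hkey ⟨ζ, hζ⟩ d hd, sub_self, inner_zero_left]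
      have h6 : ⟪star (Y x - e) η, η'⟫_ℂ = 0 := by rw [h5, inner_zero_left]
      rw [inner_star, _root_.sub_apply, inner_sub_right, sub_eq_zero] at h6
      exact h6
    rw [hYe]
    refine ⟨he, ?_⟩
    have := hde 1 (one_mem _)
    rw [one_mul, one_mul] at this
    exact this.symm
  refine ⟨PositiveLinearMap.mk₀
    { toFun := fun T => θ (E (Y T))
      map_add' := fun S' T => by rw [hYadd, map_add, map_add]
      map_smul' := fun c T => by rw [hYsmul, map_smul, map_smul]; rfl }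
    (fun T hT => f_nonneg (hE.pos _ (hYpos T hT))), fun x hx => ?_, fun d hd T => ?_⟩
  · show θ (E (Y x)) = θ x
    obtain ⟨h1, h2⟩ := hYN x hx
    rw [hE.id _ h1, h2]
  · show θ (E (Y (d * T))) = θ (E (Y (T * d)))
    rw [hYleft d hd, hYright d hd, hE.left d hd, hE.right d hd, hD.comm d hd _ (hE.mem _)]

end Pool.Agent.Lib.MP_f5929e_an
end
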