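import Mathlib

/-!
# Definitions for MP_f5929e_an

Solidity and ultrapower solidity of II₁ factors `N ⊆ B(H)`, with `H` an arbitrary Hilbert space.
-/

namespace Pool.Agent.Lib.MP_f5929e_an

open scoped InnerProductSpace
open Filter Topology

variable {H : Type*} [NormedAddCommGroup H] [InnerProductSpace ℂ H] [CompleteSpace H]

/-- `M` (a von Neumann algebra, given by its set of elements) is diffuse: it has no minimal
projection, that is, below each nonzero projection `p` of `M` there is a projection `q` of `M`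
with `q ≠ 0` and `q ≠ p`. (For projections, `q ≤ p` means `q * p = q`.) -/
def IsDiffuse (M : Set (H →L[ℂ] H)) : Prop :=
  ∀ p ∈ M, IsStarProjection p → p ≠ 0 →
    ∃ q ∈ M, IsStarProjection q ∧ q * p = q ∧ q ≠ 0 ∧ q ≠ p

/-- `τ` is a normal tracial state on the von Neumann algebra `N`: on `N` it is a countable sum of
vector functionals with square summable vectors (this is normality), it is `1` at `1`, and
`τ(xy) = τ(yx)` for `x, y ∈ N`. The values of `τ` outside `N` play no role. -/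
structure IsNormalTrace (N : VonNeumannAlgebra H) (τ : (H →L[ℂ] H) → ℂ) : Prop where
  normal : ∃ ξ : ℕ → H, Summable (fun n => ‖ξ n‖ ^ 2) ∧
    ∀ x ∈ N, HasSum (fun n => ⟪ξ n, x (ξ n)⟫_ℂ) (τ x)
  one : τ 1 = 1
  tracial : ∀ x ∈ N, ∀ y ∈ N, τ (x * y) = τ (y * x)

/-- `N` is a II₁ factor with normal tracial state `τ`: its center is `ℂ`, it has no minimal
projection, and `τ` is a normal tracial state on it. -/
structure IsIIOneFactor (N : VonNeumannAlgebra H) (τ : (H →L[ℂ] H) → ℂ) : Prop where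
  factor : ∀ x ∈ N, (∀ y ∈ N, x * y = y * x) → ∃ c : ℂ, x = c • (1 : H →L[ℂ] H)
  diffuse : IsDiffuse (N : Set (H →L[ℂ] H))
  trace : IsNormalTrace N τ

/-- `A` is amenable (injective): there is a conditional expectation `E` of `B(H)` onto `A`. -/
def IsAmenable (A : VonNeumannAlgebra H) : Prop :=
  ∃ E : (H →L[ℂ] H) →ₗ[ℂ] (H →L[ℂ] H), (∀ T, E T ∈ A) ∧ (∀ a ∈ A, E a = a) ∧
    (∀ T : H →L[ℂ] H, T.IsPositive → (E T).IsPositive) ∧
    ∀ a ∈ A, ∀ T, E (a * T) = a * E T ∧ E (T * a) = E T * a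

/-- `N` is solid: each von Neumann subalgebra `A` of `N` whose relative commutant `A' ∩ N` is
diffuse is amenable. -/
def IsSolid (N : VonNeumannAlgebra H) : Prop :=
  ∀ A : VonNeumannAlgebra H, A ≤ N → IsDiffuse {x | x ∈ N ∧ ∀ a ∈ A, a * x = x * a} →
    IsAmenable A

/-- The `2`-norm `‖x‖₂ = τ(x* x)^{1/2}`. -/
noncomputable def norm2 (τ : (H →L[ℂ] H) → ℂ) (x : H →L[ℂ] H) : ℝ :=
  Real.sqrt (τ (star x * x)).re

/-- The bounded sequences in `N`. They represent the elements of the tracial ultrapower `N^U`,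
the quotient of this *-algebra by the sequences with `lim_U ‖x_n‖₂ = 0`. -/
def IsBddSeq (N : VonNeumannAlgebra H) (x : ℕ → H →L[ℂ] H) : Prop :=
  (∀ n, x n ∈ N) ∧ ∃ C : ℝ, ∀ n, ‖x n‖ ≤ C

/-- The bounded sequences `x` and `y` represent the same element of `N^U`:
`lim_U ‖x_n - y_n‖₂ = 0`. -/
def EqU (τ : (H →L[ℂ] H) → ℂ) (U : Ultrafilter ℕ) (x y : ℕ → H →L[ℂ] H) : Prop :=
  Tendsto (fun n => norm2 τ (x n - y n)) U (𝓝 0)

/-- The sequence `p` represents a projection of the relative commutant `A' ∩ N^U`. Elements `a` of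
`A ⊆ N` are regarded as elements of `N^U` through the constant sequences. -/
structure IsProjU (N : VonNeumannAlgebra H) (τ : (H →L[ℂ] H) → ℂ) (U : Ultrafilter ℕ)
    (A : VonNeumannAlgebra H) (p : ℕ → H →L[ℂ] H) : Prop where
  bdd : IsBddSeq N p
  star_eq : EqU τ U (fun n => star (p n)) p
  mul_self : EqU τ U (fun n => p n * p n) p
  comm : ∀ a ∈ A, EqU τ U (fun n => a * p n) (fun n => p n * a)

/-- The relative commutant `A' ∩ N^U` is diffuse. -/
def IsDiffuseU (N : VonNeumannAlgebra H) (τ : (H →L[ℂ] H) → ℂ) (U : Ultrafilter ℕ)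
    (A : VonNeumannAlgebra H) : Prop :=
  ∀ p, IsProjU N τ U A p → ¬ EqU τ U p 0 →
    ∃ q, IsProjU N τ U A q ∧ EqU τ U (fun n => q n * p n) q ∧ ¬ EqU τ U q 0 ∧ ¬ EqU τ U q p

/-- `N` is `U`-solid: each von Neumann subalgebra `A` of `N` whose relative commutant `A' ∩ N^U`
in the tracial ultrapower is diffuse is amenable. -/
def IsUSolid (N : VonNeumannAlgebra H) (τ : (H →L[ℂ] H) → ℂ) (U : Ultrafilter ℕ) : Prop :=
  ∀ A : VonNeumannAlgebra H, A ≤ N → IsDiffuseU N τ U A → IsAmenable A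

end Pool.Agent.Lib.MP_f5929e_an
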