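import Mathlib
import Pool.Agent.Lib.MP_f5929e_an.Cprime2
import Pool.Agent.Lib.MP_f5929e_an.Defs
import Pool.Agent.Lib.MP_f5929e_an.Case2

section

/-!
II₁ factors on Hilbert spaces as tracial algebras.
-/

namespace Pool.Agent.Lib.MP_f5929e_an

set_option linter.unusedSectionVars false

open scoped ComplexOrder InnerProductSpace
open Filter Topology

variable {H : Type*} [NormedAddCommGroup H] [InnerProductSpace ℂ H] [CompleteSpace H]

theorem summ_inner {ξ : ℕ → H} (hξ : Summable fun n => ‖ξ n‖ ^ 2) (T : H →L[ℂ] H) :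
    Summable (fun n => ⟪ξ n, T (ξ n)⟫_ℂ) := by
  refine Summable.of_norm_bounded (hξ.mul_left ‖T‖) (fun n => ?_)
  calc ‖⟪ξ n, T (ξ n)⟫_ℂ‖ ≤ ‖ξ n‖ * ‖T (ξ n)‖ := norm_inner_le_norm _ _
    _ ≤ ‖ξ n‖ * (‖T‖ * ‖ξ n‖) := mul_le_mul_of_nonneg_left (T.le_opNorm _) (norm_nonneg _)
    _ = ‖T‖ * ‖ξ n‖ ^ 2 := by ring

/-- the positive functional given by a square summable sequence of vectors -/
noncomputable def theta (ξ : ℕ → H) (hξ : Summable fun n => ‖ξ n‖ ^ 2) :
    (H →L[ℂ] H) →ₚ[ℂ] ℂ :=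
  PositiveLinearMap.mk₀
    { toFun := fun T => ∑' n, ⟪ξ n, T (ξ n)⟫_ℂ
      map_add' := fun S T => by
        rw [← (summ_inner hξ S).tsum_add (summ_inner hξ T)]
        apply tsum_congr
        intro n
        rw [_root_.add_apply, inner_add_right]
      map_smul' := fun c T => by
        show ∑' n, ⟪ξ n, (c • T) (ξ n)⟫_ℂ = c * ∑' n, ⟪ξ n, T (ξ n)⟫_ℂ
        rw [← tsum_mul_left]
        apply tsum_congr
        intro n
        rw [_root_.smul_apply, inner_smul_right] }
    (fun T hT => by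
      rw [ContinuousLinearMap.nonneg_iff_isPositive] at hT
      exact tsum_nonneg fun n => hT.inner_nonneg_right _)

variable {ξ : ℕ → H} {hξ : Summable fun n => ‖ξ n‖ ^ 2}

theorem theta_apply (T : H →L[ℂ] H) : theta ξ hξ T = ∑' n, ⟪ξ n, T (ξ n)⟫_ℂ := rfl

theorem norm_le_n2_theta (T : H →L[ℂ] H) (k : ℕ) : ‖T (ξ k)‖ ≤ n2 (theta ξ hξ) T := by
  have h1 : ‖T (ξ k)‖ ^ 2 ≤ n2 (theta ξ hξ) T ^ 2 := by
    rw [n2_sq_re, theta_apply]
    have e1 : ∀ n, ⟪ξ n, (star T * T) (ξ n)⟫_ℂ = ((‖T (ξ n)‖ ^ 2 : ℝ) : ℂ) := by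
      intro n
      show ⟪ξ n, star T (T (ξ n))⟫_ℂ = _
      rw [inner_star', inner_self_eq_norm_sq_to_K]
      push_cast; rfl
    have hs := summ_inner hξ (star T * T)
    have h2 := Complex.hasSum_re hs.hasSum
    rw [← h2.tsum_eq]
    have h3 : (fun n => (⟪ξ n, (star T * T) (ξ n)⟫_ℂ).re) = fun n => ‖T (ξ n)‖ ^ 2 := by
      funext n
      rw [e1, Complex.ofReal_re]
    rw [h3]
    have h4 : Summable fun n => ‖T (ξ n)‖ ^ 2 := by
      rw [← h3]; exact h2.summable
    exact h4.le_tsum k (fun _ _ => sq_nonneg _)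
  exact (sq_le_sq₀ (norm_nonneg _) (n2_nonneg _)).1 h1

theorem theta_wot {I : Type*} (W : Ultrafilter I) (X : I → H →L[ℂ] H) (C : ℝ)
    (hX : ∀ i, ‖X i‖ ≤ C) (Y : H →L[ℂ] H)
    (hY : ∀ η η', Tendsto (fun i => ⟪η, X i η'⟫_ℂ) W (𝓝 ⟪η, Y η'⟫_ℂ)) :
    Tendsto (fun i => theta ξ hξ (X i)) W (𝓝 (theta ξ hξ Y)) := by
  refine tendsto_tsum_of_dominated_convergence (bound := fun n => C * ‖ξ n‖ ^ 2)
    (hξ.mul_left C) (fun n => hY (ξ n) (ξ n)) (Eventually.of_forall fun i n => ?_)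
  calc ‖⟪ξ n, X i (ξ n)⟫_ℂ‖ ≤ ‖ξ n‖ * ‖X i (ξ n)‖ := norm_inner_le_norm _ _
    _ ≤ ‖ξ n‖ * (C * ‖ξ n‖) := mul_le_mul_of_nonneg_left (((X i).le_opNorm _).trans
        (mul_le_mul_of_nonneg_right (hX i) (norm_nonneg _))) (norm_nonneg _)
    _ = C * ‖ξ n‖ ^ 2 := by ring

section Fac

variable {N : VonNeumannAlgebra H}

theorem vn_dens (h1 : theta ξ hξ 1 = 1)
    (hf : ∀ x ∈ N, (∀ y ∈ N, x * y = y * x) → ∃ c : ℂ, x = c • (1 : H →L[ℂ] H)) (η : H)
    (hη : ∀ y' ∈ N.commutant, ∀ y ∈ N, ∀ n, ⟪y' (y (ξ n)), η⟫_ℂ = 0) : η = 0 := by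
  set L : Submodule ℂ H := Submodule.span ℂ
    {v | ∃ y' ∈ N.commutant, ∃ y ∈ N, ∃ n, y' (y (ξ n)) = v} with hL
  have hηK : η ∈ Lᗮ := by
    rw [Submodule.mem_orthogonal]
    intro u hu
    rw [hL] at hu
    induction hu using Submodule.span_induction with
    | mem x hx => obtain ⟨y', hy', y, hy, n, rfl⟩ := hx; exact hη y' hy' y hy n
    | zero => exact inner_zero_left _
    | add x y _ _ hx hy => rw [inner_add_left, hx, hy, add_zero]
    | smul c x _ hx => rw [inner_smul_left, hx, mul_zero]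
  have hcN : ∀ y ∈ N, ∀ y' ∈ N.commutant, y * y' = y' * y := fun y hy y' hy' =>
    VonNeumannAlgebra.mem_commutant_iff.1 hy' y hy
  have hinvN : ∀ d ∈ N, ∀ k ∈ Lᗮ, d k ∈ Lᗮ := by
    intro d hd k hk
    rw [Submodule.mem_orthogonal] at hk ⊢
    intro u hu
    rw [hL] at hu
    induction hu using Submodule.span_induction with
    | mem x hx =>
      obtain ⟨y', hy', y, hy, n, rfl⟩ := hx
      rw [← inner_star]
      apply hk
      rw [hL]
      refine Submodule.subset_span ⟨y', hy', star d * y, mul_mem (star_mem hd) hy, n, ?_⟩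
      have := congrArg (fun T : H →L[ℂ] H => T (y (ξ n))) (hcN (star d) (star_mem hd) y' hy')
      exact this.symm
    | zero => exact inner_zero_left _
    | add x y _ _ hx hy => rw [inner_add_left, hx, hy, add_zero]
    | smul c x _ hx => rw [inner_smul_left, hx, mul_zero]
  have hinvN' : ∀ d ∈ N.commutant, ∀ k ∈ Lᗮ, d k ∈ Lᗮ := by
    intro d hd k hk
    rw [Submodule.mem_orthogonal] at hk ⊢
    intro u hu
    rw [hL] at hu
    induction hu using Submodule.span_induction with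
    | mem x hx =>
      obtain ⟨y', hy', y, hy, n, rfl⟩ := hx
      rw [← inner_star]
      apply hk
      rw [hL]
      exact Submodule.subset_span ⟨star d * y', mul_mem (star_mem hd) hy', y, hy, n, rfl⟩
    | zero => exact inner_zero_left _
    | add x y _ _ hx hy => rw [inner_add_left, hx, hy, add_zero]
    | smul c x _ hx => rw [inner_smul_left, hx, mul_zero]
  set P : H →L[ℂ] H := Lᗮ.starProjection with hP
  have hPN : ∀ d ∈ N, P * d = d * P := by
    intro d hd
    ext v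
    exact starProj_comm _ d (hinvN d hd) (hinvN _ (star_mem hd)) v
  have hPN' : ∀ d ∈ N.commutant, P * d = d * P := by
    intro d hd
    ext v
    exact starProj_comm _ d (hinvN' d hd) (hinvN' _ (star_mem hd)) v
  have hPmem : P ∈ N := by
    rw [← VonNeumannAlgebra.commutant_commutant N, VonNeumannAlgebra.mem_commutant_iff]
    intro g hg
    exact (hPN' g hg).symm
  obtain ⟨c, hc⟩ := hf P hPmem hPN
  have hPη : P η = η := Submodule.starProjection_eq_self_iff.2 hηK
  rw [hc] at hPη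
  have hPη' : c • η = η := hPη
  obtain ⟨n, hn⟩ : ∃ n, ξ n ≠ 0 := by
    by_contra hcon
    push Not at hcon
    have : theta ξ hξ 1 = 0 := by
      rw [theta_apply]
      have : ∀ n, ⟪ξ n, (1 : H →L[ℂ] H) (ξ n)⟫_ℂ = 0 := fun n => by
        rw [hcon n, inner_zero_left]
      simp only [this, tsum_zero]
    rw [h1] at this
    exact one_ne_zero this
  have hξL : ξ n ∈ L := by
    rw [hL]
    exact Submodule.subset_span ⟨1, one_mem _, 1, one_mem _, n, rfl⟩
  have hPξ : P (ξ n) = 0 := by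
    rw [hP]
    apply (Submodule.starProjection_apply_eq_zero_iff _).2
    exact L.le_orthogonal_orthogonal hξL
  rw [hc] at hPξ
  have hPξ' : c • ξ n = 0 := hPξ
  have hc0 : c = 0 := by
    rcases smul_eq_zero.1 hPξ' with h | h
    · exact h
    · exact absurd h hn
  rw [hc0, zero_smul] at hPη'
  exact hPη'.symm

theorem vn_n2_mul_le (hc : ∀ x ∈ N, ∀ y ∈ N, theta ξ hξ (x * y) = theta ξ hξ (y * x))
    {x y : H →L[ℂ] H} (hx : x ∈ N) (hy : y ∈ N) :
    n2 (theta ξ hξ) (x * y) ≤ n2 (theta ξ hξ) x * ‖y‖ := by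
  have hst : ∀ x ∈ N, n2 (theta ξ hξ) (star x) = n2 (theta ξ hξ) x := by
    intro x hx
    have h1 : n2 (theta ξ hξ) (star x) ^ 2 = n2 (theta ξ hξ) x ^ 2 := by
      rw [n2_sq_re, n2_sq_re, star_star, hc x hx _ (star_mem hx)]
    exact (sq_eq_sq₀ (n2_nonneg _) (n2_nonneg _)).1 h1
  rw [← hst _ (mul_mem hx hy), star_mul, mul_comm (n2 (theta ξ hξ) x)]
  refine (n2_mul_le _ _).trans ?_
  rw [norm_star, hst x hx]

theorem vn_faithful (h1 : theta ξ hξ 1 = 1)
    (hf : ∀ x ∈ N, (∀ y ∈ N, x * y = y * x) → ∃ c : ℂ, x = c • (1 : H →L[ℂ] H))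
    (hc : ∀ x ∈ N, ∀ y ∈ N, theta ξ hξ (x * y) = theta ξ hξ (y * x))
    {x : H →L[ℂ] H} (hx : x ∈ N) (h0 : n2 (theta ξ hξ) x = 0) : x = 0 := by
  have hker : ∀ y' ∈ N.commutant, ∀ y ∈ N, ∀ n, x (y' (y (ξ n))) = 0 := by
    intro y' hy' y hy n
    have h2 : ‖(x * y) (ξ n)‖ ≤ 0 := by
      refine (norm_le_n2_theta (hξ := hξ) (x * y) n).trans ?_
      refine (vn_n2_mul_le hc hx hy).trans ?_
      rw [h0, zero_mul]
    have h3 : x (y (ξ n)) = 0 := norm_le_zero_iff.1 h2
    have h4 := congrArg (fun T : H →L[ℂ] H => T (y (ξ n)))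
      (VonNeumannAlgebra.mem_commutant_iff.1 hy' x hx)
    have h5 : x (y' (y (ξ n))) = y' (x (y (ξ n))) := h4
    rw [h5, h3, map_zero]
  have hstar : ∀ v, star x v = 0 := by
    intro v
    apply vn_dens h1 hf
    intro y' hy' y hy n
    rw [inner_star', hker y' hy' y hy n, inner_zero_left]
  have : star x = 0 := by
    ext v; exact hstar v
  rw [← star_star x, this, star_zero]

theorem trAlg_vn (h1 : theta ξ hξ 1 = 1)
    (hf : ∀ x ∈ N, (∀ y ∈ N, x * y = y * x) → ∃ c : ℂ, x = c • (1 : H →L[ℂ] H))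
    (hc : ∀ x ∈ N, ∀ y ∈ N, theta ξ hξ (x * y) = theta ξ hξ (y * x))
    {M : VonNeumannAlgebra H} (hM : M ≤ N) : TrAlg (theta ξ hξ) M.toStarSubalgebra where
  one := h1
  comm x hx y hy := hc x (hM hx) y (hM hy)
  faithful x hx h0 := vn_faithful h1 hf hc (hM hx) h0
  closed := by
    show IsClosed (M : Set (H →L[ℂ] H))
    rw [← VonNeumannAlgebra.centralizer_centralizer M]
    exact Set.isClosed_centralizer _
  complete u C hu hC hcau := by
    set W : Ultrafilter ℕ := Ultrafilter.of atTop with hW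
    have hWle : (W : Filter ℕ) ≤ atTop := Ultrafilter.of_le _
    obtain ⟨Y, hYC, hY⟩ := exists_wot W u C hC
    have hYM : Y ∈ M := by
      rw [← VonNeumannAlgebra.commutant_commutant M, VonNeumannAlgebra.mem_commutant_iff]
      intro g hg
      have hgc : ∀ n, g * u n = u n * g := fun n =>
        (VonNeumannAlgebra.mem_commutant_iff.1 hg (u n) (hu n)).symm
      apply op_ext
      intro η η'
      have e1 : ⟪η, (g * Y) η'⟫_ℂ = ⟪star g η, Y η'⟫_ℂ := by rw [inner_star]; rfl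
      have e2 : ⟪η, (Y * g) η'⟫_ℂ = ⟪η, Y (g η')⟫_ℂ := rfl
      rw [e1, e2]
      refine tendsto_nhds_unique (hY (star g η) η') ((hY η (g η')).congr fun n => ?_)
      rw [inner_star]
      have := congrArg (fun T : H →L[ℂ] H => T η') (hgc n)
      have e3 : g (u n η') = u n (g η') := this
      rw [e3]
    refine ⟨Y, hYM, hYC, ?_⟩
    show Tendsto (fun n => n2 (theta ξ hξ) (u n - Y)) atTop (𝓝 0)
    rw [Metric.tendsto_nhds]
    intro ε hε
    obtain ⟨n₀, hn₀⟩ := hcau (ε / 2) (by positivity)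
    filter_upwards [eventually_ge_atTop n₀] with n hn
    rw [Real.dist_0_eq_abs, abs_of_nonneg (n2_nonneg _)]
    set a := u n - Y with ha
    have hlim : Tendsto (fun m => theta ξ hξ (star a * (u n - u m))) W
        (𝓝 (theta ξ hξ (star a * (u n - Y)))) := by
      apply theta_wot W _ (‖star a‖ * (C + C))
      · intro m
        refine (norm_mul_le _ _).trans ?_
        apply mul_le_mul_of_nonneg_left _ (norm_nonneg _)
        exact (norm_sub_le _ _).trans (add_le_add (hC n) (hC m))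
      · intro η η'
        have e1 : ∀ Z : H →L[ℂ] H, ⟪η, (star a * (u n - Z)) η'⟫_ℂ =
            ⟪a η, u n η'⟫_ℂ - ⟪a η, Z η'⟫_ℂ := by
          intro Z
          show ⟪η, star a ((u n - Z) η')⟫_ℂ = _
          rw [inner_star']
          show ⟪a η, u n η' - Z η'⟫_ℂ = _
          rw [inner_sub_right]
        rw [e1]
        refine (tendsto_const_nhds.sub (hY (a η) η')).congr fun m => ?_
        rw [e1]
    have hb : ∀ᶠ m in (W : Filter ℕ), ‖theta ξ hξ (star a * (u n - u m))‖ ≤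
        n2 (theta ξ hξ) a * (ε / 2) := by
      filter_upwards [hWle (eventually_ge_atTop n₀)] with m hm
      exact (norm_f_star_mul_le _ _).trans
        (mul_le_mul_of_nonneg_left (hn₀ n hn m hm) (n2_nonneg _))
    have h2 : ‖theta ξ hξ (star a * a)‖ ≤ n2 (theta ξ hξ) a * (ε / 2) :=
      le_of_tendsto hlim.norm hb
    have h3 : n2 (theta ξ hξ) a ^ 2 ≤ n2 (theta ξ hξ) a * (ε / 2) := by
      rw [n2_sq_re]
      exact (Complex.re_le_norm _).trans h2
    rcases eq_or_lt_of_le (n2_nonneg (f := theta ξ hξ) a) with h4 | h4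
    · rw [← h4]; exact hε
    · have h5 : n2 (theta ξ hξ) a ≤ ε / 2 := by
        rw [sq] at h3
        exact le_of_mul_le_mul_left h3 h4
      linarith

/-- the vectors `y' y ξ_n` are bounded -/
theorem vn_Bd_dens (h1 : theta ξ hξ 1 = 1)
    (hf : ∀ x ∈ N, (∀ y ∈ N, x * y = y * x) → ∃ c : ℂ, x = c • (1 : H →L[ℂ] H))
    (hc : ∀ x ∈ N, ∀ y ∈ N, theta ξ hξ (x * y) = theta ξ hξ (y * x))
    {M : VonNeumannAlgebra H} (hM : M ≤ N) (η : H)
    (hη : ∀ b, Bd (theta ξ hξ) M.toStarSubalgebra b → ⟪b, η⟫_ℂ = 0) : η = 0 := by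
  apply vn_dens h1 hf
  intro y' hy' y hy n
  apply hη
  refine ⟨(‖y'‖ * ‖y‖) ^ 2, fun d hd => ?_⟩
  have hdN : d ∈ N := hM hd
  have e1 : d (y' (y (ξ n))) = y' ((d * y) (ξ n)) :=
    congrArg (fun T : H →L[ℂ] H => T (y (ξ n)))
      (VonNeumannAlgebra.mem_commutant_iff.1 hy' d hdN)
  rw [e1, ← n2_sq_re, ← mul_pow]
  apply pow_le_pow_left₀ (norm_nonneg _)
  calc ‖y' ((d * y) (ξ n))‖ ≤ ‖y'‖ * ‖(d * y) (ξ n)‖ := y'.le_opNorm _
    _ ≤ ‖y'‖ * (n2 (theta ξ hξ) d * ‖y‖) := by
      apply mul_le_mul_of_nonneg_left _ (norm_nonneg _)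
      exact (norm_le_n2_theta _ _).trans (vn_n2_mul_le hc hdN hy)
    _ = ‖y'‖ * ‖y‖ * n2 (theta ξ hξ) d := by ring

end Fac

end Pool.Agent.Lib.MP_f5929e_an
end

section

/-!
Minimal central projections of `F' ∩ N^U` are good (continued).
-/

namespace Pool.Agent.Lib.MP_f5929e_an

set_option linter.unusedSectionVars false

open scoped ComplexOrder InnerProductSpace
open Filter Topology

variable {A : Type*} [CStarAlgebra A] [PartialOrder A] [StarOrderedRing A]
  {B : Type*} [CStarAlgebra B] [PartialOrder B] [StarOrderedRing B]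
  {τ : A →ₚ[ℂ] ℂ} {U : Ultrafilter ℕ} {j : A →⋆ₐ[ℂ] B} {F : Finset A}

/-- the indices and unitaries along which the lifted tree is transported -/
theorem exists_chain (hU : (U : Filter ℕ) ≤ atTop) {E : ℕ → ℕ → Ell A} {z : A}
    (hgood : ∀ k, ∀ᶠ i in (U : Filter ℕ), GoodI τ F E z k i)
    (hconj : ∀ k, ∀ᶠ i in (U : Filter ℕ), ∀ᶠ i' in (U : Filter ℕ), Conj τ F E k i i') :
    ∃ (J : ℕ → ℕ) (v u : ℕ → A), v 0 = 1 ∧ (∀ k, v (k + 1) = v k * u k) ∧ (∀ k, Un (u k)) ∧
      (∀ k, dF τ F (u k) ≤ (1 / 2) ^ k) ∧ (∀ k, GoodI τ F E z k (J k)) ∧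
      ∀ k, ∀ l ≤ k, ∀ m < 2 ^ l,
        n2 τ (u k * ev (J (k + 1)) (E l m) * star (u k) - ev (J k) (E l m)) ≤ (1 / 2) ^ k := by
  set S : ℕ → ℕ → Prop := fun k i => GoodI τ F E z k i ∧
    ∀ᶠ i' in (U : Filter ℕ), Conj τ F E k i i' with hS
  have hSev : ∀ k, ∀ᶠ i in (U : Filter ℕ), S k i := fun k => (hgood k).and (hconj k)
  have hstep : ∀ k (i : {i // S k i}), ∃ i' : {i' // S (k + 1) i'}, Conj τ F E k i.1 i'.1 := by
    intro k i
    obtain ⟨i', h1, h2⟩ := ((hSev (k + 1)).and i.2.2).exists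
    exact ⟨⟨i', h1⟩, h2⟩
  choose nx hnx using hstep
  obtain ⟨i₀, hi₀⟩ := (hSev 0).exists
  set JJ : ∀ k, {i // S k i} := fun k => Nat.rec ⟨i₀, hi₀⟩ (fun k i => nx k i) k with hJJ
  have hJ : ∀ k, Conj τ F E k (JJ k).1 (JJ (k + 1)).1 := fun k => hnx k (JJ k)
  choose u hu1 hu2 hu3 using hJ
  refine ⟨fun k => (JJ k).1, fun k => Nat.rec 1 (fun k v => v * u k) k, u, rfl, fun k => rfl, hu1,
    hu2, fun k => (JJ k).2.1, hu3⟩

theorem good_of_minimal (hτ : TrAlg τ ⊤) (hU : (U : Filter ℕ) ≤ atTop)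
    (hfac : TrAlg.MinC (⊤ : StarSubalgebra ℂ A) 1) (hF : ∀ a ∈ F, star a ∈ F)
    (hO : OracleH j τ) {z : A} (hzP : Pj z) (hz : TrAlg.MinC (QQ τ U F) (io τ U z))
    (hs : Splits (QQ τ U F) (io τ U z)) : Gd j τ F z := by
  have hTQ : TrAlg (om τ U) (QQ τ U F) := trAlg_QQ hτ hU
  obtain ⟨e, he0, heQ, hesum, heτ⟩ := hTQ.exists_dyadic hz.mem hz.pj hs
  have hlift : ∀ k m, ∃ Z, pi' τ U Z = e k m ∧ 0 ≤ Z ∧ Z ≤ 1 := by
    intro k m
    obtain ⟨Z₀, hZ₀⟩ := mem_UP.1 (QQ_le (heQ k m).1)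
    obtain ⟨Z, hZ, hZ0, hZ1⟩ := exists_lift_unit (pi' τ U) Z₀
      (by rw [hZ₀]; exact (heQ k m).2.nonneg) (by rw [hZ₀]; exact (heQ k m).2.le_one)
    exact ⟨Z, by rw [hZ, hZ₀], hZ0, hZ1⟩
  choose E hE hE0 hE1 using hlift
  have hEn : ∀ l m i, ‖ev i (E l m)‖ ≤ 1 := fun l m i =>
    norm_le_one_of_unit (hom_nonneg (ev i) (hE0 l m)) (by
      have := hom_mono (ev i) (hE1 l m)
      rwa [map_one] at this)
  have hEsa : ∀ l m, star (E l m) = E l m := fun l m => (IsSelfAdjoint.of_nonneg (hE0 l m)).star_eq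
  have hEsa' : ∀ l m i, star (ev i (E l m)) = ev i (E l m) := fun l m i => by
    rw [← map_star, hEsa]
  have h1 : ∀ l m, pi' τ U (E l m) ∈ QQ τ U F ∧ Pj (pi' τ U (E l m)) := fun l m => by
    rw [hE]; exact heQ l m
  have h2 : ∀ l m, pi' τ U (E (l + 1) (2 * m)) + pi' τ U (E (l + 1) (2 * m + 1)) =
      pi' τ U (E l m) := fun l m => by rw [hE, hE, hE]; exact hesum l m
  have h3 : ∀ l m, m < 2 ^ l → (om τ U (pi' τ U (E l m))).re = (τ z).re / 2 ^ l :=
    fun l m hm => by rw [hE, heτ l m hm, om_io]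
  have h4 : pi' τ U (E 0 0) = io τ U z := by rw [hE, he0]
  obtain ⟨J, v, u, hv0, hvs, huU, hud, hJ, hconj⟩ := exists_chain hU
    (eventually_goodI hτ hU hF h1 h2 h3 h4)
    (eventually_conj hτ hU hfac hF hz hEn hEsa h1 h2 h3 h4)
  have hvU : ∀ k, Un (v k) := by
    intro k
    induction k with
    | zero => rw [hv0]; exact Un.one
    | succ k ih => rw [hvs]; exact ih.mul (huU k)
  -- limits of the conjugates of `F`
  have hlimF : ∀ a, ∃ y, a ∈ F → T2 τ atTop (fun k => v k * a * star (v k)) y := by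
    intro a
    by_cases ha : a ∈ F
    · obtain ⟨y, hy⟩ := exists_lim_of_geom hτ (fun k => v k * a * star (v k)) ‖a‖ (by
        intro k
        calc ‖v k * a * star (v k)‖ ≤ ‖v k * a‖ * ‖star (v k)‖ := norm_mul_le _ _
          _ ≤ (‖v k‖ * ‖a‖) * ‖star (v k)‖ := by
            gcongr; exact norm_mul_le _ _
          _ ≤ (1 * ‖a‖) * 1 := by
            gcongr
            · exact (hvU k).norm_le
            · rw [norm_star]; exact (hvU k).norm_le
          _ = ‖a‖ := by ring) 0 (by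
        intro k _
        have e1 : v (k + 1) * a * star (v (k + 1)) - v k * a * star (v k) =
            v k * ((u k * a - a * u k) * star (u k)) * star (v k) := by
          rw [hvs, star_mul]
          have : u k * a * star (u k) - a = (u k * a - a * u k) * star (u k) := by
            rw [sub_mul, mul_assoc a, (huU k).2, mul_one]
          rw [← this]; noncomm_ring
        show n2 τ (v (k + 1) * a * star (v (k + 1)) - v k * a * star (v k)) ≤ _
        rw [e1, n2_conj hτ (hvU k)]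
        calc _ ≤ n2 τ (u k * a - a * u k) * ‖star (u k)‖ := hτ.n2_mul_le' trivial trivial
          _ ≤ (1 / 2) ^ k * 1 := by
            rw [norm_star]
            exact mul_le_mul ((le_dF ha _).trans (hud k)) (huU k).norm_le (norm_nonneg _)
              (by positivity)
          _ = _ := mul_one _)
      exact ⟨y, fun _ => hy⟩
    · exact ⟨0, fun h => absurd h ha⟩
  choose θ hθ using hlimF
  -- limits of the conjugates of the tree
  set w : ℕ → ℕ → ℕ → A := fun l m k => v k * ev (J k) (E l m) * star (v k) with hw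
  have hwn : ∀ l m k, ‖w l m k‖ ≤ 1 := by
    intro l m k
    calc ‖v k * ev (J k) (E l m) * star (v k)‖ ≤ ‖v k * ev (J k) (E l m)‖ * ‖star (v k)‖ :=
          norm_mul_le _ _
      _ ≤ (‖v k‖ * ‖ev (J k) (E l m)‖) * ‖star (v k)‖ := by
        gcongr; exact norm_mul_le _ _
      _ ≤ (1 * 1) * 1 := by
        gcongr
        · exact (hvU k).norm_le
        · exact hEn l m _
        · rw [norm_star]; exact (hvU k).norm_le
      _ = 1 := by ring
  have hlimT : ∀ l m, ∃ y, m < 2 ^ l → T2 τ atTop (w l m) y := by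
    intro l m
    by_cases hm : m < 2 ^ l
    · obtain ⟨y, hy⟩ := exists_lim_of_geom hτ (w l m) 1 (hwn l m) l (by
        intro k hk
        have e1 : w l m (k + 1) - w l m k =
            v k * (u k * ev (J (k + 1)) (E l m) * star (u k) - ev (J k) (E l m)) * star (v k) := by
          show v (k + 1) * ev (J (k + 1)) (E l m) * star (v (k + 1)) -
            v k * ev (J k) (E l m) * star (v k) = _
          rw [hvs, star_mul]; noncomm_ring
        rw [e1, n2_conj hτ (hvU k)]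
        exact hconj k l hk m hm)
      exact ⟨y, fun _ => hy⟩
    · exact ⟨0, fun h => absurd h hm⟩
  choose g hg using hlimT
  have hwsa : ∀ l m k, star (w l m k) = w l m k := by
    intro l m k
    show star (v k * ev (J k) (E l m) * star (v k)) = v k * ev (J k) (E l m) * star (v k)
    rw [star_mul, star_mul, star_star, hEsa', mul_assoc]
  have hgP : ∀ l m, m < 2 ^ l → Pj (g l m) := by
    intro l m hm
    refine ⟨hτ.sa_of_T2 (M := ⊤) (fun _ => trivial) trivial (hwsa l m) (hg l m hm), ?_⟩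
    have b1 := hτ.T2_mul (M := ⊤) (fun _ => trivial) trivial trivial (hwn l m) (hg l m hm)
      (hg l m hm)
    have b2 : T2 τ atTop (fun k => w l m k * w l m k - w l m k) 0 := by
      apply T2.of_half l
      intro k hk
      have e1 : w l m k * w l m k - w l m k - 0 =
          v k * (ev (J k) (E l m) * ev (J k) (E l m) - ev (J k) (E l m)) * star (v k) := by
        show v k * ev (J k) (E l m) * star (v k) * (v k * ev (J k) (E l m) * star (v k)) -
          v k * ev (J k) (E l m) * star (v k) - 0 = _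
        have e2 : v k * ev (J k) (E l m) * star (v k) * (v k * ev (J k) (E l m) * star (v k)) =
            v k * ev (J k) (E l m) * (star (v k) * v k) * ev (J k) (E l m) * star (v k) := by
          noncomm_ring
        rw [e2, (hvU k).1]; noncomm_ring
      rw [e1, n2_conj hτ (hvU k)]
      exact ((hJ k).1 l hk m hm).2.1
    have b3 := b1.sub (hg l m hm)
    have b4 := hτ.T2_unique (M := ⊤) trivial trivial b3 b2
    exact sub_eq_zero.1 b4
  have hgsum : ∀ l m, m < 2 ^ l → g (l + 1) (2 * m) + g (l + 1) (2 * m + 1) = g l m := by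
    intro l m hm
    have b1 := ((hg (l + 1) (2 * m) (Tree.lt_left hm)).add
      (hg (l + 1) (2 * m + 1) (Tree.lt_right hm))).sub (hg l m hm)
    have b2 : T2 τ atTop (fun k => w (l + 1) (2 * m) k + w (l + 1) (2 * m + 1) k - w l m k) 0 := by
      apply T2.of_half l
      intro k hk
      have e1 : w (l + 1) (2 * m) k + w (l + 1) (2 * m + 1) k - w l m k - 0 =
          v k * (ev (J k) (E (l + 1) (2 * m)) + ev (J k) (E (l + 1) (2 * m + 1)) -
            ev (J k) (E l m)) * star (v k) := by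
        show v k * ev (J k) (E (l + 1) (2 * m)) * star (v k) +
          v k * ev (J k) (E (l + 1) (2 * m + 1)) * star (v k) -
          v k * ev (J k) (E l m) * star (v k) - 0 = _
        noncomm_ring
      rw [e1, n2_conj hτ (hvU k)]
      exact ((hJ k).1 l hk m hm).2.2.2
    exact sub_eq_zero.1 (hτ.T2_unique (M := ⊤) trivial trivial b1 b2)
  have hgτ : ∀ l m, m < 2 ^ l → (τ (g l m)).re = (τ z).re / 2 ^ l := by
    intro l m hm
    have b1 := (Complex.continuous_re.tendsto _).comp ((hg l m hm).tendsto_f hτ.one)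
    have b2 : Tendsto (fun k => (τ (w l m k)).re) atTop (𝓝 ((τ z).re / 2 ^ l)) := by
      rw [tendsto_iff_dist_tendsto_zero]
      refine squeeze_zero' (Eventually.of_forall fun _ => dist_nonneg) ?_ tendsto_half_pow
      filter_upwards [eventually_ge_atTop l] with k hk
      rw [Real.dist_eq]
      have e1 : τ (w l m k) = τ (ev (J k) (E l m)) := by
        show τ (v k * ev (J k) (E l m) * star (v k)) = _
        rw [hτ.comm _ trivial _ trivial, ← mul_assoc, (hvU k).1, one_mul]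
      rw [e1]
      exact ((hJ k).1 l hk m hm).2.2.1
    exact tendsto_nhds_unique b1 b2
  have h00 : (0 : ℕ) < 2 ^ 0 := by norm_num
  have hzle : (τ z).re ≤ 1 := by
    have := TrAlg.f_re_mono (f := τ) hzP.le_one
    rwa [hτ.one, Complex.one_re] at this
  have hT : Tree τ (g 0 0) g :=
    { pjz := hgP 0 0 h00
      pj := fun k i hi => hgP k i hi
      root := rfl
      sum := hgsum
      mesh := by
        intro ε hε
        obtain ⟨k, hk⟩ := (tendsto_half_pow.eventually (gt_mem_nhds hε)).exists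
        refine ⟨k, fun i hi => ?_⟩
        rw [hgτ k i hi]
        have h5 : (0 : ℝ) < (1 / 2) ^ k := by positivity
        have h6 : (τ z).re / 2 ^ k = (τ z).re * (1 / 2) ^ k := by
          rw [one_div, inv_pow, div_eq_mul_inv]
        rw [h6]
        nlinarith }
  -- commutation
  have hθg : ∀ a ∈ F, ∀ l m, m < 2 ^ l → θ a * g l m = g l m * θ a := by
    intro a ha l m hm
    have b1 := hτ.T2_mul (M := ⊤) (fun _ => trivial) trivial trivial (C := ‖a‖) (by
      intro k
      calc ‖v k * a * star (v k)‖ ≤ ‖v k * a‖ * ‖star (v k)‖ := norm_mul_le _ _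
        _ ≤ (‖v k‖ * ‖a‖) * ‖star (v k)‖ := by
          gcongr; exact norm_mul_le _ _
        _ ≤ (1 * ‖a‖) * 1 := by
          gcongr
          · exact (hvU k).norm_le
          · rw [norm_star]; exact (hvU k).norm_le
        _ = ‖a‖ := by ring) (hθ a ha) (hg l m hm)
    have b2 := hτ.T2_mul (M := ⊤) (fun _ => trivial) trivial trivial (hwn l m) (hg l m hm)
      (hθ a ha)
    have b3 : T2 τ atTop (fun k => v k * a * star (v k) * w l m k -
        w l m k * (v k * a * star (v k))) 0 := by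
      apply T2.of_half l
      intro k hk
      have e1 : v k * a * star (v k) * w l m k - w l m k * (v k * a * star (v k)) - 0 =
          -(v k * (ev (J k) (E l m) * a - a * ev (J k) (E l m)) * star (v k)) := by
        show v k * a * star (v k) * (v k * ev (J k) (E l m) * star (v k)) -
          v k * ev (J k) (E l m) * star (v k) * (v k * a * star (v k)) - 0 = _
        have e2 : v k * a * star (v k) * (v k * ev (J k) (E l m) * star (v k)) =
            v k * a * (star (v k) * v k) * ev (J k) (E l m) * star (v k) := by noncomm_ring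
        have e3 : v k * ev (J k) (E l m) * star (v k) * (v k * a * star (v k)) =
            v k * ev (J k) (E l m) * (star (v k) * v k) * a * star (v k) := by noncomm_ring
        rw [e2, e3, (hvU k).1]; noncomm_ring
      rw [e1, n2_neg, n2_conj hτ (hvU k)]
      exact (le_dF ha _).trans ((hJ k).1 l hk m hm).1
    exact sub_eq_zero.1 (hτ.T2_unique (M := ⊤) trivial trivial (b1.sub b2) b3)
  -- the functionals
  obtain ⟨φ, hφ1, hφ2⟩ := hO (g 0 0) g hT
  have hz'P := hgP 0 0 h00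
  intro ε hε
  have hevF : ∀ᶠ k in atTop, ∀ a ∈ F, n2 τ (v k * a * star (v k) - θ a) < ε / 2 := by
    apply (Finset.eventually_all F).2
    intro a ha
    exact (hθ a ha).eventually (gt_mem_nhds (by positivity))
  have hevZ : ∀ᶠ k in atTop, n2 τ (w 0 0 k - g 0 0) < ε / 2 :=
    (hg 0 0 h00).eventually (gt_mem_nhds (by positivity))
  obtain ⟨k, hk1, hk2, hk3⟩ := (hevF.and (hevZ.and
    (tendsto_half_pow.eventually (gt_mem_nhds (show (0 : ℝ) < ε / 2 by positivity))))).exists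
  refine ⟨cj φ (j (v k)), fun x => ?_, fun a ha T => ?_⟩
  · have e1 : cj φ (j (v k)) (j x) = τ (star (v k) * g 0 0 * v k * x) := by
      rw [cj_apply, ← map_star, ← map_mul, ← map_mul, hφ1]
      calc τ (g 0 0 * (v k * x * star (v k))) = τ ((g 0 0 * v k * x) * star (v k)) := by
            congr 1; noncomm_ring
        _ = τ (star (v k) * (g 0 0 * v k * x)) := hτ.comm _ trivial _ trivial
        _ = _ := by congr 1; noncomm_ring
    have e2 : cj φ (j (v k)) (j x) - τ (z * x) = τ ((star (v k) * g 0 0 * v k - z) * x) := by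
      rw [e1, sub_mul, map_sub]
    rw [e2]
    refine (norm_f_mul_le _ _).trans ?_
    rw [hτ.n2_star trivial]
    apply mul_le_mul _ (n2_le_norm hτ.one x) (n2_nonneg _) hε.le
    have e3 : star (v k) * g 0 0 * v k - z =
        star (v k) * (g 0 0 - v k * z * star (v k)) * star (star (v k)) := by
      rw [star_star]
      have : star (v k) * (g 0 0 - v k * z * star (v k)) * v k =
          star (v k) * g 0 0 * v k - (star (v k) * v k) * z * (star (v k) * v k) := by
        noncomm_ring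
      rw [this, (hvU k).1]; noncomm_ring
    rw [e3, n2_conj hτ (hvU k).star]
    refine (n2_sub_le_add _ (w 0 0 k) _).trans ?_
    rw [n2_sub_comm] at hk2
    have e4 : w 0 0 k - v k * z * star (v k) = v k * (ev (J k) (E 0 0) - z) * star (v k) := by
      show v k * ev (J k) (E 0 0) * star (v k) - _ = _
      noncomm_ring
    have h5 : n2 τ (w 0 0 k - v k * z * star (v k)) ≤ (1 / 2) ^ k := by
      rw [e4, n2_conj hτ (hvU k)]
      exact (hJ k).2
    linarith
  · have hja : j a = star (j (v k)) * j (v k * a * star (v k)) * j (v k) := by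
      rw [← map_star, ← map_mul, ← map_mul]
      congr 1
      have : star (v k) * (v k * a * star (v k)) * v k =
          (star (v k) * v k) * a * (star (v k) * v k) := by noncomm_ring
      rw [this, (hvU k).1]; noncomm_ring
    have hjv : j (v k) * star (j (v k)) = 1 := by
      rw [← map_star, ← map_mul, (hvU k).2, map_one]
    set T' : B := j (v k) * T * star (j (v k)) with hT'
    have e1 : cj φ (j (v k)) (j a * T) = φ (j (v k * a * star (v k)) * T') := by
      rw [cj_apply, hja, hT']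
      congr 1
      calc j (v k) * (star (j (v k)) * j (v k * a * star (v k)) * j (v k) * T) * star (j (v k))
          = (j (v k) * star (j (v k))) * j (v k * a * star (v k)) *
            (j (v k) * T * star (j (v k))) := by noncomm_ring
        _ = _ := by rw [hjv, one_mul]
    have e2 : cj φ (j (v k)) (T * j a) = φ (T' * j (v k * a * star (v k))) := by
      rw [cj_apply, hja, hT']
      congr 1
      calc j (v k) * (T * (star (j (v k)) * j (v k * a * star (v k)) * j (v k))) * star (j (v k))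
          = (j (v k) * T * star (j (v k))) * j (v k * a * star (v k)) *
            (j (v k) * star (j (v k))) := by noncomm_ring
        _ = _ := by rw [hjv, mul_one]
    rw [e1, e2]
    set z' := g 0 0 with hz'
    have hc := hθg a ha 0 0 h00
    refine (approx_comm hτ hz'P hφ1 (v k * a * star (v k)) (z' * θ a) (hφ2 (z' * θ a) (by
      rw [← mul_assoc, hz'P.2]) (by
      rw [mul_assoc, hc, ← mul_assoc, hz'P.2]) (by
      intro l m hm
      have c1 := hθg a ha l m hm
      have c2 := hT.mul_sum_self l hm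
      rw [mul_assoc, c1, ← mul_assoc, c2.2, ← mul_assoc, c2.1])) T').trans ?_
    have hT'n : ‖T'‖ ≤ ‖T‖ := by
      have hjn : ‖j (v k)‖ ≤ 1 := (Un.norm_le ⟨by
        rw [← map_star, ← map_mul, (hvU k).1, map_one], hjv⟩)
      calc ‖T'‖ ≤ ‖j (v k) * T‖ * ‖star (j (v k))‖ := norm_mul_le _ _
        _ ≤ (‖j (v k)‖ * ‖T‖) * ‖star (j (v k))‖ := by
          gcongr; exact norm_mul_le _ _
        _ ≤ (1 * ‖T‖) * 1 := by
          gcongr
          rw [norm_star]; exact hjn
        _ = ‖T‖ := by ring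
    have b0 := hk1 a ha
    have b1 : n2 τ (z' * (v k * a * star (v k) - z' * θ a)) ≤ ε / 2 := by
      have : z' * (v k * a * star (v k) - z' * θ a) = z' * (v k * a * star (v k) - θ a) := by
        rw [mul_sub, mul_sub, ← mul_assoc z' z', hz'P.2]
      rw [this]
      calc _ ≤ ‖z'‖ * n2 τ (v k * a * star (v k) - θ a) := n2_mul_le _ _
        _ ≤ 1 * (ε / 2) := mul_le_mul hz'P.norm_le b0.le (n2_nonneg _) zero_le_one
        _ = ε / 2 := one_mul _
    have b2 : n2 τ ((v k * a * star (v k) - z' * θ a) * z') ≤ ε / 2 := by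
      have : (v k * a * star (v k) - z' * θ a) * z' = (v k * a * star (v k) - θ a) * z' := by
        rw [sub_mul, sub_mul, mul_assoc z' (θ a), hc, ← mul_assoc, hz'P.2]
      rw [this]
      calc _ ≤ n2 τ (v k * a * star (v k) - θ a) * ‖z'‖ := hτ.n2_mul_le' trivial trivial
        _ ≤ (ε / 2) * 1 := mul_le_mul b0.le hz'P.norm_le (norm_nonneg _) (by positivity)
        _ = ε / 2 := mul_one _
    have b3 : n2 τ (z' * (v k * a * star (v k) - z' * θ a)) +
        n2 τ ((v k * a * star (v k) - z' * θ a) * z') ≤ ε := by linarith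
    exact mul_le_mul b3 hT'n (norm_nonneg _) hε.le

end Pool.Agent.Lib.MP_f5929e_an
end

section

/-!
The unit is good; compactness.
-/

namespace Pool.Agent.Lib.MP_f5929e_an

set_option linter.unusedSectionVars false

open scoped ComplexOrder InnerProductSpace
open Filter Topology

section Closed

variable {𝔸 : Type*} [CStarAlgebra 𝔸] [PartialOrder 𝔸] [StarOrderedRing 𝔸] {f : 𝔸 →ₚ[ℂ] ℂ}
  {M M' : StarSubalgebra ℂ 𝔸}

theorem TrAlg.mem_of_T2 (hM' : TrAlg f M') (hM : TrAlg f M) (hle : M ≤ M') {u : ℕ → 𝔸} {C : ℝ}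
    (hu : ∀ n, u n ∈ M) (hC : ∀ n, ‖u n‖ ≤ C) {x : 𝔸} (hx : x ∈ M') (h : T2 f atTop u x) :
    x ∈ M := by
  obtain ⟨y, hy, _, hyT⟩ := hM.complete u C hu hC (by
    intro ε hε
    obtain ⟨n₀, hn₀⟩ := eventually_atTop.1 (h.eventually (gt_mem_nhds (show (0 : ℝ) < ε / 2 by
      positivity)))
    refine ⟨n₀, fun m hm n hn => ?_⟩
    refine (n2_sub_le_add _ x _).trans ?_
    have h1 := hn₀ m hm
    have h2 := hn₀ n hn
    rw [n2_sub_comm] at h2
    linarith)
  have : x = y := hM'.T2_unique hx (hle hy) h hyT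
  rw [this]; exact hy

end Closed

variable {A : Type*} [CStarAlgebra A] [PartialOrder A] [StarOrderedRing A]
  {B : Type*} [CStarAlgebra B] [PartialOrder B] [StarOrderedRing B]
  {τ : A →ₚ[ℂ] ℂ} {U : Ultrafilter ℕ} {j : A →⋆ₐ[ℂ] B} {F : Finset A}

theorem good_one (hτ : TrAlg τ ⊤) (hU : (U : Filter ℕ) ≤ atTop)
    (hfac : TrAlg.MinC (⊤ : StarSubalgebra ℂ A) 1) (hF : ∀ a ∈ F, star a ∈ F)
    (hO : OracleH j τ) (hs : Splits (QQ τ U F) 1) : Gd j τ F 1 := by
  have hTU := trAlg_UP hτ hU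
  have hTZ : TrAlg (om τ U) (ZQ τ U F) := trAlg_ZQ hτ hU
  have hinj : ∀ x y : A, io τ U x = io τ U y → x = y := by
    intro x y h
    apply hτ.eq_of_n2 trivial trivial
    rw [← n2_io (U := U), map_sub, h, sub_self, n2_zero]
  let X := {z : A // Pj z ∧ io τ U z ∈ ZQ τ U F ∧ Gd j τ F z}
  obtain ⟨⟨z, hzP, hzZ, hzG⟩, _, hmax⟩ := exhaust (X := X) (fun x y => x.1 * y.1 = x.1)
    (fun x => x.2.1.2) (fun x y z h1 h2 => by
      show x.1 * z.1 = x.1
      rw [← h1, mul_assoc, h2]) (fun x => (τ x.1).re)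
    (fun x y h => TrAlg.f_re_mono (pj_le y.2.1 x.2.1 h)) 1
    (fun x => by
      have := TrAlg.f_re_mono (f := τ) x.2.1.le_one
      rwa [hτ.one, Complex.one_re] at this)
    (fun u hu => by
      obtain ⟨q, hq, hqP, huq, hle'⟩ := hτ.exists_sup_seq (fun n => (u n).1) (fun n => trivial)
        (fun n => (u n).2.1) hu
      refine ⟨⟨q, hqP, ?_, ?_⟩, hle'⟩
      · refine hTU.mem_of_T2 hTZ (ZQ_le.trans QQ_le) (u := fun n => io τ U (u n).1) (C := 1)
          (fun n => (u n).2.2.1) (fun n => ((u n).2.1.map _).norm_le) (io_mem q) ?_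
        unfold T2
        refine Tendsto.congr (fun n => ?_) huq
        rw [← map_sub, n2_io]
      · exact Gd.of_T2 hτ (fun n => (u n).2.2.2) huq)
    ⟨0, Pj.zero, by rw [map_zero]; exact zero_mem _, Gd.zero⟩
  by_cases h0 : 1 - z = 0
  · have : z = 1 := (sub_eq_zero.1 h0).symm
    rwa [this] at hzG
  have hz₀P : Pj (1 - z) := hzP.compl
  have hz₀Z : io τ U (1 - z) ∈ ZQ τ U F := by
    rw [map_sub, map_one]; exact sub_mem (one_mem _) hzZ
  by_cases hsp : Splits (ZQ τ U F) (io τ U (1 - z))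
  · have h1 := hzG.add (good_of_splits hτ hU hfac hF hO hz₀P hz₀Z hsp)
    rwa [add_sub_cancel] at h1
  · exfalso
    unfold Splits at hsp
    push Not at hsp
    obtain ⟨p, hp, hpP, hpz, hp0, hmin⟩ := hsp
    have hpC := ZQ_comm hp
    have hMin : TrAlg.MinC (QQ τ U F) p :=
      { mem := ZQ_le hp
        pj := hpP
        comm := hpC
        ne := hp0
        min := by
          intro w hw hwP hwc hwp
          by_cases hw0 : w = 0
          · exact Or.inl hw0
          · exact Or.inr (hmin w (mem_ZQ.2 ⟨hw, hwc⟩) hwP hwp hw0) }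
    obtain ⟨a, haP, hap⟩ := atom_mem hτ hU hfac hF hMin
    have haG : Gd j τ F a := by
      rw [← hap] at hMin
      exact good_of_minimal hτ hU hfac hF hO haP hMin (hs.of_le (mul_one _))
    have haz : a * (1 - z) = a := by
      apply hinj
      rw [map_mul, hap, hpz]
    have haz0 : a * z = 0 := by
      rw [mul_sub, mul_one] at haz
      exact sub_eq_self.1 haz
    have hza0 : z * a = 0 := by
      have := congrArg star haz0
      rwa [star_mul, haP.1, hzP.1, star_zero] at this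
    have h2 := hmax ⟨z + a, hzP.add haP hza0, by
      rw [map_add, hap]; exact add_mem hzZ hp, hzG.add haG⟩ (by
        show z * (z + a) = z
        rw [mul_add, hzP.2, hza0, add_zero])
    have h3 : (τ (z + a)).re = (τ z).re := h2
    rw [map_add, Complex.add_re] at h3
    have h4 := hτ.f_pos_of_ne (p := a) trivial haP (by
      intro h5
      apply hp0
      rw [← hap, h5, map_zero])
    linarith

/-- limits of bounded families of positive functionals -/
theorem exists_limit_fun {I : Type*} (W : Ultrafilter I) (φ : I → B →ₚ[ℂ] ℂ) (C : ℝ)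
    (h : ∀ i T, ‖φ i T‖ ≤ C * ‖T‖) :
    ∃ ψ : B →ₚ[ℂ] ℂ, ∀ T, Tendsto (fun i => φ i T) W (𝓝 (ψ T)) := by
  have hlim : ∀ T, ∃ x, Tendsto (fun i => φ i T) W (𝓝 x) := by
    intro T
    have h1 : (W.map (fun i => φ i T) : Filter ℂ) ≤ 𝓟 (Metric.closedBall 0 (C * ‖T‖)) := by
      rw [le_principal_iff]
      exact Filter.mem_map.2 (univ_mem' fun i => by simpa using h i T)
    obtain ⟨x, _, hx⟩ := (isCompact_closedBall (0 : ℂ) (C * ‖T‖)).ultrafilter_le_nhds
      (W.map (fun i => φ i T)) h1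
    exact ⟨x, hx⟩
  choose ψ hψ using hlim
  refine ⟨PositiveLinearMap.mk₀
    { toFun := ψ
      map_add' := fun S T => by
        refine tendsto_nhds_unique (hψ (S + T)) (((hψ S).add (hψ T)).congr fun i => ?_)
        rw [map_add]
      map_smul' := fun c T => by
        refine tendsto_nhds_unique (hψ (c • T)) (((hψ T).const_mul c).congr fun i => ?_)
        rw [map_smul, smul_eq_mul] }
    (fun T hT => ge_of_tendsto (hψ T) (Eventually.of_forall fun i => f_nonneg hT)), fun T => hψ T⟩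

theorem norm_fun_le (φ : B →ₚ[ℂ] ℂ) (T : B) : ‖φ T‖ ≤ (φ 1).re * ‖T‖ := by
  have h1 := norm_f_mul_le (f := φ) 1 T
  rw [one_mul, star_one] at h1
  have h2 : n2 φ (T * 1) ≤ ‖T‖ * n2 φ 1 := n2_mul_le T 1
  rw [mul_one] at h2
  have h3 : n2 φ (1 : B) ^ 2 = (φ 1).re := by rw [n2_sq_re, star_one, one_mul]
  calc ‖φ T‖ ≤ n2 φ 1 * n2 φ T := h1
    _ ≤ n2 φ 1 * (‖T‖ * n2 φ 1) := mul_le_mul_of_nonneg_left h2 (n2_nonneg _)
    _ = (φ 1).re * ‖T‖ := by rw [← h3]; ring

/-- compactness -/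
theorem exists_central (hτ : TrAlg τ ⊤) (S : Set A) (hS : ∀ a ∈ S, star a ∈ S)
    (h : ∀ F : Finset A, (F : Set A) ⊆ S → (∀ a ∈ F, star a ∈ F) → Gd j τ F 1) :
    ∃ φ : B →ₚ[ℂ] ℂ, (∀ x, φ (j x) = τ x) ∧ ∀ a ∈ S, ∀ T, φ (j a * T) = φ (T * j a) := by
  classical
  have hex : ∀ i : Finset S × ℕ, ∃ φ : B →ₚ[ℂ] ℂ,
      (∀ x, ‖φ (j x) - τ x‖ ≤ 1 / ((i.2 : ℝ) + 1) * ‖x‖) ∧
      ∀ a ∈ i.1, ∀ T, ‖φ (j a * T) - φ (T * j a)‖ ≤ 1 / ((i.2 : ℝ) + 1) * ‖T‖ := by
    intro i
    set F : Finset A := i.1.image (fun a => a.1) ∪ i.1.image (fun a => star a.1) with hF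
    obtain ⟨φ, h1, h2⟩ := h F (by
      intro x hx
      rw [hF, Finset.coe_union, Finset.coe_image, Finset.coe_image] at hx
      rcases hx with ⟨a, _, rfl⟩ | ⟨a, _, rfl⟩
      · exact a.2
      · exact hS _ a.2) (by
      intro x hx
      rw [hF, Finset.mem_union, Finset.mem_image, Finset.mem_image] at hx ⊢
      rcases hx with ⟨a, ha, rfl⟩ | ⟨a, ha, rfl⟩
      · exact Or.inr ⟨a, ha, rfl⟩
      · exact Or.inl ⟨a, ha, by rw [star_star]⟩) (1 / ((i.2 : ℝ) + 1)) (by positivity)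
    refine ⟨φ, fun x => ?_, fun a ha T => h2 a.1 ?_ T⟩
    · have := h1 x
      rwa [one_mul] at this
    · rw [hF, Finset.mem_union, Finset.mem_image]
      exact Or.inl ⟨a, ha, rfl⟩
  choose φ hφ1 hφ2 using hex
  have hone : ‖(1 : A)‖ ≤ 1 := Un.one.norm_le
  have hbd : ∀ i T, ‖φ i T‖ ≤ 2 * ‖T‖ := by
    intro i T
    refine (norm_fun_le _ _).trans ?_
    have h1 := hφ1 i 1
    rw [map_one, hτ.one] at h1
    have h2 : 1 / ((i.2 : ℝ) + 1) ≤ 1 := by
      rw [div_le_one (by positivity)]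
      have : (0 : ℝ) ≤ i.2 := Nat.cast_nonneg _
      linarith
    have h3 : ‖φ i 1 - 1‖ ≤ 1 := h1.trans (by
      have : (0 : ℝ) ≤ ‖(1 : A)‖ := norm_nonneg _
      have h5 : (0 : ℝ) ≤ 1 / ((i.2 : ℝ) + 1) := by positivity
      nlinarith)
    have h4 : (φ i 1).re - 1 ≤ 1 := by
      have := (Complex.re_le_norm (φ i 1 - 1)).trans h3
      rwa [Complex.sub_re, Complex.one_re] at this
    exact mul_le_mul_of_nonneg_right (by linarith) (norm_nonneg _)
  set W : Ultrafilter (Finset S × ℕ) := Ultrafilter.of atTop with hW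
  have hWle : (W : Filter (Finset S × ℕ)) ≤ atTop := Ultrafilter.of_le _
  obtain ⟨ψ, hψ⟩ := exists_limit_fun W φ 2 hbd
  have hsmall : Tendsto (fun i : Finset S × ℕ => 1 / ((i.2 : ℝ) + 1)) W (𝓝 0) := by
    have h1 : Tendsto (fun i : Finset S × ℕ => i.2) W atTop := by
      have : Tendsto (fun i : Finset S × ℕ => i.2) atTop atTop := by
        rw [← prod_atTop_atTop_eq]
        exact tendsto_snd
      exact this.mono_left hWle
    exact tendsto_one_div_nat.comp h1
  refine ⟨ψ, fun x => ?_, fun a ha T => ?_⟩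
  · have h1 : Tendsto (fun i => φ i (j x)) W (𝓝 (τ x)) := by
      rw [tendsto_iff_norm_sub_tendsto_zero]
      have h2 := hsmall.mul_const ‖x‖
      rw [zero_mul] at h2
      exact squeeze_zero (fun i => norm_nonneg _) (fun i => hφ1 i x) h2
    exact tendsto_nhds_unique (hψ _) h1
  · have h1 : Tendsto (fun i => φ i (j a * T) - φ i (T * j a)) W (𝓝 0) := by
      rw [tendsto_zero_iff_norm_tendsto_zero]
      have h2 := hsmall.mul_const ‖T‖
      rw [zero_mul] at h2
      refine squeeze_zero' (Eventually.of_forall fun i => norm_nonneg _) ?_ h2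
      have h3 : ∀ᶠ i in (W : Filter (Finset S × ℕ)), ({⟨a, ha⟩}, 0) ≤ i :=
        hWle (eventually_ge_atTop _)
      filter_upwards [h3] with i hi
      have h4 : (⟨a, ha⟩ : S) ∈ i.1 := Finset.singleton_subset_iff.1 hi.1
      exact hφ2 i ⟨a, ha⟩ h4 T
    have h2 := (hψ (j a * T)).sub (hψ (T * j a))
    exact sub_eq_zero.1 (tendsto_nhds_unique h2 h1)

end Pool.Agent.Lib.MP_f5929e_an
end

section

/-!
The C*-algebra of a II₁ factor; what solidity gives for dyadic trees.
-/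

namespace Pool.Agent.Lib.MP_f5929e_an

set_option linter.unusedSectionVars false

open scoped ComplexOrder InnerProductSpace
open Filter Topology

variable {H : Type*} [NormedAddCommGroup H] [InnerProductSpace ℂ H] [CompleteSpace H]

/-! ### commutants of arbitrary sets -/

/-- the commutant of a set and its adjoints -/
noncomputable def vnComm (S : Set (H →L[ℂ] H)) : VonNeumannAlgebra H where
  toStarSubalgebra := StarSubalgebra.centralizer ℂ S
  centralizer_centralizer' := by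
    show Set.centralizer (Set.centralizer (Set.centralizer (S ∪ star S))) =
      Set.centralizer (S ∪ star S)
    exact Set.centralizer_centralizer_centralizer _

theorem mem_vnComm {S : Set (H →L[ℂ] H)} {x : H →L[ℂ] H} :
    x ∈ vnComm S ↔ ∀ s ∈ S, s * x = x * s ∧ star s * x = x * star s :=
  StarSubalgebra.mem_centralizer_iff ℂ

/-- the relative commutant `S' ∩ N` -/
noncomputable def rcN (N : VonNeumannAlgebra H) (S : Set (H →L[ℂ] H)) : VonNeumannAlgebra H :=
  vnComm (S ∪ (N.commutant : Set (H →L[ℂ] H)))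

theorem mem_rcN {N : VonNeumannAlgebra H} {S : Set (H →L[ℂ] H)} {x : H →L[ℂ] H} :
    x ∈ rcN N S ↔ x ∈ N ∧ ∀ s ∈ S, s * x = x * s ∧ star s * x = x * star s := by
  unfold rcN
  rw [mem_vnComm]
  constructor
  · intro h
    refine ⟨?_, fun s hs => h s (Or.inl hs)⟩
    rw [← VonNeumannAlgebra.commutant_commutant N, VonNeumannAlgebra.mem_commutant_iff]
    intro g hg
    exact (h g (Or.inr hg)).1
  · rintro ⟨hx, h⟩ s (hs | hs)
    · exact h s hs
    · refine ⟨?_, ?_⟩
      · exact (VonNeumannAlgebra.mem_commutant_iff.1 hs x hx).symm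
      · exact (VonNeumannAlgebra.mem_commutant_iff.1 (star_mem hs : star s ∈ N.commutant) x hx).symm

theorem rcN_le {N : VonNeumannAlgebra H} {S : Set (H →L[ℂ] H)} : rcN N S ≤ N :=
  fun _ hx => (mem_rcN.1 hx).1

/-! ### the C*-algebra `N` -/

/-- `N` as a type -/
def NN (N : VonNeumannAlgebra H) : Type _ := N.toStarSubalgebra

theorem isClosed_vn (N : VonNeumannAlgebra H) :
    IsClosed (N.toStarSubalgebra : Set (H →L[ℂ] H)) := by
  show IsClosed (N : Set (H →L[ℂ] H))
  rw [← VonNeumannAlgebra.centralizer_centralizer N]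
  exact Set.isClosed_centralizer _

noncomputable instance instNN (N : VonNeumannAlgebra H) : CStarAlgebra (NN N) :=
  StarSubalgebra.cstarAlgebra (A := H →L[ℂ] H) N.toStarSubalgebra (h_closed := isClosed_vn N)

noncomputable instance (N : VonNeumannAlgebra H) : PartialOrder (NN N) :=
  CStarAlgebra.spectralOrder (NN N)

instance (N : VonNeumannAlgebra H) : StarOrderedRing (NN N) :=
  CStarAlgebra.spectralOrderedRing (NN N)

/-- the inclusion -/
noncomputable def inc (N : VonNeumannAlgebra H) : NN N →⋆ₐ[ℂ] (H →L[ℂ] H) :=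
  N.toStarSubalgebra.subtype

/-- elements of `N` -/
def mkN {N : VonNeumannAlgebra H} (x : H →L[ℂ] H) (hx : x ∈ N) : NN N := ⟨x, hx⟩

theorem inc_mkN {N : VonNeumannAlgebra H} (x : H →L[ℂ] H) (hx : x ∈ N) :
    inc N (mkN x hx) = x := rfl

theorem inc_mem {N : VonNeumannAlgebra H} (x : NN N) : inc N x ∈ N := x.2

theorem inc_inj {N : VonNeumannAlgebra H} {x y : NN N} (h : inc N x = inc N y) : x = y :=
  Subtype.ext h

theorem norm_inc {N : VonNeumannAlgebra H} (x : NN N) : ‖inc N x‖ = ‖x‖ := rfl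

variable (N : VonNeumannAlgebra H) {ξ : ℕ → H} {hξ : Summable fun n => ‖ξ n‖ ^ 2}

/-- pullback of functionals -/
noncomputable def pullF {C D : Type*} [CStarAlgebra C] [PartialOrder C] [StarOrderedRing C]
    [CStarAlgebra D] [PartialOrder D] [StarOrderedRing D] (φ : D →ₚ[ℂ] ℂ) (j : C →⋆ₐ[ℂ] D) :
    C →ₚ[ℂ] ℂ :=
  PositiveLinearMap.mk₀
    { toFun := fun x => φ (j x)
      map_add' := fun x y => by rw [map_add, map_add]
      map_smul' := fun c x => by rw [map_smul, map_smul]; rfl }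
    (fun _ hx => f_nonneg (hom_nonneg j hx))

/-- the trace on `N` -/
noncomputable def tauN (ξ : ℕ → H) (hξ : Summable fun n => ‖ξ n‖ ^ 2) : NN N →ₚ[ℂ] ℂ :=
  pullF (theta ξ hξ) (inc N)

variable {N}

theorem tauN_apply (x : NN N) : tauN N ξ hξ x = theta ξ hξ (inc N x) := rfl

theorem n2_tauN (x : NN N) : n2 (tauN N ξ hξ) x = n2 (theta ξ hξ) (inc N x) := by
  have h1 : n2 (tauN N ξ hξ) x ^ 2 = n2 (theta ξ hξ) (inc N x) ^ 2 := by
    rw [n2_sq_re, n2_sq_re, tauN_apply, map_mul, map_star]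
  exact (sq_eq_sq₀ (n2_nonneg _) (n2_nonneg _)).1 h1

theorem Pj.of_inc {x : NN N} (h : Pj (inc N x)) : Pj x :=
  ⟨inc_inj (by rw [map_star, h.1]), inc_inj (by rw [map_mul, h.2])⟩

theorem trAlg_NN (hN : TrAlg (theta ξ hξ) N.toStarSubalgebra) : TrAlg (tauN N ξ hξ) ⊤ where
  one := by rw [tauN_apply, map_one, hN.one]
  comm x _ y _ := by
    rw [tauN_apply, tauN_apply, map_mul (inc N), map_mul (inc N)]
    exact hN.comm _ (inc_mem x) _ (inc_mem y)
  faithful x _ h := by
    rw [n2_tauN] at h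
    apply inc_inj
    rw [map_zero]
    exact hN.faithful _ (inc_mem x) h
  closed := isClosed_univ
  complete u C _ hC hcau := by
    obtain ⟨x, hx, hxC, hux⟩ := hN.complete (fun n => inc N (u n)) C (fun n => inc_mem (u n))
      (fun n => hC n) (by
        intro ε hε
        obtain ⟨n₀, h⟩ := hcau ε hε
        refine ⟨n₀, fun m hm n hn => ?_⟩
        rw [← map_sub, ← n2_tauN]
        exact h m hm n hn)
    refine ⟨mkN x hx, trivial, hxC, ?_⟩
    have h2 : Tendsto (fun n => n2 (theta ξ hξ) (inc N (u n) - x)) atTop (𝓝 0) := hux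
    show Tendsto (fun n => n2 (tauN N ξ hξ) (u n - mkN x hx)) atTop (𝓝 0)
    refine h2.congr fun n => ?_
    rw [n2_tauN, map_sub, inc_mkN]

theorem minC_NN (hN : TrAlg (theta ξ hξ) N.toStarSubalgebra)
    (hf : ∀ x ∈ N, (∀ y ∈ N, x * y = y * x) → ∃ c : ℂ, x = c • (1 : H →L[ℂ] H)) :
    TrAlg.MinC (⊤ : StarSubalgebra ℂ (NN N)) 1 where
  mem := trivial
  pj := Pj.one
  comm y _ := by rw [mul_one, one_mul]
  ne := by
    intro h0
    have := (trAlg_NN hN).one
    rw [h0, map_zero] at this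
    exact zero_ne_one this
  min w _ hwP hwc _ := by
    obtain ⟨c, hc⟩ := hf (inc N w) (inc_mem w) (fun y hy => by
      have h1 := hwc (mkN y hy) trivial
      have h2 := congrArg (inc N) h1
      rw [map_mul, map_mul, inc_mkN] at h2
      exact h2.symm)
    have h1 : inc N w * inc N w = inc N w := by rw [← map_mul, hwP.2]
    rw [hc, smul_mul_smul_comm, mul_one] at h1
    by_cases h0 : w = 0
    · exact Or.inl h0
    right
    have h2 : (c * c - c) • (1 : H →L[ℂ] H) = 0 := by rw [sub_smul, h1, sub_self]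
    rcases smul_eq_zero.1 h2 with h | h
    · have h3 : c * (c - 1) = 0 := by rw [mul_sub, mul_one]; exact h
      rcases mul_eq_zero.1 h3 with h | h
      · exfalso
        apply h0
        apply inc_inj
        rw [hc, h, zero_smul, map_zero]
      · apply inc_inj
        rw [hc, sub_eq_zero.1 h, one_smul, map_one]
    · exfalso
      apply h0
      apply inc_inj
      rw [hc, h, smul_zero, map_zero]

/-! ### trees from exact dyadic trees -/

theorem pj_iff {p : H →L[ℂ] H} : Pj p ↔ IsStarProjection p :=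
  ⟨fun h => ⟨h.2, h.1⟩, fun h => ⟨h.2, h.1⟩⟩

theorem TrAlg.exists_Tree {𝔸 : Type*} [CStarAlgebra 𝔸] [PartialOrder 𝔸] [StarOrderedRing 𝔸]
    {f : 𝔸 →ₚ[ℂ] ℂ} {M : StarSubalgebra ℂ 𝔸} (hM : TrAlg f M) {w : 𝔸} (hw : w ∈ M)
    (hwP : Pj w) (hs : Splits M w) : ∃ e : ℕ → ℕ → 𝔸, (∀ k i, e k i ∈ M) ∧ Tree f w e := by
  obtain ⟨e, h0, h1, h2, h3⟩ := hM.exists_dyadic hw hwP hs
  refine ⟨e, fun k i => (h1 k i).1, ⟨hwP, fun k i _ => (h1 k i).2, h0, fun k i _ => h2 k i, ?_⟩⟩
  intro ε hε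
  have h4 : Tendsto (fun k : ℕ => (f w).re / 2 ^ k) atTop (𝓝 0) :=
    tendsto_const_nhds.div_atTop (tendsto_pow_atTop_atTop_of_one_lt (by norm_num))
  obtain ⟨k, hk⟩ := (h4.eventually (gt_mem_nhds hε)).exists
  exact ⟨k, fun i hi => by rw [h3 k i hi]; exact hk.le⟩

theorem splits_of_isDiffuse {M : VonNeumannAlgebra H} (h : IsDiffuse (M : Set (H →L[ℂ] H))) :
    Splits M.toStarSubalgebra 1 := by
  intro p hp hpP _ hp0
  obtain ⟨q, hq, hqP, hqp, hq0, hqne⟩ := h p hp (pj_iff.1 hpP) hp0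
  exact ⟨q, hq, pj_iff.2 hqP, hqp, hq0, hqne⟩

theorem isDiffuse_of_splits {M : VonNeumannAlgebra H} {S : Set (H →L[ℂ] H)}
    (h : Splits M.toStarSubalgebra 1) (hS : ∀ x, x ∈ S ↔ x ∈ M) : IsDiffuse S := by
  intro p hp hpP hp0
  obtain ⟨q, hq, hqP, hqp, hq0, hqne⟩ := h p ((hS p).1 hp) (pj_iff.2 hpP) (mul_one _) hp0
  exact ⟨q, (hS q).2 hq, pj_iff.1 hqP, hqp, hq0, hqne⟩

theorem isExp_of {A : VonNeumannAlgebra H} {E : (H →L[ℂ] H) →ₗ[ℂ] (H →L[ℂ] H)}
    (h1 : ∀ T, E T ∈ A) (h2 : ∀ a ∈ A, E a = a)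
    (h3 : ∀ T : H →L[ℂ] H, T.IsPositive → (E T).IsPositive)
    (h4 : ∀ a ∈ A, ∀ T, E (a * T) = a * E T ∧ E (T * a) = E T * a) :
    IsExp A.toStarSubalgebra E where
  mem := h1
  id := h2
  pos T hT := by
    rw [ContinuousLinearMap.nonneg_iff_isPositive] at hT ⊢
    exact h3 T hT
  left a ha T := (h4 a ha T).1
  right a ha T := (h4 a ha T).2

theorem isAmenable_of {A : VonNeumannAlgebra H} {E : (H →L[ℂ] H) →ₗ[ℂ] (H →L[ℂ] H)}
    (h : IsExp A.toStarSubalgebra E) : IsAmenable A :=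
  ⟨E, h.mem, h.id, fun T hT => by
    rw [← ContinuousLinearMap.nonneg_iff_isPositive] at hT ⊢
    exact h.pos T hT, fun a ha T => ⟨h.left a ha T, h.right a ha T⟩⟩

/-! ### the oracle -/

theorem oracle (h1 : theta ξ hξ 1 = 1)
    (hf : ∀ x ∈ N, (∀ y ∈ N, x * y = y * x) → ∃ c : ℂ, x = c • (1 : H →L[ℂ] H))
    (hc : ∀ x ∈ N, ∀ y ∈ N, theta ξ hξ (x * y) = theta ξ hξ (y * x))
    (hdiff : IsDiffuse (N : Set (H →L[ℂ] H))) (hsol : IsSolid N) :
    OracleH (inc N) (tauN N ξ hξ) := by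
  intro z g hg
  have hN : TrAlg (theta ξ hξ) N.toStarSubalgebra := trAlg_vn h1 hf hc le_rfl
  set z' := inc N z with hz'
  have hz'P : Pj z' := hg.pjz.map _
  set S : Set (H →L[ℂ] H) := {s | (∃ k i, i < 2 ^ k ∧ inc N (g k i) = s) ∨
    ∃ y ∈ N, (1 - z') * y * (1 - z') = s} with hS
  set D := rcN N S with hD
  have hDN : D ≤ N := rcN_le
  have hDA : TrAlg (theta ξ hξ) D.toStarSubalgebra := trAlg_vn h1 hf hc hDN
  set R := rcN N (D : Set (H →L[ℂ] H)) with hR
  have hRA : TrAlg (theta ξ hξ) R.toStarSubalgebra := trAlg_vn h1 hf hc rcN_le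
  have hz'N : z' ∈ N := inc_mem z
  have hSR : ∀ s ∈ S, s ∈ N → s ∈ R := by
    intro s hs hsN
    rw [hR, mem_rcN]
    refine ⟨hsN, fun d hd => ?_⟩
    have h2 := (mem_rcN.1 hd).2 s hs
    have hd' : star d ∈ D := star_mem hd
    have h3 := (mem_rcN.1 hd').2 s hs
    exact ⟨h2.1.symm, h3.1.symm⟩
  have hzc : Pj (1 - z') := hz'P.compl
  have hzcN : 1 - z' ∈ N := sub_mem (one_mem _) hz'N
  obtain ⟨e, heN, heT⟩ := hN.exists_Tree (w := 1 - z') hzcN hzc
    ((splits_of_isDiffuse hdiff).of_le (mul_one _))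
  have hRsplit : Splits R.toStarSubalgebra 1 := by
    apply hRA.splits_of_partitions
    intro ε hε
    obtain ⟨k, hk⟩ := hg.mesh ε hε
    obtain ⟨l, hl⟩ := heT.mesh ε hε
    refine ⟨2 ^ k + 2 ^ l, fun i => if i < 2 ^ k then inc N (g k i) else e l (i - 2 ^ k), ?_, ?_⟩
    · intro i hi
      by_cases hik : i < 2 ^ k
      · simp only [hik, if_true]
        refine ⟨hSR _ (Or.inl ⟨k, i, hik, rfl⟩) (inc_mem _), (hg.pj k i hik).map _, ?_⟩
        exact hk i hik
      · simp only [hik, if_false]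
        have hi' : i - 2 ^ k < 2 ^ l := by omega
        refine ⟨hSR _ (Or.inr ⟨e l (i - 2 ^ k), heN _ _, ?_⟩) (heN _ _), heT.pj l _ hi', hl _ hi'⟩
        obtain ⟨a1, a2⟩ := heT.mul_sum_self l hi'
        rw [mul_assoc, a1, a2]
    · rw [Finset.sum_range_add]
      have e1 : ∑ i ∈ Finset.range (2 ^ k), (if i < 2 ^ k then inc N (g k i) else e l (i - 2 ^ k)) =
          z' := by
        have e3 : ∑ i ∈ Finset.range (2 ^ k), inc N (g k i) = z' := by
          rw [← map_sum, hg.total k]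
        rw [← e3]
        apply Finset.sum_congr rfl
        intro i hi
        rw [if_pos (Finset.mem_range.1 hi)]
      have e2 : ∑ i ∈ Finset.range (2 ^ l),
          (if 2 ^ k + i < 2 ^ k then inc N (g k (2 ^ k + i)) else e l (2 ^ k + i - 2 ^ k)) =
          1 - z' := by
        rw [← heT.total l]
        apply Finset.sum_congr rfl
        intro i _
        rw [if_neg (by omega), Nat.add_sub_cancel_left]
      rw [e1, e2, add_sub_cancel]
  have hdiffD : IsDiffuse {x | x ∈ N ∧ ∀ a ∈ D, a * x = x * a} := by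
    apply isDiffuse_of_splits hRsplit
    intro x
    rw [hR, mem_rcN]
    constructor
    · rintro ⟨hx, h⟩
      exact ⟨hx, fun d hd => ⟨h d hd, h _ (star_mem (hd : d ∈ D))⟩⟩
    · rintro ⟨hx, h⟩
      exact ⟨hx, fun d hd => (h d hd).1⟩
  obtain ⟨E, hE1, hE2, hE3, hE4⟩ := hsol D hDN hdiffD
  obtain ⟨φ, hφ1, hφ2⟩ := exists_central_of_exp hN hDA hDN
    (fun η hη => vn_Bd_dens h1 hf hc hDN η hη) (isExp_of hE1 hE2 hE3 hE4)
  refine ⟨cj φ z', fun x => ?_, fun x hzx hxz hxg T => ?_⟩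
  · rw [cj_apply, hz'P.1, hφ1 _ (mul_mem (mul_mem hz'N (inc_mem x)) hz'N),
      hc _ (mul_mem hz'N (inc_mem x)) _ hz'N, ← mul_assoc, hz'P.2, tauN_apply, map_mul (inc N)]
  · set X := inc N x with hX
    have hzX : z' * X = X := by rw [hX, hz', ← map_mul, hzx]
    have hXz : X * z' = X := by rw [hX, hz', ← map_mul, hxz]
    have hXD : X ∈ D := by
      rw [hD, mem_rcN]
      refine ⟨inc_mem x, ?_⟩
      rintro s (⟨k, i, hi, rfl⟩ | ⟨y, hy, rfl⟩)
      · have h2 : inc N (g k i) * X = X * inc N (g k i) := by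
          rw [hX, ← map_mul, ← map_mul, hxg k i hi]
        refine ⟨h2, ?_⟩
        have h3 : star (inc N (g k i)) = inc N (g k i) := ((hg.pj k i hi).map (inc N)).1
        rw [h3]; exact h2
      · have h2 : (1 - z') * X = 0 := by rw [sub_mul, one_mul, hzX, sub_self]
        have h3 : X * (1 - z') = 0 := by rw [mul_sub, mul_one, hXz, sub_self]
        constructor
        · rw [mul_assoc, h2, mul_zero, ← mul_assoc, ← mul_assoc, h3, zero_mul, zero_mul]
        · rw [star_mul, star_mul, hzc.1, mul_assoc (1 - z'), mul_assoc (star y), h2, mul_zero,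
            mul_zero, ← mul_assoc X, h3, zero_mul]
    rw [cj_apply, cj_apply, hz'P.1]
    have e1 : z' * (X * T) * z' = X * (z' * T * z') := by
      calc z' * (X * T) * z' = (z' * X) * T * z' := by noncomm_ring
        _ = (X * z') * T * z' := by rw [hzX, hXz]
        _ = _ := by noncomm_ring
    have e2 : z' * (T * X) * z' = (z' * T * z') * X := by
      calc z' * (T * X) * z' = z' * T * (X * z') := by noncomm_ring
        _ = z' * T * (z' * X) := by rw [hzX, hXz]
        _ = _ := by noncomm_ring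
    rw [e1, e2]
    exact hφ2 X hXD _

end Pool.Agent.Lib.MP_f5929e_an
end

section

/-!
Solidity and ultrapower solidity are equivalent.
-/

namespace Pool.Agent.Lib.MP_f5929e_an

set_option linter.unusedSectionVars false

open scoped ComplexOrder InnerProductSpace
open Filter Topology

variable {H : Type*} [NormedAddCommGroup H] [InnerProductSpace ℂ H] [CompleteSpace H]
  {N : VonNeumannAlgebra H} {ξ : ℕ → H} {hξ : Summable fun n => ‖ξ n‖ ^ 2}
  {τ : (H →L[ℂ] H) → ℂ} {U : Ultrafilter ℕ}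

theorem norm2_eq (hτ : ∀ x ∈ N, τ x = theta ξ hξ x) (x : NN N) :
    norm2 τ (inc N x) = n2 (tauN N ξ hξ) x := by
  unfold norm2
  rw [hτ _ (mul_mem (star_mem (inc_mem x)) (inc_mem x)), ← n2_sq_re, n2_tauN,
    Real.sqrt_sq (n2_nonneg _)]

/-- the sequence of operators of a bounded sequence in `N` -/
noncomputable def sq (X : Ell (NN N)) : ℕ → H →L[ℂ] H := fun n => inc N (ev n X)

theorem EqU_iff (hτ : ∀ x ∈ N, τ x = theta ξ hξ x) (hT : TrAlg (tauN N ξ hξ) ⊤)
    (hU : (U : Filter ℕ) ≤ atTop) (X Y : Ell (NN N)) :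
    EqU τ U (sq X) (sq Y) ↔ pi' (tauN N ξ hξ) U X = pi' (tauN N ξ hξ) U Y := by
  rw [pi_eq_iff hT hU]
  unfold EqU sq
  have : (fun n => norm2 τ (inc N (ev n X) - inc N (ev n Y))) =
      fun n => n2 (tauN N ξ hξ) (ev n X - ev n Y) := by
    funext n
    rw [← map_sub, norm2_eq hτ]
  rw [this]

theorem exists_sq {x : ℕ → H →L[ℂ] H} (hx : IsBddSeq N x) : ∃ X : Ell (NN N), sq X = x := by
  obtain ⟨h, C, hC⟩ := hx
  exact ⟨mkE (fun n => mkN (x n) (h n)) C hC, rfl⟩

theorem bdd_sq (X : Ell (NN N)) : IsBddSeq N (sq X) :=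
  ⟨fun n => inc_mem _, ‖X‖, fun n => by
    show ‖inc N (ev n X)‖ ≤ ‖X‖
    rw [norm_inc]
    exact norm_ev_le X n⟩

/-- `A' ∩ N^U` -/
noncomputable def MA (N : VonNeumannAlgebra H) (ξ : ℕ → H) (hξ : Summable fun n => ‖ξ n‖ ^ 2)
    (U : Ultrafilter ℕ) (A : VonNeumannAlgebra H) :
    StarSubalgebra ℂ (KK (tauN N ξ hξ) U →L[ℂ] KK (tauN N ξ hξ) U) :=
  rc (UP (tauN N ξ hξ) U) (io (tauN N ξ hξ) U '' {a | inc N a ∈ A})

theorem trAlg_MA (hT : TrAlg (tauN N ξ hξ) ⊤) (hU : (U : Filter ℕ) ≤ atTop)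
    (A : VonNeumannAlgebra H) : TrAlg (om (tauN N ξ hξ) U) (MA N ξ hξ U A) :=
  (trAlg_UP hT hU).rc (by rintro _ ⟨a, _, rfl⟩; exact io_mem a)

theorem mem_MA {A : VonNeumannAlgebra H} {X : Ell (NN N)} :
    pi' (tauN N ξ hξ) U X ∈ MA N ξ hξ U A ↔ ∀ a : NN N, inc N a ∈ A →
      pi' (tauN N ξ hξ) U (cst a * X) = pi' (tauN N ξ hξ) U (X * cst a) := by
  unfold MA
  rw [mem_rc]
  have h0 : ∀ a : NN N, io (tauN N ξ hξ) U a = pi' (tauN N ξ hξ) U (cst a) := fun a => rfl
  constructor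
  · rintro ⟨_, h⟩ a ha
    have := (h _ (Set.mem_image_of_mem _ ha)).1
    rw [h0, ← map_mul (pi' (tauN N ξ hξ) U) (cst a) X,
      ← map_mul (pi' (tauN N ξ hξ) U) X (cst a)] at this
    exact this
  · intro h
    refine ⟨pi_mem X, ?_⟩
    rintro _ ⟨a, ha, rfl⟩
    constructor
    · rw [h0, ← map_mul (pi' (tauN N ξ hξ) U) (cst a) X,
        ← map_mul (pi' (tauN N ξ hξ) U) X (cst a)]
      exact h a ha
    · rw [← map_star, h0, ← map_mul (pi' (tauN N ξ hξ) U) (cst (star a)) X,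
        ← map_mul (pi' (tauN N ξ hξ) U) X (cst (star a))]
      exact h (star a) (by
        show inc N (star a) ∈ A
        rw [map_star]; exact star_mem ha)

theorem isProjU_iff (hτ : ∀ x ∈ N, τ x = theta ξ hξ x) (hT : TrAlg (tauN N ξ hξ) ⊤)
    (hU : (U : Filter ℕ) ≤ atTop) {A : VonNeumannAlgebra H} (hA : A ≤ N) (X : Ell (NN N)) :
    IsProjU N τ U A (sq X) ↔
      pi' (tauN N ξ hξ) U X ∈ MA N ξ hξ U A ∧ Pj (pi' (tauN N ξ hξ) U X) := by
  have e1 : (fun n => star (sq X n)) = sq (star X) := by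
    funext n
    show star (inc N (ev n X)) = inc N (ev n (star X))
    rw [map_star, map_star]
  have e2 : (fun n => sq X n * sq X n) = sq (X * X) := by
    funext n
    show inc N (ev n X) * inc N (ev n X) = inc N (ev n (X * X))
    rw [map_mul, map_mul]
  have e3 : ∀ a : NN N, (fun n => inc N a * sq X n) = sq (cst a * X) := by
    intro a
    funext n
    show inc N a * inc N (ev n X) = inc N (ev n (cst a * X))
    rw [map_mul, map_mul, ev_cst]
  have e4 : ∀ a : NN N, (fun n => sq X n * inc N a) = sq (X * cst a) := by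
    intro a
    funext n
    show inc N (ev n X) * inc N a = inc N (ev n (X * cst a))
    rw [map_mul, map_mul, ev_cst]
  rw [mem_MA]
  constructor
  · intro h
    refine ⟨fun a ha => ?_, ?_, ?_⟩
    · have := h.comm _ ha
      rw [e3, e4, EqU_iff hτ hT hU] at this
      exact this
    · have := h.star_eq
      rw [e1, EqU_iff hτ hT hU, map_star] at this
      exact this
    · have := h.mul_self
      rw [e2, EqU_iff hτ hT hU, map_mul] at this
      exact this
  · rintro ⟨h1, h2, h3⟩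
    refine ⟨bdd_sq X, ?_, ?_, ?_⟩
    · rw [e1, EqU_iff hτ hT hU, map_star]; exact h2
    · rw [e2, EqU_iff hτ hT hU, map_mul]; exact h3
    · intro a ha
      have h4 := h1 (mkN a (hA ha)) ha
      have h5 := (EqU_iff hτ hT hU _ _).2 h4
      rw [← e3, ← e4] at h5
      exact h5

theorem isDiffuseU_iff (hτ : ∀ x ∈ N, τ x = theta ξ hξ x) (hT : TrAlg (tauN N ξ hξ) ⊤)
    (hU : (U : Filter ℕ) ≤ atTop) {A : VonNeumannAlgebra H} (hA : A ≤ N) :
    IsDiffuseU N τ U A ↔ Splits (MA N ξ hξ U A) 1 := by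
  have e0 : (0 : ℕ → H →L[ℂ] H) = sq (0 : Ell (NN N)) := by
    funext n
    show (0 : H →L[ℂ] H) = inc N (ev n 0)
    rw [map_zero, map_zero]
  have e2 : ∀ X Y : Ell (NN N), (fun n => sq X n * sq Y n) = sq (X * Y) := by
    intro X Y
    funext n
    show inc N (ev n X) * inc N (ev n Y) = inc N (ev n (X * Y))
    rw [map_mul, map_mul]
  constructor
  · intro h p hp hpP _ hp0
    obtain ⟨X, rfl⟩ := mem_UP.1 (rc_le _ hp)
    obtain ⟨q, hq, hqp, hq0, hqne⟩ := h (sq X) ((isProjU_iff hτ hT hU hA X).2 ⟨hp, hpP⟩) (by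
      rw [e0, EqU_iff hτ hT hU, map_zero]; exact hp0)
    obtain ⟨Y, rfl⟩ := exists_sq hq.bdd
    obtain ⟨h1, h2⟩ := (isProjU_iff hτ hT hU hA Y).1 hq
    rw [e2, EqU_iff hτ hT hU, map_mul] at hqp
    rw [e0, EqU_iff hτ hT hU, map_zero] at hq0
    rw [EqU_iff hτ hT hU] at hqne
    exact ⟨_, h1, h2, hqp, hq0, hqne⟩
  · intro h p hp hp0
    obtain ⟨X, rfl⟩ := exists_sq hp.bdd
    obtain ⟨h1, h2⟩ := (isProjU_iff hτ hT hU hA X).1 hp
    rw [e0, EqU_iff hτ hT hU, map_zero] at hp0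
    obtain ⟨q, hq, hqP, hqp, hq0, hqne⟩ := h _ h1 h2 (mul_one _) hp0
    obtain ⟨Y, rfl⟩ := mem_UP.1 (rc_le _ hq)
    refine ⟨sq Y, (isProjU_iff hτ hT hU hA Y).2 ⟨hq, hqP⟩, ?_, ?_, ?_⟩
    · rw [e2, EqU_iff hτ hT hU, map_mul]; exact hqp
    · rw [e0, EqU_iff hτ hT hU, map_zero]; exact hq0
    · rw [EqU_iff hτ hT hU]; exact hqne

/-- algebras containing finer and finer partitions of the unit have no minimal projections -/
theorem splits_of_Tree {𝔸 : Type*} [CStarAlgebra 𝔸] [PartialOrder 𝔸] [StarOrderedRing 𝔸]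
    {f : 𝔸 →ₚ[ℂ] ℂ} {M : StarSubalgebra ℂ 𝔸} (hM : TrAlg f M) {w : 𝔸} {e : ℕ → ℕ → 𝔸}
    (he : ∀ k i, e k i ∈ M) (hT : Tree f w e) : Splits M w := by
  apply hM.splits_of_partitions
  intro ε hε
  obtain ⟨k, hk⟩ := hT.mesh ε hε
  exact ⟨2 ^ k, e k, fun i hi => ⟨he k i, hT.pj k i hi, hk i hi⟩, hT.total k⟩

theorem main (hN : IsIIOneFactor N τ) (hUn : ∀ n, U ≠ pure n) : IsSolid N ↔ IsUSolid N τ U := by
  have hU : (U : Filter ℕ) ≤ atTop := by
    rw [← Nat.cofinite_eq_atTop]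
    rcases Ultrafilter.le_cofinite_or_eq_pure U with h | ⟨n, hn⟩
    · exact h
    · exact absurd hn (hUn n)
  obtain ⟨ξ, hξ, hsum⟩ := hN.trace.normal
  have hτ : ∀ x ∈ N, τ x = theta ξ hξ x := fun x hx => (hsum x hx).tsum_eq.symm
  have h1 : theta ξ hξ 1 = 1 := by rw [← hτ 1 (one_mem _), hN.trace.one]
  have hf := hN.factor
  have hc : ∀ x ∈ N, ∀ y ∈ N, theta ξ hξ (x * y) = theta ξ hξ (y * x) := fun x hx y hy => by
    rw [← hτ _ (mul_mem hx hy), ← hτ _ (mul_mem hy hx)]
    exact hN.trace.tracial x hx y hy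
  have hNA : TrAlg (theta ξ hξ) N.toStarSubalgebra := trAlg_vn h1 hf hc le_rfl
  have hT : TrAlg (tauN N ξ hξ) ⊤ := trAlg_NN hNA
  have hfac := minC_NN hNA hf
  constructor
  · intro hsol A hA hdiff
    have hO := oracle h1 hf hc hN.diffuse hsol
    rw [isDiffuseU_iff hτ hT hU hA] at hdiff
    have hMA := trAlg_MA hT hU A
    obtain ⟨e, heM, heT⟩ := hMA.exists_Tree (w := 1) (one_mem _) Pj.one hdiff
    have hgood : ∀ F : Finset (NN N), (F : Set (NN N)) ⊆ {a | inc N a ∈ A} →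
        (∀ a ∈ F, star a ∈ F) → Gd (inc N) (tauN N ξ hξ) F 1 := by
      intro F hFA hF
      apply good_one hT hU hfac hF hO
      apply splits_of_Tree (trAlg_QQ hT hU) (e := e) _ heT
      intro k i
      have h2 := mem_rc.1 (heM k i)
      refine mem_rc.2 ⟨h2.1, ?_⟩
      rintro _ ⟨a, ha, rfl⟩
      exact h2.2 _ ⟨a, hFA ha, rfl⟩
    obtain ⟨φ, hφ1, hφ2⟩ := exists_central hT {a | inc N a ∈ A} (fun a ha => by
      show inc N (star a) ∈ A
      rw [map_star]; exact star_mem ha) hgood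
    have hAA : TrAlg (theta ξ hξ) A.toStarSubalgebra := trAlg_vn h1 hf hc hA
    obtain ⟨E, hE⟩ := hAA.exists_exp φ (fun x hx => by
      have h2 := hφ1 (mkN x (hA hx))
      rw [inc_mkN] at h2
      rw [h2, tauN_apply, inc_mkN]) (fun a ha T => by
      have h2 := hφ2 (mkN a (hA ha)) ha T
      rwa [inc_mkN] at h2)
    exact isAmenable_of hE
  · intro husol A hA hdiff
    apply husol A hA
    rw [isDiffuseU_iff hτ hT hU hA]
    set R := rcN N (A : Set (H →L[ℂ] H)) with hR
    have hRA : TrAlg (theta ξ hξ) R.toStarSubalgebra := trAlg_vn h1 hf hc rcN_le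
    have hRs : Splits R.toStarSubalgebra 1 := by
      intro p hp hpP _ hp0
      obtain ⟨hpN, hpA⟩ := mem_rcN.1 hp
      obtain ⟨q, ⟨hqN, hqA⟩, hqP, hqp, hq0, hqne⟩ :=
        hdiff p ⟨hpN, fun a ha => (hpA a ha).1⟩ (pj_iff.1 hpP) hp0
      refine ⟨q, mem_rcN.2 ⟨hqN, fun a ha => ⟨hqA a ha, hqA _ (star_mem (ha : a ∈ A))⟩⟩,
        pj_iff.2 hqP, hqp, hq0, hqne⟩
    obtain ⟨e, heR, heT⟩ := hRA.exists_Tree (w := 1) (one_mem _) Pj.one hRs
    have heN : ∀ k i, e k i ∈ N := fun k i => (mem_rcN.1 (heR k i)).1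
    set e' : ℕ → ℕ → KK (tauN N ξ hξ) U →L[ℂ] KK (tauN N ξ hξ) U :=
      fun k i => io (tauN N ξ hξ) U (mkN (e k i) (heN k i)) with he'
    apply splits_of_Tree (trAlg_MA hT hU A) (e := e')
    · intro k i
      apply (mem_MA (X := cst (mkN (e k i) (heN k i)))).2
      intro a ha
      congr 1
      apply ev_ext
      intro n
      rw [map_mul, map_mul]
      show a * mkN (e k i) (heN k i) = mkN (e k i) (heN k i) * a
      apply inc_inj
      rw [map_mul, map_mul, inc_mkN]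
      exact ((mem_rcN.1 (heR k i)).2 _ ha).1
    · have hpj : ∀ k i, i < 2 ^ k → Pj (mkN (e k i) (heN k i)) := fun k i hi =>
        Pj.of_inc (by rw [inc_mkN]; exact heT.pj k i hi)
      refine ⟨Pj.one, fun k i hi => (hpj k i hi).map _, ?_, ?_, ?_⟩
      · have : mkN (e 0 0) (heN 0 0) = 1 := inc_inj (by rw [inc_mkN, heT.root, map_one])
        show io (tauN N ξ hξ) U (mkN (e 0 0) (heN 0 0)) = 1
        rw [this, map_one]
      · intro k i hi
        show io (tauN N ξ hξ) U (mkN (e (k + 1) (2 * i)) (heN _ _)) +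
          io (tauN N ξ hξ) U (mkN (e (k + 1) (2 * i + 1)) (heN _ _)) =
          io (tauN N ξ hξ) U (mkN (e k i) (heN _ _))
        rw [← map_add]
        congr 1
        apply inc_inj
        rw [map_add, inc_mkN, inc_mkN, inc_mkN, heT.sum k i hi]
      · intro ε hε
        obtain ⟨k, hk⟩ := heT.mesh ε hε
        refine ⟨k, fun i hi => ?_⟩
        show (om (tauN N ξ hξ) U (io (tauN N ξ hξ) U (mkN (e k i) (heN k i)))).re ≤ ε
        rw [om_io, tauN_apply, inc_mkN]
        exact hk i hi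

end Pool.Agent.Lib.MP_f5929e_an
end
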